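import Pool.Agent.Simpl.Defs

set_option autoImplicit false

/-! Package Q2: a finite group of linear automorphisms preserves an inner product.

PROOF. Fix a linear isomorphism `e₀ : V ≃ E`, `E = EuclideanSpace ℝ (Fin 3)`. The form
`B(x, y) = ∑_{g ∈ G} ⟪e₀ (g x), e₀ (g y)⟫` is bilinear, symmetric, positive definite and
invariant under `G`. Take a basis `v₁, v₂, v₃` of `V` orthonormal for `B` and let `e` map `v_i`
to the standard basis. Then `‖e x‖² = B(x, x)`, so `‖e (g x)‖ = ‖e x‖`. -/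

namespace Pool.Agent.Simpl

open Module

/-- The averaged form. -/
private noncomputable def avg {V : Type} [AddCommGroup V] [Module ℝ V]
    (e₀ : V ≃ₗ[ℝ] EuclideanSpace ℝ (Fin 3)) (G : Subgroup (V ≃ₗ[ℝ] V)) [Fintype G] (x y : V) : ℝ :=
  ∑ g : G, inner ℝ (e₀ ((g : V ≃ₗ[ℝ] V) x)) (e₀ ((g : V ≃ₗ[ℝ] V) y))

private lemma avg_self_zero {V : Type} [AddCommGroup V] [Module ℝ V]
    (e₀ : V ≃ₗ[ℝ] EuclideanSpace ℝ (Fin 3)) (G : Subgroup (V ≃ₗ[ℝ] V)) [Fintype G] (x : V)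
    (h : avg e₀ G x x = 0) : x = 0 := by
  have h1 : ∀ g : G, 0 ≤ inner ℝ (e₀ ((g : V ≃ₗ[ℝ] V) x)) (e₀ ((g : V ≃ₗ[ℝ] V) x)) :=
    fun g => real_inner_self_nonneg
  have h2 := (Finset.sum_eq_zero_iff_of_nonneg (fun g _ => h1 g)).1 h 1 (Finset.mem_univ _)
  have h3 : e₀ (((1 : G) : V ≃ₗ[ℝ] V) x) = 0 := inner_self_eq_zero.1 h2
  have h4 : e₀ x = 0 := h3
  exact (LinearEquiv.map_eq_zero_iff e₀).1 h4

private lemma avg_inv {V : Type} [AddCommGroup V] [Module ℝ V]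
    (e₀ : V ≃ₗ[ℝ] EuclideanSpace ℝ (Fin 3)) (G : Subgroup (V ≃ₗ[ℝ] V)) [Fintype G] (x y : V)
    (g : V ≃ₗ[ℝ] V) (hg : g ∈ G) : avg e₀ G (g x) (g y) = avg e₀ G x y := by
  unfold avg
  refine Fintype.sum_equiv (Equiv.mulRight (⟨g, hg⟩ : G)) _ _ fun k => ?_
  rfl

/-- The form as a core of an inner product space. -/
private noncomputable abbrev core {V : Type} [AddCommGroup V] [Module ℝ V]
    (e₀ : V ≃ₗ[ℝ] EuclideanSpace ℝ (Fin 3)) (G : Subgroup (V ≃ₗ[ℝ] V)) [Fintype G] :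
    InnerProductSpace.Core ℝ V where
  inner := avg e₀ G
  conj_inner_symm x y := by
    simp only [avg, conj_trivial]
    exact Finset.sum_congr rfl fun g _ => real_inner_comm _ _
  re_inner_nonneg x := by
    simp only [avg]
    exact Finset.sum_nonneg fun g _ => real_inner_self_nonneg
  add_left x y z := by
    simp only [avg, map_add, inner_add_left, Finset.sum_add_distrib]
  smul_left x y r := by
    simp only [avg, map_smul, inner_smul_left, Finset.mul_sum]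
  definite x h := avg_self_zero e₀ G x h

theorem exists_isometry {V : Type} [AddCommGroup V] [Module ℝ V] (hV : finrank ℝ V = 3)
    (G : Subgroup (V ≃ₗ[ℝ] V)) [Finite G] :
    ∃ e : V ≃ₗ[ℝ] EuclideanSpace ℝ (Fin 3), ∀ g ∈ G, ∀ x, ‖e (g x)‖ = ‖e x‖ := by
  classical
  have : Fintype G := Fintype.ofFinite G
  have : Module.Finite ℝ V := Module.finite_of_finrank_pos (by rw [hV]; norm_num)
  have hE : finrank ℝ V = finrank ℝ (EuclideanSpace ℝ (Fin 3)) := by
    rw [hV]; simp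
  let e₀ : V ≃ₗ[ℝ] EuclideanSpace ℝ (Fin 3) := LinearEquiv.ofFinrankEq _ _ hE
  let c := core e₀ G
  let : NormedAddCommGroup V := c.toNormedAddCommGroup
  let : InnerProductSpace ℝ V := InnerProductSpace.ofCore c.toCore
  let b := (stdOrthonormalBasis ℝ V).reindex (finCongr hV)
  refine ⟨b.repr.toLinearEquiv, fun g hg x => ?_⟩
  have h1 : ∀ y : V, ‖b.repr.toLinearEquiv y‖ = ‖y‖ := fun y => b.repr.norm_map y
  rw [h1, h1]
  have h2 : ∀ y : V, ‖y‖ ^ 2 = avg e₀ G y y := fun y => by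
    rw [← real_inner_self_eq_norm_sq]
    rfl
  have h3 : ‖g x‖ ^ 2 = ‖x‖ ^ 2 := by
    rw [h2, h2, avg_inv e₀ G x x g hg]
  exact (sq_eq_sq₀ (norm_nonneg _) (norm_nonneg _)).1 h3

end Pool.Agent.Simpl
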