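import Pool.Agent.Simpl.Poles

set_option autoImplicit false

/-! Package Q4: a finite rotation group of order greater than 60 has a large cyclic stabiliser
(use `exists_axis`).

PROOF. `E = EuclideanSpace ℝ (Fin 3)`, `n = |G| > 60`. Poles: `P = {x | ‖x‖ = 1, ∃ g ∈ G, g ≠ 1,
g x = x}`, finite (two for each `g ≠ 1`), `G` acts on `P` (`h x` is fixed by `h g h⁻¹`). Burnside
(`MulAction.sum_card_fixedBy_eq_card_orbits_mul_card_group`): `k n = ∑_g |fixed points of g in P| =
|P| + 2 (n - 1)`, `k` the number of orbits, and `|P| = ∑_orbits n / r_i` where `r_i ≥ 2` is the order of a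
stabiliser in the orbit `i` (orbit-stabiliser). So `∑_i (1 - 1 / r_i) = 2 - 2 / n` (`arith`): with
`s_i = n / r_i` the size of the orbit: `∑ s_i + 2 (n - 1) = k n`, `2 s_i ≤ n`.
`arith`: for `n > 60` some `s_i ≤ 2`, i.e. `2 r_i ≥ n`. `k ≥ 4` is impossible (`∑ s_i ≤ k n / 2`, so
`k n / 2 ≤ 2 (n - 1) < 2 n`), `k = 0, 1` too (`k n ≥ 2 (n - 1)`, `s_1 ≥ 1`). `k = 2`: `s₁ + s₂ = 2`. `k = 3`:
`s₁ + s₂ + s₃ = n + 2`, `s_i = n / r_i`; let `r₁ ≤ r₂ ≤ r₃`: `r₁ = 2` (else `∑ ≤ n`), `1/r₂ + 1/r₃ =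
1/2 + 2/n`, so `r₂ < 4`; `r₂ = 2`: `r₃ = n / 2`; `r₂ = 3`: `1/r₃ = 1/6 + 2/n`, `r₃ ≤ 5` and
`n = 12, 24, 60`. -/

namespace Pool.Agent.Simpl

open Module

private theorem Burnside_arithA {b c x y z n : ℕ} (hn : 60 < n) (h0 : 2 * x = n) (h1 : b * y = n)
    (h2 : c * z = n) (hb : 2 ≤ b) (hb3 : b ≤ 3) (hc : 2 ≤ c) (hz : 3 ≤ z)
    (h : x + y + z = n + 2) : False := by
  interval_cases b
  · omega
  · have h6 : 6 * z = n + 12 := by omega
    by_cases hc6 : 6 ≤ c
    · have := Nat.mul_le_mul_right z hc6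
      omega
    · push Not at hc6
      interval_cases c <;> omega

private theorem Burnside_arithB {b c x y z n : ℕ} (hn : 60 < n) (h0 : 2 * x = n) (h1 : b * y = n)
    (h2 : c * z = n) (hb : 2 ≤ b) (hc : 2 ≤ c) (hy : 3 ≤ y) (hz : 3 ≤ z)
    (h : x + y + z = n + 2) : False := by
  by_cases hb3 : b ≤ 3
  · exact Burnside_arithA hn h0 h1 h2 hb hb3 hc hz h
  · by_cases hc3 : c ≤ 3
    · exact Burnside_arithA hn h0 h2 h1 hc hc3 hb hy (by omega)
    · have h3 : 4 * y ≤ b * y := Nat.mul_le_mul_right y (by omega)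
      have h4 : 4 * z ≤ c * z := Nat.mul_le_mul_right z (by omega)
      omega

private theorem Burnside_arithC {a b c x y z n : ℕ} (hn : 60 < n) (h0 : a * x = n)
    (h1 : b * y = n) (h2 : c * z = n) (ha : 2 ≤ a) (hb : 2 ≤ b) (hc : 2 ≤ c) (hx : 3 ≤ x)
    (hy : 3 ≤ y) (hz : 3 ≤ z) (h : x + y + z = n + 2) : False := by
  rcases Nat.eq_or_lt_of_le ha with ha2 | ha2
  · subst ha2
    exact Burnside_arithB hn h0 h1 h2 hb hc hy hz h
  rcases Nat.eq_or_lt_of_le hb with hb2 | hb2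
  · subst hb2
    exact Burnside_arithB hn h1 h0 h2 ha hc hx hz (by omega)
  rcases Nat.eq_or_lt_of_le hc with hc2 | hc2
  · subst hc2
    exact Burnside_arithB hn h2 h0 h1 ha hb hx hy (by omega)
  have e0 : 3 * x ≤ a * x := Nat.mul_le_mul_right x ha2
  have e1 : 3 * y ≤ b * y := Nat.mul_le_mul_right y hb2
  have e2 : 3 * z ≤ c * z := Nat.mul_le_mul_right z hc2
  omega

theorem arith {k : ℕ} (r s : Fin k → ℕ) (n : ℕ) (hn : 60 < n) (hr : ∀ i, 2 ≤ r i)
    (hrs : ∀ i, r i * s i = n) (h : ∑ i, s i + 2 * (n - 1) = k * n) : ∃ i, n ≤ 2 * r i := by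
  by_contra hcon
  push Not at hcon
  have hs : ∀ i, 3 ≤ s i := by
    intro i
    by_contra hlt
    push Not at hlt
    have h1 : r i * s i ≤ r i * 2 := Nat.mul_le_mul_left _ (by omega)
    have := hcon i
    have := hrs i
    omega
  have hs2 : ∀ i, 2 * s i ≤ n := by
    intro i
    have h1 : 2 * s i ≤ r i * s i := Nat.mul_le_mul_right _ (hr i)
    have := hrs i
    omega
  have hk : k ≤ 3 := by
    by_contra hlt
    push Not at hlt
    have h1 : 2 * ∑ i, s i ≤ k * n := by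
      rw [Finset.mul_sum]
      calc ∑ i, 2 * s i ≤ ∑ _i : Fin k, n := Finset.sum_le_sum fun i _ => hs2 i
        _ = k * n := by simp
    have h2 : 4 * n ≤ k * n := Nat.mul_le_mul_right n hlt
    omega
  interval_cases k
  · simp at h
    omega
  · simp at h
    omega
  · rw [Fin.sum_univ_two] at h
    have := hs 0
    have := hs 1
    omega
  · rw [Fin.sum_univ_three] at h
    exact Burnside_arithC hn (hrs 0) (hrs 1) (hrs 2) (hr 0) (hr 1) (hr 2) (hs 0) (hs 1) (hs 2)
      (by omega)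

/-- The poles of a group. -/
private def Burnside_P (G : Subgroup (EuclideanSpace ℝ (Fin 3) ≃ₗ[ℝ] EuclideanSpace ℝ (Fin 3)))
    (hg : ∀ g ∈ G, ∀ x, ‖g x‖ = ‖x‖) : SubMulAction G (EuclideanSpace ℝ (Fin 3)) where
  carrier := {x | ‖x‖ = 1 ∧ ∃ g : G, g ≠ 1 ∧ g.1 x = x}
  smul_mem' := by
    rintro c x ⟨hx, g, hg1, hgx⟩
    refine ⟨?_, c * g * c⁻¹, ?_, ?_⟩
    · exact (hg c.1 c.2 x).trans hx
    · intro h
      apply hg1
      have h2 : c * g = c := by
        have := mul_inv_eq_one.1 h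
        exact this
      have h3 : c * g = c * 1 := by rw [h2, mul_one]
      exact mul_left_cancel h3
    · show c.1 (g.1 ((c⁻¹ : G).1 (c.1 x))) = c.1 x
      have h4 : (c⁻¹ : G).1 (c.1 x) = x := by
        show ((c⁻¹ : G).1 * c.1) x = x
        rw [← Subgroup.coe_mul, inv_mul_cancel]
        rfl
      rw [h4, hgx]

theorem exists_large_stabilizer
    (G : Subgroup (EuclideanSpace ℝ (Fin 3) ≃ₗ[ℝ] EuclideanSpace ℝ (Fin 3))) [Finite G]
    (hg : ∀ g ∈ G, ∀ x, ‖g x‖ = ‖x‖)
    (hdet : ∀ g ∈ G, LinearMap.det (g : EuclideanSpace ℝ (Fin 3) →ₗ[ℝ]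
      EuclideanSpace ℝ (Fin 3)) = 1) (hcard : 60 < Nat.card G) :
    ∃ x, ‖x‖ = 1 ∧ Nat.card G ≤ 2 * Nat.card {g : G // g.1 x = x} := by
  classical
  obtain ⟨P, hP⟩ : ∃ P, P = Burnside_P G hg := ⟨_, rfl⟩
  have hPm : ∀ x, x ∈ P ↔ ‖x‖ = 1 ∧ ∃ g : G, g ≠ 1 ∧ g.1 x = x := by
    intro x
    rw [hP]
    rfl
  have hsm : ∀ (g : G) (x : P), (g • x : P).1 = g.1 x.1 := fun g x => rfl
  have hax : ∀ g : G, g ≠ 1 → ∃ x, ‖x‖ = 1 ∧ ∀ y, (‖y‖ = 1 ∧ g.1 y = y) ↔ (y = x ∨ y = -x) := by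
    intro g hg1
    refine exists_axis g.1 (hg g.1 g.2) (hdet g.1 g.2) ?_
    intro h
    apply hg1
    ext1
    exact h
  have hfin : Finite P := by
    have h1 : (P : Set (EuclideanSpace ℝ (Fin 3))) ⊆
        ⋃ g : {g : G // g ≠ 1}, {x | ‖x‖ = 1 ∧ g.1.1 x = x} := by
      intro x hx
      obtain ⟨hx1, g, hg1, hgx⟩ := (hPm x).1 hx
      exact Set.mem_iUnion.2 ⟨⟨g, hg1⟩, hx1, hgx⟩
    have h2 : (⋃ g : {g : G // g ≠ 1},
        {x : EuclideanSpace ℝ (Fin 3) | ‖x‖ = 1 ∧ g.1.1 x = x}).Finite := by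
      refine Set.finite_iUnion fun g => ?_
      obtain ⟨x, _, hx⟩ := hax g.1 g.2
      refine (Set.toFinite ({x, -x} : Set (EuclideanSpace ℝ (Fin 3)))).subset ?_
      intro y hy
      exact (hx y).1 hy
    exact (h2.subset h1).to_subtype
  have : Fintype P := Fintype.ofFinite _
  have : Fintype G := Fintype.ofFinite _
  have : ∀ g : G, Fintype (MulAction.fixedBy P g) := fun g => Fintype.ofFinite _
  have : Fintype (MulAction.orbitRel.Quotient G P) := Fintype.ofFinite _
  have : ∀ x : P, Fintype (MulAction.stabilizer G x) := fun x => Fintype.ofFinite _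
  have : ∀ x : P, Fintype (MulAction.orbit G x) := fun x => Fintype.ofFinite _
  have hfix : ∀ g : G, g ≠ 1 → Fintype.card (MulAction.fixedBy P g) = 2 := by
    intro g hg1
    obtain ⟨x, hx1, hx⟩ := hax g hg1
    have e : MulAction.fixedBy P g ≃ ({x, -x} : Set (EuclideanSpace ℝ (Fin 3))) :=
      { toFun := fun y => ⟨y.1.1, (hx y.1.1).1 ⟨((hPm y.1.1).1 y.1.2).1, by
          have h3 : g • y.1 = y.1 := y.2
          rw [← hsm, h3]⟩⟩
        invFun := fun y => ⟨⟨y.1, (hPm y.1).2 ⟨((hx y.1).2 y.2).1, g, hg1, ((hx y.1).2 y.2).2⟩⟩,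
          Subtype.ext ((hx y.1).2 y.2).2⟩
        left_inv := fun y => rfl
        right_inv := fun y => rfl }
    rw [← Nat.card_eq_fintype_card, Nat.card_congr e, Nat.card_coe_set_eq, Set.ncard_pair]
    intro h
    have h3 : (2 : ℝ) • x = 0 := by
      rw [two_smul]
      nth_rewrite 2 [h]
      exact add_neg_cancel x
    have h4 : x = 0 := (smul_eq_zero.1 h3).resolve_left two_ne_zero
    rw [h4, norm_zero] at hx1
    exact zero_ne_one hx1
  have hfix1 : Fintype.card (MulAction.fixedBy P (1 : G)) = Fintype.card P := by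
    refine Fintype.card_congr ?_
    exact { toFun := fun y => y.1
            invFun := fun y => ⟨y, one_smul G y⟩
            left_inv := fun y => rfl
            right_inv := fun y => rfl }
  have hburn := MulAction.sum_card_fixedBy_eq_card_orbits_mul_card_group G P
  have hsum : ∑ g : G, Fintype.card (MulAction.fixedBy P g) =
      Fintype.card P + 2 * (Fintype.card G - 1) := by
    rw [← Finset.add_sum_erase _ _ (Finset.mem_univ (1 : G)), hfix1,
      Finset.sum_congr rfl (fun g hg' => hfix g (Finset.ne_of_mem_erase hg'))]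
    rw [Finset.sum_const, Finset.card_erase_of_mem (Finset.mem_univ _), Finset.card_univ,
      smul_eq_mul, mul_comm]
  have hPc : Fintype.card P = ∑ ω : MulAction.orbitRel.Quotient G P,
      Fintype.card (MulAction.orbit G (Quotient.out ω)) := by
    rw [Fintype.card_congr (MulAction.selfEquivSigmaOrbits G P), Fintype.card_sigma]
  obtain ⟨e⟩ : Nonempty (MulAction.orbitRel.Quotient G P ≃
    Fin (Fintype.card (MulAction.orbitRel.Quotient G P))) := ⟨Fintype.equivFin _⟩
  have hcard' : 60 < Fintype.card G := by rwa [← Nat.card_eq_fintype_card]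
  obtain ⟨i, hi⟩ := arith
    (fun i => Fintype.card (MulAction.stabilizer G (Quotient.out (e.symm i))))
    (fun i => Fintype.card (MulAction.orbit G (Quotient.out (e.symm i))))
    (Fintype.card G) hcard' (by
      intro i
      have hx := ((hPm _).1 (Quotient.out (e.symm i)).2).2
      obtain ⟨g, hg1, hgx⟩ := hx
      show 1 < Fintype.card (MulAction.stabilizer G (Quotient.out (e.symm i)))
      rw [Fintype.one_lt_card_iff]
      refine ⟨⟨g, Subtype.ext hgx⟩, 1, ?_⟩
      intro h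
      exact hg1 (congrArg Subtype.val h)) (by
      intro i
      rw [mul_comm]
      exact MulAction.card_orbit_mul_card_stabilizer_eq_card_group G _) (by
      rw [e.symm.sum_comp (fun ω => Fintype.card (MulAction.orbit G (Quotient.out ω))), ← hPc,
        ← hsum]
      exact hburn)
  refine ⟨(Quotient.out (e.symm i)).1, ((hPm _).1 (Quotient.out (e.symm i)).2).1, ?_⟩
  rw [Nat.card_eq_fintype_card]
  refine hi.trans_eq ?_
  rw [← Nat.card_eq_fintype_card]
  congr 1
  refine Nat.card_congr (Equiv.subtypeEquivRight fun g => ?_)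
  constructor
  · intro h
    have h5 : g • (Quotient.out (e.symm i)) = Quotient.out (e.symm i) := h
    rw [← hsm, h5]
  · intro h
    exact Subtype.ext h

end Pool.Agent.Simpl
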