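import Pool.Agent.Simpl.Defs

set_option autoImplicit false

/-! Package Q5: a finite group of rotations with a common axis is the group of the rotations by
the `r`-th roots of unity.

PROOF. `E = EuclideanSpace ℝ (Fin 3)`, `x` a unit vector, `W = (ℝ x)^⊥` of dimension 2; choose a linear
isometry `φ : W ≃ₗᵢ ℂ` (`stdOrthonormalBasis`, `Complex.orthonormalBasisOneI`) and
`e (y) = (φ (y - ⟪x, y⟫ x), ⟪x, y⟫)` (orthogonal decomposition). Each `g ∈ G` fixes `x`, preserves the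
inner product, hence `W` and `⟪x, ·⟫`; its restriction to `W` is transported by `φ` to a linear isometry
of `ℂ`, which is `rotation a` or `conjLIE.trans (rotation a)` (`linear_isometry_complex`); the second has
determinant `-1` (`det_rotation`, `LinearMap.det` of conj is `-1`) while
`det g = det (g|W)` is `1`. So `e (g y) = rot a (e y)` with `a = a(g) ∈ Circle`. `g ↦ a(g)` is an
injective group homomorphism (`a(g) = 1` implies `g = 1`). So `a(g)^r = 1`, `r = |G|`, and the `r`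
different values `a(g)` are all the `r`-th roots of unity (there are at most `r` of them,
`Polynomial.card_nthRoots` or `card_rootsOfUnity`). -/

namespace Pool.Agent.Simpl

open Module

open scoped InnerProductSpace

private noncomputable def StabRot_e (b : OrthonormalBasis (Fin 3) ℝ (EuclideanSpace ℝ (Fin 3))) :
    EuclideanSpace ℝ (Fin 3) ≃ₗ[ℝ] (ℂ × ℝ) where
  toFun y := (⟨⟪b 1, y⟫_ℝ, ⟪b 2, y⟫_ℝ⟩, ⟪b 0, y⟫_ℝ)
  invFun z := z.2 • b 0 + z.1.re • b 1 + z.1.im • b 2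
  map_add' y z := by
    simp only [inner_add_right]
    rfl
  map_smul' r y := by
    simp only [inner_smul_right, RingHom.id_apply, Prod.smul_mk]
    refine Prod.ext (Complex.ext ?_ ?_) ?_ <;> simp
  left_inv y := by
    have h := b.sum_repr' y
    rw [Fin.sum_univ_three] at h
    exact h
  right_inv z := by
    have h : ∀ i j : Fin 3, ⟪b i, b j⟫_ℝ = if i = j then 1 else 0 := fun i j =>
      orthonormal_iff_ite.1 b.orthonormal i j
    refine Prod.ext (Complex.ext ?_ ?_) ?_ <;>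
      simp [inner_add_right, inner_smul_right, h]

private theorem StabRot_one (b : OrthonormalBasis (Fin 3) ℝ (EuclideanSpace ℝ (Fin 3)))
    (g : EuclideanSpace ℝ (Fin 3) ≃ₗ[ℝ] EuclideanSpace ℝ (Fin 3)) (hg : ∀ y, ‖g y‖ = ‖y‖)
    (hdet : LinearMap.det (g : EuclideanSpace ℝ (Fin 3) →ₗ[ℝ] EuclideanSpace ℝ (Fin 3)) = 1)
    (hfix : g (b 0) = b 0) :
    ∃ w : Circle, ∀ y, StabRot_e b (g y) = rot w (StabRot_e b y) := by
  have h : ∀ i j : Fin 3, ⟪b i, b j⟫_ℝ = if i = j then 1 else 0 := fun i j =>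
    orthonormal_iff_ite.1 b.orthonormal i j
  let gi : EuclideanSpace ℝ (Fin 3) →ₗᵢ[ℝ] EuclideanSpace ℝ (Fin 3) :=
    ⟨(g : EuclideanSpace ℝ (Fin 3) →ₗ[ℝ] EuclideanSpace ℝ (Fin 3)), hg⟩
  have hin : ∀ y z, ⟪g y, g z⟫_ℝ = ⟪y, z⟫_ℝ := fun y z => gi.inner_map_map y z
  have c00 : ⟪b 0, g (b 0)⟫_ℝ = 1 := by rw [hfix, h]; simp
  have c10 : ⟪b 1, g (b 0)⟫_ℝ = 0 := by rw [hfix, h]; simp
  have c20 : ⟪b 2, g (b 0)⟫_ℝ = 0 := by rw [hfix, h]; simp
  have c0 : ∀ y, ⟪b 0, g y⟫_ℝ = ⟪b 0, y⟫_ℝ := fun y => by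
    conv_lhs => rw [← hfix]
    exact hin _ _
  have c01 : ⟪b 0, g (b 1)⟫_ℝ = 0 := by rw [c0, h]; simp
  have c02 : ⟪b 0, g (b 2)⟫_ℝ = 0 := by rw [c0, h]; simp
  have n1 : ⟪b 1, g (b 1)⟫_ℝ ^ 2 + ⟪b 2, g (b 1)⟫_ℝ ^ 2 = 1 := by
    have h1 := b.sum_inner_mul_inner (g (b 1)) (g (b 1))
    rw [Fin.sum_univ_three, hin, h, real_inner_comm (b 0) (g (b 1)), c01,
      real_inner_comm (b 1) (g (b 1)), real_inner_comm (b 2) (g (b 1))] at h1
    simp only [if_true] at h1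
    nlinarith [h1]
  have n2 : ⟪b 1, g (b 2)⟫_ℝ ^ 2 + ⟪b 2, g (b 2)⟫_ℝ ^ 2 = 1 := by
    have h1 := b.sum_inner_mul_inner (g (b 2)) (g (b 2))
    rw [Fin.sum_univ_three, hin, h, real_inner_comm (b 0) (g (b 2)), c02,
      real_inner_comm (b 1) (g (b 2)), real_inner_comm (b 2) (g (b 2))] at h1
    simp only [if_true] at h1
    nlinarith [h1]
  have hd : ⟪b 1, g (b 1)⟫_ℝ * ⟪b 2, g (b 2)⟫_ℝ - ⟪b 1, g (b 2)⟫_ℝ * ⟪b 2, g (b 1)⟫_ℝ = 1 := by
    rw [← LinearMap.det_toMatrix b.toBasis, Matrix.det_fin_three] at hdet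
    simp only [LinearMap.toMatrix_apply, OrthonormalBasis.coe_toBasis,
      OrthonormalBasis.coe_toBasis_repr_apply, OrthonormalBasis.repr_apply_apply,
      LinearEquiv.coe_coe, c00, c10, c20, c01, c02] at hdet
    linarith
  have e1 : ⟪b 2, g (b 2)⟫_ℝ = ⟪b 1, g (b 1)⟫_ℝ := by
    nlinarith [sq_nonneg (⟪b 2, g (b 2)⟫_ℝ - ⟪b 1, g (b 1)⟫_ℝ),
      sq_nonneg (⟪b 1, g (b 2)⟫_ℝ + ⟪b 2, g (b 1)⟫_ℝ)]
  have e2 : ⟪b 1, g (b 2)⟫_ℝ = -⟪b 2, g (b 1)⟫_ℝ := by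
    nlinarith [sq_nonneg (⟪b 2, g (b 2)⟫_ℝ - ⟪b 1, g (b 1)⟫_ℝ),
      sq_nonneg (⟪b 1, g (b 2)⟫_ℝ + ⟪b 2, g (b 1)⟫_ℝ)]
  have hw : (⟨⟪b 1, g (b 1)⟫_ℝ, ⟪b 2, g (b 1)⟫_ℝ⟩ : ℂ) ∈ Submonoid.unitSphere ℂ := by
    have h1 : ‖(⟨⟪b 1, g (b 1)⟫_ℝ, ⟪b 2, g (b 1)⟫_ℝ⟩ : ℂ)‖ ^ 2 = 1 := by
      rw [Complex.sq_norm, Complex.normSq_mk]
      linarith [n1]
    exact mem_sphere_zero_iff_norm.2 ((pow_eq_one_iff_of_nonneg (norm_nonneg _) two_ne_zero).1 h1)
  refine ⟨⟨_, hw⟩, fun y => ?_⟩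
  have hy : ∀ i, ⟪b i, g y⟫_ℝ = ⟪b 0, y⟫_ℝ * ⟪b i, g (b 0)⟫_ℝ + ⟪b 1, y⟫_ℝ * ⟪b i, g (b 1)⟫_ℝ +
      ⟪b 2, y⟫_ℝ * ⟪b i, g (b 2)⟫_ℝ := by
    intro i
    have h1 := b.sum_repr' y
    rw [Fin.sum_univ_three] at h1
    conv_lhs => rw [← h1]
    rw [map_add, map_add, map_smul, map_smul, map_smul, inner_add_right, inner_add_right,
      inner_smul_right, inner_smul_right, inner_smul_right]
  refine Prod.ext ?_ (c0 y)
  change (⟨⟪b 1, g y⟫_ℝ, ⟪b 2, g y⟫_ℝ⟩ : ℂ) = (⟨⟪b 1, g (b 1)⟫_ℝ, ⟪b 2, g (b 1)⟫_ℝ⟩ : ℂ) *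
    ⟨⟪b 1, y⟫_ℝ, ⟪b 2, y⟫_ℝ⟩
  refine Complex.ext ?_ ?_
  · rw [Complex.mul_re]
    change ⟪b 1, g y⟫_ℝ = ⟪b 1, g (b 1)⟫_ℝ * ⟪b 1, y⟫_ℝ - ⟪b 2, g (b 1)⟫_ℝ * ⟪b 2, y⟫_ℝ
    rw [hy 1, c10, e2]
    ring
  · rw [Complex.mul_im]
    change ⟪b 2, g y⟫_ℝ = ⟪b 1, g (b 1)⟫_ℝ * ⟪b 2, y⟫_ℝ + ⟪b 2, g (b 1)⟫_ℝ * ⟪b 1, y⟫_ℝ
    rw [hy 2, c20, e1]
    ring

theorem exists_rot (G : Subgroup (EuclideanSpace ℝ (Fin 3) ≃ₗ[ℝ] EuclideanSpace ℝ (Fin 3)))
    [Finite G] (hg : ∀ g ∈ G, ∀ y, ‖g y‖ = ‖y‖)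
    (hdet : ∀ g ∈ G, LinearMap.det (g : EuclideanSpace ℝ (Fin 3) →ₗ[ℝ]
      EuclideanSpace ℝ (Fin 3)) = 1) (x : EuclideanSpace ℝ (Fin 3)) (hx : ‖x‖ = 1)
    (hfix : ∀ g ∈ G, g x = x) :
    ∃ e : EuclideanSpace ℝ (Fin 3) ≃ₗ[ℝ] (ℂ × ℝ), ∀ w : Circle, w ^ Nat.card G = 1 →
      ∃ g ∈ G, ∀ y, e (g y) = rot w (e y) := by
  classical
  have hxo : Orthonormal ℝ (({0} : Set (Fin 3)).domRestrict (fun _ : Fin 3 => x)) := by
    constructor
    · intro i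
      exact hx
    · intro i j hij
      exact absurd (Subsingleton.elim i j) hij
  obtain ⟨b, hb⟩ := hxo.exists_orthonormalBasis_extension_of_card_eq (by simp)
  have hb0 : b 0 = x := hb 0 rfl
  have h1 : ∀ g : G, ∃ w : Circle, ∀ y, StabRot_e b (g.1 y) = rot w (StabRot_e b y) := fun g =>
    StabRot_one b g.1 (hg g.1 g.2) (hdet g.1 g.2) (by rw [hb0]; exact hfix g.1 g.2)
  choose a ha using h1
  refine ⟨StabRot_e b, fun w hw => ?_⟩
  have hr1 : ∀ (w : Circle) (z : ℂ), (rot w (z, (0 : ℝ))).1 = w * z := fun w z => rfl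
  have hinj : ∀ g g' : G, a g = a g' → g = g' := by
    intro g g' h
    refine Subtype.ext (LinearEquiv.ext fun y => (StabRot_e b).injective ?_)
    rw [ha g, ha g', h]
  have hmul : ∀ g g' : G, a (g * g') = a g * a g' := by
    intro g g'
    have e1 := ha (g * g') ((StabRot_e b).symm (1, 0))
    have e2 : StabRot_e b ((g * g').1 ((StabRot_e b).symm (1, 0))) =
        rot (a g) (rot (a g') (StabRot_e b ((StabRot_e b).symm (1, 0)))) := by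
      rw [← ha g', ← ha g]
      rfl
    rw [e2] at e1
    have e3 := congrArg Prod.fst e1
    rw [LinearEquiv.apply_symm_apply, hr1] at e3
    refine Circle.ext ?_
    have e4 : (rot (a g) (rot (a g') ((1 : ℂ), (0 : ℝ)))).1 = a g * (a g' * 1) := rfl
    rw [e4] at e3
    rw [Circle.coe_mul]
    linear_combination -e3
  let φ : G →* Circle :=
    { toFun := a
      map_one' := by
        have := hmul 1 1
        rw [mul_one] at this
        exact mul_left_cancel (a := a 1) (by rw [mul_one]; exact this.symm)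
      map_mul' := hmul }
  let _ : Fintype G := Fintype.ofFinite G
  have hcard : Nat.card G = Fintype.card G := Nat.card_eq_fintype_card
  have hpos : 0 < Fintype.card G := Fintype.card_pos
  set T : Finset ℂ := (Polynomial.nthRoots (Fintype.card G) (1 : ℂ)).toFinset with hT
  set I : Finset ℂ := Finset.univ.image fun g : G => ((a g : Circle) : ℂ) with hI
  have hsub : I ⊆ T := by
    intro z hz
    obtain ⟨g, -, rfl⟩ := Finset.mem_image.1 hz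
    rw [hT, Multiset.mem_toFinset, Polynomial.mem_nthRoots hpos]
    have h2 : φ g ^ Fintype.card G = 1 := by rw [← map_pow, pow_card_eq_one, map_one]
    have h3 : a g ^ Fintype.card G = 1 := h2
    rw [← Circle.coe_pow, h3, Circle.coe_one]
  have hIc : I.card = Fintype.card G := by
    rw [hI, Finset.card_image_of_injective, Finset.card_univ]
    intro g g' h
    exact hinj g g' (Circle.ext h)
  have hTc : T.card ≤ Fintype.card G :=
    (Multiset.toFinset_card_le _).trans (Polynomial.card_nthRoots _ _)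
  have hIT : I = T := Finset.eq_of_subset_of_card_le hsub (by rw [hIc]; exact hTc)
  have hwT : (w : ℂ) ∈ T := by
    rw [hT, Multiset.mem_toFinset, Polynomial.mem_nthRoots hpos, ← Circle.coe_pow, ← hcard, hw,
      Circle.coe_one]
  rw [← hIT] at hwT
  obtain ⟨g, -, hgw⟩ := Finset.mem_image.1 hwT
  have : a g = w := Circle.ext hgw
  refine ⟨g.1, g.2, fun y => ?_⟩
  rw [ha g, this]

end Pool.Agent.Simpl
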