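import Pool.Agent.Simpl.General
import Pool.Agent.Simpl.Average
import Pool.Agent.Simpl.Burnside
import Pool.Agent.Simpl.StabRot

set_option autoImplicit false

/-! Package Q6: an arrangement with many symmetries is invariant under a large group of rotations
(use the other Q files as black boxes).

PROOF. Let `GG` be the subgroup of the `g : V ≃ₗ[ℝ] V` with `LinearMap.det g = 1` and
`A.image (map g) = A`. It is finite: the homomorphism `GG → Equiv.Perm A`, `g ↦ (H ↦ map g H)` is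
injective, since an element of its kernel maps the four planes of `exists_general` to
themselves, so it is a scalar `c` (`scalar_of_four`) with `c^3 = 1`, `c = 1`. For `g ∈ S` let
`c = (det g)^(-1/3)` (real cube root, also for negative determinants), then `c g ∈ GG` (scalars
preserve every subspace); the map `S → GG` is injective by `hS'`
(if `c g = c' g'` then `g'` is a multiple of `g`). So `|S| ≤ |GG|`. `exists_isometry` gives
`e₁ : V ≃ E`; conjugating `GG` by `e₁` gives a finite subgroup `G'` of the automorphisms of `E`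
preserving the norm with determinant 1 (`LinearMap.det_conj`), of the same order `> 60`.
`exists_large_stabilizer`: unit vector `x`; its stabiliser `G'_x` has order `r`, `2 r ≥ |GG| ≥ |S|`.
`exists_rot` for `G'_x` gives `e₂ : E ≃ ℂ × ℝ`; `e = e₂ ∘ e₁`: for `w^r = 1` there is `g ∈ GG` with
`e (g y) = rot w (e y)`, so `map (rot w) (map e H) = map e (map g H)` and `A.image (map e)` is invariant
under `map (rot w)`. -/

namespace Pool.Agent.Simpl

open Module Classical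

variable {V : Type} [AddCommGroup V] [Module ℝ V]

private theorem Reduce_cbrt (d : ℝ) : ∃ c : ℝ, c ^ 3 = d := by
  rcases le_total 0 d with h | h
  · refine ⟨d ^ ((1 : ℝ) / 3), ?_⟩
    rw [← Real.rpow_natCast, ← Real.rpow_mul h]
    norm_num
  · refine ⟨-(-d) ^ ((1 : ℝ) / 3), ?_⟩
    have h1 : ((-d) ^ ((1 : ℝ) / 3)) ^ 3 = -d := by
      rw [← Real.rpow_natCast, ← Real.rpow_mul (by linarith)]
      norm_num
    rw [Odd.neg_pow (by decide), h1, neg_neg]

private theorem Reduce_image {V : Type} [AddCommGroup V] [Module ℝ V]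
    {W : Type} [AddCommGroup W] [Module ℝ W] {X : Type} [AddCommGroup X] [Module ℝ X]
    (A : Finset (Submodule ℝ V)) (f : V →ₗ[ℝ] W) (g : W →ₗ[ℝ] X) :
    (A.image (Submodule.map f)).image (Submodule.map g) = A.image (Submodule.map (g ∘ₗ f)) := by
  rw [Finset.image_image]
  refine Finset.image_congr fun H _ => ?_
  exact (Submodule.map_comp f g H).symm

/-- The symmetries of determinant one. -/
private noncomputable def Reduce_GG (A : Finset (Submodule ℝ V)) : Subgroup (V ≃ₗ[ℝ] V) where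
  carrier := {g | LinearMap.det (g : V →ₗ[ℝ] V) = 1 ∧
    A.image (Submodule.map g.toLinearMap) = A}
  mul_mem' := by
    rintro g h ⟨hg1, hg2⟩ ⟨hh1, hh2⟩
    have e : ((g * h : V ≃ₗ[ℝ] V) : V →ₗ[ℝ] V) = (g : V →ₗ[ℝ] V) ∘ₗ (h : V →ₗ[ℝ] V) := rfl
    refine ⟨?_, ?_⟩
    · rw [e, LinearMap.det_comp, hg1, hh1, mul_one]
    · have h1 := Reduce_image A (h : V →ₗ[ℝ] V) (g : V →ₗ[ℝ] V)
      rw [hh2, hg2, ← e] at h1
      exact h1.symm
  one_mem' := by
    have e : ((1 : V ≃ₗ[ℝ] V) : V →ₗ[ℝ] V) = LinearMap.id := rfl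
    refine ⟨?_, ?_⟩
    · rw [e, LinearMap.det_id]
    · change A.image (Submodule.map (LinearMap.id : V →ₗ[ℝ] V)) = A
      have h1 : (Submodule.map (LinearMap.id : V →ₗ[ℝ] V)) = id := by
        funext H
        exact Submodule.map_id H
      rw [h1, Finset.image_id]
  inv_mem' := by
    rintro g ⟨hg1, hg2⟩
    have e : ((g⁻¹ : V ≃ₗ[ℝ] V) : V →ₗ[ℝ] V) ∘ₗ (g : V →ₗ[ℝ] V) = LinearMap.id := by
      ext x
      change g⁻¹ (g x) = x
      exact g.symm_apply_apply x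
    refine ⟨?_, ?_⟩
    · have h1 := LinearMap.det_comp ((g⁻¹ : V ≃ₗ[ℝ] V) : V →ₗ[ℝ] V) (g : V →ₗ[ℝ] V)
      rw [e, LinearMap.det_id, hg1, mul_one] at h1
      exact h1.symm
    · have h1 := Reduce_image A (g : V →ₗ[ℝ] V) ((g⁻¹ : V ≃ₗ[ℝ] V) : V →ₗ[ℝ] V)
      rw [hg2, e] at h1
      have h2 : (Submodule.map (LinearMap.id : V →ₗ[ℝ] V)) = id := by
        funext H
        exact Submodule.map_id H
      rw [h2, Finset.image_id] at h1
      exact h1

private theorem Reduce_mem {A : Finset (Submodule ℝ V)} {g : V ≃ₗ[ℝ] V} :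
    g ∈ Reduce_GG A ↔ LinearMap.det (g : V →ₗ[ℝ] V) = 1 ∧
      A.image (Submodule.map g.toLinearMap) = A := Iff.rfl

private theorem Reduce_finite (hV : finrank ℝ V = 3) (A : Finset (Submodule ℝ V))
    (hA : IsArrangement A) (hnp : ¬ IsNearPencil A) : Finite (Reduce_GG A) := by
  obtain ⟨f, hfA, hfgen⟩ := exists_general hV A hA hnp
  have hmem : ∀ g : Reduce_GG A, ∀ i, Submodule.map g.1.toLinearMap (f i) ∈ A := by
    intro g i
    have h1 := (Reduce_mem.1 g.2).2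
    have h2 := Finset.mem_image_of_mem (Submodule.map g.1.toLinearMap) (hfA i)
    exact (congrArg (fun B => Submodule.map g.1.toLinearMap (f i) ∈ B) h1).mp h2
  refine Finite.of_injective (fun g : Reduce_GG A => fun i : Fin 4 =>
    (⟨Submodule.map g.1.toLinearMap (f i), hmem g i⟩ : A)) ?_
  intro g g' hgg
  have h1 : ∀ i, Submodule.map g.1.toLinearMap (f i) = Submodule.map g'.1.toLinearMap (f i) := by
    intro i
    have h2 := congrFun hgg i
    exact congrArg Subtype.val h2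
  have h2 : ∀ i, (f i).map (g'.1⁻¹ * g.1).toLinearMap = f i := by
    intro i
    have e : ((g'.1⁻¹ * g.1 : V ≃ₗ[ℝ] V) : V →ₗ[ℝ] V) =
        ((g'.1⁻¹ : V ≃ₗ[ℝ] V) : V →ₗ[ℝ] V) ∘ₗ (g.1 : V →ₗ[ℝ] V) := rfl
    have e2 : ((g'.1⁻¹ : V ≃ₗ[ℝ] V) : V →ₗ[ℝ] V) ∘ₗ (g'.1 : V →ₗ[ℝ] V) = LinearMap.id := by
      ext x
      exact g'.1.symm_apply_apply x
    rw [e, Submodule.map_comp]
    have h3 := h1 i
    rw [h3, ← Submodule.map_comp, e2, Submodule.map_id]
  obtain ⟨c, hc⟩ := scalar_of_four hV f (fun i => hA.1 _ (hfA i)) hfgen _ h2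
  have h3 : ((g'.1⁻¹ * g.1 : V ≃ₗ[ℝ] V) : V →ₗ[ℝ] V) = c • LinearMap.id := by
    ext x
    exact hc x
  have h4 := (Reduce_mem.1 ((Reduce_GG A).mul_mem ((Reduce_GG A).inv_mem g'.2) g.2)).1
  rw [h3, LinearMap.det_smul, LinearMap.det_id, mul_one, hV] at h4
  have h5 : c = 1 := by
    have h6 : (c - 1) * (c ^ 2 + c + 1) = 0 := by linear_combination h4
    rcases mul_eq_zero.1 h6 with h7 | h7
    · linarith
    · nlinarith [sq_nonneg (c + 1 / 2)]
  apply Subtype.ext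
  ext x
  have h6 := hc x
  rw [h5, one_smul] at h6
  have h7 : g'.1 ((g'.1⁻¹ * g.1) x) = g.1 x := g'.1.apply_symm_apply (g.1 x)
  rw [← h7, h6]

private theorem Reduce_card (hV : finrank ℝ V = 3) (A : Finset (Submodule ℝ V))
    [Finite (Reduce_GG A)] (S : Finset (V ≃ₗ[ℝ] V))
    (hS : ∀ g ∈ S, A.image (Submodule.map g.toLinearMap) = A)
    (hS' : ∀ g ∈ S, ∀ h ∈ S, (∃ c : ℝ, ∀ x, h x = c • g x) → g = h) :
    S.card ≤ Nat.card (Reduce_GG A) := by
  have key : ∀ g : S, ∃ h : Reduce_GG A, ∃ c : ℝ, c ≠ 0 ∧ ∀ x, h.1 x = c • g.1 x := by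
    intro g
    have hd : LinearMap.det (g.1 : V →ₗ[ℝ] V) ≠ 0 := g.1.isUnit_det'.ne_zero
    obtain ⟨c, hc⟩ := Reduce_cbrt (LinearMap.det (g.1 : V →ₗ[ℝ] V))⁻¹
    have hc0 : c ≠ 0 := by
      rintro rfl
      rw [zero_pow (by norm_num)] at hc
      exact inv_ne_zero hd hc.symm
    let h : V ≃ₗ[ℝ] V := g.1.trans (LinearEquiv.smulOfNeZero ℝ V c hc0)
    have hh : (h : V →ₗ[ℝ] V) = c • (g.1 : V →ₗ[ℝ] V) := rfl
    refine ⟨⟨h, Reduce_mem.2 ⟨?_, ?_⟩⟩, c, hc0, fun x => rfl⟩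
    · rw [hh, LinearMap.det_smul, hV, hc, inv_mul_cancel₀ hd]
    · have h1 : Submodule.map (h : V →ₗ[ℝ] V) = Submodule.map (g.1 : V →ₗ[ℝ] V) := by
        funext H
        rw [hh]
        exact Submodule.map_smul _ H c hc0
      have h2 := hS g.1 g.2
      change A.image (Submodule.map (h : V →ₗ[ℝ] V)) = A
      rw [h1]
      exact h2
  choose F c hc0 hF using key
  have hinj : Function.Injective F := by
    intro g g' hgg
    apply Subtype.ext
    refine hS' g.1 g.2 g'.1 g'.2 ⟨(c g')⁻¹ * c g, fun x => ?_⟩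
    have h1 := hF g x
    have h2 := hF g' x
    rw [← hgg, h1] at h2
    rw [mul_smul, h2, smul_smul, inv_mul_cancel₀ (hc0 g'), one_smul]
  have h1 := Nat.card_le_card_of_injective F hinj
  rw [Nat.card_eq_fintype_card, Fintype.card_coe] at h1
  exact h1

/-- Conjugation by a linear isomorphism. -/
private noncomputable def Reduce_conj {W : Type} [AddCommGroup W] [Module ℝ W] (e : V ≃ₗ[ℝ] W) :
    (V ≃ₗ[ℝ] V) →* (W ≃ₗ[ℝ] W) where
  toFun g := e.symm.trans (g.trans e)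
  map_one' := by
    ext x
    exact e.apply_symm_apply x
  map_mul' g h := by
    ext x
    change e (g (h (e.symm x))) = e (g (e.symm (e (h (e.symm x)))))
    rw [e.symm_apply_apply]

private theorem Reduce_conj_inj {W : Type} [AddCommGroup W] [Module ℝ W] (e : V ≃ₗ[ℝ] W) :
    Function.Injective (Reduce_conj e) := by
  intro g h hgh
  ext x
  have h1 : Reduce_conj e g (e x) = Reduce_conj e h (e x) := by rw [hgh]
  change e (g (e.symm (e x))) = e (h (e.symm (e x))) at h1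
  rw [e.symm_apply_apply] at h1
  exact e.injective h1

theorem exists_rotations (hV : finrank ℝ V = 3) (A : Finset (Submodule ℝ V))
    (hA : IsArrangement A) (hnp : ¬ IsNearPencil A) (S : Finset (V ≃ₗ[ℝ] V))
    (hS : ∀ g ∈ S, A.image (Submodule.map g.toLinearMap) = A)
    (hS' : ∀ g ∈ S, ∀ h ∈ S, (∃ c : ℝ, ∀ x, h x = c • g x) → g = h) (hcard : 60 < S.card) :
    ∃ (e : V ≃ₗ[ℝ] (ℂ × ℝ)) (r : ℕ), S.card ≤ 2 * r ∧ ∀ w : Circle, w ^ r = 1 →
      (A.image (Submodule.map e.toLinearMap)).image (Submodule.map (rot w).toLinearMap) =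
        A.image (Submodule.map e.toLinearMap) := by
  have hfin := Reduce_finite hV A hA hnp
  have hSc := Reduce_card hV A S hS hS'
  obtain ⟨e₁, he₁⟩ := exists_isometry hV (Reduce_GG A)
  set G' := (Reduce_GG A).map (Reduce_conj e₁) with hG'
  have hequiv : Reduce_GG A ≃ G' :=
    ((Reduce_GG A).equivMapOfInjective (Reduce_conj e₁) (Reduce_conj_inj e₁)).toEquiv
  have hfin' : Finite G' := Finite.of_equiv _ hequiv
  have hcard' : Nat.card (Reduce_GG A) = Nat.card G' := Nat.card_congr hequiv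
  have hn : ∀ g ∈ G', ∀ x, ‖g x‖ = ‖x‖ := by
    rintro g ⟨g0, hg0, rfl⟩ x
    change ‖e₁ (g0 (e₁.symm x))‖ = ‖x‖
    rw [he₁ g0 hg0, e₁.apply_symm_apply]
  have hdet : ∀ g ∈ G', LinearMap.det (g : EuclideanSpace ℝ (Fin 3) →ₗ[ℝ]
      EuclideanSpace ℝ (Fin 3)) = 1 := by
    rintro g ⟨g0, hg0, rfl⟩
    have h1 := LinearMap.det_conj (g0 : V →ₗ[ℝ] V) e₁
    rw [(Reduce_mem.1 hg0).1] at h1
    exact h1
  obtain ⟨x, hx, hxc⟩ := exists_large_stabilizer G' hn hdet (by omega)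
  set G'' : Subgroup (EuclideanSpace ℝ (Fin 3) ≃ₗ[ℝ] EuclideanSpace ℝ (Fin 3)) :=
    G' ⊓ MulAction.stabilizer (EuclideanSpace ℝ (Fin 3) ≃ₗ[ℝ] EuclideanSpace ℝ (Fin 3)) x with hG''
  have hmem : ∀ g, g ∈ G'' ↔ g ∈ G' ∧ g x = x := by
    intro g
    rw [hG'', Subgroup.mem_inf, MulAction.mem_stabilizer_iff]
    rfl
  have hequiv' : {g : G' // g.1 x = x} ≃ G'' := {
    toFun := fun g => ⟨g.1.1, (hmem _).2 ⟨g.1.2, g.2⟩⟩
    invFun := fun g => ⟨⟨g.1, ((hmem _).1 g.2).1⟩, ((hmem _).1 g.2).2⟩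
    left_inv := fun g => rfl
    right_inv := fun g => rfl }
  have hfin'' : Finite G'' := Finite.of_equiv _ hequiv'
  have hcard'' := Nat.card_congr hequiv'
  obtain ⟨e₂, he₂⟩ := exists_rot G'' (fun g hg => hn g ((hmem g).1 hg).1)
    (fun g hg => hdet g ((hmem g).1 hg).1) x hx (fun g hg => ((hmem g).1 hg).2)
  refine ⟨e₁.trans e₂, Nat.card G'', by omega, fun w hw => ?_⟩
  obtain ⟨g, hg, hgw⟩ := he₂ w hw
  obtain ⟨g0, hg0, rfl⟩ := ((hmem g).1 hg).1
  have h1 : (rot w).toLinearMap ∘ₗ (e₁.trans e₂).toLinearMap =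
      (e₁.trans e₂).toLinearMap ∘ₗ g0.toLinearMap := by
    ext1 y
    have h2 := hgw (e₁ y)
    change rot w (e₂ (e₁ y)) = e₂ (e₁ (g0 y))
    rw [← h2]
    change e₂ (e₁ (g0 (e₁.symm (e₁ y)))) = e₂ (e₁ (g0 y))
    rw [e₁.symm_apply_apply]
  rw [Reduce_image, h1, ← Reduce_image, (Reduce_mem.1 hg0).2]

end Pool.Agent.Simpl
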