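import Pool.Agent.Simpl.PDefs

set_option autoImplicit false

/-! Package P11: the regular polygon arrangement in the coordinates of `ℝ³`.

PROOF. `e (z, t) = (Re z, Im z, t)`. `tang 1 (exp (iφ))`: `Re (z exp (-iφ)) = t`, i.e.
`x cos φ + y sin φ - t = 0`. `ax (exp (2iφ))`, `φ = πk/N`: `z = exp (2iφ) z̄` iff `z exp (-iφ)` is real,
i.e. `Im (z exp (-iφ)) = y cos φ - x sin φ = 0`. `infl`: `t = 0`. -/

namespace Pool.Agent.Simpl

open Module Classical ComplexConjugate

/-- The coordinates. -/
private noncomputable def toReal_e : (ℂ × ℝ) ≃ₗ[ℝ] (Fin 3 → ℝ) where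
  toFun x := ![x.1.re, x.1.im, x.2]
  map_add' x y := by
    ext i
    fin_cases i <;> simp
  map_smul' r x := by
    ext i
    fin_cases i <;> simp
  invFun v := (⟨v 0, v 1⟩, v 2)
  left_inv x := by simp
  right_inv v := by
    ext i
    fin_cases i <;> simp

private theorem toReal_symm (v : Fin 3 → ℝ) : toReal_e.symm v = (⟨v 0, v 1⟩, v 2) := rfl

private theorem toReal_tang (θ : ℝ) : (tang 1 (Circle.exp θ)).map toReal_e.toLinearMap =
    plane (Real.cos θ) (Real.sin θ) (-1) := by
  ext v
  rw [Submodule.mem_map_equiv, toReal_symm, mem_tang]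
  change _ ↔ Real.cos θ * v 0 + Real.sin θ * v 1 + -1 * v 2 = 0
  have h1 : ((Circle.exp θ : Circle) : ℂ) = ⟨Real.cos θ, Real.sin θ⟩ := by
    rw [Circle.coe_exp]
    apply Complex.ext
    · simp [Complex.exp_ofReal_mul_I_re]
    · simp [Complex.exp_ofReal_mul_I_im]
  rw [h1]
  simp only [Complex.mul_re, Complex.conj_re, Complex.conj_im]
  constructor
  · intro h
    linear_combination h
  · intro h
    linear_combination h

private theorem toReal_ax (φ : ℝ) : (ax (Circle.exp (2 * φ))).map toReal_e.toLinearMap =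
    plane (Real.sin φ) (-Real.cos φ) 0 := by
  ext v
  rw [Submodule.mem_map_equiv, toReal_symm, mem_ax]
  change _ ↔ Real.sin φ * v 0 + -Real.cos φ * v 1 + 0 * v 2 = 0
  have h1 : ((Circle.exp (2 * φ) : Circle) : ℂ) = ⟨Real.cos (2 * φ), Real.sin (2 * φ)⟩ := by
    rw [Circle.coe_exp]
    apply Complex.ext
    · simp only [Complex.exp_ofReal_mul_I_re]
    · simp only [Complex.exp_ofReal_mul_I_im]
  rw [h1, Complex.ext_iff]
  simp only [Complex.mul_re, Complex.mul_im, Complex.conj_re, Complex.conj_im,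
    Real.cos_two_mul, Real.sin_two_mul]
  have h2 := Real.sin_sq_add_cos_sq φ
  constructor
  · rintro ⟨h3, h4⟩
    linear_combination Real.sin φ / 2 * h3 - Real.cos φ / 2 * h4 + Real.cos φ * v 1 * h2
  · intro h
    constructor
    · linear_combination 2 * Real.sin φ * h - 2 * v 0 * h2
    · linear_combination -2 * Real.cos φ * h

theorem exists_toReal : ∃ e : (ℂ × ℝ) ≃ₗ[ℝ] (Fin 3 → ℝ),
    (∀ N : ℕ, 0 < N → (polReg N).image (Submodule.map e.toLinearMap) = regular N) ∧
    infl.map e.toLinearMap = plane 0 0 1 := by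
  refine ⟨toReal_e, fun N _ => ?_, ?_⟩
  · unfold polReg regular
    rw [Finset.image_union, Finset.image_image, Finset.image_image]
    congr 1
    · exact Finset.image_congr fun k _ => toReal_tang _
    · refine Finset.image_congr fun k _ => ?_
      have h := toReal_ax (Real.pi * k / N)
      have h1 : 2 * (Real.pi * k / N) = 2 * Real.pi * k / N := by ring
      rw [h1] at h
      exact h
  · ext v
    rw [Submodule.mem_map_equiv, toReal_symm, mem_infl]
    change _ ↔ 0 * v 0 + 0 * v 1 + 1 * v 2 = 0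
    simp

end Pool.Agent.Simpl
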