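import Pool.Agent.Simpl.Core
import Pool.Agent.Simpl.ToReal
import Pool.Agent.Simpl.Reduce

set_option autoImplicit false

/-! Package P12: the theorem (use the other files as black boxes).

PROOF. Suppose `A` is not a near-pencil. Then `|A| ≥ 4` (three planes with intersection 0 form a
near-pencil, fewer than three planes do not have intersection 0; or from `exists_general`), so
`|G| ≥ 130 √4 = 260 > 60`. `exists_rotations`: `e`, `r` with `|G| ≤ 2r`. So `65 √n ≤ r`, `n = |A| ≥ 4`:
`r ≥ 130`, `r² ≥ 4225 n ≥ 4000 n`. `melchior`, `mel_map`, `isArrangement_map`, `core` for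
`A' = A.image (map e)`: near-pencil (excluded by `isNearPencil_map`) or `polReg N` resp.
`insert infl (polReg N)` after another isomorphism; `exists_toReal`; compose. -/

namespace Pool.Agent.Simpl

open Module Classical

private theorem Final_image {V W X : Type} [AddCommGroup V] [Module ℝ V] [AddCommGroup W]
    [Module ℝ W] [AddCommGroup X] [Module ℝ X] (A : Finset (Submodule ℝ V)) (f : V ≃ₗ[ℝ] W)
    (g : W ≃ₗ[ℝ] X) : A.image (Submodule.map (f.trans g).toLinearMap) =
      (A.image (Submodule.map f.toLinearMap)).image (Submodule.map g.toLinearMap) := by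
  rw [Finset.image_image]
  refine Finset.image_congr fun H _ => ?_
  exact Submodule.map_comp f.toLinearMap g.toLinearMap H

/-- Two planes of a space of dimension three meet. -/
private theorem Final_inf {V : Type} [AddCommGroup V] [Module ℝ V] (hV : finrank ℝ V = 3)
    {H H' : Submodule ℝ V} (h : finrank ℝ H = 2) (h' : finrank ℝ H' = 2) : H ⊓ H' ≠ ⊥ := by
  intro h0
  have hfd : FiniteDimensional ℝ V := FiniteDimensional.of_finrank_pos (by omega)
  have h1 := Submodule.finrank_sup_add_finrank_inf_eq H H'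
  rw [h0, finrank_bot, h, h'] at h1
  have h2 := Submodule.finrank_le (H ⊔ H')
  omega

private theorem Final_card {V : Type} [AddCommGroup V] [Module ℝ V] (hV : finrank ℝ V = 3)
    (A : Finset (Submodule ℝ V)) (hA : IsArrangement A) (hnp : ¬ IsNearPencil A) :
    4 ≤ A.card := by
  obtain ⟨f, hfA, hfgen⟩ := exists_general hV A hA hnp
  have hinj : Function.Injective f := by
    intro i j hij
    by_contra hne
    have hk : ∀ i j : Fin 4, ∃ k : Fin 4, i ≠ k ∧ j ≠ k := by decide
    obtain ⟨k, hk1, hk2⟩ := hk i j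
    have h1 := hfgen i j k hne hk1 hk2
    rw [hij, inf_idem] at h1
    exact Final_inf hV (hA.1 _ (hfA j)) (hA.1 _ (hfA k)) h1
  have h1 : (Finset.univ.image f).card = 4 := by
    rw [Finset.card_image_of_injective _ hinj, Finset.card_univ, Fintype.card_fin]
  rw [← h1]
  refine Finset.card_le_card fun H hH => ?_
  obtain ⟨i, -, rfl⟩ := Finset.mem_image.1 hH
  exact hfA i

theorem simplicial_symmetric (A : Finset (Submodule ℝ (Fin 3 → ℝ))) (hA : IsArrangement A)
    (hS : IsSimplicial A) (G : Finset ((Fin 3 → ℝ) ≃ₗ[ℝ] (Fin 3 → ℝ)))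
    (hG : ∀ g ∈ G, A.image (Submodule.map g.toLinearMap) = A)
    (hG' : ∀ g ∈ G, ∀ h ∈ G, (∃ c : ℝ, ∀ x, h x = c • g x) → g = h)
    (hcard : 130 * Real.sqrt A.card ≤ G.card) :
    IsNearPencil A ∨ ∃ N : ℕ, 3 ≤ N ∧ ∃ e : (Fin 3 → ℝ) ≃ₗ[ℝ] (Fin 3 → ℝ),
      A.image (Submodule.map e.toLinearMap) = regular N ∨
      (Even N ∧ A.image (Submodule.map e.toLinearMap) = insert (plane 0 0 1) (regular N)) := by
  by_cases hnp : IsNearPencil A
  · exact Or.inl hnp
  right
  have hV : finrank ℝ (Fin 3 → ℝ) = 3 := by simp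
  have h4 := Final_card hV A hA hnp
  have h4' : (4 : ℝ) ≤ A.card := by exact_mod_cast h4
  have hs2 : 2 ≤ Real.sqrt A.card := Real.le_sqrt_of_sq_le (by linarith)
  have hsq : Real.sqrt A.card ^ 2 = A.card := Real.sq_sqrt (by positivity)
  have h260 : (260 : ℝ) ≤ G.card := by linarith
  have h260' : 260 ≤ G.card := by exact_mod_cast h260
  obtain ⟨e, r, hr, hrot⟩ := exists_rotations hV A hA hnp G hG hG' (by omega)
  have hr' : (G.card : ℝ) ≤ 2 * r := by exact_mod_cast hr
  have h65 : 65 * Real.sqrt A.card ≤ r := by linarith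
  have hrsq : 4000 * (A.card : ℝ) ≤ (r : ℝ) ^ 2 := by
    have h1 : (65 * Real.sqrt A.card) ^ 2 ≤ (r : ℝ) ^ 2 :=
      pow_le_pow_left₀ (by positivity) h65 2
    rw [mul_pow, hsq] at h1
    nlinarith
  have hrsq' : 4000 * A.card ≤ r ^ 2 := by exact_mod_cast hrsq
  have hn : 4000 * (A.image (Submodule.map e.toLinearMap)).card ≤ r ^ 2 :=
    (Nat.mul_le_mul_left _ Finset.card_image_le).trans hrsq'
  rcases core (A.image (Submodule.map e.toLinearMap)) (isArrangement_map A e hA)
    (mel_map A e (melchior hV A hA hS)) (by omega : 100 ≤ r) hn hrot with h | h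
  · exact absurd (isNearPencil_map A e h) hnp
  · obtain ⟨N, hN, e₂, h⟩ := h
    obtain ⟨e₃, h3, h3'⟩ := exists_toReal
    refine ⟨N, hN, (e.trans e₂).trans e₃, ?_⟩
    rcases h with h | ⟨hev, h⟩
    · left
      rw [Final_image, Final_image, h, h3 N (by omega)]
    · right
      refine ⟨hev, ?_⟩
      rw [Final_image, Final_image, h, Finset.image_insert, h3 N (by omega), h3']

end Pool.Agent.Simpl
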