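import Pool.Agent.Simpl.Regs

set_option autoImplicit false

/-! Package R4: the topological cells are the cones of the sign vectors, the edges are the walls.

PROOF. `fn H` is continuous (finite dimension). `cone A B` is convex, hence preconnected, and it is
contained in `compl A` (`x ∈ H ↔ fn H x = 0` by `Hyp`).
`isCell_cone`: let `B ∈ regs ⊤ A`, `x ∈ cone A B`. Then `cone A B ⊆ connectedComponentIn (compl A) x`
(`IsPreconnected.subset_connectedComponentIn`). Conversely let `C` be the component; it is
preconnected, contained in `compl A`, and for `H ∈ A` the continuous function `fn H` has no zero on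
`C`, so it has constant sign there (`IsPreconnected.image` is an interval not containing zero, or
`IsPreconnected.intermediate_value`). So `C ⊆ cone A B`.
`isEdge_iff`: (⇐) Let `x ∈ H` realise `B.erase H` on `A.erase H`, `v` with `fn H v > 0`
(or `< 0` if `H ∉ B`). For every `u ∈ H` and small `δ > 0` the vector `x + δ u` also realises
`B.erase H` on `A.erase H`, and it is in the closure of `cone A B` (limit of
`x + δ u + ε v`, `ε → 0+`). So `x` and `x + δ u` are in `closure (cone A B) ∩ H` and `u` is in the
span. (⇒) All `y` in the closure satisfy the closed inequalities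
`0 ≤ fn H' y` for `H' ∈ B`, `fn H' y ≤ 0` for `H' ∈ A \ B`. If the span of `closure ∩ H` is `H`, of
dimension 2, take two linearly independent `u₁, u₂` in `closure ∩ H` (a spanning set contains a
basis) and `x = u₁ + u₂ ∈ H`. For `H' ∈ A`, `H' ≠ H`: `fn H' x = 0` would give
`fn H' u₁ = fn H' u₂ = 0` (same signs), so `H ≤ H'`, so `H = H'` (equal dimension),
contradiction. So `x` realises `B.erase H` on `A.erase H`. -/

namespace Pool.Agent.Simpl

open Module Classical

variable {V : Type} [NormedAddCommGroup V] [NormedSpace ℝ V] [FiniteDimensional ℝ V]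

theorem Cells_cont (H : Submodule ℝ V) : Continuous fun x : V => fn H x :=
  (fn H).continuous_of_finiteDimensional

omit [FiniteDimensional ℝ V] in
theorem Cells_convex (A B : Finset (Submodule ℝ V)) : Convex ℝ (cone A B) := by
  intro x hx y hy a b ha hb hab
  have h1 : 0 < a ∨ 0 < b := by
    by_contra hcon
    push Not at hcon
    linarith [hcon.1, hcon.2]
  constructor
  · intro H hH
    rw [map_add, map_smul, map_smul, smul_eq_mul, smul_eq_mul]
    have h2 := hx.1 H hH
    have h3 := hy.1 H hH
    rcases h1 with h1 | h1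
    · have := mul_pos h1 h2
      have := mul_nonneg hb h3.le
      linarith
    · have := mul_pos h1 h3
      have := mul_nonneg ha h2.le
      linarith
  · intro H hH
    rw [map_add, map_smul, map_smul, smul_eq_mul, smul_eq_mul]
    have h2 := hx.2 H hH
    have h3 := hy.2 H hH
    rcases h1 with h1 | h1
    · have := mul_neg_of_pos_of_neg h1 h2
      have := mul_nonpos_of_nonneg_of_nonpos hb h3.le
      linarith
    · have := mul_neg_of_pos_of_neg h1 h3
      have := mul_nonpos_of_nonneg_of_nonpos ha h2.le
      linarith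

omit [FiniteDimensional ℝ V] in
theorem Cells_zero {A : Finset (Submodule ℝ V)} (hA : Hyp A) {H : Submodule ℝ V} (hH : H ∈ A)
    (x : V) : fn H x = 0 ↔ x ∈ H := by
  rw [← LinearMap.mem_ker, hA H hH]

omit [FiniteDimensional ℝ V] in
theorem Cells_sub {A : Finset (Submodule ℝ V)} (hA : Hyp A) (B : Finset (Submodule ℝ V)) :
    cone A B ⊆ compl A := by
  intro x hx H hH hxH
  have h0 := (Cells_zero hA hH x).2 hxH
  by_cases hHB : H ∈ B
  · have := hx.1 H hHB
    linarith
  · have := hx.2 H (Finset.mem_sdiff.2 ⟨hH, hHB⟩)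
    linarith

theorem isCell_cone (A : Finset (Submodule ℝ V)) (hA : Hyp A) {B : Finset (Submodule ℝ V)}
    (hB : B ∈ regs ⊤ A) : IsCell A (cone A B) := by
  obtain ⟨hBA, x, -, hx⟩ := Finset.mem_filter.1 hB
  rw [Finset.mem_powerset] at hBA
  refine ⟨x, Cells_sub hA B hx, Set.Subset.antisymm ?_ ?_⟩
  · exact (Cells_convex A B).isPreconnected.subset_connectedComponentIn hx (Cells_sub hA B)
  · intro y hy
    have hpre := isPreconnected_connectedComponentIn (F := compl A) (x := x)
    have hxC : x ∈ connectedComponentIn (compl A) x :=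
      mem_connectedComponentIn (Cells_sub hA B hx)
    have hno : ∀ H ∈ A, (0 : ℝ) ∉ (fun z : V => fn H z) '' connectedComponentIn (compl A) x := by
      rintro H hH ⟨z, hz, hz0⟩
      exact connectedComponentIn_subset _ _ hz H hH ((Cells_zero hA hH z).1 hz0)
    constructor
    · intro H hH
      by_contra hneg
      rw [not_lt] at hneg
      have h1 := hpre.intermediate_value hy hxC (Cells_cont H).continuousOn
      exact hno H (hBA hH) (h1 ⟨hneg, (hx.1 H hH).le⟩)
    · intro H hH
      by_contra hneg
      rw [not_lt] at hneg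
      have h1 := hpre.intermediate_value hxC hy (Cells_cont H).continuousOn
      exact hno H (Finset.mem_sdiff.1 hH).1 (h1 ⟨(hx.2 H hH).le, hneg⟩)

theorem isEdge_iff (hV : finrank ℝ V = 3) (A : Finset (Submodule ℝ V))
    (hA : ∀ H ∈ A, finrank ℝ H = 2) {B : Finset (Submodule ℝ V)} (hB : B ∈ regs ⊤ A)
    {H : Submodule ℝ V} (hH : H ∈ A) :
    IsEdge (cone A B) H ↔ B.erase H ∈ regs H (A.erase H) := by
  have hyp : Hyp A := fun H hH => ker_fn (by rw [hA H hH, hV])
  obtain ⟨hBA, x0, -, hx0⟩ := Finset.mem_filter.1 hB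
  rw [Finset.mem_powerset] at hBA
  constructor
  · intro hE
    have hcl : ∀ y ∈ closure (cone A B), (∀ H' ∈ B, 0 ≤ fn H' y) ∧
        ∀ H' ∈ A \ B, fn H' y ≤ 0 := by
      intro y hy
      constructor
      · intro H' hH'
        have h1 : closure (cone A B) ⊆ {z | 0 ≤ fn H' z} :=
          closure_minimal (fun z hz => (hz.1 H' hH').le)
            (isClosed_le continuous_const (Cells_cont H'))
        exact h1 hy
      · intro H' hH'
        have h1 : closure (cone A B) ⊆ {z | fn H' z ≤ 0} :=
          closure_minimal (fun z hz => (hz.2 H' hH').le)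
            (isClosed_le (Cells_cont H') continuous_const)
        exact h1 hy
    have hex : ∀ H' : Submodule ℝ V, ∃ u : V, H' ∈ A.erase H →
        u ∈ closure (cone A B) ∧ u ∈ H ∧ fn H' u ≠ 0 := by
      intro H'
      by_cases hH' : H' ∈ A.erase H
      · by_contra hcon
        push Not at hcon
        obtain ⟨hne, hH'A⟩ := Finset.mem_erase.1 hH'
        have h1 : Submodule.span ℝ (closure (cone A B) ∩ (H : Set V)) ≤ H' := by
          rw [Submodule.span_le]
          rintro u ⟨hu, huH⟩
          exact (Cells_zero hyp hH'A u).1 ((hcon u).2 hu huH)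
        rw [hE] at h1
        exact hne (Submodule.eq_of_le_of_finrank_eq h1 (by rw [hA H hH, hA H' hH'A])).symm
      · exact ⟨0, fun h => absurd h hH'⟩
    choose u hu using hex
    refine Finset.mem_filter.2 ⟨Finset.mem_powerset.2 (Finset.erase_subset_erase H hBA),
      ∑ H' ∈ A.erase H, u H', H.sum_mem fun H' hH' => (hu H' hH').2.1, ?_, ?_⟩
    · intro H' hH'
      have hH'A : H' ∈ A.erase H := Finset.erase_subset_erase H hBA hH'
      have hH'B : H' ∈ B := Finset.mem_of_mem_erase hH'
      rw [map_sum]
      refine Finset.sum_pos' (fun H'' hH'' => (hcl _ (hu H'' hH'').1).1 H' hH'B)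
        ⟨H', hH'A, ?_⟩
      exact lt_of_le_of_ne ((hcl _ (hu H' hH'A).1).1 H' hH'B) (hu H' hH'A).2.2.symm
    · intro H' hH'
      obtain ⟨hH'A, hH'B'⟩ := Finset.mem_sdiff.1 hH'
      obtain ⟨hne, hH'A'⟩ := Finset.mem_erase.1 hH'A
      have hH'B : H' ∈ A \ B :=
        Finset.mem_sdiff.2 ⟨hH'A', fun h => hH'B' (Finset.mem_erase.2 ⟨hne, h⟩)⟩
      rw [map_sum, ← neg_pos, ← Finset.sum_neg_distrib]
      refine Finset.sum_pos' (fun H'' hH'' => neg_nonneg.2 ((hcl _ (hu H'' hH'').1).2 H' hH'B))
        ⟨H', hH'A, ?_⟩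
      exact neg_pos.2 (lt_of_le_of_ne ((hcl _ (hu H' hH'A).1).2 H' hH'B) (hu H' hH'A).2.2)
  · intro hR
    obtain ⟨-, x, hxH, hx⟩ := Finset.mem_filter.1 hR
    have hmem : ∀ y ∈ H, y ∈ cone (A.erase H) (B.erase H) → y ∈ closure (cone A B) := by
      intro y hyH hy
      have h1 : Filter.Tendsto (fun δ : ℝ => y + δ • x0) (nhdsWithin 0 (Set.Ioi 0)) (nhds y) := by
        have h2 : Continuous fun δ : ℝ => y + δ • x0 := by fun_prop
        have h3 := h2.tendsto 0
        rw [zero_smul, add_zero] at h3
        exact h3.mono_left nhdsWithin_le_nhds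
      refine mem_closure_of_tendsto h1 ?_
      filter_upwards [self_mem_nhdsWithin] with δ hδ
      have hδ' : (0 : ℝ) < δ := hδ
      have hy0 : fn H y = 0 := (Cells_zero hyp hH y).2 hyH
      constructor
      · intro H' hH'
        rw [map_add, map_smul, smul_eq_mul]
        have h4 := mul_pos hδ' (hx0.1 H' hH')
        by_cases hne : H' = H
        · rw [hne] at h4 ⊢
          rw [hy0]
          linarith
        · have h5 := hy.1 H' (Finset.mem_erase.2 ⟨hne, hH'⟩)
          linarith
      · intro H' hH'
        rw [map_add, map_smul, smul_eq_mul]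
        have h4 := mul_neg_of_pos_of_neg hδ' (hx0.2 H' hH')
        by_cases hne : H' = H
        · rw [hne] at h4 ⊢
          rw [hy0]
          linarith
        · obtain ⟨h6, h7⟩ := Finset.mem_sdiff.1 hH'
          have h5 := hy.2 H' (Finset.mem_sdiff.2 ⟨Finset.mem_erase.2 ⟨hne, h6⟩,
            fun h => h7 (Finset.mem_of_mem_erase h)⟩)
          linarith
    change Submodule.span ℝ (closure (cone A B) ∩ (H : Set V)) = H
    refine le_antisymm ?_ ?_
    · rw [Submodule.span_le]
      exact fun y hy => hy.2
    · intro u huH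
      obtain ⟨ε, hε, hδ⟩ := exists_perturb (A.erase H) (B.erase H) x u hx
      have h1 : x + ε • u ∈ cone (A.erase H) (B.erase H) := hδ ε (by rw [abs_of_pos hε])
      have h2 : x + ε • u ∈ H := H.add_mem hxH (H.smul_mem ε huH)
      have h3 : u = ε⁻¹ • ((x + ε • u) - x) := by
        rw [add_sub_cancel_left, smul_smul, inv_mul_cancel₀ hε.ne', one_smul]
      rw [h3]
      exact Submodule.smul_mem _ _ (Submodule.sub_mem _
        (Submodule.subset_span ⟨hmem _ h2 h1, h2⟩) (Submodule.subset_span ⟨hmem _ hxH hx, hxH⟩))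

end Pool.Agent.Simpl
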