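import Pool.Agent.Simpl.Defs

set_option autoImplicit false

/-! Package P9: finite subsets of the circle closed under products and quotients.

PROOF. Take `θ ∈ Θ`, `Γ = {w | θ w ∈ Θ}`, finite, contains 1. `Γ Γ ⊆ Γ`: for `a, b ∈ Γ`,
`θ a ∈ Θ`, `θ b ∈ Θ`, so `θ² a b ∈ S` and `θ a b = θ² a b / θ ∈ Θ`. A finite non-empty subset
of a group closed under multiplication is a subgroup, of order `N = |Θ|`, so `w^N = 1` for all
`w ∈ Γ`, and there are at most `N` solutions of `w^N = 1` in `Circle` (injective into `ℂ`,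
`Polynomial.card_nthRoots`), so `Γ = {w | w^N = 1}`. `θ² w ∈ S` for `w ∈ Γ` (`θ · θw`), and
`θ² w ∈ S` gives `θ w = θ² w / θ ∈ Θ`, `w ∈ Γ`. -/

namespace Pool.Agent.Simpl

theorem circle_cosets (Θ S : Finset Circle) (hne : Θ.Nonempty)
    (h1 : ∀ α ∈ Θ, ∀ β ∈ Θ, α * β ∈ S) (h2 : ∀ s ∈ S, ∀ α ∈ Θ, s / α ∈ Θ) :
    ∃ θ ∈ Θ, (∀ w, θ * w ∈ Θ ↔ w ^ Θ.card = 1) ∧ ∀ w, θ ^ 2 * w ∈ S ↔ w ^ Θ.card = 1 := by
  classical
  obtain ⟨θ, hθ⟩ := hne
  set Γ : Finset Circle := Θ.image fun t => t / θ with hΓ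
  have hcard : Γ.card = Θ.card := Finset.card_image_of_injective _ fun a b h => div_left_injective h
  have hmem : ∀ w, w ∈ Γ ↔ θ * w ∈ Θ := by
    intro w
    rw [hΓ, Finset.mem_image]
    constructor
    · rintro ⟨t, ht, rfl⟩
      rwa [mul_div_cancel]
    · intro h
      exact ⟨θ * w, h, by rw [mul_div_cancel_left]⟩
  have hmul : ∀ a ∈ Γ, ∀ b ∈ Γ, a * b ∈ Γ := by
    intro a ha b hb
    rw [hmem] at ha hb ⊢
    have h3 := h2 _ (h1 _ ha _ hb) θ hθ
    have h4 : θ * a * (θ * b) / θ = θ * (a * b) := by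
      rw [div_eq_iff_eq_mul]
      ac_rfl
    rwa [h4] at h3
  have hpow : ∀ w ∈ Γ, w ^ Θ.card = 1 := by
    intro w hw
    have h3 : Γ.image (fun x => w * x) = Γ := by
      refine Finset.eq_of_subset_of_card_le ?_ ?_
      · intro x hx
        obtain ⟨a, ha, rfl⟩ := Finset.mem_image.1 hx
        exact hmul w hw a ha
      · rw [Finset.card_image_of_injective _ (mul_right_injective w)]
    have h4 : ∏ x ∈ Γ, (w * x) = ∏ x ∈ Γ, x := by
      conv_rhs => rw [← h3]
      rw [Finset.prod_image fun a _ b _ h => mul_right_injective w h]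
    rw [Finset.prod_mul_distrib, Finset.prod_const, hcard] at h4
    exact mul_eq_right.1 h4
  have hN : 0 < Θ.card := Finset.card_pos.2 ⟨θ, hθ⟩
  have hall : ∀ w, w ∈ Γ ↔ w ^ Θ.card = 1 := by
    intro w
    refine ⟨hpow w, fun hw => ?_⟩
    by_contra hn
    have h3 : (insert w Γ).image (fun x : Circle => (x : ℂ)) ⊆
        (Polynomial.nthRoots Θ.card (1 : ℂ)).toFinset := by
      intro x hx
      obtain ⟨a, ha, rfl⟩ := Finset.mem_image.1 hx
      rw [Multiset.mem_toFinset, Polynomial.mem_nthRoots hN]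
      have h5 : a ^ Θ.card = 1 := by
        rcases Finset.mem_insert.1 ha with rfl | ha
        · exact hw
        · exact hpow a ha
      rw [← Circle.coe_pow, h5, Circle.coe_one]
    have h4 := Finset.card_le_card h3
    have hinj : Function.Injective fun x : Circle => (x : ℂ) := Circle.coe_injective
    rw [Finset.card_image_of_injective _ hinj, Finset.card_insert_of_notMem hn, hcard] at h4
    have h5 := (Multiset.toFinset_card_le (Polynomial.nthRoots Θ.card (1 : ℂ))).trans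
      (Polynomial.card_nthRoots Θ.card (1 : ℂ))
    omega
  refine ⟨θ, hθ, fun w => by rw [← hmem, hall], fun w => ?_⟩
  constructor
  · intro h
    rw [← hall, hmem]
    have h3 := h2 _ h θ hθ
    have h4 : θ ^ 2 * w / θ = θ * w := by
      rw [div_eq_iff_eq_mul, sq]
      ac_rfl
    rwa [h4] at h3
  · intro h
    rw [← hall, hmem] at h
    have h3 := h1 _ hθ _ h
    rwa [← mul_assoc, ← sq] at h3

end Pool.Agent.Simpl
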