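import Pool.Agent.Simpl.PBasic

set_option autoImplicit false

/-! Package P2: concurrent lines (use `PBasic`).

PROOFS. Everything with the incidence conditions `pt_le_tang`, `pt_le_ax`. For unit complex numbers
`w̄ = w⁻¹`, so `pt t p ≤ tang ρ w` says `p w⁻¹ + p⁻¹ w = 2ρt`, i.e. (times `p w`)
`p² + w² = 2ρt p w` (*).
`same_radius`: `w ≠ w'` both roots of the quadratic (*) in `w`: Vieta `w w' = p²`.
`card_same_radius`: three different `w` of the same radius through the point would give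
`w w' = p² = w w''`.
`concur_FF`: the three conditions (*), divided by `p w_i`, say that `(p, p⁻¹, -2t) ≠ 0` is in the kernel
of the matrix with rows `(w_i⁻¹, w_i, ρ_i)`, so its determinant is zero; multiply by `w₁³ u v`:
`FF ρ₁ ρ₂ ρ₃ u v = 0`, `u = w₂ / w₁`, `v = w₃ / w₁` (directly: eliminate `p`, `t` with
`linear_combination`).
`concur_axis`: with `s = p²` the claim is `ρ₂ w₂ (p² + w₁²) = ρ₁ w₁ (w₂² + p²)` (times `w₁³`), both sides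
are `2 ρ₁ ρ₂ t p w₁ w₂` by (*). `concur_GG`: the same, since `w₁ w₃ = p²` by `same_radius`.
`meet`: `H ⊓ H'` has dimension 1 (`finrank_inf`), `classify_pt`, `not_org_le_tang`.
`meet_infl`: a point `pt 0 p` on both tangents: `Re (p w̄) = 0 = Re (p w̄')`, so `w, w' = ± i p`.
`meet_ax_infl`: `w = ± i p` and `s = p²`. -/

namespace Pool.Agent.Simpl

open Module Classical ComplexConjugate

private theorem mul_cj (w : Circle) : (w : ℂ) * conj (w : ℂ) = 1 := by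
  rw [← Circle.coe_inv_eq_conj, ← Circle.coe_mul, mul_inv_cancel, Circle.coe_one]

/-- the incidence condition as an equation -/
private theorem star {t ρ : ℝ} {p w : Circle} (h : pt t p ≤ tang ρ w) :
    (p : ℂ) ^ 2 + (w : ℂ) ^ 2 = 2 * ρ * t * p * w := by
  rw [pt_le_tang] at h
  have h1 := Complex.add_conj ((p : ℂ) * conj (w : ℂ))
  rw [h, map_mul, Complex.conj_conj] at h1
  push_cast at h1
  linear_combination (p * w : ℂ) * h1 - (p : ℂ) ^ 2 * mul_cj w - (w : ℂ) ^ 2 * mul_cj p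

theorem same_radius {t ρ : ℝ} {p w w' : Circle} (h : pt t p ≤ tang ρ w)
    (h' : pt t p ≤ tang ρ w') (hne : w ≠ w') : w * w' = p * p := by
  have h1 := star h
  have h2 := star h'
  have h3 : ((w : ℂ) - w') * ((w : ℂ) * w' - p * p) = 0 := by
    linear_combination (w' : ℂ) * h1 - (w : ℂ) * h2
  have h4 : (w : ℂ) - w' ≠ 0 := sub_ne_zero.2 fun h => hne (Circle.ext h)
  rcases mul_eq_zero.1 h3 with h5 | h5
  · exact absurd h5 h4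
  · apply Circle.ext
    rw [Circle.coe_mul, Circle.coe_mul]
    exact sub_eq_zero.1 h5

theorem card_same_radius {t ρ : ℝ} {p : Circle} (X : Finset Circle)
    (hX : ∀ w ∈ X, pt t p ≤ tang ρ w) : X.card ≤ 2 := by
  by_contra hc
  rw [not_le, Finset.two_lt_card] at hc
  obtain ⟨a, ha, b, hb, c, hc, hab, hac, hbc⟩ := hc
  have h1 := same_radius (hX a ha) (hX b hb) hab
  have h2 := same_radius (hX a ha) (hX c hc) hac
  exact hbc (mul_left_cancel (h1.trans h2.symm))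

theorem concur_FF {t ρ₁ ρ₂ ρ₃ : ℝ} {p w₁ w₂ w₃ : Circle} (h1 : pt t p ≤ tang ρ₁ w₁)
    (h2 : pt t p ≤ tang ρ₂ w₂) (h3 : pt t p ≤ tang ρ₃ w₃) :
    FF ρ₁ ρ₂ ρ₃ ((w₂ : ℂ) / w₁) ((w₃ : ℂ) / w₁) = 0 := by
  have e1 := star h1
  have e2 := star h2
  have e3 := star h3
  have hw1 : (w₁ : ℂ) ≠ 0 := Circle.coe_ne_zero w₁
  have key : FF ρ₁ ρ₂ ρ₃ ((w₂ : ℂ) / w₁) ((w₃ : ℂ) / w₁) =
      (ρ₃ * w₂ ^ 2 * w₃ - ρ₃ * w₃ * w₁ ^ 2 - ρ₂ * w₂ * w₃ ^ 2 + ρ₂ * w₂ * w₁ ^ 2 +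
        ρ₁ * w₃ ^ 2 * w₁ - ρ₁ * w₂ ^ 2 * w₁) / (w₁ : ℂ) ^ 3 := by
    unfold FF
    field_simp
  rw [key, div_eq_zero_iff]
  left
  by_cases ht : (t : ℂ) = 0
  · rw [ht] at e1 e2 e3
    have a1 : (w₁ : ℂ) ^ 2 = - (p : ℂ) ^ 2 := by linear_combination e1
    have a2 : (w₂ : ℂ) ^ 2 = - (p : ℂ) ^ 2 := by linear_combination e2
    have a3 : (w₃ : ℂ) ^ 2 = - (p : ℂ) ^ 2 := by linear_combination e3
    rw [a1, a2, a3]
    ring
  · have hp : (p : ℂ) ≠ 0 := Circle.coe_ne_zero p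
    have hc : (2 * t * p : ℂ) ≠ 0 := mul_ne_zero (mul_ne_zero two_ne_zero ht) hp
    apply mul_left_cancel₀ hc
    rw [mul_zero]
    linear_combination (-(w₂ : ℂ) ^ 2 + (w₁ : ℂ) ^ 2) * e3 + ((w₃ : ℂ) ^ 2 - (w₁ : ℂ) ^ 2) * e2 +
      (-(w₃ : ℂ) ^ 2 + (w₂ : ℂ) ^ 2) * e1

private theorem gg_aux {t ρ₁ ρ₂ : ℝ} {p w₁ w₂ : Circle} (h1 : pt t p ≤ tang ρ₁ w₁)
    (h2 : pt t p ≤ tang ρ₂ w₂) {v : ℂ} (hv : v * (w₁ : ℂ) ^ 2 = (p : ℂ) ^ 2) :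
    GG ρ₁ ρ₂ ((w₂ : ℂ) / w₁) v = 0 := by
  have e1 := star h1
  have e2 := star h2
  have hw1 : (w₁ : ℂ) ≠ 0 := Circle.coe_ne_zero w₁
  have key : GG ρ₁ ρ₂ ((w₂ : ℂ) / w₁) v * (w₁ : ℂ) ^ 3 =
      ρ₂ * w₂ * (v * (w₁ : ℂ) ^ 2) + ρ₂ * w₂ * w₁ ^ 2 - ρ₁ * w₂ ^ 2 * w₁ -
        ρ₁ * w₁ * (v * (w₁ : ℂ) ^ 2) := by
    unfold GG
    field_simp
  have h3 : GG ρ₁ ρ₂ ((w₂ : ℂ) / w₁) v * (w₁ : ℂ) ^ 3 = 0 := by
    rw [key, hv]
    linear_combination (ρ₂ * w₂ : ℂ) * e1 - (ρ₁ * w₁ : ℂ) * e2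
  exact (mul_eq_zero.1 h3).resolve_right (pow_ne_zero 3 hw1)

theorem concur_GG {t ρ₁ ρ₂ : ℝ} {p w₁ w₂ w₃ : Circle} (h1 : pt t p ≤ tang ρ₁ w₁)
    (h2 : pt t p ≤ tang ρ₂ w₂) (h3 : pt t p ≤ tang ρ₁ w₃) (hne : w₃ ≠ w₁) :
    GG ρ₁ ρ₂ ((w₂ : ℂ) / w₁) ((w₃ : ℂ) / w₁) = 0 := by
  apply gg_aux h1 h2
  have h4 := congrArg (fun z : Circle => (z : ℂ)) (same_radius h3 h1 hne)
  simp only [Circle.coe_mul] at h4
  have hw1 : (w₁ : ℂ) ≠ 0 := Circle.coe_ne_zero w₁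
  rw [pow_two (p : ℂ), ← h4]
  field_simp

theorem concur_axis {t ρ₁ ρ₂ : ℝ} {p w₁ w₂ s : Circle}
    (h1 : pt t p ≤ tang ρ₁ w₁) (h2 : pt t p ≤ tang ρ₂ w₂) (hs : pt t p ≤ ax s) :
    GG ρ₁ ρ₂ ((w₂ : ℂ) / w₁) ((s : ℂ) / (w₁ : ℂ) ^ 2) = 0 := by
  apply gg_aux h1 h2
  have hw1 : (w₁ : ℂ) ≠ 0 := Circle.coe_ne_zero w₁
  rw [div_mul_cancel₀ _ (pow_ne_zero 2 hw1), ← pt_le_ax.1 hs, Circle.coe_mul, pow_two]

/-- The intersection of a tangent with another plane. -/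
theorem meet {ρ : ℝ} {w : Circle} (hρ : 0 < ρ) {H : Submodule ℝ (ℂ × ℝ)}
    (hH : finrank ℝ H = 2) (hne : tang ρ w ≠ H) :
    ∃ (t : ℝ) (p : Circle), 0 ≤ t ∧ tang ρ w ⊓ H = pt t p := by
  have h1 := finrank_inf finrank_CR (finrank_tang ρ w) hH hne
  rcases classify_pt _ h1 with h2 | h2
  · exact absurd (h2 ▸ inf_le_left : org ≤ tang ρ w) (not_org_le_tang hρ)
  · exact h2

private theorem sq_aux {p w : Circle} {ρ : ℝ} (h : pt 0 p ≤ tang ρ w) :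
    (w : ℂ) ^ 2 = - (p : ℂ) ^ 2 := by
  have h1 := star h
  push_cast at h1
  linear_combination h1

theorem meet_infl {ρ ρ' : ℝ} {w w' : Circle} (hρ : 0 < ρ) (hρ' : 0 < ρ')
    (hne : tang ρ w ≠ tang ρ' w') (h : tang ρ w ⊓ tang ρ' w' ≤ infl) : w' = w ∨ w' = -w := by
  obtain ⟨t, p, -, h1⟩ := meet hρ (finrank_tang ρ' w') hne
  have h2 : t = 0 := pt_le_infl.1 (h1 ▸ h)
  subst h2
  have h3 := sq_aux (h1 ▸ inf_le_left : pt 0 p ≤ tang ρ w)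
  have h4 := sq_aux (h1 ▸ inf_le_right : pt 0 p ≤ tang ρ' w')
  rcases sq_eq_sq_iff_eq_or_eq_neg.1 (h4.trans h3.symm) with h5 | h5
  · exact Or.inl (Circle.ext h5)
  · exact Or.inr (Circle.ext (by rw [h5, Circle.coe_neg]))

theorem meet_ax_infl {ρ : ℝ} {w s : Circle} (hρ : 0 < ρ) (h : tang ρ w ⊓ ax s ≤ infl) :
    s = -(w * w) := by
  obtain ⟨t, p, -, h1⟩ := meet hρ (finrank_ax s) (tang_ne_ax hρ)
  have h2 : t = 0 := pt_le_infl.1 (h1 ▸ h)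
  subst h2
  have h3 := sq_aux (h1 ▸ inf_le_left : pt 0 p ≤ tang ρ w)
  have h4 := pt_le_ax.1 (h1 ▸ inf_le_right : pt 0 p ≤ ax s)
  apply Circle.ext
  rw [← h4, Circle.coe_neg, Circle.coe_mul, Circle.coe_mul]
  linear_combination h3

end Pool.Agent.Simpl
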