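import Pool.Agent.Simpl.PDataEx
import Pool.Agent.Simpl.Concur

set_option autoImplicit false

/-! The line at infinity requires an even number of sides.

PROOF. `T = {(ρ, w) | w^N = 1}`, `S = {s | s^N = 1}`, `N` odd, and suppose `infl ∈ A`. Every other
plane `H` of `A` meets `infl` in a point `P = H ⊓ infl` of dimension one, and these points are different:
two tangents `w ≠ w'` meeting on `infl` have `w' = -w` (`meet_infl`), `(-w)^N = -1 ≠ 1`; a tangent and an
axis: `s = -w²` (`meet_ax_infl`), `s^N = -1`; two axes meet in `org`, which is not on `infl`. So the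
`2N` points `H ⊓ infl` are double points (`mult_eq_two`), `2N ≤ dbl A`. On the other hand `dbl_eq`:
`dbl A = 3 + ∑ (m_P - 3)` (truncated): `P = org` has `m_P = N` (the axes only); `P ≤ infl` has `m_P = 2`;
`P = pt t p` with `t > 0` has at most two tangents (`card_same_radius`) and one axis (`pt_le_ax`):
`m_P ≤ 3`. So `dbl A ≤ 3 + (N - 3) = N` (`N ≥ 3`), a contradiction. -/

namespace Pool.Agent.Simpl

open Module Classical ComplexConjugate

/-- two planes which meet another one in the same point of the line at infinity -/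
private theorem inf_le {H L : Submodule ℝ (ℂ × ℝ)} (hH : finrank ℝ H = 2) (hL : finrank ℝ L = 2)
    (hHi : H ≠ infl) (hHL : H ≠ L) (h : H ⊓ infl ≤ L) : H ⊓ L = H ⊓ infl := by
  have h1 : H ⊓ infl ≤ H ⊓ L := le_inf inf_le_left h
  have h2 : finrank ℝ (H ⊓ infl : Submodule ℝ (ℂ × ℝ)) = 1 :=
    finrank_inf finrank_CR hH finrank_infl hHi
  have h3 : finrank ℝ (H ⊓ L : Submodule ℝ (ℂ × ℝ)) = 1 := finrank_inf finrank_CR hH hL hHL
  exact (Submodule.eq_of_le_of_finrank_eq h1 (by rw [h2, h3])).symm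

private theorem neg_one_circle : (-1 : Circle) ≠ 1 := by
  intro h
  have h1 := congrArg (fun z : Circle => (z : ℂ)) h
  simp only [Circle.coe_neg, Circle.coe_one] at h1
  have h2 := congrArg Complex.re h1
  norm_num at h2

/-- the planes through the intersection with the line at infinity -/
private theorem inf_only {A : Finset (Submodule ℝ (ℂ × ℝ))} (hA : ∀ H ∈ A, finrank ℝ H = 2) {r : ℕ}
    {T : Finset (ℝ × Circle)} {S : Finset Circle} (h : PData A r T S) {ρ : ℝ} (hρ : 0 < ρ)
    {N : ℕ} (hT : ∀ x : ℝ × Circle, x ∈ T ↔ x.1 = ρ ∧ x.2 ^ N = 1)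
    (hS : ∀ s : Circle, s ∈ S ↔ s ^ N = 1) (hodd : Odd N) {H L : Submodule ℝ (ℂ × ℝ)}
    (hH : H ∈ A) (hL : L ∈ A) (hHi : H ≠ infl) (hle : H ⊓ infl ≤ L) : L = H ∨ L = infl := by
  by_contra hcon
  push Not at hcon
  obtain ⟨h1, h2⟩ := hcon
  have he := inf_le (hA H hH) (hA L hL) hHi (Ne.symm h1) hle
  have hi : H ⊓ L ≤ infl := he.le.trans inf_le_right
  have hi' : L ⊓ H ≤ infl := by
    rw [inf_comm]
    exact hi
  have hax : ∀ w s : Circle, w ^ N = 1 → s ^ N = 1 → s = -(w * w) → False := by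
    intro w s hw hs hsw
    have h3 : s ^ N = -1 := by
      rw [hsw, hodd.neg_pow, mul_pow, hw, mul_one]
    rw [hs] at h3
    exact neg_one_circle h3.symm
  rcases h.cases H hH with ⟨x, hx, rfl⟩ | ⟨s, hs, rfl⟩ | rfl
  · obtain ⟨hx1, hx2⟩ := (hT x).1 hx
    rcases h.cases L hL with ⟨y, hy, rfl⟩ | ⟨s, hs, rfl⟩ | rfl
    · obtain ⟨hy1, hy2⟩ := (hT y).1 hy
      rw [hx1, hy1] at hi h1
      rcases meet_infl hρ hρ (Ne.symm h1) hi with h3 | h3
      · exact h1 (by rw [h3])
      · have h4 : y.2 ^ N = -1 := by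
          rw [h3, hodd.neg_pow, hx2]
        rw [hy2] at h4
        exact neg_one_circle h4.symm
    · exact hax x.2 s hx2 ((hS s).1 hs) (meet_ax_infl (h.pos x hx) hi)
    · exact h2 rfl
  · rcases h.cases L hL with ⟨y, hy, rfl⟩ | ⟨s', hs', rfl⟩ | rfl
    · obtain ⟨hy1, hy2⟩ := (hT y).1 hy
      exact hax y.2 s hy2 ((hS s).1 hs) (meet_ax_infl (h.pos y hy) hi')
    · exact not_org_le_infl ((le_inf (org_le_ax s) (org_le_ax s')).trans hi)
    · exact h2 rfl
  · exact hHi rfl

theorem infl_even {A : Finset (Submodule ℝ (ℂ × ℝ))} (hA : ∀ H ∈ A, finrank ℝ H = 2) {r : ℕ}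
    {T : Finset (ℝ × Circle)} {S : Finset Circle} (h : PData A r T S) (hM : Mel A) {ρ : ℝ}
    {N : ℕ} (hN : 3 ≤ N) (hT : ∀ x : ℝ × Circle, x ∈ T ↔ x.1 = ρ ∧ x.2 ^ N = 1)
    (hS : ∀ s : Circle, s ∈ S ↔ s ^ N = 1) (hinf : infl ∈ A) : Even N := by
  by_contra hne
  have hodd : Odd N := Nat.not_even_iff_odd.1 hne
  have h1T : ((ρ, 1) : ℝ × Circle) ∈ T := (hT _).2 ⟨rfl, one_pow N⟩
  have hρ : 0 < ρ := h.pos _ h1T
  obtain ⟨U, hUc, hU⟩ := card_roots (r := N) (by omega)
  have hSU : S = U := by
    ext s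
    rw [hS, hU]
  have hTU : T = U.image fun w => (ρ, w) := by
    ext x
    rw [hT, Finset.mem_image]
    constructor
    · rintro ⟨h1, h2⟩
      exact ⟨x.2, (hU _).2 h2, Prod.ext h1.symm rfl⟩
    · rintro ⟨w, hw, rfl⟩
      exact ⟨rfl, (hU _).1 hw⟩
  have hSc : S.card = N := by rw [hSU, hUc]
  have hTc : T.card = N := by
    rw [hTU, Finset.card_image_of_injective _ (fun a b hab => (Prod.ext_iff.1 hab).2), hUc]
  have hAc := card_add_le h
  have honly : ∀ H ∈ A, H ≠ infl → ∀ L ∈ A, H ⊓ infl ≤ L → L = H ∨ L = infl :=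
    fun H hH hHi L hL hle => inf_only hA h hρ hT hS hodd hH hL hHi hle
  -- the lower bound for the number of the double points
  have hlow : (A.erase infl).card ≤ dbl A := by
    refine Finset.card_le_card_of_injOn (fun H => H ⊓ infl) ?_ ?_
    · intro H hH
      obtain ⟨hHi, hHA⟩ := Finset.mem_erase.1 (Finset.mem_coe.1 hH)
      refine Finset.mem_coe.2 (Finset.mem_filter.2 ⟨?_, ?_⟩)
      · exact Finset.mem_image.2 ⟨(H, infl), Finset.mem_offDiag.2 ⟨hHA, hinf, hHi⟩, rfl⟩
      · exact mult_eq_two hHA hinf hHi fun L hL hle => honly H hHA hHi L hL hle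
    · intro H hH H' hH' he
      obtain ⟨hHi, hHA⟩ := Finset.mem_erase.1 (Finset.mem_coe.1 hH)
      obtain ⟨hHi', hHA'⟩ := Finset.mem_erase.1 (Finset.mem_coe.1 hH')
      have h3 : H ⊓ infl ≤ H' := by
        have h4 : H ⊓ infl = H' ⊓ infl := he
        rw [h4]
        exact inf_le_left
      rcases honly H hHA hHi H' hHA' h3 with h4 | h4
      · exact h4.symm
      · exact absurd h4 hHi'
  rw [Finset.card_erase_of_mem hinf] at hlow
  -- the upper bound
  have hterm : ∀ P ∈ verts A, mult A P - 3 ≤ if P = org then N - 3 else 0 := by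
    intro P hP
    obtain ⟨⟨H, H'⟩, hHH, rfl⟩ := Finset.mem_image.1 hP
    obtain ⟨hH, hH', hHne⟩ := Finset.mem_offDiag.1 hHH
    simp only at hH hH' hHne ⊢
    have hfr : finrank ℝ (H ⊓ H' : Submodule ℝ (ℂ × ℝ)) = 1 :=
      finrank_inf finrank_CR (hA H hH) (hA H' hH') hHne
    split_ifs with horg
    · -- the origin
      refine Nat.sub_le_sub_right ?_ 3
      rw [horg, ← hSc]
      have hsub : A.filter (org ≤ ·) ⊆ S.image ax := by
        intro L hL
        obtain ⟨hLA, hLo⟩ := Finset.mem_filter.1 hL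
        rcases h.cases L hLA with ⟨x, hx, rfl⟩ | ⟨s, hs, rfl⟩ | rfl
        · exact absurd hLo (not_org_le_tang (h.pos x hx))
        · exact Finset.mem_image_of_mem _ hs
        · exact absurd hLo not_org_le_infl
      exact (Finset.card_le_card hsub).trans Finset.card_image_le
    · rcases classify_pt _ hfr with h3 | ⟨t, p, ht, h3⟩
      · exact absurd h3 horg
      rcases ht.eq_or_lt with ht0 | ht0
      · -- a point at infinity
        have hPi : H ⊓ H' ≤ infl := by
          rw [h3]
          exact pt_le_infl.2 ht0.symm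
        have hgen : ∀ K K' : Submodule ℝ (ℂ × ℝ), K ∈ A → K' ∈ A → K ≠ K' → K ≠ infl →
            K ⊓ K' ≤ infl → mult A (K ⊓ K') = 2 := by
          intro K K' hK hK' hKne hKi hle
          have h4 : K ⊓ K' = K ⊓ infl := by
            have h5 : K ⊓ K' ≤ K ⊓ infl := le_inf inf_le_left hle
            refine Submodule.eq_of_le_of_finrank_eq h5 ?_
            rw [finrank_inf finrank_CR (hA K hK) (hA K' hK') hKne,
              finrank_inf finrank_CR (hA K hK) finrank_infl hKi]
          rw [h4]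
          exact mult_eq_two hK hinf hKi fun L hL hle' => honly K hK hKi L hL hle'
        have h2 : mult A (H ⊓ H') = 2 := by
          by_cases hHi : H = infl
          · rw [inf_comm]
            refine hgen H' H hH' hH (Ne.symm hHne) ?_ (by rw [inf_comm]; exact hPi)
            intro h6
            exact hHne (hHi.trans h6.symm)
          · exact hgen H H' hH hH' hHne hHi hPi
        rw [h2]
      · -- a finite point
        have hsub : A.filter (H ⊓ H' ≤ ·) ⊆
            ((U.filter fun w => pt t p ≤ tang ρ w).image fun w => tang ρ w) ∪ {ax (p * p)} := by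
          intro L hL
          obtain ⟨hLA, hLo⟩ := Finset.mem_filter.1 hL
          rw [h3] at hLo
          rcases h.cases L hLA with ⟨x, hx, rfl⟩ | ⟨s, hs, rfl⟩ | rfl
          · obtain ⟨hx1, hx2⟩ := (hT x).1 hx
            rw [hx1] at hLo ⊢
            refine Finset.mem_union_left _ (Finset.mem_image.2 ⟨x.2, ?_, rfl⟩)
            exact Finset.mem_filter.2 ⟨(hU _).2 hx2, hLo⟩
          · rw [pt_le_ax] at hLo
            rw [← hLo]
            exact Finset.mem_union_right _ (Finset.mem_singleton_self _)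
          · exact absurd (pt_le_infl.1 hLo) ht0.ne'
        have hc : mult A (H ⊓ H') ≤ 2 + 1 := by
          refine (Finset.card_le_card hsub).trans ((Finset.card_union_le _ _).trans ?_)
          refine add_le_add (Finset.card_image_le.trans ?_) (by rw [Finset.card_singleton])
          exact card_same_radius _ fun w hw => (Finset.mem_filter.1 hw).2
        omega
  have hup : dbl A ≤ N := by
    rw [dbl_eq A hM]
    have h4 : ∑ P ∈ verts A, (mult A P - 3) ≤ ∑ P ∈ verts A, if P = org then N - 3 else 0 :=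
      Finset.sum_le_sum hterm
    have h5 : (∑ P ∈ verts A, if P = org then N - 3 else 0) ≤ N - 3 := by
      rw [Finset.sum_ite_eq']
      split_ifs
      · exact le_rfl
      · exact Nat.zero_le _
    omega
  omega

end Pool.Agent.Simpl
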