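import Pool.Agent.Simpl.Upper

set_option autoImplicit false

/-! Package P7: one radius: the tangents and the axes form cosets.

PROOF. All tangents have the radius `ρ`, so `dbl A ≤ 3 + |S| + |A| ≤ 3 + 2|A|` (`upper` with `ρ₀ = ρ`, empty
sum; `card_add_le`). `U` = the `r`-th roots of unity (`card_roots`), `Sq = U.image (·^2)`,
`r ≤ 2 |Sq|` (`card_sq_roots`).
`mul_mem`: suppose `α β ∉ S`. For `ω ∈ U`, `σ ∈ Sq` put `α' = ω α`, `β' = ω⁻¹ σ β` (in `T` by `rotT`; `σ`
and `ω⁻¹` are in `U`); `α' β' = σ α β ∉ S` (otherwise multiply by the square `σ⁻¹` of an `r`-th root of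
unity, `rotS`). If `β' ≠ ± α'` then `tang ρ α' ⊓ tang ρ β'` is a double point: it is `pt t p` with `t > 0`
(`meet`, `meet_infl`); another tangent `w` through it would be equal to one of the two
(`card_same_radius`), an axis `s` through it would be `s = p² = α' β'` (`pt_le_ax`,
`same_radius`), and `infl` does not contain it. The pairs `(ω, σ)` are `r |Sq|` many, and for each `σ` at
most 4 `ω` have `β' = ± α'` (`ω² = ± σ β / α`), the map `(ω, σ) ↦ (α', β')` is injective, so
`r |Sq| - 4 |Sq| ≤ 2 dbl A` (`pairs_le`), i.e. `(r - 4) r / 2 ≤ 2 (3 + 2|A|) ≤ 6 + r²/1000`: contradiction.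
`div_mem`: suppose `(ρ, s/α) ∉ T`. For `σ ∈ Sq`, `ω ∈ U` the axis `s' = σ s` and the tangent
`α' = ω α` meet in a double point unless they are parallel: the point is `pt t p`, `t > 0`,
`p² = s'`; another axis is `p² = s'`, a second tangent is `w = s' / α' = (σ/ω) (s/α)`
(`same_radius`), and `(ρ, w) ∈ T` would give `(ρ, s/α) ∈ T` (`rotT`). Parallel (`meet_ax_infl`):
`s' = -α'^2`, at most two `ω` for each `σ`. So `(r - 2)|Sq| ≤ 2 dbl A`, contradiction. -/

namespace Pool.Agent.Simpl

open Module Classical ComplexConjugate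

variable {A : Finset (Submodule ℝ (ℂ × ℝ))} {r : ℕ} {T : Finset (ℝ × Circle)} {S : Finset Circle}

private theorem Products_sqrt (X : Finset Circle) (c : Circle) (hX : ∀ w ∈ X, w ^ 2 = c) :
    X.card ≤ 2 := by
  rcases X.eq_empty_or_nonempty with h | ⟨w0, hw0⟩
  · simp [h]
  · have hsub : X ⊆ {w0, -w0} := by
      intro w hw
      have h1 : w ^ 2 = w0 ^ 2 := (hX w hw).trans (hX w0 hw0).symm
      have h2 : (w : ℂ) ^ 2 = (w0 : ℂ) ^ 2 := by
        rw [← Circle.coe_pow, ← Circle.coe_pow, h1]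
      rcases sq_eq_sq_iff_eq_or_eq_neg.1 h2 with h3 | h3
      · simp [Circle.ext h3]
      · have h4 : w = -w0 := Circle.ext (by rw [h3, Circle.coe_neg])
        simp [h4]
    exact (Finset.card_le_card hsub).trans Finset.card_le_two

private theorem Products_count {U Sq : Finset Circle} {k : ℕ} (Pr : Circle × Circle → Prop)
    (hk : ∀ σ ∈ Sq, ∀ Y : Finset Circle, (∀ ω ∈ Y, ω ∈ U ∧ ¬ Pr (ω, σ)) → Y.card ≤ k)
    (f : Circle × Circle → Submodule ℝ (ℂ × ℝ) × Submodule ℝ (ℂ × ℝ))
    (hinj : ∀ z z', f z = f z' → z = z')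
    (hQ : ∀ z, z.1 ∈ U → z.2 ∈ Sq → Pr z →
      (f z).1 ∈ A ∧ (f z).2 ∈ A ∧ (f z).1 ≠ (f z).2 ∧ mult A ((f z).1 ⊓ (f z).2) = 2) :
    U.card * Sq.card ≤ 2 * dbl A + k * Sq.card := by
  have h1 := Finset.card_filter_add_card_filter_not (s := U ×ˢ Sq) Pr
  rw [Finset.card_product] at h1
  have h2 : ((U ×ˢ Sq).filter Pr).card ≤ 2 * dbl A := by
    rw [← Finset.card_image_of_injective _ (f := f) (fun z z' h => hinj z z' h)]
    refine pairs_le A _ fun q hq => ?_
    obtain ⟨z, hz, rfl⟩ := Finset.mem_image.1 hq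
    obtain ⟨hz1, hz2⟩ := Finset.mem_filter.1 hz
    exact hQ z (Finset.mem_product.1 hz1).1 (Finset.mem_product.1 hz1).2 hz2
  have h3 : ((U ×ˢ Sq).filter fun z => ¬ Pr z).card ≤ k * Sq.card := by
    have h4 := Finset.card_le_mul_card_image (f := Prod.snd)
      ((U ×ˢ Sq).filter fun z => ¬ Pr z) k (by
        intro σ hσ
        obtain ⟨z, hz, hzσ⟩ := Finset.mem_image.1 hσ
        have hσ' : σ ∈ Sq := hzσ ▸ (Finset.mem_product.1 (Finset.mem_filter.1 hz).1).2
        refine le_trans ?_ (hk σ hσ' (U.filter fun ω => ¬ Pr (ω, σ))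
          fun ω hω => Finset.mem_filter.1 hω)
        refine Finset.card_le_card_of_injOn Prod.fst ?_ ?_
        · intro w hw
          simp only [Finset.coe_filter, Set.mem_ofPred_eq, Finset.mem_filter,
            Finset.mem_product] at hw ⊢
          obtain ⟨⟨⟨ha, _⟩, hb⟩, hc⟩ := hw
          refine ⟨ha, ?_⟩
          rw [← hc]
          exact hb
        · intro w hw w' hw' he
          simp only [Finset.coe_filter, Set.mem_ofPred_eq, Finset.mem_filter,
            Finset.mem_product] at hw hw'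
          exact Prod.ext he (hw.2.trans hw'.2.symm))
    refine h4.trans (Nat.mul_le_mul_left k (Finset.card_le_card ?_))
    intro σ hσ
    obtain ⟨z, hz, hzσ⟩ := Finset.mem_image.1 hσ
    exact hzσ ▸ (Finset.mem_product.1 (Finset.mem_filter.1 hz).1).2
  omega

private theorem Products_dbl (hA : ∀ H ∈ A, finrank ℝ H = 2) (h : PData A r T S) (hM : Mel A)
    {ρ : ℝ} (hρ : ∀ x ∈ T, x.1 = ρ) : dbl A ≤ 3 + 2 * A.card := by
  have h1 := upper hA h hM ρ
  have h2 : T.filter (fun x => x.1 ≠ ρ) = ∅ := by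
    rw [Finset.filter_eq_empty_iff]
    intro x hx hne
    exact hne (hρ x hx)
  rw [h2, Finset.sum_empty] at h1
  have h3 := card_add_le h
  omega

private theorem Products_arith {r n q d k : ℕ} (hr : 100 ≤ r) (hn : 4000 * n ≤ r ^ 2)
    (hk : k ≤ 4) (hq : r ≤ 2 * q) (hd : d ≤ 3 + 2 * n) (hc : r * q ≤ 2 * d + k * q) : False := by
  have h1 : r * q ≤ 2 * d + 4 * q := hc.trans (by
    have := Nat.mul_le_mul_right q hk
    omega)
  obtain ⟨m, rfl⟩ := Nat.exists_eq_add_of_le hr
  nlinarith [Nat.mul_le_mul_left (96 + m) hq]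

theorem mul_mem_S (hA : ∀ H ∈ A, finrank ℝ H = 2) (h : PData A r T S) (hM : Mel A)
    (hr : 100 ≤ r) (hn : 4000 * A.card ≤ r ^ 2) {ρ : ℝ} (hρ : ∀ x ∈ T, x.1 = ρ) {α β : Circle}
    (hα : (ρ, α) ∈ T) (hβ : (ρ, β) ∈ T) : α * β ∈ S := by
  by_contra hcon
  have hpos : 0 < ρ := h.pos _ hα
  obtain ⟨U, hU, hmem⟩ := card_roots (r := r) (by omega)
  have hcount : U.card * (U.image fun w => w ^ 2).card ≤
      2 * dbl A + 4 * (U.image fun w => w ^ 2).card := by
    refine Products_count (fun z => z.1⁻¹ * z.2 * β ≠ z.1 * α ∧ z.1⁻¹ * z.2 * β ≠ -(z.1 * α)) ?_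
      (fun z => (tang ρ (z.1 * α), tang ρ (z.1⁻¹ * z.2 * β))) ?_ ?_
    · intro σ _ Y hY
      have hsub : Y ⊆
          (U.filter fun ω => ω ^ 2 = σ * β / α) ∪ (U.filter fun ω => ω ^ 2 = -(σ * β / α)) := by
        intro ω hω
        obtain ⟨hω1, hω2⟩ := hY ω hω
        rw [Finset.mem_union, Finset.mem_filter, Finset.mem_filter]
        have hc : ∀ x : Circle, (x : ℂ) ≠ 0 := fun x => Circle.coe_ne_zero x
        by_cases h1 : ω⁻¹ * σ * β = ω * α
        · left
          refine ⟨hω1, ?_⟩
          rw [eq_div_iff_mul_eq', pow_two, mul_assoc, ← h1]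
          group
        · right
          have h2 : ω⁻¹ * σ * β = -(ω * α) := by
            by_contra h3
            exact hω2 ⟨h1, h3⟩
          refine ⟨hω1, ?_⟩
          apply Circle.ext
          have h4 : ((ω⁻¹ * σ * β : Circle) : ℂ) = ((-(ω * α) : Circle) : ℂ) := by rw [h2]
          simp only [Circle.coe_mul, Circle.coe_neg, Circle.coe_inv, Circle.coe_pow,
            Circle.coe_div] at h4 ⊢
          have ha := hc α
          have hb := hc ω
          field_simp at h4 ⊢
          linear_combination h4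
      refine (Finset.card_le_card hsub).trans ((Finset.card_union_le _ _).trans ?_)
      have h5 := Products_sqrt (U.filter fun ω => ω ^ 2 = σ * β / α) (σ * β / α)
        fun w hw => (Finset.mem_filter.1 hw).2
      have h6 := Products_sqrt (U.filter fun ω => ω ^ 2 = -(σ * β / α)) (-(σ * β / α))
        fun w hw => (Finset.mem_filter.1 hw).2
      omega
    · intro z z' he
      have h1 := (tang_inj hpos hpos (congrArg Prod.fst he)).2
      have h2 := (tang_inj hpos hpos (congrArg Prod.snd he)).2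
      have h3 : z.1 = z'.1 := mul_right_cancel h1
      have h4 : z.1⁻¹ * z.2 = z'.1⁻¹ * z'.2 := mul_right_cancel h2
      rw [h3] at h4
      exact Prod.ext h3 (mul_left_cancel h4)
    · rintro ⟨ω, σ⟩ hω hσ ⟨hn1, hn2⟩
      obtain ⟨η, hη, hησ⟩ := Finset.mem_image.1 hσ
      have hω' : ω ^ r = 1 := (hmem ω).1 hω
      have hη' : η ^ r = 1 := (hmem η).1 hη
      have hσr : σ ^ r = 1 := by
        have : σ = η ^ 2 := hησ.symm
        rw [this, ← pow_mul, mul_comm, pow_mul, hη', one_pow]
      have hT1 : (ρ, ω * α) ∈ T := h.rotT ω hω' _ hα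
      have hT2 : (ρ, ω⁻¹ * σ * β) ∈ T := h.rotT (ω⁻¹ * σ) (by
        rw [mul_pow, inv_pow, hω', hσr, inv_one, mul_one]) _ hβ
      have hne : tang ρ (ω * α) ≠ tang ρ (ω⁻¹ * σ * β) := fun he =>
        hn1 (tang_inj hpos hpos he).2.symm
      refine ⟨(h.tang_mem ρ _ hpos).2 hT1, (h.tang_mem ρ _ hpos).2 hT2, hne, ?_⟩
      refine mult_eq_two ((h.tang_mem ρ _ hpos).2 hT1) ((h.tang_mem ρ _ hpos).2 hT2) hne ?_
      obtain ⟨t, p, ht, hp⟩ := meet hpos (finrank_tang ρ (ω⁻¹ * σ * β)) hne
      have hle1 : pt t p ≤ tang ρ (ω * α) := hp ▸ inf_le_left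
      have hle2 : pt t p ≤ tang ρ (ω⁻¹ * σ * β) := hp ▸ inf_le_right
      have ht0 : t ≠ 0 := by
        intro h0
        have h1 : tang ρ (ω * α) ⊓ tang ρ (ω⁻¹ * σ * β) ≤ infl := by
          rw [hp]
          exact pt_le_infl.2 h0
        rcases meet_infl hpos hpos hne h1 with h2 | h2
        · exact hn1 h2
        · exact hn2 h2
      intro L hL hPL
      have hPL' : pt t p ≤ L := hp ▸ hPL
      have hprod := same_radius hle1 hle2 (fun he => hn1 he.symm)
      rcases h.cases L hL with ⟨x, hx, rfl⟩ | ⟨s, hs, rfl⟩ | rfl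
      · rw [hρ x hx] at hPL' ⊢
        by_cases h1 : x.2 = ω * α
        · left
          rw [h1]
        · right
          have h2 := same_radius hle1 hPL' (fun he => h1 he.symm)
          rw [← hprod] at h2
          rw [mul_left_cancel h2]
      · exfalso
        have h1 : p * p = s := pt_le_ax.1 hPL'
        apply hcon
        have h2 := h.rotS η⁻¹ (by rw [inv_pow, hη', inv_one]) s hs
        have h3 : η⁻¹ ^ 2 * s = α * β := by
          have h4 : σ = η ^ 2 := hησ.symm
          rw [← h1, ← hprod, h4]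
          apply Circle.ext
          simp only [Circle.coe_mul, Circle.coe_inv, Circle.coe_pow]
          have ha : (η : ℂ) ≠ 0 := Circle.coe_ne_zero η
          have hb : (ω : ℂ) ≠ 0 := Circle.coe_ne_zero ω
          field_simp
        rw [h3] at h2
        exact h2
      · exact absurd (pt_le_infl.1 hPL') ht0
  rw [hU] at hcount
  have hq := card_sq_roots U
  rw [hU] at hq
  exact Products_arith hr hn le_rfl hq (Products_dbl hA h hM hρ) hcount

theorem div_mem_T (hA : ∀ H ∈ A, finrank ℝ H = 2) (h : PData A r T S) (hM : Mel A)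
    (hr : 100 ≤ r) (hn : 4000 * A.card ≤ r ^ 2) {ρ : ℝ} (hρ : ∀ x ∈ T, x.1 = ρ) {s α : Circle}
    (hs : s ∈ S) (hα : (ρ, α) ∈ T) : (ρ, s / α) ∈ T := by
  by_contra hcon
  have hpos : 0 < ρ := h.pos _ hα
  obtain ⟨U, hU, hmem⟩ := card_roots (r := r) (by omega)
  have hcount : U.card * (U.image fun w => w ^ 2).card ≤
      2 * dbl A + 2 * (U.image fun w => w ^ 2).card := by
    refine Products_count (fun z => z.2 * s ≠ -(z.1 * α * (z.1 * α))) ?_
      (fun z => (tang ρ (z.1 * α), ax (z.2 * s))) ?_ ?_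
    · intro σ _ Y hY
      refine Products_sqrt Y (-(σ * s / (α * α))) ?_
      intro ω hω
      have h2 : σ * s = -(ω * α * (ω * α)) := by
        by_contra h3
        exact (hY ω hω).2 h3
      apply Circle.ext
      have h4 : ((σ * s : Circle) : ℂ) = ((-(ω * α * (ω * α)) : Circle) : ℂ) := by rw [h2]
      simp only [Circle.coe_mul, Circle.coe_neg, Circle.coe_pow, Circle.coe_div] at h4 ⊢
      have ha : (α : ℂ) ≠ 0 := Circle.coe_ne_zero α
      field_simp
      linear_combination h4
    · intro z z' he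
      have h1 := (tang_inj hpos hpos (congrArg Prod.fst he)).2
      have h2 := ax_inj (congrArg Prod.snd he)
      exact Prod.ext (mul_right_cancel h1) (mul_right_cancel h2)
    · rintro ⟨ω, σ⟩ hω hσ hn1
      obtain ⟨η, hη, hησ⟩ := Finset.mem_image.1 hσ
      have hω' : ω ^ r = 1 := (hmem ω).1 hω
      have hη' : η ^ r = 1 := (hmem η).1 hη
      have hσr : σ ^ r = 1 := by
        have : σ = η ^ 2 := hησ.symm
        rw [this, ← pow_mul, mul_comm, pow_mul, hη', one_pow]
      have hT1 : (ρ, ω * α) ∈ T := h.rotT ω hω' _ hα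
      have hS2 : σ * s ∈ S := by
        have := h.rotS η hη' s hs
        rwa [show η ^ 2 = σ from hησ] at this
      have hne : tang ρ (ω * α) ≠ ax (σ * s) := tang_ne_ax hpos
      have hA1 := (h.tang_mem ρ _ hpos).2 hT1
      have hA2 := (h.ax_mem _).2 hS2
      refine ⟨hA1, hA2, hne, ?_⟩
      refine mult_eq_two hA1 hA2 hne ?_
      obtain ⟨t, p, ht, hp⟩ := meet hpos (finrank_ax (σ * s)) hne
      have hle1 : pt t p ≤ tang ρ (ω * α) := hp ▸ inf_le_left
      have hle2 : pt t p ≤ ax (σ * s) := hp ▸ inf_le_right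
      have hpp : p * p = σ * s := pt_le_ax.1 hle2
      have ht0 : t ≠ 0 := by
        intro h0
        have h1 : tang ρ (ω * α) ⊓ ax (σ * s) ≤ infl := by
          rw [hp]
          exact pt_le_infl.2 h0
        exact hn1 (meet_ax_infl hpos h1)
      intro L hL hPL
      have hPL' : pt t p ≤ L := hp ▸ hPL
      rcases h.cases L hL with ⟨x, hx, rfl⟩ | ⟨s', hs', rfl⟩ | rfl
      · have hxρ := hρ x hx
        rw [hxρ] at hPL' ⊢
        by_cases h1 : x.2 = ω * α
        · left
          rw [h1]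
        · exfalso
          have h2 := same_radius hle1 hPL' (fun he => h1 he.symm)
          rw [hpp] at h2
          apply hcon
          have h3 := h.rotT (ω * σ⁻¹) (by
            rw [mul_pow, inv_pow, hω', hσr, inv_one, mul_one]) x hx
          have h4 : ω * σ⁻¹ * x.2 = s / α := by
            have h5 : x.2 = (ω * α)⁻¹ * (σ * s) := by
              rw [← h2]
              group
            rw [h5]
            apply Circle.ext
            simp only [Circle.coe_mul, Circle.coe_inv, Circle.coe_div]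
            have ha : (α : ℂ) ≠ 0 := Circle.coe_ne_zero α
            have hb : (ω : ℂ) ≠ 0 := Circle.coe_ne_zero ω
            have hc : (σ : ℂ) ≠ 0 := Circle.coe_ne_zero σ
            field_simp
          rw [h4, hxρ] at h3
          exact h3
      · right
        have h1 : p * p = s' := pt_le_ax.1 hPL'
        rw [← h1, hpp]
      · exact absurd (pt_le_infl.1 hPL') ht0
  rw [hU] at hcount
  have hq := card_sq_roots U
  rw [hU] at hq
  exact Products_arith hr hn (by norm_num) hq (Products_dbl hA h hM hρ) hcount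

end Pool.Agent.Simpl
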