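import Pool.Agent.Simpl.OneRadius
import Pool.Agent.Simpl.Products
import Pool.Agent.Simpl.Infinity
import Pool.Agent.Simpl.CircleGroup

set_option autoImplicit false

/-! Package P10: the classification of the invariant arrangements in `P(ℂ × ℝ)` (use the other
files as black boxes).

PROOF. `mel_map`, `isNearPencil_map`: transport by a linear isomorphism (`H ↦ map e H` is an
isomorphism of lattices preserving dimensions; `verts (A.image map) = (verts A).image map`, the
multiplicities agree).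
`polReg_of`: if `x ∈ T ↔ x.1 = ρ ∧ (x.2 / θ)^N = 1` and `s ∈ S ↔ (s / θ²)^N = 1` then the linear
isomorphism `e (z, t) = (z / θ, ρ t)` maps `tang ρ (θ w)` to `tang 1 w`, `ax (θ² w)` to `ax w` and
`infl` to `infl`; the `w` with `w^N = 1` are the `Circle.exp (2πk/N)`, `k < N`.
`core`: `exists_pdata`. If `T = ∅`: all planes are axes or `infl`; `infl ∈ A`, otherwise `org` is in
the intersection; near-pencil with `H₀ = infl`, `L = org`. If `T ≠ ∅`: `one_radius` gives the radius
`ρ > 0`, `Θ = T.image Prod.snd`, `N = |Θ| ≥ r ≥ 100` (`card_radius`); `mul_mem_S`, `div_mem_T`,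
`circle_cosets` give `θ`; `A' = A.image (map e)` is `polReg N` or `insert infl (polReg N)`, and in
the second case `infl_even` for `A'` and its polar data (`exists_pdata` for `A'` or directly; `Mel A'` by
`mel_map`; the rotations by the `r`-th roots of unity still act, `e` commutes with them) gives
`Even N`. -/

namespace Pool.Agent.Simpl

open Module Classical ComplexConjugate

section

variable {V V' : Type} [AddCommGroup V] [Module ℝ V] [AddCommGroup V'] [Module ℝ V']

private lemma map_injective (e : V ≃ₗ[ℝ] V') :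
    Function.Injective (Submodule.map e.toLinearMap) :=
  Submodule.map_injective_of_injective e.injective

private lemma map_le_iff (e : V ≃ₗ[ℝ] V') (P Q : Submodule ℝ V) :
    P.map e.toLinearMap ≤ Q.map e.toLinearMap ↔ P ≤ Q :=
  Submodule.map_le_map_iff_of_injective e.injective P Q

private lemma verts_map (A : Finset (Submodule ℝ V)) (e : V ≃ₗ[ℝ] V') :
    verts (A.image (Submodule.map e.toLinearMap)) =
      (verts A).image (Submodule.map e.toLinearMap) := by
  ext P
  unfold verts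
  simp only [Finset.mem_image, Finset.mem_offDiag, Prod.exists]
  constructor
  · rintro ⟨H, H', ⟨⟨G, hG, rfl⟩, ⟨G', hG', rfl⟩, hne⟩, rfl⟩
    refine ⟨G ⊓ G', ⟨G, G', ⟨hG, hG', fun h => hne (by rw [h])⟩, rfl⟩, ?_⟩
    exact Submodule.map_inf _ e.injective
  · rintro ⟨Q, ⟨G, G', ⟨hG, hG', hne⟩, rfl⟩, rfl⟩
    refine ⟨_, _, ⟨⟨G, hG, rfl⟩, ⟨G', hG', rfl⟩, fun h => hne (map_injective e h)⟩, ?_⟩
    exact (Submodule.map_inf _ e.injective).symm

private lemma mult_map (A : Finset (Submodule ℝ V)) (e : V ≃ₗ[ℝ] V') (P : Submodule ℝ V) :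
    mult (A.image (Submodule.map e.toLinearMap)) (P.map e.toLinearMap) = mult A P := by
  unfold mult
  have h1 : (A.image (Submodule.map e.toLinearMap)).filter (P.map e.toLinearMap ≤ ·) =
      (A.filter (P ≤ ·)).image (Submodule.map e.toLinearMap) := by
    ext H
    simp only [Finset.mem_filter, Finset.mem_image]
    constructor
    · rintro ⟨⟨G, hG, rfl⟩, hle⟩
      exact ⟨G, ⟨hG, (map_le_iff e P G).1 hle⟩, rfl⟩
    · rintro ⟨G, ⟨hG, hle⟩, rfl⟩
      exact ⟨⟨G, hG, rfl⟩, (map_le_iff e P G).2 hle⟩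
  rw [h1, Finset.card_image_of_injective _ (map_injective e)]

theorem mel_map (A : Finset (Submodule ℝ V)) (e : V ≃ₗ[ℝ] V') (h : Mel A) :
    Mel (A.image (Submodule.map e.toLinearMap)) := by
  unfold Mel at *
  rw [verts_map, Finset.sum_image fun x _ y _ hxy => map_injective e hxy]
  refine Eq.trans (Finset.sum_congr rfl fun P _ => ?_) h
  rw [mult_map]

theorem isNearPencil_map (A : Finset (Submodule ℝ V)) (e : V ≃ₗ[ℝ] V')
    (h : IsNearPencil (A.image (Submodule.map e.toLinearMap))) : IsNearPencil A := by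
  obtain ⟨H₀', hH₀', L', hL, hnot, hall⟩ := h
  obtain ⟨H₀, hH₀, rfl⟩ := Finset.mem_image.1 hH₀'
  have hLe : (L'.map e.symm.toLinearMap).map e.toLinearMap = L' := by
    rw [← Submodule.map_comp]
    have h1 : e.toLinearMap ∘ₗ e.symm.toLinearMap = LinearMap.id := by
      ext x
      simp
    rw [h1, Submodule.map_id]
  refine ⟨H₀, hH₀, L'.map e.symm.toLinearMap, ?_, ?_, ?_⟩
  · rw [← hL]
    exact LinearEquiv.finrank_map_eq e.symm L'
  · intro hle
    apply hnot
    rw [← hLe]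
    exact (map_le_iff e _ _).2 hle
  · intro H hH hne
    rw [← map_le_iff e, hLe]
    exact hall _ (Finset.mem_image_of_mem _ hH) fun h1 => hne (map_injective e h1)

theorem isArrangement_map (A : Finset (Submodule ℝ V)) (e : V ≃ₗ[ℝ] V') (h : IsArrangement A) :
    IsArrangement (A.image (Submodule.map e.toLinearMap)) := by
  refine ⟨fun H' hH' => ?_, ?_⟩
  · obtain ⟨H, hH, rfl⟩ := Finset.mem_image.1 hH'
    rw [← h.1 H hH]
    exact LinearEquiv.finrank_map_eq e H
  · rw [eq_bot_iff]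
    intro x hx
    have hx' : ∀ H ∈ A, e.symm x ∈ H := by
      intro H hH
      have h1 := (Submodule.mem_iInf _).1 hx (H.map e.toLinearMap)
      have h2 := (Submodule.mem_iInf _).1 h1 (Finset.mem_image_of_mem _ hH)
      obtain ⟨y, hy, hyx⟩ := Submodule.mem_map.1 h2
      rw [← hyx]
      change e.symm (e y) ∈ H
      rwa [LinearEquiv.symm_apply_apply]
    have h3 : e.symm x ∈ ⨅ H ∈ A, H :=
      (Submodule.mem_iInf _).2 fun H => (Submodule.mem_iInf _).2 fun hH => hx' H hH
    rw [h.2, Submodule.mem_bot] at h3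
    rw [Submodule.mem_bot]
    exact (LinearEquiv.map_eq_zero_iff e.symm).1 h3

private lemma map_eq_of (e : V ≃ₗ[ℝ] V') (H : Submodule ℝ V) (H' : Submodule ℝ V')
    (h : ∀ x, e x ∈ H' ↔ x ∈ H) : H.map e.toLinearMap = H' := by
  ext y
  rw [Submodule.mem_map]
  constructor
  · rintro ⟨x, hx, rfl⟩
    exact (h x).2 hx
  · intro hy
    refine ⟨e.symm y, ?_, e.apply_symm_apply y⟩
    rw [← h, e.apply_symm_apply]
    exact hy

end

private lemma circle_root {N : ℕ} (hN : 0 < N) (w : Circle) :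
    w ^ N = 1 ↔ ∃ k < N, Circle.exp (2 * Real.pi * k / N) = w := by
  have hN0 : (N : ℝ) ≠ 0 := by exact_mod_cast hN.ne'
  constructor
  · intro h
    have : NeZero N := ⟨hN.ne'⟩
    have h1 : Circle.toUnits w ∈ rootsOfUnity N ℂ := by
      rw [_root_.mem_rootsOfUnity, ← map_pow, h, map_one]
    obtain ⟨i, hi, he⟩ := (Complex.mem_rootsOfUnity N _).1 h1
    refine ⟨i, hi, ?_⟩
    apply Circle.ext
    rw [Circle.coe_exp]
    rw [Circle.toUnits_apply, Units.val_mk0] at he
    rw [← he]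
    congr 1
    push_cast
    ring
  · rintro ⟨k, -, rfl⟩
    rw [← Circle.exp_natCast_mul]
    have h1 : (N : ℝ) * (2 * Real.pi * k / N) = k * (2 * Real.pi) := by
      field_simp
    rw [h1, Circle.exp_natCast_mul, Circle.exp_two_pi, one_pow]

/-- The normalising isomorphism `(z, t) ↦ (z / θ, ρ t)`. -/
private noncomputable def nrm (θ : Circle) (ρ : ℝ) (hρ : ρ ≠ 0) : (ℂ × ℝ) ≃ₗ[ℝ] (ℂ × ℝ) :=
  LinearEquiv.prodCongr (rotation θ⁻¹).toLinearEquiv (LinearEquiv.smulOfNeZero ℝ ℝ ρ hρ)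

private lemma nrm_apply (θ : Circle) (ρ : ℝ) (hρ : ρ ≠ 0) (x : ℂ × ℝ) :
    nrm θ ρ hρ x = (conj (θ : ℂ) * x.1, ρ * x.2) := by
  rw [← Circle.coe_inv_eq_conj]
  rfl

private lemma conj_mul_self_circle (θ : Circle) : (θ : ℂ) * conj (θ : ℂ) = 1 := by
  rw [← Circle.coe_inv_eq_conj, ← Circle.coe_mul, mul_inv_cancel, Circle.coe_one]

private lemma nrm_tang (θ w : Circle) (ρ : ℝ) (hρ : ρ ≠ 0) :
    (tang ρ (θ * w)).map (nrm θ ρ hρ).toLinearMap = tang 1 w := by
  refine map_eq_of _ _ _ fun x => ?_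
  rw [nrm_apply, mem_tang, mem_tang, Circle.coe_mul, map_mul, one_mul]
  have h1 : conj (θ : ℂ) * x.1 * conj (w : ℂ) = x.1 * (conj (θ : ℂ) * conj (w : ℂ)) := by ring
  rw [h1]

private lemma nrm_ax (θ w : Circle) (ρ : ℝ) (hρ : ρ ≠ 0) :
    (ax (θ ^ 2 * w)).map (nrm θ ρ hρ).toLinearMap = ax w := by
  refine map_eq_of _ _ _ fun x => ?_
  rw [nrm_apply, mem_ax, mem_ax, Circle.coe_mul, Circle.coe_pow]
  have hθ := conj_mul_self_circle θ
  simp only [map_mul, Complex.conj_conj]
  constructor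
  · intro h
    have h1 : (θ : ℂ) * (conj (θ : ℂ) * x.1) = θ * (w * (θ * conj x.1)) := by rw [h]
    rw [← mul_assoc, hθ, one_mul] at h1
    exact h1.trans (by ring)
  · intro h
    have h1 : conj (θ : ℂ) * x.1 = conj (θ : ℂ) * ((θ : ℂ) ^ 2 * w * conj x.1) := by rw [← h]
    rw [h1]
    have h2 : conj (θ : ℂ) * ((θ : ℂ) ^ 2 * w * conj x.1) =
        (θ : ℂ) * conj (θ : ℂ) * (w * (θ * conj x.1)) := by ring
    rw [h2, hθ, one_mul]

private lemma nrm_infl (θ : Circle) (ρ : ℝ) (hρ : ρ ≠ 0) :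
    infl.map (nrm θ ρ hρ).toLinearMap = infl := by
  refine map_eq_of _ _ _ fun x => ?_
  rw [nrm_apply, mem_infl, mem_infl]
  constructor
  · intro h
    exact (mul_eq_zero.1 h).resolve_left hρ
  · intro h
    change ρ * x.2 = 0
    rw [h, mul_zero]

private lemma nrm_rot (θ w : Circle) (ρ : ℝ) (hρ : ρ ≠ 0) (H : Submodule ℝ (ℂ × ℝ)) :
    (H.map (nrm θ ρ hρ).toLinearMap).map (rot w).toLinearMap =
      (H.map (rot w).toLinearMap).map (nrm θ ρ hρ).toLinearMap := by
  rw [← Submodule.map_comp, ← Submodule.map_comp]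
  congr 1
  refine LinearMap.ext fun x => ?_
  change rot w (nrm θ ρ hρ x) = nrm θ ρ hρ (rot w x)
  rw [nrm_apply, nrm_apply]
  change ((w : ℂ) * (conj (θ : ℂ) * x.1), ρ * x.2) = (conj (θ : ℂ) * ((w : ℂ) * x.1), ρ * x.2)
  rw [mul_left_comm]

theorem core (A : Finset (Submodule ℝ (ℂ × ℝ))) (hA : IsArrangement A) (hM : Mel A) {r : ℕ}
    (hr : 100 ≤ r) (hn : 4000 * A.card ≤ r ^ 2)
    (hrot : ∀ w : Circle, w ^ r = 1 → A.image (Submodule.map (rot w).toLinearMap) = A) :
    IsNearPencil A ∨ ∃ N : ℕ, 3 ≤ N ∧ ∃ e : (ℂ × ℝ) ≃ₗ[ℝ] (ℂ × ℝ),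
      A.image (Submodule.map e.toLinearMap) = polReg N ∨
      (Even N ∧ A.image (Submodule.map e.toLinearMap) = insert infl (polReg N)) := by
  have hr0 : 0 < r := by omega
  obtain ⟨T, S, h⟩ := exists_pdata A hA.1 r hrot
  rcases T.eq_empty_or_nonempty with hT | ⟨x₀, hx₀⟩
  · -- no tangents: near-pencil
    left
    have hc : ∀ H ∈ A, H ≠ infl → org ≤ H := by
      intro H hH hne
      rcases h.cases H hH with ⟨x, hx, -⟩ | ⟨s, -, rfl⟩ | h1
      · rw [hT] at hx
        exact absurd hx (Finset.notMem_empty x)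
      · exact org_le_ax s
      · exact absurd h1 hne
    have hinf : infl ∈ A := by
      by_contra hcon
      have h1 : org ≤ ⨅ H ∈ A, H :=
        le_iInf fun H => le_iInf fun hH => hc H hH fun he => hcon (he ▸ hH)
      rw [hA.2] at h1
      have h2 : org = ⊥ := le_bot_iff.1 h1
      have h3 := finrank_org
      rw [h2, finrank_bot] at h3
      exact zero_ne_one h3
    exact ⟨infl, hinf, org, finrank_org, not_org_le_infl, hc⟩
  right
  have hone := one_radius hA.1 h hM hr hn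
  obtain ⟨ρ, hρdef⟩ : ∃ ρ, ρ = x₀.1 := ⟨_, rfl⟩
  have hρ : ∀ x ∈ T, x.1 = ρ := fun x hx => (hone x hx x₀ hx₀).trans hρdef.symm
  have hρ0 : 0 < ρ := hρdef ▸ h.pos x₀ hx₀
  obtain ⟨Θ, hΘ⟩ : ∃ Θ, Θ = T.image Prod.snd := ⟨_, rfl⟩
  have hmem : ∀ w, w ∈ Θ ↔ (ρ, w) ∈ T := by
    intro w
    rw [hΘ, Finset.mem_image]
    constructor
    · rintro ⟨x, hx, rfl⟩
      rw [← hρ x hx]
      exact hx
    · intro hw
      exact ⟨_, hw, rfl⟩
  have hΘcard : Θ.card = T.card := by
    rw [hΘ]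
    refine Finset.card_image_of_injOn fun x hx y hy hxy => ?_
    exact Prod.ext (hone x hx y hy) hxy
  have hNr : r ≤ Θ.card := by
    rw [hΘcard]
    exact (card_radius h hr0 hx₀).trans (Finset.card_le_card (Finset.filter_subset _ _))
  have hne : Θ.Nonempty := ⟨x₀.2, by rw [hΘ]; exact Finset.mem_image_of_mem _ hx₀⟩
  obtain ⟨θ, -, hθ1, hθ2⟩ := circle_cosets Θ S hne
    (fun α hα β hβ => mul_mem_S hA.1 h hM hr hn hρ ((hmem α).1 hα) ((hmem β).1 hβ))
    (fun s hs α hα => (hmem _).2 (div_mem_T hA.1 h hM hr hn hρ hs ((hmem α).1 hα)))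
  obtain ⟨N, hN⟩ : ∃ N, N = Θ.card := ⟨_, rfl⟩
  rw [← hN] at hθ1 hθ2 hNr
  have hN0 : 0 < N := by omega
  obtain ⟨e, he⟩ : ∃ e, e = nrm θ ρ hρ0.ne' := ⟨_, rfl⟩
  -- membership in the image
  have himg : ∀ H' : Submodule ℝ (ℂ × ℝ), H' ∈ A.image (Submodule.map e.toLinearMap) ↔
      (∃ w : Circle, w ^ N = 1 ∧ H' = tang 1 w) ∨ (∃ w : Circle, w ^ N = 1 ∧ H' = ax w) ∨
        (infl ∈ A ∧ H' = infl) := by
    intro H'
    rw [Finset.mem_image]
    constructor
    · rintro ⟨H, hH, rfl⟩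
      rcases h.cases H hH with ⟨x, hx, rfl⟩ | ⟨s, hs, rfl⟩ | rfl
      · left
        refine ⟨θ⁻¹ * x.2, ?_, ?_⟩
        · rw [← hθ1, mul_inv_cancel_left, hmem, ← hρ x hx]
          exact hx
        · rw [hρ x hx, he]
          conv_lhs => rw [← mul_inv_cancel_left θ x.2]
          exact nrm_tang θ _ ρ _
      · right
        left
        refine ⟨(θ ^ 2)⁻¹ * s, ?_, ?_⟩
        · rw [← hθ2, mul_inv_cancel_left]
          exact hs
        · rw [he]
          conv_lhs => rw [← mul_inv_cancel_left (θ ^ 2) s]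
          exact nrm_ax θ _ ρ _
      · right
        right
        refine ⟨hH, ?_⟩
        rw [he]
        exact nrm_infl θ ρ _
    · rintro (⟨w, hw, rfl⟩ | ⟨w, hw, rfl⟩ | ⟨hinf, rfl⟩)
      · refine ⟨tang ρ (θ * w), ?_, ?_⟩
        · rw [h.tang_mem ρ _ hρ0, ← hmem, hθ1]
          exact hw
        · rw [he]
          exact nrm_tang θ _ ρ _
      · refine ⟨ax (θ ^ 2 * w), ?_, ?_⟩
        · rw [h.ax_mem, hθ2]
          exact hw
        · rw [he]
          exact nrm_ax θ _ ρ _
      · refine ⟨infl, hinf, ?_⟩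
        rw [he]
        exact nrm_infl θ ρ _
  have hpol : ∀ H' : Submodule ℝ (ℂ × ℝ), H' ∈ polReg N ↔
      (∃ w : Circle, w ^ N = 1 ∧ H' = tang 1 w) ∨ (∃ w : Circle, w ^ N = 1 ∧ H' = ax w) := by
    intro H'
    unfold polReg
    rw [Finset.mem_union, Finset.mem_image, Finset.mem_image]
    constructor
    · rintro (⟨k, hk, rfl⟩ | ⟨k, hk, rfl⟩)
      · exact Or.inl ⟨_, (circle_root hN0 _).2 ⟨k, Finset.mem_range.1 hk, rfl⟩, rfl⟩
      · exact Or.inr ⟨_, (circle_root hN0 _).2 ⟨k, Finset.mem_range.1 hk, rfl⟩, rfl⟩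
    · rintro (⟨w, hw, rfl⟩ | ⟨w, hw, rfl⟩)
      · obtain ⟨k, hk, rfl⟩ := (circle_root hN0 w).1 hw
        exact Or.inl ⟨k, Finset.mem_range.2 hk, rfl⟩
      · obtain ⟨k, hk, rfl⟩ := (circle_root hN0 w).1 hw
        exact Or.inr ⟨k, Finset.mem_range.2 hk, rfl⟩
  refine ⟨N, by omega, e, ?_⟩
  by_cases hinf : infl ∈ A
  · right
    have hinf' : infl ∈ A.image (Submodule.map e.toLinearMap) :=
      (himg infl).2 (Or.inr (Or.inr ⟨hinf, rfl⟩))
    refine ⟨?_, ?_⟩
    · have hA' := isArrangement_map A e hA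
      have hrot' : ∀ w : Circle, w ^ r = 1 → (A.image (Submodule.map e.toLinearMap)).image
          (Submodule.map (rot w).toLinearMap) = A.image (Submodule.map e.toLinearMap) := by
        intro w hw
        conv_rhs => rw [← hrot w hw]
        rw [Finset.image_image, Finset.image_image]
        refine Finset.image_congr fun H _ => ?_
        simp only [Function.comp_apply]
        rw [he]
        exact nrm_rot θ w ρ _ H
      obtain ⟨T', S', h'⟩ := exists_pdata _ hA'.1 r hrot'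
      refine infl_even hA'.1 h' (mel_map A e hM) (by omega) (ρ := 1) ?_ ?_ hinf'
      · intro x
        constructor
        · intro hx
          have hx0 := h'.pos x hx
          have h1 := (h'.tang_mem x.1 x.2 hx0).2 hx
          rcases (himg _).1 h1 with ⟨w, hw, h2⟩ | ⟨w, hw, h2⟩ | ⟨-, h2⟩
          · obtain ⟨h3, h4⟩ := tang_inj hx0 one_pos h2
            exact ⟨h3, h4 ▸ hw⟩
          · exact absurd h2 (tang_ne_ax hx0)
          · exact absurd h2 tang_ne_infl
        · rintro ⟨h1, h2⟩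
          have h3 : tang 1 x.2 ∈ A.image (Submodule.map e.toLinearMap) :=
            (himg _).2 (Or.inl ⟨x.2, h2, rfl⟩)
          have h4 := (h'.tang_mem 1 x.2 one_pos).1 h3
          rw [← h1] at h4
          exact h4
      · intro s
        rw [← h'.ax_mem, himg]
        constructor
        · rintro (⟨w, -, h2⟩ | ⟨w, hw, h2⟩ | ⟨-, h2⟩)
          · exact absurd h2.symm (tang_ne_ax one_pos)
          · rw [ax_inj h2]
            exact hw
          · exact absurd h2 ax_ne_infl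
        · intro hs
          exact Or.inr (Or.inl ⟨s, hs, rfl⟩)
    · ext H'
      rw [himg, Finset.mem_insert, hpol]
      constructor
      · rintro (h1 | h1 | ⟨-, h1⟩)
        · exact Or.inr (Or.inl h1)
        · exact Or.inr (Or.inr h1)
        · exact Or.inl h1
      · rintro (h1 | h1 | h1)
        · exact Or.inr (Or.inr ⟨hinf, h1⟩)
        · exact Or.inl h1
        · exact Or.inr (Or.inl h1)
  · left
    ext H'
    rw [himg, hpol]
    constructor
    · rintro (h1 | h1 | ⟨h2, -⟩)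
      · exact Or.inl h1
      · exact Or.inr h1
      · exact absurd h2 hinf
    · rintro (h1 | h1)
      · exact Or.inl h1
      · exact Or.inr (Or.inl h1)

end Pool.Agent.Simpl
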