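import Pool.Agent.Simpl.NDefs

set_option autoImplicit false

/-! Package N2: squaring the roots of unity of odd order.

PROOF. `exists_functional`: let `k = KK m` (or any subfield). There is a `k`-linear `l : ℂ → k` with
`l (v_i) ≠ 0` for all `i` with `v_i ≠ 0`, for a finite family: a vector space over an
infinite field is not a finite union of proper subspaces; apply it to the dual space
(`Subspace.biUnion_ne_univ_of_top_nmem` or similar, or: there is `l_i` with `l_i (v_i) ≠ 0`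
(`Module.forall_dual_apply_eq_zero_iff`), and for `t ∈ ℚ` outside the finitely many roots of the
non-zero polynomials `∑_i l_i(v_j) t^i` the functional `∑ t^i l_i` works).
`odd_double`: if `Z` is empty take `d = c`. Let `z₀ ∈ Z`, `v_i = c_i z₀.1^(a_i) z₀.2^(b_i)`,
`x = z / z₀` (componentwise), `x.1^m = x.2^m = 1`, `∑ v_i x.1^(a_i) x.2^(b_i) = 0`. Apply `l`: with
`e_i = l (v_i) ∈ KK m`, `∑ e_i x.1^(a_i) x.2^(b_i) = 0`. `KK m = ℚ(ζ)`, `ζ` primitive `m`-th root of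
unity, is a cyclotomic extension; since `m` is odd there is an automorphism `σ` of `KK m` (or a ring
hom `KK m → ℂ`) with `σ(η) = η^2` for all `η^m = 1` (`ζ^2` is a primitive `m`-th root, a root of
the same irreducible cyclotomic polynomial; `IntermediateField.adjoin.powerBasis`,
`PowerBasis.lift`, or `IsCyclotomicExtension.autEquivPow`). So
`∑ σ(e_i) x.1^(2 a_i) x.2^(2 b_i) = 0`; put `d_i = σ(e_i) z₀.1^(-2 a_i) z₀.2^(-2 b_i)`. -/

namespace Pool.Agent.Simpl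

theorem exists_functional (k : IntermediateField ℚ ℂ) {ι : Type} [Fintype ι] (v : ι → ℂ) :
    ∃ l : ℂ →ₗ[k] k, ∀ i, v i ≠ 0 → l (v i) ≠ 0 := by
  classical
  obtain ⟨l, hl⟩ := Module.exists_dual_forall_apply_ne_zero (K := k)
    (fun i : {i // v i ≠ 0} => v i) (fun i => i.2)
  exact ⟨l, fun i hi => hl ⟨i, hi⟩⟩

theorem exists_sq_hom {m : ℕ} (hm : Odd m) :
    ∃ σ : KK m →+* ℂ, ∀ η : KK m, η ^ m = 1 → σ η = (η : ℂ) ^ 2 := by
  have hm0 : m ≠ 0 := by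
    rintro rfl
    simp at hm
  have : NeZero m := ⟨hm0⟩
  obtain ⟨ζ, hζ⟩ : ∃ ζ : ℂ, IsPrimitiveRoot ζ m := ⟨_, Complex.isPrimitiveRoot_exp m hm0⟩
  have hmem : ζ ∈ KK m := IntermediateField.subset_adjoin ℚ _ hζ.pow_eq_one
  have hKK : KK m = IntermediateField.adjoin ℚ {ζ} := by
    apply le_antisymm
    · rw [KK, IntermediateField.adjoin_le_iff]
      intro z hz
      obtain ⟨i, _, rfl⟩ := hζ.eq_pow_of_pow_eq_one hz
      exact pow_mem (IntermediateField.mem_adjoin_simple_self ℚ ζ) i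
    · rw [IntermediateField.adjoin_simple_le_iff]
      exact hmem
  have : IsCyclotomicExtension {m} ℚ (KK m) :=
    (IntermediateField.isCyclotomicExtension_singleton_iff_eq_adjoin m ℚ ℂ (KK m) hζ).2 hKK
  let ζ' : KK m := ⟨ζ, hmem⟩
  have hζ' : IsPrimitiveRoot ζ' m :=
    IsPrimitiveRoot.of_map_of_injective (f := algebraMap (KK m) ℂ) hζ
      (algebraMap (KK m) ℂ).injective
  have hζ2 : IsPrimitiveRoot (ζ ^ 2) m :=
    hζ.pow_of_coprime 2 (Nat.coprime_two_left.2 hm)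
  have hmin : Polynomial.aeval (ζ ^ 2) (minpoly ℚ (hζ'.powerBasis ℚ).gen) = 0 := by
    rw [IsPrimitiveRoot.powerBasis_gen,
      ← Polynomial.cyclotomic_eq_minpoly_rat hζ' (Nat.pos_of_ne_zero hm0),
      Polynomial.cyclotomic_eq_minpoly_rat hζ2 (Nat.pos_of_ne_zero hm0)]
    exact minpoly.aeval ℚ _
  refine ⟨((hζ'.powerBasis ℚ).lift (ζ ^ 2) hmin).toRingHom, fun η hη => ?_⟩
  obtain ⟨i, _, rfl⟩ := hζ'.eq_pow_of_pow_eq_one hη
  have h1 : (hζ'.powerBasis ℚ).lift (ζ ^ 2) hmin ζ' = ζ ^ 2 := by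
    have := (hζ'.powerBasis ℚ).lift_gen (ζ ^ 2) hmin
    rwa [IsPrimitiveRoot.powerBasis_gen] at this
  change (hζ'.powerBasis ℚ).lift (ζ ^ 2) hmin (ζ' ^ i) = ((ζ' ^ i : KK m) : ℂ) ^ 2
  rw [map_pow, h1]
  change (ζ ^ 2) ^ i = (ζ ^ i) ^ 2
  ring

theorem odd_double {ι : Type} [Fintype ι] {m : ℕ} (hm : Odd m) (a b : ι → ℕ) (c : ι → ℂ)
    (Z : Finset (ℂ × ℂ)) (hZ : ∀ z ∈ Z, Zero a b c z) (hZm : SameCoset m Z) :
    ∃ d : ι → ℂ, (∀ i, c i ≠ 0 → d i ≠ 0) ∧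
      ∀ z ∈ Z, ev (fun i => 2 * a i) (fun i => 2 * b i) d z = 0 := by
  classical
  rcases Z.eq_empty_or_nonempty with rfl | ⟨z₀, hz₀⟩
  · exact ⟨c, fun _ h => h, fun z hz => absurd hz (Finset.notMem_empty z)⟩
  obtain ⟨h01, h02, -⟩ := hZ z₀ hz₀
  obtain ⟨σ, hσ⟩ := exists_sq_hom hm
  obtain ⟨l, hl⟩ := exists_functional (KK m) (fun i => c i * z₀.1 ^ a i * z₀.2 ^ b i)
  refine ⟨fun i => σ (l (c i * z₀.1 ^ a i * z₀.2 ^ b i)) * ((z₀.1 ^ (2 * a i))⁻¹ *
    (z₀.2 ^ (2 * b i))⁻¹), fun i hi => ?_, fun z hz => ?_⟩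
  · have h1 : l (c i * z₀.1 ^ a i * z₀.2 ^ b i) ≠ 0 :=
      hl i (mul_ne_zero (mul_ne_zero hi (pow_ne_zero _ h01)) (pow_ne_zero _ h02))
    exact mul_ne_zero ((map_ne_zero σ).2 h1)
      (mul_ne_zero (inv_ne_zero (pow_ne_zero _ h01)) (inv_ne_zero (pow_ne_zero _ h02)))
  · obtain ⟨-, -, hz3⟩ := hZ z hz
    obtain ⟨hm1, hm2⟩ := hZm z hz z₀ hz₀
    have hx1 : (z.1 / z₀.1) ^ m = 1 := by
      rw [div_pow, hm1, div_self (pow_ne_zero _ h01)]
    have hx2 : (z.2 / z₀.2) ^ m = 1 := by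
      rw [div_pow, hm2, div_self (pow_ne_zero _ h02)]
    let x : KK m := ⟨z.1 / z₀.1, IntermediateField.subset_adjoin ℚ _ hx1⟩
    let y : KK m := ⟨z.2 / z₀.2, IntermediateField.subset_adjoin ℚ _ hx2⟩
    have hxm : x ^ m = 1 := Subtype.ext hx1
    have hym : y ^ m = 1 := Subtype.ext hx2
    have e1 : ∑ i, (x ^ a i * y ^ b i) • (c i * z₀.1 ^ a i * z₀.2 ^ b i) = 0 := by
      rw [← hz3]
      unfold ev
      refine Finset.sum_congr rfl fun i _ => ?_
      change (z.1 / z₀.1) ^ a i * (z.2 / z₀.2) ^ b i * (c i * z₀.1 ^ a i * z₀.2 ^ b i) = _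
      rw [div_pow, div_pow]
      field_simp
    have e2 : ∑ i, x ^ a i * y ^ b i * l (c i * z₀.1 ^ a i * z₀.2 ^ b i) = 0 := by
      have := congrArg l e1
      rw [map_sum, map_zero] at this
      rw [← this]
      refine Finset.sum_congr rfl fun i _ => ?_
      rw [map_smul, smul_eq_mul]
    have e3 := congrArg σ e2
    rw [map_sum, map_zero] at e3
    rw [← e3]
    unfold ev
    refine Finset.sum_congr rfl fun i _ => ?_
    rw [map_mul, map_mul, map_pow, map_pow, hσ x hxm, hσ y hym]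
    change _ = ((z.1 / z₀.1) ^ 2) ^ a i * ((z.2 / z₀.2) ^ 2) ^ b i * _
    simp only [div_pow, ← pow_mul]
    field_simp

end Pool.Agent.Simpl
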