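import Pool.Agent.Simpl.Parity
import Pool.Agent.Simpl.OddSq

set_option autoImplicit false

/-! Package N3: the counting lemma for the zeros in a coset of `μ_r × μ_r`.

PROOF. `r = 2^k m` with `m` odd. For a subset `Z'` of `Z` and `e ≥ 0` say that `Z'` is of level `e` if
`SameCoset (2^e m) Z'`.
(1) A set of level `e + 1` is the union of at most four sets of level `e`: the map
`z ↦ (z.1^(2^e m), z.2^(2^e m))` has values with prescribed squares, so at most four values.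
(2) If `k = 0` then `|Z| ≤ M' ≤ 4M' + 3M` by `hO`. Let `k ≥ 1`. If every subset of `Z` of level
`e`, `1 ≤ e ≤ k`, has at most `M` elements, then `|Z| ≤ M`. Otherwise let `e₀ ≥ 1` be minimal such that
there is a subset `C₀` of level `e₀` with more than `M` elements; enlarge it to
`C₀ = {z ∈ Z | z.1^(2^e₀ m) = z₀.1^(..), same for the second}` for a `z₀ ∈ C₀`. By (1) and `hO` (if
`e₀ = 1`) or the minimality of `e₀` (if `e₀ ≥ 2`), `|C₀| ≤ 4M'` (`M ≤ M'`).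
(3) Let `v_i = c_i z₀.1^(a_i) z₀.2^(b_i)`, `k₀ = KK (2^e₀ m)`. Some `v_i ≠ 0` (else all `c_i = 0`, excluded
by `hS`); take `l : ℂ → k₀` linear with `l (v_i) ≠ 0` (`exists_functional`). For `z ∈ C₀`,
`x = z / z₀` has `x^(2^e₀ m) = 1`, so `x.1, x.2 ∈ k₀` and applying `l` to `∑ v_i x^(e_i) = 0` gives
`∑ l(v_i) x^(e_i) = 0`, i.e. `c'_i = l(v_i) z₀.1^(-a_i) z₀.2^(-b_i)` satisfies `ev a b c' z = 0` for
`z ∈ C₀`. By `hU`, `c' = κ • c`, `κ ≠ 0`. So `κ v_i ∈ k₀` for all `i`.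
(4) Let `z ∈ Z \ C₀`, `x = z / z₀`, `e > e₀` minimal with `x.1^(2^e m) = x.2^(2^e m) = 1` (exists,
`≤ k`). Then `ε = x.1^(2^(e-1) m)`, `δ = x.2^(2^(e-1) m)` are `±1`, not both `1`. `n = 2^e m` is
divisible by 4, `κ v_i ∈ KK (2^e₀ m) ⊆ KK (n / 2)`, so `parity_split` (for the coefficients
`κ v_i` and the point `x`) gives `ev a b c (ε z.1, δ z.2) = 0`.
(5) For fixed `(ε, δ) ∈ {(-1,1), (1,-1), (-1,-1)}` the set of the `z ∈ Z` with
`ev a b c (ε z.1, δ z.2) = 0`, i.e. `ev a b c'' z = 0` for `c''_i = c_i ε^(a_i) δ^(b_i)`, has at most `M`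
elements: otherwise `hU` gives `c'' = κ' • c` and all the signs `ε^(a_i) δ^(b_i)` with `c_i ≠ 0` are
equal (`= κ'`), against `hS`. So `|Z \ C₀| ≤ 3M`, and `|Z| ≤ 4M' + 3M`. -/

namespace Pool.Agent.Simpl

private theorem pm_of_sq {u v : ℂ} (h : u ^ 2 = v ^ 2) : u = v ∨ u = -v := by
  have h1 : (u - v) * (u + v) = 0 := by linear_combination h
  rcases mul_eq_zero.1 h1 with h2 | h2
  · left
    linear_combination h2
  · right
    linear_combination h2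

/-- A set in one coset of `μ_(2n)²` is the union of at most four sets in cosets of `μ_n²`. -/
private theorem split4 {n B : ℕ} {Z : Finset (ℂ × ℂ)} (h : SameCoset (2 * n) Z)
    (hB : ∀ Z' ⊆ Z, SameCoset n Z' → Z'.card ≤ B) : Z.card ≤ 4 * B := by
  classical
  rcases Z.eq_empty_or_nonempty with rfl | ⟨z₀, hz₀⟩
  · simp
  have h1 : Z.image (fun z : ℂ × ℂ => (z.1 ^ n, z.2 ^ n)) ⊆
      {(z₀.1 ^ n, z₀.2 ^ n), (z₀.1 ^ n, -z₀.2 ^ n), (-z₀.1 ^ n, z₀.2 ^ n),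
        (-z₀.1 ^ n, -z₀.2 ^ n)} := by
    intro w hw
    obtain ⟨z, hz, rfl⟩ := Finset.mem_image.1 hw
    obtain ⟨h2, h3⟩ := h z hz z₀ hz₀
    rw [mul_comm, pow_mul, pow_mul] at h2 h3
    simp only [Finset.mem_insert, Finset.mem_singleton, Prod.mk.injEq]
    rcases pm_of_sq h2 with h4 | h4 <;> rcases pm_of_sq h3 with h5 | h5
    · exact Or.inl ⟨h4, h5⟩
    · exact Or.inr (Or.inl ⟨h4, h5⟩)
    · exact Or.inr (Or.inr (Or.inl ⟨h4, h5⟩))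
    · exact Or.inr (Or.inr (Or.inr ⟨h4, h5⟩))
  have h2 : (Z.image (fun z : ℂ × ℂ => (z.1 ^ n, z.2 ^ n))).card ≤ 4 :=
    (Finset.card_le_card h1).trans Finset.card_le_four
  have h3 : Z.card ≤ B * (Z.image (fun z : ℂ × ℂ => (z.1 ^ n, z.2 ^ n))).card := by
    refine Finset.card_le_mul_card_image Z B fun w _ => hB _ (Finset.filter_subset _ _) ?_
    intro z hz z' hz'
    have h4 := (Finset.mem_filter.1 hz).2
    have h5 := (Finset.mem_filter.1 hz').2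
    rw [← h5] at h4
    exact ⟨congrArg Prod.fst h4, congrArg Prod.snd h4⟩
  calc Z.card ≤ B * (Z.image (fun z : ℂ × ℂ => (z.1 ^ n, z.2 ^ n))).card := h3
    _ ≤ B * 4 := Nat.mul_le_mul_left B h2
    _ = 4 * B := mul_comm _ _

private theorem kk_mono {n n' : ℕ} (h : n ∣ n') : KK n ≤ KK n' := by
  unfold KK
  refine IntermediateField.adjoin.mono ℚ _ _ ?_
  intro z hz
  obtain ⟨d, rfl⟩ := h
  show z ^ (n * d) = 1
  rw [pow_mul, show z ^ n = 1 from hz, one_pow]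

section

variable {ι : Type} [Fintype ι] {a b : ι → ℕ} {c : ι → ℂ} {M : ℕ}

/-- Step (3): the coefficients at a point of a big coset. -/
private theorem big_coset (hU : ∀ (c' : ι → ℂ) (Z : Finset (ℂ × ℂ)),
      (∀ z ∈ Z, Zero a b c z ∧ Zero a b c' z) → M < Z.card → ∃ κ : ℂ, c' = κ • c)
    (hc : ∃ i, c i ≠ 0) {n : ℕ} {C : Finset (ℂ × ℂ)} (hC : ∀ z ∈ C, Zero a b c z)
    (hn : SameCoset n C) (hM : M < C.card) {z₀ : ℂ × ℂ} (hz₀ : z₀ ∈ C) :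
    ∃ κ : ℂ, κ ≠ 0 ∧ ∀ i, κ * (c i * z₀.1 ^ a i * z₀.2 ^ b i) ∈ KK n := by
  classical
  obtain ⟨h01, h02, -⟩ := hC z₀ hz₀
  obtain ⟨l, hl⟩ := exists_functional (KK n) (fun i => c i * z₀.1 ^ a i * z₀.2 ^ b i)
  have key : ∀ z ∈ C, ev a b (fun i => (l (c i * z₀.1 ^ a i * z₀.2 ^ b i) : ℂ) *
      ((z₀.1 ^ a i)⁻¹ * (z₀.2 ^ b i)⁻¹)) z = 0 := by
    intro z hz
    obtain ⟨-, -, hz3⟩ := hC z hz
    obtain ⟨hm1, hm2⟩ := hn z hz z₀ hz₀
    have hx1 : (z.1 / z₀.1) ^ n = 1 := by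
      rw [div_pow, hm1, div_self (pow_ne_zero _ h01)]
    have hx2 : (z.2 / z₀.2) ^ n = 1 := by
      rw [div_pow, hm2, div_self (pow_ne_zero _ h02)]
    let x : KK n := ⟨z.1 / z₀.1, IntermediateField.subset_adjoin ℚ _ hx1⟩
    let y : KK n := ⟨z.2 / z₀.2, IntermediateField.subset_adjoin ℚ _ hx2⟩
    have e1 : ∑ i, (x ^ a i * y ^ b i) • (c i * z₀.1 ^ a i * z₀.2 ^ b i) = 0 := by
      rw [← hz3]
      unfold ev
      refine Finset.sum_congr rfl fun i _ => ?_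
      change (z.1 / z₀.1) ^ a i * (z.2 / z₀.2) ^ b i * (c i * z₀.1 ^ a i * z₀.2 ^ b i) = _
      rw [div_pow, div_pow]
      field_simp
    have e2 : ∑ i, x ^ a i * y ^ b i * l (c i * z₀.1 ^ a i * z₀.2 ^ b i) = 0 := by
      have := congrArg l e1
      rw [map_sum, map_zero] at this
      rw [← this]
      refine Finset.sum_congr rfl fun i _ => ?_
      rw [map_smul, smul_eq_mul]
    have e3 := congrArg (algebraMap (KK n) ℂ) e2
    rw [map_sum, map_zero] at e3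
    rw [← e3]
    unfold ev
    refine Finset.sum_congr rfl fun i _ => ?_
    rw [map_mul, map_mul, map_pow, map_pow]
    change _ = (z.1 / z₀.1) ^ a i * (z.2 / z₀.2) ^ b i * _
    rw [div_pow, div_pow]
    change _ = _ * (l (c i * z₀.1 ^ a i * z₀.2 ^ b i) : ℂ)
    field_simp
  obtain ⟨κ, hκ⟩ := hU _ C (fun z hz => ⟨hC z hz, (hC z hz).1, (hC z hz).2.1, key z hz⟩) hM
  have hκ' : ∀ i, κ * (c i * z₀.1 ^ a i * z₀.2 ^ b i) =
      (l (c i * z₀.1 ^ a i * z₀.2 ^ b i) : ℂ) := by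
    intro i
    have h1 := congrFun hκ i
    rw [Pi.smul_apply, smul_eq_mul] at h1
    have h2 : κ * (c i * z₀.1 ^ a i * z₀.2 ^ b i) = κ * c i * (z₀.1 ^ a i * z₀.2 ^ b i) := by ring
    rw [h2, ← h1]
    have h3 : z₀.1 ^ a i ≠ 0 := pow_ne_zero _ h01
    have h4 : z₀.2 ^ b i ≠ 0 := pow_ne_zero _ h02
    field_simp
  refine ⟨κ, ?_, fun i => ?_⟩
  · rintro rfl
    obtain ⟨i, hi⟩ := hc
    have h1 := hκ' i
    rw [zero_mul] at h1
    refine hl i (mul_ne_zero (mul_ne_zero hi (pow_ne_zero _ h01)) (pow_ne_zero _ h02)) ?_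
    exact Subtype.ext h1.symm
  · rw [hκ' i]
    exact SetLike.coe_mem _

/-- Step (5): the points with a reflected zero. -/
private theorem refl_card (hU : ∀ (c' : ι → ℂ) (Z : Finset (ℂ × ℂ)),
      (∀ z ∈ Z, Zero a b c z ∧ Zero a b c' z) → M < Z.card → ∃ κ : ℂ, c' = κ • c)
    {ε δ : ℂ} (hS : ∃ i j, c i ≠ 0 ∧ c j ≠ 0 ∧ ε ^ a i * δ ^ b i ≠ ε ^ a j * δ ^ b j)
    {W : Finset (ℂ × ℂ)} (hW : ∀ z ∈ W, Zero a b c z)
    (hW' : ∀ z ∈ W, ev a b c (ε * z.1, δ * z.2) = 0) : W.card ≤ M := by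
  by_contra hcon
  obtain ⟨κ, hκ⟩ := hU (fun i => c i * (ε ^ a i * δ ^ b i)) W (fun z hz => ⟨hW z hz, (hW z hz).1,
    (hW z hz).2.1, by
      rw [← hW' z hz]
      unfold ev
      refine Finset.sum_congr rfl fun i _ => ?_
      simp only [mul_pow]
      ring⟩) (not_le.1 hcon)
  obtain ⟨i, j, hi, hj, hij⟩ := hS
  have h : ∀ i, c i ≠ 0 → ε ^ a i * δ ^ b i = κ := by
    intro i hi
    have h1 := congrFun hκ i
    rw [Pi.smul_apply, smul_eq_mul, mul_comm] at h1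
    exact mul_right_cancel₀ hi h1
  exact hij ((h i hi).trans (h j hj).symm)

/-- Step (4): the points outside of a big coset. -/
private theorem outside {m e₀ k : ℕ} (hm : Odd m) (he₀ : 1 ≤ e₀) {z₀ z : ℂ × ℂ}
    (h0 : z₀.1 ≠ 0 ∧ z₀.2 ≠ 0) (hz : Zero a b c z) {κ : ℂ} (hκ : κ ≠ 0)
    (hκ' : ∀ i, κ * (c i * z₀.1 ^ a i * z₀.2 ^ b i) ∈ KK (2 ^ e₀ * m))
    (h1 : z.1 ^ (2 ^ k * m) = z₀.1 ^ (2 ^ k * m)) (h2 : z.2 ^ (2 ^ k * m) = z₀.2 ^ (2 ^ k * m))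
    (hn : ¬ (z.1 ^ (2 ^ e₀ * m) = z₀.1 ^ (2 ^ e₀ * m) ∧
      z.2 ^ (2 ^ e₀ * m) = z₀.2 ^ (2 ^ e₀ * m))) :
    ∃ ε ∈ ({1, -1} : Set ℂ), ∃ δ ∈ ({1, -1} : Set ℂ), (ε, δ) ≠ (1, 1) ∧
      ev a b c (ε * z.1, δ * z.2) = 0 := by
  classical
  obtain ⟨h01, h02⟩ := h0
  have hiff : ∀ e : ℕ, (z.1 ^ (2 ^ e * m) = z₀.1 ^ (2 ^ e * m) ∧
      z.2 ^ (2 ^ e * m) = z₀.2 ^ (2 ^ e * m)) ↔
      ((z.1 / z₀.1) ^ (2 ^ e * m) = 1 ∧ (z.2 / z₀.2) ^ (2 ^ e * m) = 1) := by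
    intro e
    rw [div_pow, div_pow, div_eq_one_iff_eq (pow_ne_zero _ h01),
      div_eq_one_iff_eq (pow_ne_zero _ h02)]
  set x : ℂ × ℂ := (z.1 / z₀.1, z.2 / z₀.2) with hx
  have hk : x.1 ^ (2 ^ k * m) = 1 ∧ x.2 ^ (2 ^ k * m) = 1 := (hiff k).1 ⟨h1, h2⟩
  have hn' : ¬ (x.1 ^ (2 ^ e₀ * m) = 1 ∧ x.2 ^ (2 ^ e₀ * m) = 1) := fun h => hn ((hiff e₀).2 h)
  have hex : ∃ e, x.1 ^ (2 ^ e * m) = 1 ∧ x.2 ^ (2 ^ e * m) = 1 := ⟨k, hk⟩
  set e := Nat.find hex with he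
  have he1 : x.1 ^ (2 ^ e * m) = 1 ∧ x.2 ^ (2 ^ e * m) = 1 := Nat.find_spec hex
  have he2 : ∀ e' < e, ¬ (x.1 ^ (2 ^ e' * m) = 1 ∧ x.2 ^ (2 ^ e' * m) = 1) := fun e' h =>
    Nat.find_min hex h
  have hlt : e₀ < e := by
    by_contra hcon
    apply hn'
    have h3 : 2 ^ e * m ∣ 2 ^ e₀ * m := mul_dvd_mul_right (pow_dvd_pow 2 (not_lt.1 hcon)) m
    obtain ⟨d, hd⟩ := h3
    rw [hd, pow_mul x.1 (2 ^ e * m) d, pow_mul x.2 (2 ^ e * m) d, he1.1, he1.2, one_pow]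
    exact ⟨rfl, rfl⟩
  obtain ⟨f, hf⟩ : ∃ f, e = f + 1 := ⟨e - 1, by omega⟩
  have hf1 : 1 ≤ f := by omega
  rw [hf] at he1 he2
  have hmpos : 0 < m := hm.pos
  have hn2 : 2 ^ (f + 1) * m / 2 = 2 ^ f * m := by
    rw [pow_succ', mul_assoc, Nat.mul_div_cancel_left _ (by norm_num)]
  have h4 : 4 ∣ 2 ^ (f + 1) * m := by
    obtain ⟨g, rfl⟩ : ∃ g, f = g + 1 := ⟨f - 1, by omega⟩
    exact ⟨2 ^ g * m, by ring⟩
  have hKK : ∀ i, κ * (c i * z₀.1 ^ a i * z₀.2 ^ b i) ∈ KK (2 ^ (f + 1) * m / 2) := by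
    intro i
    rw [hn2]
    exact kk_mono (mul_dvd_mul_right (pow_dvd_pow 2 (by omega)) m) (hκ' i)
  have hscale : ∀ ε δ : ℂ, ev a b (fun i => κ * (c i * z₀.1 ^ a i * z₀.2 ^ b i))
      (ε * x.1, δ * x.2) = κ * ev a b c (ε * z.1, δ * z.2) := by
    intro ε δ
    unfold ev
    rw [Finset.mul_sum]
    refine Finset.sum_congr rfl fun i _ => ?_
    simp only [hx, mul_pow, div_pow]
    have h3 : z₀.1 ^ a i ≠ 0 := pow_ne_zero _ h01
    have h5 : z₀.2 ^ b i ≠ 0 := pow_ne_zero _ h02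
    field_simp
  have hzero : ev a b (fun i => κ * (c i * z₀.1 ^ a i * z₀.2 ^ b i)) (x.1, x.2) = 0 := by
    have h3 := hscale 1 1
    rw [one_mul, one_mul, one_mul, one_mul] at h3
    rw [h3]
    have h5 : ev a b c (z.1, z.2) = 0 := hz.2.2
    rw [h5, mul_zero]
  have hfin := parity_split h4 (by positivity) a b _ hKK he1.1 he1.2 hzero
  rw [hn2, hscale] at hfin
  have hsq : ∀ y : ℂ, y ^ (2 ^ (f + 1) * m) = 1 → y ^ (2 ^ f * m) ∈ ({1, -1} : Set ℂ) := by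
    intro y hy
    have h3 : (y ^ (2 ^ f * m)) ^ 2 = 1 ^ 2 := by
      rw [← pow_mul, one_pow, ← hy]
      congr 1
      ring
    exact pm_of_sq h3
  refine ⟨_, hsq _ he1.1, _, hsq _ he1.2, ?_, (mul_eq_zero.1 hfin).resolve_left hκ⟩
  intro h3
  exact he2 f (Nat.lt_succ_self f) ⟨congrArg Prod.fst h3, congrArg Prod.snd h3⟩

end

theorem count_zeros {ι : Type} [Fintype ι] (a b : ι → ℕ) (c : ι → ℂ) (M M' : ℕ) (hMM : M ≤ M')
    (hU : ∀ (c' : ι → ℂ) (Z : Finset (ℂ × ℂ)), (∀ z ∈ Z, Zero a b c z ∧ Zero a b c' z) →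
      M < Z.card → ∃ κ : ℂ, c' = κ • c)
    (hS : ∀ ε ∈ ({1, -1} : Set ℂ), ∀ δ ∈ ({1, -1} : Set ℂ), (ε, δ) ≠ (1, 1) →
      ∃ i j, c i ≠ 0 ∧ c j ≠ 0 ∧ ε ^ a i * δ ^ b i ≠ ε ^ a j * δ ^ b j)
    (hO : ∀ (m : ℕ) (Z : Finset (ℂ × ℂ)), Odd m → (∀ z ∈ Z, Zero a b c z) → SameCoset m Z →
      Z.card ≤ M')
    (r : ℕ) (hr : 0 < r) (Z : Finset (ℂ × ℂ)) (hZ : ∀ z ∈ Z, Zero a b c z)
    (hZr : SameCoset r Z) : Z.card ≤ 4 * M' + 3 * M := by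
  classical
  obtain ⟨k, m, hm, hrm⟩ := Nat.exists_eq_two_pow_mul_odd hr.ne'
  have hmem1 : (1 : ℂ) ∈ ({1, -1} : Set ℂ) := Or.inl rfl
  have hmem2 : (-1 : ℂ) ∈ ({1, -1} : Set ℂ) := Or.inr rfl
  have hne : (-1 : ℂ) ≠ 1 := by norm_num
  have hS1 := hS (-1) hmem2 1 hmem1 (fun h => hne (congrArg Prod.fst h))
  have hS2 := hS 1 hmem1 (-1) hmem2 (fun h => hne (congrArg Prod.snd h))
  have hS3 := hS (-1) hmem2 (-1) hmem2 (fun h => hne (congrArg Prod.fst h))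
  have hc : ∃ i, c i ≠ 0 := by
    obtain ⟨i, j, hi, -⟩ := hS1
    exact ⟨i, hi⟩
  rw [hrm] at hZr
  by_cases hex : ∃ e, 1 ≤ e ∧ e ≤ k ∧ ∃ Z' ⊆ Z, SameCoset (2 ^ e * m) Z' ∧ M < Z'.card
  swap
  · by_cases hk : k = 0
    · subst hk
      rw [pow_zero, one_mul] at hZr
      have := hO m Z hm hZ hZr
      omega
    · by_contra hcon
      exact hex ⟨k, by omega, le_rfl, Z, Finset.Subset.refl _, hZr, by omega⟩
  obtain ⟨he1, hek, Z', hZ'Z, hZ'c, hZ'M⟩ := Nat.find_spec hex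
  have hmin := fun e' (h : e' < Nat.find hex) => Nat.find_min hex h
  set e₀ := Nat.find hex with he₀
  obtain ⟨z₀, hz₀⟩ : Z'.Nonempty := Finset.card_pos.1 (by omega)
  obtain ⟨h01, h02, h03⟩ := hZ z₀ (hZ'Z hz₀)
  set C := Z.filter (fun z => z.1 ^ (2 ^ e₀ * m) = z₀.1 ^ (2 ^ e₀ * m) ∧
    z.2 ^ (2 ^ e₀ * m) = z₀.2 ^ (2 ^ e₀ * m)) with hC
  have hCZ : C ⊆ Z := Finset.filter_subset _ _
  have hZ'C : Z' ⊆ C := fun z hz => Finset.mem_filter.2 ⟨hZ'Z hz, hZ'c z hz z₀ hz₀⟩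
  have hCM : M < C.card := lt_of_lt_of_le hZ'M (Finset.card_le_card hZ'C)
  have hCc : SameCoset (2 ^ e₀ * m) C := by
    intro z hz z' hz'
    have h1 := (Finset.mem_filter.1 hz).2
    have h2 := (Finset.mem_filter.1 hz').2
    exact ⟨h1.1.trans h2.1.symm, h1.2.trans h2.2.symm⟩
  have hC4 : C.card ≤ 4 * M' := by
    obtain ⟨f, hf⟩ : ∃ f, e₀ = f + 1 := ⟨e₀ - 1, by omega⟩
    refine split4 (n := 2 ^ f * m) ?_ fun Z'' hZ'' hZ''c => ?_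
    · have h1 : 2 * (2 ^ f * m) = 2 ^ e₀ * m := by
        rw [hf]
        ring
      rw [h1]
      exact hCc
    · by_cases hf0 : f = 0
      · subst hf0
        rw [pow_zero, one_mul] at hZ''c
        exact hO m Z'' hm (fun z hz => hZ z (hCZ (hZ'' hz))) hZ''c
      · refine le_trans (not_lt.1 fun hcon => ?_) hMM
        exact hmin f (by omega) ⟨by omega, by omega, Z'', hZ''.trans hCZ, hZ''c, hcon⟩
  obtain ⟨κ, hκ, hκ'⟩ := big_coset hU hc (fun z hz => hZ z (hCZ hz)) hCc hCM (hZ'C hz₀)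
  set W : ℂ → ℂ → Finset (ℂ × ℂ) := fun ε δ =>
    Z.filter (fun z => ev a b c (ε * z.1, δ * z.2) = 0) with hW
  have hWM : ∀ ε δ : ℂ, (∃ i j, c i ≠ 0 ∧ c j ≠ 0 ∧ ε ^ a i * δ ^ b i ≠ ε ^ a j * δ ^ b j) →
      (W ε δ).card ≤ M := fun ε δ h =>
    refl_card hU h (fun z hz => hZ z (Finset.mem_filter.1 hz).1)
      (fun z hz => (Finset.mem_filter.1 hz).2)
  have hcover : Z ⊆ C ∪ (W (-1) 1 ∪ (W 1 (-1) ∪ W (-1) (-1))) := by
    intro z hz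
    by_cases h1 : z ∈ C
    · exact Finset.mem_union_left _ h1
    refine Finset.mem_union_right _ ?_
    have h2 := hZr z hz z₀ (hZ'Z hz₀)
    obtain ⟨ε, hε, δ, hδ, hne1, hev⟩ := outside hm he1 ⟨h01, h02⟩ (hZ z hz) hκ hκ' h2.1 h2.2
      (fun h => h1 (Finset.mem_filter.2 ⟨hz, h⟩))
    have h3 : z ∈ W ε δ := Finset.mem_filter.2 ⟨hz, hev⟩
    rcases hε with rfl | hε <;> rcases hδ with rfl | hδ
    · exact absurd rfl hne1
    · rw [Set.mem_singleton_iff] at hδ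
      subst hδ
      exact Finset.mem_union_right _ (Finset.mem_union_left _ h3)
    · rw [Set.mem_singleton_iff] at hε
      subst hε
      exact Finset.mem_union_left _ h3
    · rw [Set.mem_singleton_iff] at hδ hε
      subst hδ
      subst hε
      exact Finset.mem_union_right _ (Finset.mem_union_right _ h3)
  have h1 := Finset.card_le_card hcover
  have h2 := Finset.card_union_le C (W (-1) 1 ∪ (W 1 (-1) ∪ W (-1) (-1)))
  have h3 := Finset.card_union_le (W (-1) 1) (W 1 (-1) ∪ W (-1) (-1))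
  have h4 := Finset.card_union_le (W 1 (-1)) (W (-1) (-1))
  have h5 := hWM _ _ hS1
  have h6 := hWM _ _ hS2
  have h7 := hWM _ _ hS3
  omega

end Pool.Agent.Simpl
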