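import Mathlib

set_option autoImplicit false

/-! # Simplicial line arrangements: definitions

Lines of the projective plane `P(V)`, `dim V = 3`, are the planes (two-dimensional subspaces) of
`V`; points are one-dimensional subspaces. The cells of an arrangement in `P(V)` are the images of
the connected components of the complement in `V` of the union of the planes (each cell is the
image of exactly two components, `C` and `-C`). -/

namespace Pool.Agent.Simpl

open Module Classical

section

variable {V : Type} [AddCommGroup V] [Module ℝ V]

/-- An arrangement: finitely many planes of `V` whose intersection is zero (the lines of the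
projective plane `P(V)` are not all through one point). -/
def IsArrangement (A : Finset (Submodule ℝ V)) : Prop :=
  (∀ H ∈ A, finrank ℝ H = 2) ∧ ⨅ H ∈ A, H = ⊥

/-- Near-pencil: all the lines but one go through one point, the remaining line does not. -/
def IsNearPencil (A : Finset (Submodule ℝ V)) : Prop :=
  ∃ H₀ ∈ A, ∃ L : Submodule ℝ V, finrank ℝ L = 1 ∧ ¬ L ≤ H₀ ∧ ∀ H ∈ A, H ≠ H₀ → L ≤ H

/-- The complement of the union of the planes. -/
def compl (A : Finset (Submodule ℝ V)) : Set V := {x | ∀ H ∈ A, x ∉ H}

/-- The vertices: the intersections of two different planes. -/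
noncomputable def verts (A : Finset (Submodule ℝ V)) : Finset (Submodule ℝ V) :=
  A.offDiag.image fun p => p.1 ⊓ p.2

/-- The multiplicity of a point. -/
noncomputable def mult (A : Finset (Submodule ℝ V)) (P : Submodule ℝ V) : ℕ :=
  (A.filter (P ≤ ·)).card

/-- Melchior's equality. -/
def Mel (A : Finset (Submodule ℝ V)) : Prop :=
  ∑ P ∈ verts A, (3 - (mult A P : ℤ)) = 3

/-- The number of double points. -/
noncomputable def dbl (A : Finset (Submodule ℝ V)) : ℕ :=
  ((verts A).filter fun P => mult A P = 2).card

end

section

variable {V : Type} [AddCommGroup V] [Module ℝ V] [TopologicalSpace V]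

/-- The cells (components of the complement in `V`). -/
def IsCell (A : Finset (Submodule ℝ V)) (C : Set V) : Prop :=
  ∃ x ∈ compl A, C = connectedComponentIn (compl A) x

/-- The plane `H` carries an edge of `C`: the closure of `C` meets `H` in a set spanning `H`. -/
def IsEdge (C : Set V) (H : Submodule ℝ V) : Prop :=
  Submodule.span ℝ (closure C ∩ (H : Set V)) = H

/-- Every cell has exactly three edges. -/
def IsSimplicial (A : Finset (Submodule ℝ V)) : Prop :=
  ∀ C : Set V, IsCell A C → {H | H ∈ A ∧ IsEdge C H}.ncard = 3

end

/-- The plane `a x + b y + c z = 0` of `ℝ³`, i.e. the line `a x + b y + c = 0` of the affine plane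
`z = 1` (the line at infinity for `a = b = 0`). -/
def plane (a b c : ℝ) : Submodule ℝ (Fin 3 → ℝ) where
  carrier := {v | a * v 0 + b * v 1 + c * v 2 = 0}
  zero_mem' := by simp
  add_mem' := by
    intro u v hu hv
    simp only [Set.mem_ofPred_eq, Pi.add_apply] at *
    linear_combination hu + hv
  smul_mem' := by
    intro r v hv
    simp only [Set.mem_ofPred_eq, Pi.smul_apply, smul_eq_mul] at *
    linear_combination r * hv

/-- The sides and the symmetry axes of the regular `N`-gon circumscribed about the unit circle,
with a side touching the circle in `(1, 0)`: sides `x cos (2πk/N) + y sin (2πk/N) = 1` and axes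
`x sin (πk/N) = y cos (πk/N)`, `k = 0, …, N - 1`. -/
noncomputable def regular (N : ℕ) : Finset (Submodule ℝ (Fin 3 → ℝ)) :=
  (Finset.range N).image (fun k : ℕ => plane (Real.cos (2 * Real.pi * k / N))
    (Real.sin (2 * Real.pi * k / N)) (-1)) ∪
  (Finset.range N).image (fun k : ℕ => plane (Real.sin (Real.pi * k / N))
    (-Real.cos (Real.pi * k / N)) 0)

/-- Points of `P(V)` in `ℂ × ℝ`: rotation about the vertical axis. -/
noncomputable def rot (w : Circle) : (ℂ × ℝ) ≃ₗ[ℝ] (ℂ × ℝ) :=
  LinearEquiv.prodCongr (rotation w).toLinearEquiv (LinearEquiv.refl ℝ ℝ)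

end Pool.Agent.Simpl
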