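import Pool.Agent.Simpl.NDefs

set_option autoImplicit false

/-! Package N5: two quadratics over `ℂ[u]`.

PROOF. `common_root`: `(v², v, 1)` is orthogonal to `(a, b, c)` and `(a', b', c')`, so it is
proportional to their cross product `(X, Y, Z)`, `X = bc' - b'c`, `Y = ca' - c'a`, `Z = ab' - a'b`; directly:
from `a v² + b v + c = 0 = a' v² + b' v + c'` one gets `Z v = Y`... (multiply by `a'`, `a` and subtract: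
`Z v = -(a c' - a' c) = Y`, `Z v² = X`) hence if `Z ≠ 0`, `Y² = Z² v² = XZ`; if `Z = 0` then `Y = 0`. It can also
be proved by `linear_combination`.
`quad`: `X, Y, Z` as above in `ℂ[u]`; the hypothesis says `Y² = X Z`, and `aX + bY + cZ = 0`. If `Z = 0`
then `Y = 0`, `aX = 0`, `X = 0`. If `Z ≠ 0` then `aY² + bYZ + cZ² = Z (aX + bY + cZ) = 0`, so
`Z² (b² - 4ac) = (2aY + bZ)²`, against `hsq`.
`not_sq`: `ℂ[u]` is a unique factorisation domain: `Z² Δ = W²` with `Z ≠ 0` gives `Z ∣ W`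
(`pow_dvd_pow_iff`), `W = Z T`, `Δ = T²`. For `Δ = b² - 4ac` of `F`: degree 4 and
`Δ = ρ₃²u⁴ - 4ρ₁ρ₂u³ + (4ρ₁² + 4ρ₂² - 2ρ₃²)u² - 4ρ₁ρ₂u + ρ₃²`, so `T = αu² + βu + γ`, `α² = γ² = ρ₃²`,
`αβ = βγ = -2ρ₁ρ₂ ≠ 0`, so `α = γ`, and `β² + 2αγ = 4ρ₁² + 4ρ₂² - 2ρ₃²`; multiply by `α² = ρ₃²`:
`4ρ₁²ρ₂² + 2ρ₃⁴ = (4ρ₁² + 4ρ₂² - 2ρ₃²)ρ₃²`, i.e. `(ρ₁² - ρ₃²)(ρ₂² - ρ₃²) = 0`, contradiction. -/

namespace Pool.Agent.Simpl

open Polynomial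

theorem common_root {R : Type} [CommRing R] [IsDomain R] {a b c a' b' c' v : R}
    (h : a * v ^ 2 + b * v + c = 0) (h' : a' * v ^ 2 + b' * v + c' = 0) :
    (a * c' - a' * c) ^ 2 = (a * b' - a' * b) * (b * c' - b' * c) := by
  have h1 : a * c' - a' * c = -((a * b' - a' * b) * v) := by
    linear_combination a * h' - a' * h
  have h2 : b * c' - b' * c = (a * b' - a' * b) * v ^ 2 := by
    linear_combination b * h' - b' * h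
  rw [h1, h2]
  ring

theorem quad {a b c a' b' c' : ℂ[X]} (ha : a ≠ 0)
    (hsq : ∀ Z W : ℂ[X], Z ≠ 0 → Z ^ 2 * (b ^ 2 - 4 * a * c) ≠ W ^ 2)
    (h : (a * c' - a' * c) ^ 2 = (a * b' - a' * b) * (b * c' - b' * c)) :
    a * b' = a' * b ∧ a * c' = a' * c ∧ b * c' = b' * c := by
  by_cases hZ : a * b' - a' * b = 0
  · have hY : a * c' - a' * c = 0 := by
      rw [hZ, zero_mul] at h
      exact pow_eq_zero_iff (two_ne_zero) |>.1 h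
    have hX : b * c' - b' * c = 0 := by
      have h1 : a * (b * c' - b' * c) = 0 := by
        linear_combination b * hY - c * hZ
      exact (mul_eq_zero.1 h1).resolve_left ha
    exact ⟨sub_eq_zero.1 hZ, sub_eq_zero.1 hY, sub_eq_zero.1 hX⟩
  · exfalso
    refine hsq (a * b' - a' * b) (-2 * a * (a * c' - a' * c) + b * (a * b' - a' * b)) hZ ?_
    linear_combination (-4 * a ^ 2) * h

/-- The three coefficients of `F` with respect to `v`. -/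
noncomputable def Fa (ρ₁ ρ₂ : ℝ) : ℂ[X] := C (ρ₁ : ℂ) - C (ρ₂ : ℂ) * X
noncomputable def Fb (ρ₃ : ℝ) : ℂ[X] := C (ρ₃ : ℂ) * X ^ 2 - C (ρ₃ : ℂ)
noncomputable def Fc (ρ₁ ρ₂ : ℝ) : ℂ[X] := C (ρ₂ : ℂ) * X - C (ρ₁ : ℂ) * X ^ 2

theorem F_eval (ρ₁ ρ₂ ρ₃ : ℝ) (u v : ℂ) : FF ρ₁ ρ₂ ρ₃ u v =
    (Fa ρ₁ ρ₂).eval u * v ^ 2 + (Fb ρ₃).eval u * v + (Fc ρ₁ ρ₂).eval u := by
  simp only [FF, Fa, Fb, Fc, eval_sub, eval_mul, eval_C, eval_X, eval_pow]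
  ring

private theorem disc_eq (r1 r2 r3 : ℝ) : (Fb r3) ^ 2 - 4 * Fa r1 r2 * Fc r1 r2 =
    C ((r3 : ℂ) ^ 2) * X ^ 4 + C (-4 * r1 * r2 : ℂ) * X ^ 3 +
      C (4 * r1 ^ 2 + 4 * r2 ^ 2 - 2 * r3 ^ 2 : ℂ) * X ^ 2 + C (-4 * r1 * r2 : ℂ) * X +
      C ((r3 : ℂ) ^ 2) := by
  have h4 : (C (4 : ℂ) : ℂ[X]) = 4 := rfl
  have h2 : (C (2 : ℂ) : ℂ[X]) = 2 := rfl
  simp only [Fa, Fb, Fc, map_mul, map_add, map_sub, map_pow, map_neg, h4, h2]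
  ring

theorem not_sq {ρ₁ ρ₂ ρ₃ : ℝ} (h1 : 0 < ρ₁) (h2 : 0 < ρ₂) (h3 : 0 < ρ₃) (h13 : ρ₁ ≠ ρ₃)
    (h23 : ρ₂ ≠ ρ₃) (Z W : ℂ[X]) (hZ : Z ≠ 0) :
    Z ^ 2 * ((Fb ρ₃) ^ 2 - 4 * Fa ρ₁ ρ₂ * Fc ρ₁ ρ₂) ≠ W ^ 2 := by
  intro h
  have hdvd : Z ∣ W := by
    have h5 : Z ^ 2 ∣ W ^ 2 := ⟨_, h.symm⟩
    exact (IsIntegrallyClosed.pow_dvd_pow_iff two_ne_zero).1 h5
  obtain ⟨T, rfl⟩ := hdvd
  rw [mul_pow] at h
  have hT := mul_left_cancel₀ (pow_ne_zero 2 hZ) h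
  rw [disc_eq] at hT
  have hdeg : T.natDegree ≤ 2 := by
    have h5 : (T ^ 2).natDegree ≤ 4 := by
      rw [← hT]
      compute_degree
    rw [natDegree_pow] at h5
    omega
  have hTe : T = C (T.coeff 2) * X ^ 2 + C (T.coeff 1) * X + C (T.coeff 0) := by
    have h5 := T.as_sum_range_C_mul_X_pow' (n := 3) (by omega)
    rw [h5]
    simp [Finset.sum_range_succ]
    ring
  set α := T.coeff 2
  set β := T.coeff 1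
  set γ := T.coeff 0
  have hsq : T ^ 2 = C (α ^ 2) * X ^ 4 + C (2 * α * β) * X ^ 3 + C (β ^ 2 + 2 * α * γ) * X ^ 2 +
      C (2 * β * γ) * X + C (γ ^ 2) := by
    have h2' : (C (2 : ℂ) : ℂ[X]) = 2 := rfl
    rw [hTe]
    simp only [map_mul, map_add, map_pow, h2']
    ring
  rw [hsq] at hT
  have e4 := congrArg (fun p : ℂ[X] => p.coeff 4) hT
  have e3 := congrArg (fun p : ℂ[X] => p.coeff 3) hT
  have e2 := congrArg (fun p : ℂ[X] => p.coeff 2) hT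
  have e1 := congrArg (fun p : ℂ[X] => p.coeff 1) hT
  have e0 := congrArg (fun p : ℂ[X] => p.coeff 0) hT
  simp only [coeff_add, coeff_C_mul, coeff_X_pow, coeff_X, coeff_C] at e4 e3 e2 e1 e0
  norm_num at e4 e3 e2 e1 e0
  have c1 : (ρ₁ : ℂ) ≠ 0 := by exact_mod_cast h1.ne'
  have c2 : (ρ₂ : ℂ) ≠ 0 := by exact_mod_cast h2.ne'
  have hβ : β ≠ 0 := by
    intro hb
    rw [hb] at e3
    have : (ρ₁ : ℂ) * ρ₂ = 0 := by linear_combination (-1 / 4 : ℂ) * e3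
    exact (mul_ne_zero c1 c2) this
  have hαγ : α = γ := by
    have : (α - γ) * β = 0 := by linear_combination (1 / 2 : ℂ) * (e1 - e3)
    exact sub_eq_zero.1 ((mul_eq_zero.1 this).resolve_right hβ)
  have hab : α * β = -2 * ρ₁ * ρ₂ := by linear_combination (-1 / 2 : ℂ) * e3
  have hfin : ((ρ₁ : ℂ) ^ 2 - ρ₃ ^ 2) * ((ρ₂ : ℂ) ^ 2 - ρ₃ ^ 2) = 0 := by
    rw [← hαγ] at e2
    have h6 : α ^ 2 * β ^ 2 = 4 * (ρ₁ : ℂ) ^ 2 * ρ₂ ^ 2 := by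
      rw [← mul_pow, hab]
      ring
    have h7 : α ^ 2 = (ρ₃ : ℂ) ^ 2 := e4.symm
    have h8 : α ^ 2 * (β ^ 2 + 2 * α * α) =
        (ρ₃ : ℂ) ^ 2 * (4 * ρ₁ ^ 2 + 4 * ρ₂ ^ 2 - 2 * ρ₃ ^ 2) := by
      rw [← e2, h7]
    have h9 : α ^ 2 * (2 * α * α) = 2 * (ρ₃ : ℂ) ^ 4 := by
      linear_combination (2 * α ^ 2 + 2 * (ρ₃ : ℂ) ^ 2) * h7
    linear_combination (1 / 4 : ℂ) * (h8 - h6 - h9)
  have hfin' : (ρ₁ ^ 2 - ρ₃ ^ 2) * (ρ₂ ^ 2 - ρ₃ ^ 2) = 0 := by exact_mod_cast hfin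
  rcases mul_eq_zero.1 hfin' with h6 | h6
  · exact h13 ((sq_eq_sq₀ h1.le h3.le).1 (sub_eq_zero.1 h6))
  · exact h23 ((sq_eq_sq₀ h2.le h3.le).1 (sub_eq_zero.1 h6))

end Pool.Agent.Simpl
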