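import Pool.Agent.Simpl.Count
import Pool.Agent.Simpl.Quad

set_option autoImplicit false

/-! Package N6: the polynomial `F`: at most 148 zeros in a coset of `μ_r × μ_r`.

PROOF. Apply `count_zeros` with `ι = Fin 6`, monomials (in the order of `FF`)
`u²v, v, uv², u, v², u²`, coefficients `c = (ρ₃, -ρ₃, -ρ₂, ρ₂, ρ₁, -ρ₁)`, `M = 12`, `M' = 28`.
As a quadratic polynomial in `v`: `F = a v² + b v + c`, `a = Fa`, `b = Fb`, `c = Fc`. `a` and `b` have no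
common root (the root `ρ₁/ρ₂` of `a` is real, positive and not `1`, the roots of `b` are `±1`), so
for every `u` there are at most two `v` with `F(u, v) = 0` (a non-zero polynomial of degree `≤ 2`).
`F_unique` (`hU`): let `a' = c'_4 + c'_2 X`, `b' = c'_1 + c'_0 X²`, `c' = c'_3 X + c'_5 X²` be the
polynomials of the second form, `R = (ac' - a'c)² - (ab' - a'b)(bc' - b'c)`. By `common_root` every `u`
is a root of `R`. `R = X R₁` with `deg R₁ ≤ 6` (the first square is between the degrees 2 and 6, the product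
between 1 and 7), so if `R ≠ 0` there are at most 6 non-zero `u` and at most 12 zeros. If `R = 0` then `quad`
(with `not_sq`) gives `ab' = a'b`, `ac' = a'c`; at the root `u₀ = ρ₁/ρ₂` of `a`: `a'(u₀) b(u₀) = 0`, so
`a'(u₀) = 0`, `a' = κ a`, and then `b' = κ b`, `c' = κ c` (cancel `a`).
`hS`: the sign vectors are `(δ, δ, ε, ε, 1, 1)`.
`F_odd` (`hO`): `odd_double` gives `d` with all `d_i ≠ 0` and `A v⁴ + B v² + C' = 0` on `Z` with
`A = d_4 + d_2 X²`, `B = d_1 + d_0 X⁴`, `C' = d_3 X² + d_5 X⁴` (at `u`). For `w = v²`: `a w + c = -b v`, so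
`a² w² + (2ac - b²) w + c² = 0` and `A w² + B w + C' = 0`. `common_root`: `u` is a root of
`R = (a²C' - A c²)² - (a²B - A(2ac - b²))((2ac - b²)C' - B c²)`, of degree `≤ 14`. If `R ≠ 0`, at most
14 values `u` and 28 zeros. If `R = 0`: the discriminant of the first quadratic is
`(2ac - b²)² - 4a²c² = b²(b² - 4ac)` and `Z² b² Δ = W²` is impossible (`not_sq` with `Z b`), so `quad` gives
`a² C' = A c²`: `(ρ₁ - ρ₂X)² (d_3 + d_5 X²) X² = (d_4 + d_2 X²)(ρ₂ - ρ₁ X)² X²`; compare the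
coefficients of `X⁶` and `X⁵` : `ρ₂² d_5 = ρ₁² d_2` and `ρ₁ρ₂ d_5 = ρ₁ρ₂ d_2`, so `d_5 = d_2` and
`ρ₁² = ρ₂²`, contradiction. Total: `4 * 28 + 3 * 12 = 148`. -/

namespace Pool.Agent.Simpl

/-- Exponents and coefficients of `F`. -/
def Fea : Fin 6 → ℕ := ![2, 0, 1, 1, 0, 2]
def Feb : Fin 6 → ℕ := ![1, 1, 2, 0, 2, 0]
noncomputable def Fec (ρ₁ ρ₂ ρ₃ : ℝ) : Fin 6 → ℂ := ![ρ₃, -ρ₃, -ρ₂, ρ₂, ρ₁, -ρ₁]

open Polynomial in
private noncomputable def fpa (e : Fin 6 → ℂ) : ℂ[X] := C (e 4) + C (e 2) * X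

open Polynomial in
private noncomputable def fpb (e : Fin 6 → ℂ) : ℂ[X] := C (e 1) + C (e 0) * X ^ 2

open Polynomial in
private noncomputable def fpc (e : Fin 6 → ℂ) : ℂ[X] := C (e 3) * X + C (e 5) * X ^ 2

open Polynomial in
private theorem fp_ev (e : Fin 6 → ℂ) (z : ℂ × ℂ) :
    ev Fea Feb e z = (fpa e).eval z.1 * z.2 ^ 2 + (fpb e).eval z.1 * z.2 + (fpc e).eval z.1 := by
  unfold ev Fea Feb fpa fpb fpc
  simp only [Fin.sum_univ_six, eval_add, eval_mul, eval_C, eval_X, eval_pow]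
  simp
  ring

private theorem fpa_F (ρ₁ ρ₂ ρ₃ : ℝ) : fpa (Fec ρ₁ ρ₂ ρ₃) = Fa ρ₁ ρ₂ := by
  unfold fpa Fa Fec
  simp
  ring

private theorem fpb_F (ρ₁ ρ₂ ρ₃ : ℝ) : fpb (Fec ρ₁ ρ₂ ρ₃) = Fb ρ₃ := by
  unfold fpb Fb Fec
  simp
  ring

private theorem fpc_F (ρ₁ ρ₂ ρ₃ : ℝ) : fpc (Fec ρ₁ ρ₂ ρ₃) = Fc ρ₁ ρ₂ := by
  unfold fpc Fc Fec
  simp
  ring

theorem F_ev (ρ₁ ρ₂ ρ₃ : ℝ) (z : ℂ × ℂ) :
    ev Fea Feb (Fec ρ₁ ρ₂ ρ₃) z = FF ρ₁ ρ₂ ρ₃ z.1 z.2 := by
  rw [fp_ev, fpa_F, fpb_F, fpc_F, F_eval]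

open Polynomial in
private theorem fa_ne {ρ₁ ρ₂ : ℝ} (h1 : 0 < ρ₁) : Fa ρ₁ ρ₂ ≠ 0 := by
  intro h
  have h' := congrArg (fun p => p.eval 0) h
  simp only [Fa, eval_sub, eval_mul, eval_C, eval_X, mul_zero, sub_zero, eval_zero] at h'
  exact h1.ne' (by exact_mod_cast h')

open Polynomial in
private theorem fb_ne {ρ₃ : ℝ} (h3 : 0 < ρ₃) : Fb ρ₃ ≠ 0 := by
  intro h
  have h' := congrArg (fun p => p.eval 0) h
  simp [Fb, eval_sub, eval_mul, eval_C, eval_X] at h'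
  exact h3.ne' h'

open Polynomial in
/-- `a` and `b` have no common root. -/
private theorem ab_ne {ρ₁ ρ₂ ρ₃ : ℝ} (h1 : 0 < ρ₁) (h2 : 0 < ρ₂) (h3 : 0 < ρ₃) (h12 : ρ₁ ≠ ρ₂)
    (u : ℂ) (ha : (Fa ρ₁ ρ₂).eval u = 0) : (Fb ρ₃).eval u ≠ 0 := by
  intro hb
  simp only [Fa, Fb, eval_sub, eval_mul, eval_C, eval_X, eval_pow] at ha hb
  have h3' : (ρ₃ : ℂ) ≠ 0 := by exact_mod_cast h3.ne'
  have h4 : u ^ 2 = 1 := by
    have : (ρ₃ : ℂ) * (u ^ 2 - 1) = 0 := by linear_combination hb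
    rcases mul_eq_zero.1 this with h | h
    · exact absurd h h3'
    · linear_combination h
  have h5 : (ρ₁ : ℂ) = ρ₂ * u := by linear_combination ha
  have h6 : (ρ₁ : ℂ) ^ 2 = ρ₂ ^ 2 := by rw [h5, mul_pow, h4, mul_one]
  have h7 : ρ₁ ^ 2 = ρ₂ ^ 2 := by exact_mod_cast h6
  exact h12 ((pow_left_inj₀ h1.le h2.le two_ne_zero).1 h7)

open Polynomial in
/-- Above every `u` there are at most two zeros. -/
private theorem fibre_card {ρ₁ ρ₂ ρ₃ : ℝ} (h1 : 0 < ρ₁) (h2 : 0 < ρ₂) (h3 : 0 < ρ₃)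
    (h12 : ρ₁ ≠ ρ₂) (Z : Finset (ℂ × ℂ)) (hZ : ∀ z ∈ Z, Zero Fea Feb (Fec ρ₁ ρ₂ ρ₃) z) :
    Z.card ≤ 2 * (Z.image Prod.fst).card := by
  classical
  refine Finset.card_le_mul_card_image Z 2 fun u _ => ?_
  set P : ℂ[X] := C ((Fa ρ₁ ρ₂).eval u) * X ^ 2 + C ((Fb ρ₃).eval u) * X +
    C ((Fc ρ₁ ρ₂).eval u) with hP
  have hP0 : P ≠ 0 := by
    intro h
    have hc2 := congrArg (fun p => p.coeff 2) h
    have hc1 := congrArg (fun p => p.coeff 1) h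
    simp [hP, coeff_C] at hc2 hc1
    exact ab_ne h1 h2 h3 h12 u hc2 hc1
  have hdeg : P.natDegree ≤ 2 := by
    rw [hP]
    compute_degree
  have hinj : Set.InjOn (Prod.snd : ℂ × ℂ → ℂ) (Z.filter fun x => x.1 = u : Finset (ℂ × ℂ)) := by
    intro x hx y hy hxy
    have hx' := (Finset.mem_filter.1 (Finset.mem_coe.1 hx)).2
    have hy' := (Finset.mem_filter.1 (Finset.mem_coe.1 hy)).2
    exact Prod.ext (hx'.trans hy'.symm) hxy
  rw [← Finset.card_image_of_injOn hinj]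
  have hsub : (Z.filter fun x => x.1 = u).image Prod.snd ⊆ P.roots.toFinset := by
    intro v hv
    obtain ⟨z, hz, rfl⟩ := Finset.mem_image.1 hv
    obtain ⟨hz1, hz2⟩ := Finset.mem_filter.1 hz
    rw [Multiset.mem_toFinset, mem_roots hP0, IsRoot.def]
    have h := (hZ z hz1).2.2
    rw [fp_ev, fpa_F, fpb_F, fpc_F, hz2] at h
    rw [hP]
    simp only [eval_add, eval_mul, eval_C, eval_X, eval_pow]
    exact h
  calc _ ≤ P.roots.toFinset.card := Finset.card_le_card hsub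
    _ ≤ Multiset.card P.roots := Multiset.toFinset_card_le _
    _ ≤ P.natDegree := P.card_roots'
    _ ≤ 2 := hdeg

open Polynomial in
theorem F_unique {ρ₁ ρ₂ ρ₃ : ℝ} (h1 : 0 < ρ₁) (h2 : 0 < ρ₂) (h3 : 0 < ρ₃) (h12 : ρ₁ ≠ ρ₂)
    (h13 : ρ₁ ≠ ρ₃) (h23 : ρ₂ ≠ ρ₃) (c' : Fin 6 → ℂ) (Z : Finset (ℂ × ℂ))
    (hZ : ∀ z ∈ Z, Zero Fea Feb (Fec ρ₁ ρ₂ ρ₃) z ∧ Zero Fea Feb c' z) (hcard : 12 < Z.card) :
    ∃ κ : ℂ, c' = κ • Fec ρ₁ ρ₂ ρ₃ := by
  classical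
  have hfib := fibre_card h1 h2 h3 h12 Z fun z hz => (hZ z hz).1
  set U := Z.image Prod.fst with hU
  set a := Fa ρ₁ ρ₂ with ha
  set b := Fb ρ₃ with hb
  set c := Fc ρ₁ ρ₂ with hc
  set a' := fpa c' with ha'
  set b' := fpb c' with hb'
  set d' := fpc c' with hd'
  set R : ℂ[X] := (a * d' - a' * c) ^ 2 - (a * b' - a' * b) * (b * d' - b' * c) with hR
  have hroot : ∀ u ∈ U, R.eval u = 0 := by
    intro u hu
    obtain ⟨z, hz, rfl⟩ := Finset.mem_image.1 hu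
    have e1 := (hZ z hz).1.2.2
    have e2 := (hZ z hz).2.2.2
    rw [fp_ev, fpa_F, fpb_F, fpc_F] at e1
    rw [fp_ev] at e2
    have e3 := common_root e1 e2
    rw [hR]
    simp only [eval_sub, eval_mul, eval_pow]
    rw [sub_eq_zero]
    exact e3
  have hU0 : (0 : ℂ) ∉ U := by
    intro h
    obtain ⟨z, hz, h0⟩ := Finset.mem_image.1 h
    exact (hZ z hz).1.1 h0
  have hR0 : R.eval 0 = 0 := by
    rw [hR, hc, hd']
    simp [Fc, fpc]
  have hdeg : R.natDegree ≤ 7 := by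
    have ha1 : a.natDegree ≤ 1 := by rw [ha, Fa]; compute_degree
    have hb1 : b.natDegree ≤ 2 := by rw [hb, Fb]; compute_degree
    have hc1 : c.natDegree ≤ 2 := by rw [hc, Fc]; compute_degree
    have ha2 : a'.natDegree ≤ 1 := by rw [ha', fpa]; compute_degree
    have hb2 : b'.natDegree ≤ 2 := by rw [hb', fpb]; compute_degree
    have hd2 : d'.natDegree ≤ 2 := by rw [hd', fpc]; compute_degree
    have e1 : (a * d' - a' * c).natDegree ≤ 3 :=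
      (natDegree_sub_le _ _).trans (max_le (natDegree_mul_le_of_le ha1 hd2)
        (natDegree_mul_le_of_le ha2 hc1))
    have e2 : (a * b' - a' * b).natDegree ≤ 3 :=
      (natDegree_sub_le _ _).trans (max_le (natDegree_mul_le_of_le ha1 hb2)
        (natDegree_mul_le_of_le ha2 hb1))
    have e3 : (b * d' - b' * c).natDegree ≤ 4 :=
      (natDegree_sub_le _ _).trans (max_le (natDegree_mul_le_of_le hb1 hd2)
        (natDegree_mul_le_of_le hb2 hc1))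
    refine (natDegree_sub_le _ _).trans (max_le ?_ (natDegree_mul_le_of_le e2 e3))
    exact (natDegree_pow_le_of_le 2 e1).trans (by norm_num)
  have hRz : R = 0 := by
    by_contra hne
    have hsub : insert 0 U ⊆ R.roots.toFinset := by
      intro u hu
      rw [Multiset.mem_toFinset, mem_roots hne, IsRoot.def]
      rcases Finset.mem_insert.1 hu with rfl | hu
      · exact hR0
      · exact hroot u hu
    have h4 : (insert 0 U).card ≤ 7 :=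
      calc _ ≤ R.roots.toFinset.card := Finset.card_le_card hsub
        _ ≤ Multiset.card R.roots := Multiset.toFinset_card_le _
        _ ≤ R.natDegree := R.card_roots'
        _ ≤ 7 := hdeg
    rw [Finset.card_insert_of_notMem hU0] at h4
    omega
  have hq := quad (a := a) (b := b) (c := c) (a' := a') (b' := b') (c' := d') (fa_ne h1)
    (fun Z W hZ0 => not_sq h1 h2 h3 h13 h23 Z W hZ0) (sub_eq_zero.1 hRz)
  obtain ⟨q1, q2, -⟩ := hq
  have hρ1 : (ρ₁ : ℂ) ≠ 0 := by exact_mod_cast h1.ne'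
  have hρ2 : (ρ₂ : ℂ) ≠ 0 := by exact_mod_cast h2.ne'
  set u₀ : ℂ := ρ₁ / ρ₂ with hu₀
  have ea : a.eval u₀ = 0 := by
    rw [ha, Fa]
    simp only [eval_sub, eval_mul, eval_C, eval_X]
    rw [hu₀, mul_div_cancel₀ _ hρ2, sub_self]
  have ea' : a'.eval u₀ = 0 := by
    have h4 := congrArg (fun p => p.eval u₀) q1
    simp only [eval_mul] at h4
    rw [ea, zero_mul] at h4
    rcases mul_eq_zero.1 h4.symm with h5 | h5
    · exact h5
    · exact absurd h5 (ab_ne h1 h2 h3 h12 u₀ ea)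
  have e42 : c' 4 + c' 2 * u₀ = 0 := by
    rw [ha', fpa] at ea'
    simpa only [eval_add, eval_mul, eval_C, eval_X] using ea'
  set κ : ℂ := c' 4 / ρ₁ with hκ
  have k4 : c' 4 = κ * ρ₁ := by rw [hκ, div_mul_cancel₀ _ hρ1]
  have k2 : c' 2 = κ * (-ρ₂) := by
    have h5 : c' 2 * u₀ = -(κ * ρ₁) := by rw [← k4]; linear_combination e42
    rw [hu₀] at h5
    field_simp at h5
    linear_combination h5
  have haa : a' = C κ * a := by
    rw [ha', fpa, ha, Fa, k4, k2]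
    simp only [C_mul, C_neg]
    ring
  have hbb : b' = C κ * b := by
    refine mul_left_cancel₀ (fa_ne (ρ₂ := ρ₂) h1) ?_
    rw [← ha, q1, haa]
    ring
  have hdd : d' = C κ * c := by
    refine mul_left_cancel₀ (fa_ne (ρ₂ := ρ₂) h1) ?_
    rw [← ha, q2, haa]
    ring
  refine ⟨κ, ?_⟩
  have b0 := congrArg (fun p => p.coeff 0) hbb
  have b2 := congrArg (fun p => p.coeff 2) hbb
  have d1 := congrArg (fun p => p.coeff 1) hdd
  have d2 := congrArg (fun p => p.coeff 2) hdd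
  simp [hb', fpb, hb, Fb, coeff_C] at b0 b2
  simp [hd', fpc, hc, Fc, coeff_C] at d1 d2
  funext i
  fin_cases i
  · simpa [Fec] using b2
  · simpa [Fec] using b0
  · simpa [Fec] using k2
  · simpa [Fec] using d1
  · simpa [Fec] using k4
  · simpa [Fec] using d2

open Polynomial in
theorem F_odd {ρ₁ ρ₂ ρ₃ : ℝ} (h1 : 0 < ρ₁) (h2 : 0 < ρ₂) (h3 : 0 < ρ₃) (h12 : ρ₁ ≠ ρ₂)
    (h13 : ρ₁ ≠ ρ₃) (h23 : ρ₂ ≠ ρ₃) (m : ℕ) (Z : Finset (ℂ × ℂ)) (hm : Odd m)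
    (hZ : ∀ z ∈ Z, Zero Fea Feb (Fec ρ₁ ρ₂ ρ₃) z) (hZm : SameCoset m Z) : Z.card ≤ 28 := by
  classical
  have hρ1 : (ρ₁ : ℂ) ≠ 0 := by exact_mod_cast h1.ne'
  have hρ2 : (ρ₂ : ℂ) ≠ 0 := by exact_mod_cast h2.ne'
  obtain ⟨d, hd, hdz⟩ := odd_double hm Fea Feb (Fec ρ₁ ρ₂ ρ₃) Z hZ hZm
  have hd2 : d 2 ≠ 0 := hd 2 (by simpa [Fec] using h2.ne')
  have hfib := fibre_card h1 h2 h3 h12 Z hZ
  set U := Z.image Prod.fst with hU
  set a := Fa ρ₁ ρ₂ with ha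
  set b := Fb ρ₃ with hb
  set c := Fc ρ₁ ρ₂ with hc
  set A : ℂ[X] := C (d 4) + C (d 2) * X ^ 2 with hA
  set B : ℂ[X] := C (d 1) + C (d 0) * X ^ 4 with hB
  set E : ℂ[X] := C (d 3) * X ^ 2 + C (d 5) * X ^ 4 with hE
  set R : ℂ[X] := (a ^ 2 * E - A * c ^ 2) ^ 2 -
    (a ^ 2 * B - A * (2 * a * c - b ^ 2)) * ((2 * a * c - b ^ 2) * E - B * c ^ 2) with hR
  have hroot : ∀ u ∈ U, R.eval u = 0 := by
    intro u hu
    obtain ⟨z, hz, rfl⟩ := Finset.mem_image.1 hu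
    have e1 := (hZ z hz).2.2
    rw [fp_ev, fpa_F, fpb_F, fpc_F] at e1
    have e2 := hdz z hz
    have e2' : A.eval z.1 * (z.2 ^ 2) ^ 2 + B.eval z.1 * z.2 ^ 2 + E.eval z.1 = 0 := by
      rw [← e2, hA, hB, hE]
      unfold ev Fea Feb
      simp only [Fin.sum_univ_six, eval_add, eval_mul, eval_C, eval_X, eval_pow]
      simp
      ring
    have e1' : (a.eval z.1) ^ 2 * (z.2 ^ 2) ^ 2 + (2 * a.eval z.1 * c.eval z.1 -
        (b.eval z.1) ^ 2) * z.2 ^ 2 + (c.eval z.1) ^ 2 = 0 := by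
      linear_combination (a.eval z.1 * z.2 ^ 2 + c.eval z.1 - b.eval z.1 * z.2) * e1
    have e3 := common_root e1' e2'
    rw [hR]
    simp only [eval_sub, eval_mul, eval_pow, eval_ofNat]
    rw [sub_eq_zero]
    exact e3
  have hdeg : R.natDegree ≤ 14 := by
    have ha1 : a.natDegree ≤ 1 := by rw [ha, Fa]; compute_degree
    have hb1 : b.natDegree ≤ 2 := by rw [hb, Fb]; compute_degree
    have hc1 : c.natDegree ≤ 2 := by rw [hc, Fc]; compute_degree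
    have hA1 : A.natDegree ≤ 2 := by rw [hA]; compute_degree
    have hB1 : B.natDegree ≤ 4 := by rw [hB]; compute_degree
    have hE1 : E.natDegree ≤ 4 := by rw [hE]; compute_degree
    have hsq1 : (a ^ 2).natDegree ≤ 2 := natDegree_pow_le_of_le 2 ha1
    have hsq2 : (c ^ 2).natDegree ≤ 4 := natDegree_pow_le_of_le 2 hc1
    have hsq3 : (b ^ 2).natDegree ≤ 4 := natDegree_pow_le_of_le 2 hb1
    have hmid : (2 * a * c - b ^ 2).natDegree ≤ 4 := by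
      refine (natDegree_sub_le _ _).trans (max_le ?_ hsq3)
      have h4 : (2 * a : ℂ[X]).natDegree ≤ 1 := by
        have : (2 : ℂ[X]).natDegree ≤ 0 := by compute_degree
        exact natDegree_mul_le_of_le this ha1
      exact (natDegree_mul_le_of_le h4 hc1).trans (by norm_num)
    have e1 : (a ^ 2 * E - A * c ^ 2).natDegree ≤ 6 :=
      (natDegree_sub_le _ _).trans (max_le (natDegree_mul_le_of_le hsq1 hE1)
        (natDegree_mul_le_of_le hA1 hsq2))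
    have e2 : (a ^ 2 * B - A * (2 * a * c - b ^ 2)).natDegree ≤ 6 :=
      (natDegree_sub_le _ _).trans (max_le (natDegree_mul_le_of_le hsq1 hB1)
        (natDegree_mul_le_of_le hA1 hmid))
    have e3 : ((2 * a * c - b ^ 2) * E - B * c ^ 2).natDegree ≤ 8 :=
      (natDegree_sub_le _ _).trans (max_le (natDegree_mul_le_of_le hmid hE1)
        (natDegree_mul_le_of_le hB1 hsq2))
    refine (natDegree_sub_le _ _).trans (max_le ?_ (natDegree_mul_le_of_le e2 e3))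
    exact (natDegree_pow_le_of_le 2 e1).trans (by norm_num)
  have hRz : R ≠ 0 := by
    intro hR0
    have hsq : ∀ Z W : ℂ[X], Z ≠ 0 →
        Z ^ 2 * ((2 * a * c - b ^ 2) ^ 2 - 4 * a ^ 2 * c ^ 2) ≠ W ^ 2 := by
      intro Z W hZ0 h
      refine not_sq h1 h2 h3 h13 h23 (Z * b) W (mul_ne_zero hZ0 (fb_ne h3)) ?_
      rw [← h]
      ring
    have hq := quad (a := a ^ 2) (b := 2 * a * c - b ^ 2) (c := c ^ 2) (a' := A) (b' := B)
      (c' := E) (pow_ne_zero 2 (fa_ne h1)) hsq (sub_eq_zero.1 hR0)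
    have q2 := hq.2.1
    have l1 : a ^ 2 * E = C (ρ₁ ^ 2 * d 3) * X ^ 2 + C (-2 * ρ₁ * ρ₂ * d 3) * X ^ 3 +
        C (ρ₂ ^ 2 * d 3 + ρ₁ ^ 2 * d 5) * X ^ 4 + C (-2 * ρ₁ * ρ₂ * d 5) * X ^ 5 +
        C (ρ₂ ^ 2 * d 5) * X ^ 6 := by
      rw [ha, Fa, hE]
      simp only [C_mul, C_add, C_pow, C_neg, map_ofNat]
      ring
    have l2 : A * c ^ 2 = C (ρ₂ ^ 2 * d 4) * X ^ 2 + C (-2 * ρ₁ * ρ₂ * d 4) * X ^ 3 +
        C (ρ₁ ^ 2 * d 4 + ρ₂ ^ 2 * d 2) * X ^ 4 + C (-2 * ρ₁ * ρ₂ * d 2) * X ^ 5 +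
        C (ρ₁ ^ 2 * d 2) * X ^ 6 := by
      rw [hc, Fc, hA]
      simp only [C_mul, C_add, C_pow, C_neg, map_ofNat]
      ring
    rw [l1, l2] at q2
    have c5 := congrArg (fun p => p.coeff 5) q2
    have c6 := congrArg (fun p => p.coeff 6) q2
    simp only [coeff_add, coeff_C_mul, coeff_X_pow] at c5 c6
    norm_num at c5 c6
    have c5' : d 5 = d 2 := by
      have h4 : (-2 * (ρ₁ : ℂ) * ρ₂) * d 5 = (-2 * (ρ₁ : ℂ) * ρ₂) * d 2 := by
        first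
          | linear_combination c5
          | (rcases c5 with h | h
             · rw [h]
             · exfalso
               rcases h with h | h
               · exact hρ1 (by exact_mod_cast h)
               · exact hρ2 (by exact_mod_cast h))
      refine mul_left_cancel₀ ?_ h4
      exact mul_ne_zero (mul_ne_zero (by norm_num) hρ1) hρ2
    rw [c5'] at c6
    have h6 : (ρ₁ : ℂ) ^ 2 = ρ₂ ^ 2 := by
      refine mul_right_cancel₀ hd2 ?_
      linear_combination -c6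
    have h7 : ρ₁ ^ 2 = ρ₂ ^ 2 := by exact_mod_cast h6
    exact h12 ((pow_left_inj₀ h1.le h2.le two_ne_zero).1 h7)
  have hsub : U ⊆ R.roots.toFinset := by
    intro u hu
    rw [Multiset.mem_toFinset, mem_roots hRz, IsRoot.def]
    exact hroot u hu
  have h4 : U.card ≤ 14 :=
    calc _ ≤ R.roots.toFinset.card := Finset.card_le_card hsub
      _ ≤ Multiset.card R.roots := Multiset.toFinset_card_le _
      _ ≤ R.natDegree := R.card_roots'
      _ ≤ 14 := hdeg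
  omega

theorem boundF {ρ₁ ρ₂ ρ₃ : ℝ} (h1 : 0 < ρ₁) (h2 : 0 < ρ₂) (h3 : 0 < ρ₃) (h12 : ρ₁ ≠ ρ₂)
    (h13 : ρ₁ ≠ ρ₃) (h23 : ρ₂ ≠ ρ₃) {r : ℕ} (hr : 0 < r) {a b : ℂ} (ha : a ≠ 0) (hb : b ≠ 0)
    (Z : Finset (ℂ × ℂ))
    (hZ : ∀ z ∈ Z, z.1 ^ r = a ∧ z.2 ^ r = b ∧ FF ρ₁ ρ₂ ρ₃ z.1 z.2 = 0) : Z.card ≤ 148 := by
  have hρ1 : (ρ₁ : ℂ) ≠ 0 := by exact_mod_cast h1.ne'
  have hρ2 : (ρ₂ : ℂ) ≠ 0 := by exact_mod_cast h2.ne'
  have hρ3 : (ρ₃ : ℂ) ≠ 0 := by exact_mod_cast h3.ne'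
  refine count_zeros Fea Feb (Fec ρ₁ ρ₂ ρ₃) 12 28 (by norm_num) ?_ ?_ ?_ r hr Z ?_ ?_
  · intro c' Z' hZ' hcard
    exact F_unique h1 h2 h3 h12 h13 h23 c' Z' hZ' hcard
  · intro ε hε δ hδ hne
    have c0 : Fec ρ₁ ρ₂ ρ₃ 0 ≠ 0 := by simpa [Fec] using h3.ne'
    have c2 : Fec ρ₁ ρ₂ ρ₃ 2 ≠ 0 := by simpa [Fec] using h2.ne'
    have c4 : Fec ρ₁ ρ₂ ρ₃ 4 ≠ 0 := by simpa [Fec] using h1.ne'
    rcases hδ with rfl | hδ
    · rcases hε with rfl | hε
      · exact absurd rfl hne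
      · rw [Set.mem_singleton_iff] at hε
        subst hε
        refine ⟨2, 4, c2, c4, ?_⟩
        simp [Fea, Feb]
        norm_num
    · rw [Set.mem_singleton_iff] at hδ
      subst hδ
      refine ⟨0, 4, c0, c4, ?_⟩
      have hε2 : ε ^ 2 = 1 := by
        rcases hε with rfl | hε
        · norm_num
        · rw [Set.mem_singleton_iff] at hε
          rw [hε]
          norm_num
      simp [Fea, Feb, hε2]
      norm_num
  · intro m Z' hm hZ' hS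
    exact F_odd h1 h2 h3 h12 h13 h23 m Z' hm hZ' hS
  · intro z hz
    obtain ⟨e1, e2, e3⟩ := hZ z hz
    refine ⟨?_, ?_, ?_⟩
    · intro h
      rw [h, zero_pow hr.ne'] at e1
      exact ha e1.symm
    · intro h
      rw [h, zero_pow hr.ne'] at e2
      exact hb e2.symm
    · rw [F_ev]
      exact e3
  · intro z hz z' hz'
    obtain ⟨e1, e2, -⟩ := hZ z hz
    obtain ⟨f1, f2, -⟩ := hZ z' hz'
    exact ⟨e1.trans f1.symm, e2.trans f2.symm⟩

end Pool.Agent.Simpl
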