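import Pool.Agent.Simpl.Count

set_option autoImplicit false

/-! Package N4: the polynomial `G`: at most 22 zeros in a coset of `μ_r × μ_r`.

PROOF. Apply `count_zeros` with `ι = Fin 4`, monomials `xy, x, x², y`, coefficients
`c = (ρ₂, ρ₂, -ρ₁, -ρ₁) = (α, β, γ, δ)`, all non-zero, `αβ = ρ₂² ≠ ρ₁² = γδ`; `M = 2`, `M' = 4`.
`hU`: let `c' = (α', β', γ', δ')` and more than two common zeros in the torus. For such a zero
`y(αx + δ) = -x(β + γx)`; `αx + δ ≠ 0` (otherwise `β + γx = 0` and `x = -δ/α = -β/γ`, `αβ = γδ`), so `y` is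
determined by `x` and there are three different `x`. Eliminating `y`:
`(β + γx)(α'x + δ') = (β' + γ'x)(αx + δ)`, of degree at most 2 in `x` with three roots, so an
identity: `γα' = γ'α`, `βδ' = β'δ`, `βα' + γδ' = β'α + γ'δ`. With `κ = α'/α`, `κ' = δ'/δ`: `γ' = κγ`,
`β' = κ'β` and `(κ - κ')(αβ - γδ) = 0`, so `c' = κ c`.
`hS`: the sign vectors are `(εδ, ε, 1, δ)`.
`hO`: `odd_double` gives `α', β', γ', δ' ≠ 0` with `α'x²y² + β'x² + γ'x⁴ + δ'y² = 0` on `Z`;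
multiply by `(αx + δ)²` and eliminate `y`: `x²[(α'x² + δ')(β + γx)² + (β' + γ'x²)(αx + δ)²] = 0`. The
polynomial in brackets has degree at most 4 and is not zero: if it were identically zero then, at
the root `x₀ = -δ/α` of `αx + δ` (where `β + γx₀ ≠ 0`) `α'x² + δ'` would vanish to the order 2 (derivative),
but its derivative `2α'x₀` is not zero. So at most 4 values of `x`, and `y` is determined by `x`. -/

namespace Pool.Agent.Simpl

open Polynomial in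
private theorem quad3 {A B C x₁ x₂ x₃ : ℂ} (h12 : x₁ ≠ x₂) (h13 : x₁ ≠ x₃) (h23 : x₂ ≠ x₃)
    (h1 : A * x₁ ^ 2 + B * x₁ + C = 0) (h2 : A * x₂ ^ 2 + B * x₂ + C = 0)
    (h3 : A * x₃ ^ 2 + B * x₃ + C = 0) : A = 0 ∧ B = 0 ∧ C = 0 := by
  have e1 : A * (x₁ + x₂) + B = 0 := by
    have : (x₁ - x₂) * (A * (x₁ + x₂) + B) = 0 := by linear_combination h1 - h2
    exact (mul_eq_zero.1 this).resolve_left (sub_ne_zero.2 h12)
  have e2 : A * (x₁ + x₃) + B = 0 := by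
    have : (x₁ - x₃) * (A * (x₁ + x₃) + B) = 0 := by linear_combination h1 - h3
    exact (mul_eq_zero.1 this).resolve_left (sub_ne_zero.2 h13)
  have e3 : A = 0 := by
    have : (x₂ - x₃) * A = 0 := by linear_combination e1 - e2
    exact (mul_eq_zero.1 this).resolve_left (sub_ne_zero.2 h23)
  have e4 : B = 0 := by rw [e3, zero_mul, zero_add] at e1; exact e1
  refine ⟨e3, e4, ?_⟩
  rw [e3, e4] at h1
  simpa using h1

/-- The equation of `G` with general coefficients. -/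
private def eqG (α β γ δ x y : ℂ) : ℂ := α * x * y + β * x + γ * x ^ 2 + δ * y

private theorem den_ne {α β γ δ x y : ℂ} (_hα : α ≠ 0) (hne : α * β ≠ γ * δ) (hx : x ≠ 0)
    (h : eqG α β γ δ x y = 0) : α * x + δ ≠ 0 := by
  intro h0
  have h1 : x * (β + γ * x) = 0 := by
    unfold eqG at h
    linear_combination h - y * h0
  have h2 := (mul_eq_zero.1 h1).resolve_left hx
  exact hne (by linear_combination α * h2 - γ * h0)

private theorem inj_fst {α β γ δ x y y' : ℂ} (hα : α ≠ 0) (hne : α * β ≠ γ * δ) (hx : x ≠ 0)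
    (h : eqG α β γ δ x y = 0) (h' : eqG α β γ δ x y' = 0) : y = y' := by
  have h0 := den_ne hα hne hx h
  have h1 : (α * x + δ) * (y - y') = 0 := by
    unfold eqG at h h'
    linear_combination h - h'
  exact sub_eq_zero.1 ((mul_eq_zero.1 h1).resolve_left h0)

private theorem prop_of_three {α β γ δ α' β' γ' δ' : ℂ} (hα : α ≠ 0) (hδ : δ ≠ 0)
    (hne : α * β ≠ γ * δ) (Z : Finset (ℂ × ℂ))
    (hZ : ∀ z ∈ Z, z.1 ≠ 0 ∧ eqG α β γ δ z.1 z.2 = 0 ∧ eqG α' β' γ' δ' z.1 z.2 = 0)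
    (hc : 2 < Z.card) : ∃ κ : ℂ, α' = κ * α ∧ β' = κ * β ∧ γ' = κ * γ ∧ δ' = κ * δ := by
  obtain ⟨z₁, m1, z₂, m2, z₃, m3, n12, n13, n23⟩ := Finset.two_lt_card.1 hc
  have key : ∀ z ∈ Z, ∀ z' ∈ Z, z ≠ z' → z.1 ≠ z'.1 := by
    intro z hz z' hz' hn h
    refine hn (Prod.ext h ?_)
    have h1 := (hZ z hz).2.1
    have h2 := (hZ z' hz').2.1
    rw [← h] at h2
    exact inj_fst hα hne (hZ z hz).1 h1 h2
  have hq : ∀ z ∈ Z, (γ * α' - γ' * α) * z.1 ^ 2 +
      (β * α' + γ * δ' - β' * α - γ' * δ) * z.1 + (β * δ' - β' * δ) = 0 := by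
    intro z hz
    obtain ⟨h1, h2, h3⟩ := hZ z hz
    have h4 : z.1 * ((γ * α' - γ' * α) * z.1 ^ 2 +
        (β * α' + γ * δ' - β' * α - γ' * δ) * z.1 + (β * δ' - β' * δ)) = 0 := by
      unfold eqG at h2 h3
      linear_combination (α' * z.1 + δ') * h2 - (α * z.1 + δ) * h3
    exact (mul_eq_zero.1 h4).resolve_left h1
  obtain ⟨e1, e2, e3⟩ := quad3 (key z₁ m1 z₂ m2 n12) (key z₁ m1 z₃ m3 n13)
    (key z₂ m2 z₃ m3 n23) (hq z₁ m1) (hq z₂ m2) (hq z₃ m3)
  have hs : α * β - γ * δ ≠ 0 := sub_ne_zero.2 hne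
  have e4 : α' * δ = δ' * α := by
    have h5 : (α * β - γ * δ) * (α' * δ - δ' * α) = 0 := by
      linear_combination (α * δ) * e2 - α ^ 2 * e3 - δ ^ 2 * e1
    have := (mul_eq_zero.1 h5).resolve_left hs
    linear_combination this
  refine ⟨α' / α, ?_, ?_, ?_, ?_⟩
  · field_simp
  · rw [div_mul_eq_mul_div, eq_div_iff hα]
    have h6 : δ * (β' * α - α' * β) = 0 := by
      linear_combination -α * e3 - β * e4
    have := (mul_eq_zero.1 h6).resolve_left hδ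
    linear_combination this
  · rw [div_mul_eq_mul_div, eq_div_iff hα]
    linear_combination -e1
  · rw [div_mul_eq_mul_div, eq_div_iff hα]
    linear_combination -e4

open Polynomial in
private theorem card_le_four {α β γ δ d₀ d₁ d₂ d₃ : ℂ} (hα : α ≠ 0) (hδ : δ ≠ 0)
    (hd : d₀ ≠ 0) (hne : α * β ≠ γ * δ) (Z : Finset (ℂ × ℂ))
    (hZ : ∀ z ∈ Z, z.1 ≠ 0 ∧ eqG α β γ δ z.1 z.2 = 0 ∧
      d₀ * z.1 ^ 2 * z.2 ^ 2 + d₁ * z.1 ^ 2 + d₂ * z.1 ^ 4 + d₃ * z.2 ^ 2 = 0) :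
    Z.card ≤ 4 := by
  classical
  set P : ℂ[X] := (C d₀ * X ^ 2 + C d₃) * (C γ * X + C β) ^ 2 +
    (C d₂ * X ^ 2 + C d₁) * (C α * X + C δ) ^ 2 with hP
  have hdeg : P.natDegree ≤ 4 := by
    rw [hP]
    compute_degree
  have hP0 : P ≠ 0 := by
    intro h0
    set x₀ : ℂ := -δ / α with hx₀
    have hx : α * x₀ + δ = 0 := by
      rw [hx₀]
      field_simp
      ring
    have hx0 : x₀ ≠ 0 := by
      rw [hx₀]
      exact div_ne_zero (neg_ne_zero.2 hδ) hα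
    have hb : γ * x₀ + β ≠ 0 := by
      intro h1
      exact hne (by linear_combination α * h1 - γ * hx)
    have h1 : eval x₀ P = 0 := by rw [h0, eval_zero]
    have h2 : eval x₀ (derivative P) = 0 := by rw [h0, derivative_zero, eval_zero]
    rw [hP] at h1 h2
    simp only [eval_add, eval_mul, eval_pow, eval_C, eval_X, derivative_add, derivative_mul,
      derivative_pow, derivative_C, derivative_X, zero_mul, zero_add, mul_one, add_zero,
      hx] at h1 h2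
    have h3 : d₀ * x₀ ^ 2 + d₃ = 0 := by
      have h4 : (d₀ * x₀ ^ 2 + d₃) * (γ * x₀ + β) ^ 2 = 0 := by
        linear_combination h1
      exact (mul_eq_zero.1 h4).resolve_right (pow_ne_zero 2 hb)
    rw [h3] at h2
    norm_num at h2
    rcases h2 with h2 | h2
    · rcases h2 with h2 | h2
      · exact hd h2
      · exact hx0 h2
    · exact hb h2
  have hroot : ∀ z ∈ Z, z.1 ∈ P.roots.toFinset := by
    intro z hz
    obtain ⟨h1, h2, h3⟩ := hZ z hz
    rw [Multiset.mem_toFinset, mem_roots hP0, IsRoot.def, hP]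
    simp only [eval_add, eval_mul, eval_pow, eval_C, eval_X]
    have h4 : z.1 ^ 2 * ((d₀ * z.1 ^ 2 + d₃) * (γ * z.1 + β) ^ 2 +
        (d₂ * z.1 ^ 2 + d₁) * (α * z.1 + δ) ^ 2) = 0 := by
      have h5 : z.2 * (α * z.1 + δ) = -(z.1 * (γ * z.1 + β)) := by
        unfold eqG at h2
        linear_combination h2
      have h6 : z.2 ^ 2 * (α * z.1 + δ) ^ 2 = z.1 ^ 2 * (γ * z.1 + β) ^ 2 := by
        rw [← mul_pow, h5]
        ring
      linear_combination (α * z.1 + δ) ^ 2 * h3 - (d₀ * z.1 ^ 2 + d₃) * h6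
    exact (mul_eq_zero.1 h4).resolve_left (pow_ne_zero 2 h1)
  have hinj : Set.InjOn Prod.fst (Z : Set (ℂ × ℂ)) := by
    intro z hz z' hz' h
    refine Prod.ext h ?_
    have h1 := (hZ z hz).2.1
    have h2 := (hZ z' hz').2.1
    rw [← h] at h2
    exact inj_fst hα hne (hZ z hz).1 h1 h2
  calc Z.card = (Z.image Prod.fst).card := (Finset.card_image_of_injOn hinj).symm
    _ ≤ P.roots.toFinset.card := by
        refine Finset.card_le_card fun x hx => ?_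
        obtain ⟨z, hz, rfl⟩ := Finset.mem_image.1 hx
        exact hroot z hz
    _ ≤ Multiset.card P.roots := Multiset.toFinset_card_le _
    _ ≤ P.natDegree := card_roots' P
    _ ≤ 4 := hdeg

private def aG : Fin 4 → ℕ := ![1, 1, 2, 0]

private def bG : Fin 4 → ℕ := ![1, 0, 0, 1]

private theorem ev_G (c : Fin 4 → ℂ) (z : ℂ × ℂ) :
    ev aG bG c z = eqG (c 0) (c 1) (c 2) (c 3) z.1 z.2 := by
  unfold ev eqG aG bG
  rw [Fin.sum_univ_four]
  simp

theorem boundG {ρ₁ ρ₂ : ℝ} (h1 : 0 < ρ₁) (h2 : 0 < ρ₂) (h12 : ρ₁ ≠ ρ₂) {r : ℕ} (hr : 0 < r)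
    {a b : ℂ} (ha : a ≠ 0) (hb : b ≠ 0) (Z : Finset (ℂ × ℂ))
    (hZ : ∀ z ∈ Z, z.1 ^ r = a ∧ z.2 ^ r = b ∧ GG ρ₁ ρ₂ z.1 z.2 = 0) : Z.card ≤ 22 := by
  have hρ1 : (ρ₁ : ℂ) ≠ 0 := by exact_mod_cast h1.ne'
  have hρ2 : (ρ₂ : ℂ) ≠ 0 := by exact_mod_cast h2.ne'
  let c : Fin 4 → ℂ := ![(ρ₂ : ℂ), (ρ₂ : ℂ), -(ρ₁ : ℂ), -(ρ₁ : ℂ)]
  have hc : ∀ i, c i ≠ 0 := by
    intro i
    fin_cases i
    · exact hρ2
    · exact hρ2
    · exact neg_ne_zero.2 hρ1
    · exact neg_ne_zero.2 hρ1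
  have hne : c 0 * c 1 ≠ c 2 * c 3 := by
    change (ρ₂ : ℂ) * (ρ₂ : ℂ) ≠ -(ρ₁ : ℂ) * -(ρ₁ : ℂ)
    intro h
    rw [neg_mul_neg] at h
    have h3 : ρ₂ * ρ₂ = ρ₁ * ρ₁ := by exact_mod_cast h
    rcases mul_self_eq_mul_self_iff.1 h3 with h4 | h4
    · exact h12 h4.symm
    · linarith
  refine count_zeros aG bG c 2 4 (by norm_num) ?_ ?_ ?_ r hr Z ?_ ?_
  · intro c' Z' hZ' hcard
    obtain ⟨κ, k0, k1, k2, k3⟩ := prop_of_three (hc 0) (hc 3) hne (α' := c' 0) (β' := c' 1)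
      (γ' := c' 2) (δ' := c' 3) Z' (fun z hz => by
        have h3 := (hZ' z hz).1
        have h4 := (hZ' z hz).2
        refine ⟨h3.1, ?_, ?_⟩
        · rw [← ev_G]
          exact h3.2.2
        · rw [← ev_G]
          exact h4.2.2) hcard
    refine ⟨κ, funext fun i => ?_⟩
    fin_cases i
    · exact k0
    · exact k1
    · exact k2
    · exact k3
  · intro ε hε δ hδ hεδ
    rcases hε with hε | hε
    · rcases hδ with hδ | hδ
      · exact absurd (by rw [hε, hδ]) hεδ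
      · rw [Set.mem_singleton_iff] at hδ
        refine ⟨3, 2, hc 3, hc 2, ?_⟩
        change ε ^ 0 * δ ^ 1 ≠ ε ^ 2 * δ ^ 0
        rw [hε, hδ]
        norm_num
    · rw [Set.mem_singleton_iff] at hε
      refine ⟨1, 2, hc 1, hc 2, ?_⟩
      change ε ^ 1 * δ ^ 0 ≠ ε ^ 2 * δ ^ 0
      rw [hε]
      norm_num
  · intro m Z' hm hZ' hsc
    obtain ⟨d, hd, hd'⟩ := odd_double hm aG bG c Z' hZ' hsc
    refine card_le_four (hc 0) (hc 3) (hd 0 (hc 0)) hne (d₁ := d 1) (d₂ := d 2) (d₃ := d 3) Z' ?_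
    intro z hz
    have h3 := hZ' z hz
    refine ⟨h3.1, ?_, ?_⟩
    · rw [← ev_G]
      exact h3.2.2
    · have h4 := hd' z hz
      unfold ev aG bG at h4
      rw [Fin.sum_univ_four] at h4
      simpa using h4
  · intro z hz
    obtain ⟨h3, h4, h5⟩ := hZ z hz
    refine ⟨?_, ?_, ?_⟩
    · intro h6
      rw [h6, zero_pow hr.ne'] at h3
      exact ha h3.symm
    · intro h6
      rw [h6, zero_pow hr.ne'] at h4
      exact hb h4.symm
    · rw [ev_G]
      change eqG (ρ₂ : ℂ) (ρ₂ : ℂ) (-(ρ₁ : ℂ)) (-(ρ₁ : ℂ)) z.1 z.2 = 0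
      unfold GG at h5
      unfold eqG
      linear_combination h5
  · intro z hz z' hz'
    exact ⟨by rw [(hZ z hz).1, (hZ z' hz').1], by rw [(hZ z hz).2.1, (hZ z' hz').2.1]⟩

end Pool.Agent.Simpl
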