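import Pool.Agent.Simpl.Defs

set_option autoImplicit false

/-! Package Q1: four lines in general position, and projective transformations fixing them.

PROOF. `exists_general` (`dim V = 3`, `A` an arrangement, not a near-pencil). Two different planes meet
in a point (dimension 1). Choose `H₁ ≠ H₂` in `A` (`A` has at least 3 elements as the intersection
is `0`), `P₁₂ = H₁ ⊓ H₂`, and `H₃ ∈ A` not containing `P₁₂` (otherwise `P₁₂` is in the intersection of all).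
Then `H₁ ⊓ H₂ ⊓ H₃ = 0`. Since `A` is not a near-pencil (with `H₀ = H₃`, `L = P₁₂`) there is
`H₅ ∈ A`, `H₅ ≠ H₃`, not containing `P₁₂`; `H₅ ≠ H₁, H₂`.
If `H₅` contains none of `P₁₃`, `P₂₃`, then `H₁, H₂, H₃, H₅` is general. Let `H₅` contain `P₁₃` (the case
`P₂₃` is the same with `H₁, H₂` exchanged; not both, else `H₅ = H₃`). `A` is not a near-pencil with
`H₀ = H₂`, `L = P₁₃`, so there is `H₄ ∈ A`, `H₄ ≠ H₂`, not containing `P₁₃`. So `H₄ ≠ H₁, H₃, H₅`.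
The planes `H₁, H₃, H₅` contain `P₁₃`, `H₂` and `H₄` do not. The point `Q = H₂ ⊓ H₄` is on at most one
of `H₁, H₃, H₅` (two of them meet only in `P₁₃`), so two of them, `H, H'`, do not contain `Q`. Then
`H, H', H₂, H₄` is general: `H ⊓ H' = P₁₃` is not on `H₂`, `H₄`; `Q` is not on `H`, `H'`.
`scalar_of_four`: `f i = ker φ_i`, `φ_i` a linear functional (`finrank` 2 in dimension 3).
`φ₀, φ₁, φ₂` are a basis of the dual, `φ₃ = a₀φ₀ + a₁φ₁ + a₂φ₂` with all `a_i ≠ 0` (if e.g. `a₀ = 0` then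
`f 1 ⊓ f 2 ⊓ f 3 = f 1 ⊓ f 2 ≠ 0`). `g (f i) = f i` means `φ_i ∘ g = c_i φ_i`. So
`∑ a_i c_i φ_i = c₃ ∑ a_i φ_i`, `c_i = c₃` for all `i`, and `φ_i (g x - c₃ x) = 0` for all `i`. -/

namespace Pool.Agent.Simpl

open Module Classical

variable {V : Type} [AddCommGroup V] [Module ℝ V]

private lemma fin3 (hV : finrank ℝ V = 3) : FiniteDimensional ℝ V :=
  FiniteDimensional.of_finrank_pos (by omega)

private lemma finrank_inf_planes (hV : finrank ℝ V = 3) {H K : Submodule ℝ V}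
    (hH : finrank ℝ H = 2) (hK : finrank ℝ K = 2) (hne : H ≠ K) :
    finrank ℝ (H ⊓ K : Submodule ℝ V) = 1 := by
  have := fin3 hV
  have h1 := Submodule.finrank_sup_add_finrank_inf_eq H K
  have h2 : finrank ℝ (H ⊔ K : Submodule ℝ V) ≤ 3 := hV ▸ Submodule.finrank_le _
  have h3 : H < H ⊔ K := by
    refine lt_of_le_of_ne le_sup_left fun h => hne ?_
    have h4 : K ≤ H := by rw [h]; exact le_sup_right
    exact (Submodule.eq_of_le_of_finrank_eq h4 (by omega)).symm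
  have h5 := Submodule.finrank_lt_finrank_of_lt h3
  omega

private lemma line_inf {L H : Submodule ℝ V} (hV : finrank ℝ V = 3) (hL : finrank ℝ L = 1)
    (h : ¬ L ≤ H) : L ⊓ H = ⊥ := by
  have := fin3 hV
  have h1 : L ⊓ H < L := lt_of_le_of_ne inf_le_left fun h' => h (h' ▸ inf_le_right)
  have h2 := Submodule.finrank_lt_finrank_of_lt h1
  exact Submodule.finrank_eq_zero.1 (by omega)

private lemma inf_eq_line (hV : finrank ℝ V = 3) {L H K : Submodule ℝ V}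
    (hL : finrank ℝ L = 1) (hH : finrank ℝ H = 2) (hK : finrank ℝ K = 2) (hne : H ≠ K)
    (h1 : L ≤ H) (h2 : L ≤ K) : H ⊓ K = L := by
  have := fin3 hV
  exact (Submodule.eq_of_le_of_finrank_eq (le_inf h1 h2)
    (by rw [hL, finrank_inf_planes hV hH hK hne])).symm

private lemma four_of {A : Finset (Submodule ℝ V)} {a b c d : Submodule ℝ V}
    (ha : a ∈ A) (hb : b ∈ A) (hc : c ∈ A) (hd : d ∈ A)
    (h1 : a ⊓ b ⊓ c = ⊥) (h2 : a ⊓ b ⊓ d = ⊥) (h3 : a ⊓ c ⊓ d = ⊥) (h4 : b ⊓ c ⊓ d = ⊥) :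
    ∃ f : Fin 4 → Submodule ℝ V, (∀ i, f i ∈ A) ∧
      ∀ i j k, i ≠ j → i ≠ k → j ≠ k → f i ⊓ f j ⊓ f k = ⊥ := by
  have key : ∀ x y z : Submodule ℝ V, x ⊓ y ⊓ z = ⊥ →
      x ⊓ z ⊓ y = ⊥ ∧ y ⊓ x ⊓ z = ⊥ ∧ y ⊓ z ⊓ x = ⊥ ∧ z ⊓ x ⊓ y = ⊥ ∧ z ⊓ y ⊓ x = ⊥ := by
    intro x y z h
    refine ⟨?_, ?_, ?_, ?_, ?_⟩ <;> rw [← h] <;> ac_rfl
  have k1 := key _ _ _ h1
  have k2 := key _ _ _ h2
  have k3 := key _ _ _ h3
  have k4 := key _ _ _ h4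
  refine ⟨![a, b, c, d], ?_, ?_⟩
  · intro i
    fin_cases i <;> simp [ha, hb, hc, hd]
  · intro i j k hij hik hjk
    fin_cases i <;> fin_cases j <;> fin_cases k <;> first
      | exact absurd rfl hij | exact absurd rfl hik | exact absurd rfl hjk
      | exact h1 | exact h2 | exact h3 | exact h4
      | exact k1.1 | exact k1.2.1 | exact k1.2.2.1 | exact k1.2.2.2.1 | exact k1.2.2.2.2
      | exact k2.1 | exact k2.2.1 | exact k2.2.2.1 | exact k2.2.2.2.1 | exact k2.2.2.2.2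
      | exact k3.1 | exact k3.2.1 | exact k3.2.2.1 | exact k3.2.2.2.1 | exact k3.2.2.2.2
      | exact k4.1 | exact k4.2.1 | exact k4.2.2.1 | exact k4.2.2.2.1 | exact k4.2.2.2.2

private lemma four_pencil (hV : finrank ℝ V = 3) {A : Finset (Submodule ℝ V)}
    (hA : ∀ H ∈ A, finrank ℝ H = 2) {L H H' K K' : Submodule ℝ V} (hL : finrank ℝ L = 1)
    (hH : H ∈ A) (hH' : H' ∈ A) (hK : K ∈ A) (hK' : K' ∈ A) (hne : H ≠ H') (hne' : K ≠ K')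
    (h1 : L ≤ H) (h2 : L ≤ H') (h3 : ¬ L ≤ K) (h4 : ¬ L ≤ K') (h5 : ¬ K ⊓ K' ≤ H)
    (h6 : ¬ K ⊓ K' ≤ H') :
    ∃ f : Fin 4 → Submodule ℝ V, (∀ i, f i ∈ A) ∧
      ∀ i j k, i ≠ j → i ≠ k → j ≠ k → f i ⊓ f j ⊓ f k = ⊥ := by
  have e := inf_eq_line hV hL (hA H hH) (hA H' hH') hne h1 h2
  have q := finrank_inf_planes hV (hA K hK) (hA K' hK') hne'
  refine four_of hH hH' hK hK' ?_ ?_ ?_ ?_
  · rw [e]; exact line_inf hV hL h3
  · rw [e]; exact line_inf hV hL h4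
  · rw [inf_assoc, inf_comm]; exact line_inf hV q h5
  · rw [inf_assoc, inf_comm]; exact line_inf hV q h6

private lemma four_case (hV : finrank ℝ V = 3) {A : Finset (Submodule ℝ V)}
    (hA : ∀ H ∈ A, finrank ℝ H = 2) (hnp : ¬ IsNearPencil A) {H₁ H₂ H₃ H₅ : Submodule ℝ V}
    (h1 : H₁ ∈ A) (h2 : H₂ ∈ A) (h3 : H₃ ∈ A) (h5 : H₅ ∈ A) (h12 : H₁ ≠ H₂) (h13 : H₁ ≠ H₃)
    (h35 : H₅ ≠ H₃) (hP : ¬ H₁ ⊓ H₂ ≤ H₃) (hP' : ¬ H₁ ⊓ H₂ ≤ H₅) (hQ : H₁ ⊓ H₃ ≤ H₅) :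
    ∃ f : Fin 4 → Submodule ℝ V, (∀ i, f i ∈ A) ∧
      ∀ i j k, i ≠ j → i ≠ k → j ≠ k → f i ⊓ f j ⊓ f k = ⊥ := by
  have := fin3 hV
  have l12 := finrank_inf_planes hV (hA _ h1) (hA _ h2) h12
  have l13 := finrank_inf_planes hV (hA _ h1) (hA _ h3) h13
  have h15 : H₁ ≠ H₅ := fun h => hP' (h ▸ inf_le_left)
  have hL2 : ¬ H₁ ⊓ H₃ ≤ H₂ := by
    intro h
    apply hP
    have h6 : H₁ ⊓ H₃ ≤ H₁ ⊓ H₂ := le_inf inf_le_left h
    have h7 := Submodule.eq_of_le_of_finrank_eq h6 (by rw [l12, l13])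
    rw [← h7]; exact inf_le_right
  obtain ⟨H₄, h4, h42, hL4⟩ : ∃ H₄ ∈ A, H₄ ≠ H₂ ∧ ¬ H₁ ⊓ H₃ ≤ H₄ := by
    by_contra hcon
    push Not at hcon
    exact hnp ⟨H₂, h2, H₁ ⊓ H₃, l13, hL2, fun H hH hne => hcon H hH hne⟩
  have q := finrank_inf_planes hV (hA _ h2) (hA _ h4) h42.symm
  have two : ∀ H H' : Submodule ℝ V, H ∈ A → H' ∈ A → H ≠ H' → H₁ ⊓ H₃ ≤ H → H₁ ⊓ H₃ ≤ H' →
      H₂ ⊓ H₄ ≤ H → H₂ ⊓ H₄ ≤ H' → False := by
    intro H H' hH hH' hne a b c d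
    have e := inf_eq_line hV l13 (hA H hH) (hA H' hH') hne a b
    have e' := inf_eq_line hV q (hA H hH) (hA H' hH') hne c d
    exact hL2 (by rw [← e, e']; exact inf_le_left)
  have a1 : H₁ ⊓ H₃ ≤ H₁ := inf_le_left
  have a3 : H₁ ⊓ H₃ ≤ H₃ := inf_le_right
  by_cases q1 : H₂ ⊓ H₄ ≤ H₁
  · have q3 : ¬ H₂ ⊓ H₄ ≤ H₃ := fun h => two H₁ H₃ h1 h3 h13 a1 a3 q1 h
    have q5 : ¬ H₂ ⊓ H₄ ≤ H₅ := fun h => two H₁ H₅ h1 h5 h15 a1 hQ q1 h
    exact four_pencil hV hA l13 h3 h5 h2 h4 h35.symm h42.symm a3 hQ hL2 hL4 q3 q5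
  · by_cases q3 : H₂ ⊓ H₄ ≤ H₃
    · have q5 : ¬ H₂ ⊓ H₄ ≤ H₅ := fun h => two H₃ H₅ h3 h5 h35.symm a3 hQ q3 h
      exact four_pencil hV hA l13 h1 h5 h2 h4 h15 h42.symm a1 hQ hL2 hL4 q1 q5
    · exact four_pencil hV hA l13 h1 h3 h2 h4 h13 h42.symm a1 a3 hL2 hL4 q1 q3

theorem exists_general (hV : finrank ℝ V = 3) (A : Finset (Submodule ℝ V)) (hA : IsArrangement A)
    (hnp : ¬ IsNearPencil A) :
    ∃ f : Fin 4 → Submodule ℝ V, (∀ i, f i ∈ A) ∧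
      ∀ i j k, i ≠ j → i ≠ k → j ≠ k → f i ⊓ f j ⊓ f k = ⊥ := by
  have := fin3 hV
  obtain ⟨hA2, hbot⟩ := hA
  have out : ∀ L : Submodule ℝ V, finrank ℝ L ≠ 0 → ∃ H ∈ A, ¬ L ≤ H := by
    intro L hL
    by_contra hcon
    push Not at hcon
    have h1 : L ≤ ⨅ H ∈ A, H := le_iInf₂ hcon
    rw [hbot, le_bot_iff] at h1
    exact hL (by rw [h1]; exact finrank_bot ℝ V)
  obtain ⟨H₁, h1, -⟩ := out ⊤ (by rw [finrank_top, hV]; norm_num)
  obtain ⟨H₂, h2, h12'⟩ := out H₁ (by rw [hA2 _ h1]; norm_num)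
  have h12 : H₁ ≠ H₂ := fun h => h12' h.le
  have l12 := finrank_inf_planes hV (hA2 _ h1) (hA2 _ h2) h12
  obtain ⟨H₃, h3, hP⟩ := out (H₁ ⊓ H₂) (by rw [l12]; norm_num)
  have h13 : H₁ ≠ H₃ := fun h => hP (h ▸ inf_le_left)
  have h23 : H₂ ≠ H₃ := fun h => hP (h ▸ inf_le_right)
  obtain ⟨H₅, h5, h53, hP'⟩ : ∃ H₅ ∈ A, H₅ ≠ H₃ ∧ ¬ H₁ ⊓ H₂ ≤ H₅ := by
    by_contra hcon
    push Not at hcon
    exact hnp ⟨H₃, h3, H₁ ⊓ H₂, l12, hP, fun H hH hne => hcon H hH hne⟩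
  by_cases c1 : H₁ ⊓ H₃ ≤ H₅
  · exact four_case hV hA2 hnp h1 h2 h3 h5 h12 h13 h53 hP hP' c1
  · by_cases c2 : H₂ ⊓ H₃ ≤ H₅
    · exact four_case hV hA2 hnp h2 h1 h3 h5 h12.symm h23 h53 (by rwa [inf_comm])
        (by rwa [inf_comm]) c2
    · exact four_of h1 h2 h3 h5 (line_inf hV l12 hP) (line_inf hV l12 hP')
        (line_inf hV (finrank_inf_planes hV (hA2 _ h1) (hA2 _ h3) h13) c1)
        (line_inf hV (finrank_inf_planes hV (hA2 _ h2) (hA2 _ h3) h23) c2)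

private lemma line_eig {P : Submodule ℝ V} (hP : finrank ℝ P = 1) (g : V ≃ₗ[ℝ] V)
    (hg : P.map g.toLinearMap = P) :
    ∃ e ∈ P, e ≠ 0 ∧ (∀ x ∈ P, ∃ a : ℝ, x = a • e) ∧ ∃ c : ℝ, g e = c • e := by
  obtain ⟨⟨e, he⟩, hne, hsp⟩ := finrank_eq_one_iff'.1 hP
  have hsp' : ∀ x ∈ P, ∃ a : ℝ, x = a • e := by
    intro x hx
    obtain ⟨a, ha⟩ := hsp ⟨x, hx⟩
    exact ⟨a, by rw [Subtype.ext_iff] at ha; exact ha.symm⟩
  refine ⟨e, he, fun h => hne (Subtype.ext h), hsp', hsp' _ ?_⟩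
  have : g.toLinearMap e ∈ P.map g.toLinearMap := Submodule.mem_map_of_mem he
  rw [hg] at this
  exact this

private lemma plane_scalar [FiniteDimensional ℝ V] {F P₁ P₂ P₃ : Submodule ℝ V}
    (hF : finrank ℝ F = 2)
    (h1 : finrank ℝ P₁ = 1) (h2 : finrank ℝ P₂ = 1) (h3 : finrank ℝ P₃ = 1)
    (l1 : P₁ ≤ F) (l2 : P₂ ≤ F) (l3 : P₃ ≤ F) (d12 : P₁ ⊓ P₂ = ⊥) (d13 : P₁ ⊓ P₃ = ⊥)
    (d23 : P₂ ⊓ P₃ = ⊥) (g : V ≃ₗ[ℝ] V) (g1 : P₁.map g.toLinearMap = P₁)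
    (g2 : P₂.map g.toLinearMap = P₂) (g3 : P₃.map g.toLinearMap = P₃) :
    ∃ c : ℝ, ∀ x ∈ F, g x = c • x := by
  obtain ⟨e₁, m1, n1, s1, c₁, k1⟩ := line_eig h1 g g1
  obtain ⟨e₂, m2, n2, s2, c₂, k2⟩ := line_eig h2 g g2
  obtain ⟨v, m3, n3, -, l, k3⟩ := line_eig h3 g g3
  have hsup : P₁ ⊔ P₂ = F := by
    refine Submodule.eq_of_le_of_finrank_eq (sup_le l1 l2) ?_
    have := Submodule.finrank_sup_add_finrank_inf_eq P₁ P₂
    rw [d12, finrank_bot] at this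
    omega
  have dec : ∀ x ∈ F, ∃ a b : ℝ, x = a • e₁ + b • e₂ := by
    intro x hx
    rw [← hsup, Submodule.mem_sup] at hx
    obtain ⟨y, hy, z, hz, rfl⟩ := hx
    obtain ⟨a, rfl⟩ := s1 y hy
    obtain ⟨b, rfl⟩ := s2 z hz
    exact ⟨a, b, rfl⟩
  have ind : ∀ a b : ℝ, a • e₁ + b • e₂ = 0 → a = 0 ∧ b = 0 := by
    intro a b hab
    have h4 : a • e₁ = - (b • e₂) := eq_neg_of_add_eq_zero_left hab
    have h5 : a • e₁ ∈ P₁ ⊓ P₂ :=
      ⟨P₁.smul_mem _ m1, by rw [h4]; exact P₂.neg_mem (P₂.smul_mem _ m2)⟩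
    rw [d12, Submodule.mem_bot] at h5
    have ha : a = 0 := (smul_eq_zero.1 h5).resolve_right n1
    rw [h5, zero_add] at hab
    exact ⟨ha, (smul_eq_zero.1 hab).resolve_right n2⟩
  obtain ⟨a, b, hv⟩ := dec v (l3 m3)
  have ha : a ≠ 0 := by
    rintro rfl
    rw [zero_smul, zero_add] at hv
    have : v ∈ P₂ ⊓ P₃ := ⟨by rw [hv]; exact P₂.smul_mem _ m2, m3⟩
    rw [d23, Submodule.mem_bot] at this
    exact n3 this
  have hb : b ≠ 0 := by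
    rintro rfl
    rw [zero_smul, add_zero] at hv
    have : v ∈ P₁ ⊓ P₃ := ⟨by rw [hv]; exact P₁.smul_mem _ m1, m3⟩
    rw [d13, Submodule.mem_bot] at this
    exact n3 this
  have h6 : (a * (c₁ - l)) • e₁ + (b * (c₂ - l)) • e₂ = 0 := by
    have h7 : g v = a • c₁ • e₁ + b • c₂ • e₂ := by
      rw [hv, map_add, map_smul, map_smul, k1, k2]
    rw [k3, hv] at h7
    have h8 : (a * (c₁ - l)) • e₁ + (b * (c₂ - l)) • e₂ =
        (a • c₁ • e₁ + b • c₂ • e₂) - l • (a • e₁ + b • e₂) := by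
      simp only [smul_smul, smul_add, mul_sub, sub_smul]
      rw [mul_comm a l, mul_comm b l]
      abel
    rw [h8, ← h7, sub_self]
  obtain ⟨h9, h10⟩ := ind _ _ h6
  have e1 : c₁ = l := by
    have := (mul_eq_zero.1 h9).resolve_left ha
    linarith
  have e2 : c₂ = l := by
    have := (mul_eq_zero.1 h10).resolve_left hb
    linarith
  refine ⟨l, fun x hx => ?_⟩
  obtain ⟨a', b', rfl⟩ := dec x hx
  rw [map_add, map_smul, map_smul, k1, k2, e1, e2, smul_add, smul_comm, smul_comm b']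

theorem scalar_of_four (hV : finrank ℝ V = 3) (f : Fin 4 → Submodule ℝ V)
    (hf : ∀ i, finrank ℝ (f i) = 2)
    (hgen : ∀ i j k, i ≠ j → i ≠ k → j ≠ k → f i ⊓ f j ⊓ f k = ⊥) (g : V ≃ₗ[ℝ] V)
    (hg : ∀ i, (f i).map g.toLinearMap = f i) : ∃ c : ℝ, ∀ x, g x = c • x := by
  have := fin3 hV
  have third : ∀ i j : Fin 4, i ≠ j → ∃ k, i ≠ k ∧ j ≠ k := by decide
  have hne : ∀ i j, i ≠ j → f i ≠ f j := by
    intro i j hij h
    obtain ⟨k, hik, hjk⟩ := third i j hij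
    have h1 := hgen i j k hij hik hjk
    rw [h, inf_idem] at h1
    by_cases hjk' : f j = f k
    · rw [hjk', inf_idem] at h1
      have := hf k
      rw [h1, finrank_bot] at this
      omega
    · have := finrank_inf_planes hV (hf j) (hf k) hjk'
      rw [h1, finrank_bot] at this
      omega
  have l : ∀ i j, i ≠ j → finrank ℝ (f i ⊓ f j : Submodule ℝ V) = 1 := fun i j hij =>
    finrank_inf_planes hV (hf i) (hf j) (hne i j hij)
  have hinf : ∀ i j, (f i ⊓ f j).map g.toLinearMap = f i ⊓ f j := by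
    intro i j
    rw [Submodule.map_inf _ g.injective, hg, hg]
  have pl : ∀ i j k m, i ≠ j → i ≠ k → i ≠ m → j ≠ k → j ≠ m → k ≠ m →
      ∃ c : ℝ, ∀ x ∈ f i, g x = c • x := by
    intro i j k m hij hik him hjk hjm hkm
    refine plane_scalar (hf i) (l i j hij) (l i k hik) (l i m him) inf_le_left inf_le_left
      inf_le_left ?_ ?_ ?_ g (hinf i j) (hinf i k) (hinf i m)
    · rw [← hgen i j k hij hik hjk]; rw [inf_inf_distrib_left]; ac_rfl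
    · rw [← hgen i j m hij him hjm]; rw [inf_inf_distrib_left]; ac_rfl
    · rw [← hgen i k m hik him hkm]; rw [inf_inf_distrib_left]; ac_rfl
  obtain ⟨c, hc⟩ := pl 0 1 2 3 (by decide) (by decide) (by decide) (by decide) (by decide)
    (by decide)
  obtain ⟨c', hc'⟩ := pl 1 0 2 3 (by decide) (by decide) (by decide) (by decide) (by decide)
    (by decide)
  have h01 : (0 : Fin 4) ≠ 1 := by decide
  have hcc : c = c' := by
    obtain ⟨⟨e, he⟩, hne', -⟩ := finrank_eq_one_iff'.1 (l 0 1 h01)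
    have h1 := hc e he.1
    rw [hc' e he.2] at h1
    have h2 : (c' - c) • e = 0 := by rw [sub_smul, h1, sub_self]
    have h3 := (smul_eq_zero.1 h2).resolve_right fun h => hne' (Subtype.ext h)
    linarith
  have hsup : f 0 ⊔ f 1 = ⊤ := by
    apply Submodule.eq_top_of_finrank_eq
    have h1 := Submodule.finrank_sup_add_finrank_inf_eq (f 0) (f 1)
    rw [l 0 1 h01, hf, hf] at h1
    omega
  refine ⟨c, fun x => ?_⟩
  have hx : x ∈ f 0 ⊔ f 1 := by rw [hsup]; exact Submodule.mem_top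
  rw [Submodule.mem_sup] at hx
  obtain ⟨y, hy, z, hz, rfl⟩ := hx
  rw [map_add, hc y hy, hc' z hz, ← hcc, smul_add]

end Pool.Agent.Simpl
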