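import Pool.Agent.Simpl.Walls
import Pool.Agent.Simpl.Cells

set_option autoImplicit false

/-! Package R5: Melchior's equality and its consequences (use the other R files as black boxes).

PROOF. `melchior`: `A` has at least 3 planes (the intersection of at most two planes of a space of
dimension 3 is not zero). For `B ∈ regs ⊤ A`: `cone A B` is a cell, so
`{H ∈ A | IsEdge (cone A B) H} = walls A B` has 3 elements. So `3 |regs ⊤ A| = ∑_B |walls A B| =
4 ∑ m_P` and `|regs ⊤ A| = 2 + 2 ∑ (m_P - 1)`: `6 + 6 ∑ (m_P - 1) = 4 ∑ m_P`, i.e. `∑ (3 - m_P) = 3`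
(integers).
`two_le_mult`: a vertex is in two different planes.
`dbl_eq`: `3 = ∑ (3 - m_P)`, `3 - m = (1 if m = 2) - (m - 3)⁺` for `m ≥ 2`.
`pairs_le`: the map `q ↦ q.1 ⊓ q.2` from `Q` to the double points has fibres of size at most 2: the
two planes through the double point, in two orders (`Finset.card_le_mul_card_image` or
`Finset.card_eq_sum_card_fiberwise`).
`mult_eq_two`: the filter is `{H, H'}`. -/

namespace Pool.Agent.Simpl

open Module Classical

section

variable {V : Type} [NormedAddCommGroup V] [NormedSpace ℝ V] [FiniteDimensional ℝ V]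

theorem melchior (hV : finrank ℝ V = 3) (A : Finset (Submodule ℝ V)) (hA : IsArrangement A)
    (hS : IsSimplicial A) : Mel A := by
  have h2 := hA.1
  have hcard : 2 ≤ A.card := by
    by_contra hcon
    have h1 : A.card ≤ 1 := by omega
    rcases Finset.card_le_one_iff_subset_singleton.1 h1 with ⟨H, hH⟩
    rcases Finset.subset_singleton_iff.1 hH with h | h
    · have h3 := hA.2
      rw [h] at h3
      simp only [Finset.notMem_empty, iInf_false, iInf_top] at h3
      have h4 := finrank_top ℝ V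
      rw [h3, finrank_bot, hV] at h4
      omega
    · have h3 := hA.2
      have h5 := h2 H (by rw [h]; exact Finset.mem_singleton_self H)
      rw [h] at h3
      simp only [Finset.mem_singleton, iInf_iInf_eq_left] at h3
      rw [h3, finrank_bot] at h5
      omega
  have hne : A.Nonempty := Finset.card_pos.1 (by omega)
  have hyp : Hyp A := fun H hH => ker_fn (by rw [h2 H hH, hV])
  have hw : ∀ B ∈ regs ⊤ A, (walls A B).card = 3 := by
    intro B hB
    have h3 := hS _ (isCell_cone A hyp hB)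
    have h4 : {H | H ∈ A ∧ IsEdge (cone A B) H} = (walls A B : Set (Submodule ℝ V)) := by
      ext H
      rw [Finset.mem_coe, walls, Finset.mem_filter]
      constructor
      · rintro ⟨hH, h5⟩
        exact ⟨hH, (isEdge_iff hV A h2 hB hH).1 h5⟩
      · rintro ⟨hH, h5⟩
        exact ⟨hH, (isEdge_iff hV A h2 hB hH).2 h5⟩
    rw [h4, Set.ncard_coe_finset] at h3
    exact h3
  have h3 := sum_walls hV A h2 hcard
  rw [Finset.sum_congr rfl hw, Finset.sum_const, smul_eq_mul] at h3
  have h4 := regs_top hV A h2 hne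
  have h5 : ((regs ⊤ A).card : ℤ) * 3 = 4 * ∑ P ∈ verts A, (mult A P : ℤ) := by
    exact_mod_cast h3
  unfold Mel
  rw [Finset.sum_sub_distrib, Finset.sum_const] at h4 ⊢
  simp only [nsmul_eq_mul] at h4 ⊢
  linarith

end

section

variable {V : Type} [AddCommGroup V] [Module ℝ V]

theorem two_le_mult {A : Finset (Submodule ℝ V)} {P : Submodule ℝ V} (hP : P ∈ verts A) :
    2 ≤ mult A P := by
  obtain ⟨q, hq, rfl⟩ := Finset.mem_image.1 hP
  obtain ⟨h1, h2, h3⟩ := Finset.mem_offDiag.1 hq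
  unfold mult
  rw [← Finset.card_pair h3]
  refine Finset.card_le_card fun H hH => ?_
  rcases Finset.mem_insert.1 hH with rfl | hH
  · exact Finset.mem_filter.2 ⟨h1, inf_le_left⟩
  · rw [Finset.mem_singleton.1 hH]
    exact Finset.mem_filter.2 ⟨h2, inf_le_right⟩

theorem dbl_eq (A : Finset (Submodule ℝ V)) (h : Mel A) :
    dbl A = 3 + ∑ P ∈ verts A, (mult A P - 3) := by
  unfold Mel at h
  have h1 : (dbl A : ℤ) = ∑ P ∈ verts A, if mult A P = 2 then (1 : ℤ) else 0 := by
    unfold dbl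
    rw [Finset.card_filter]
    push_cast
    rfl
  have h2 : ∑ P ∈ verts A, (3 - (mult A P : ℤ)) =
      ∑ P ∈ verts A, (if mult A P = 2 then (1 : ℤ) else 0) -
        ∑ P ∈ verts A, ((mult A P - 3 : ℕ) : ℤ) := by
    rw [← Finset.sum_sub_distrib]
    refine Finset.sum_congr rfl fun P hP => ?_
    have h3 := two_le_mult hP
    by_cases h4 : mult A P = 2
    · rw [if_pos h4, h4]
      norm_num
    · rw [if_neg h4]
      have h5 : 3 ≤ mult A P := by omega
      push_cast [Nat.cast_sub h5]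
      ring
  rw [← h1, h] at h2
  have h3 : (dbl A : ℤ) = 3 + ((∑ P ∈ verts A, (mult A P - 3) : ℕ) : ℤ) := by
    rw [Nat.cast_sum]
    linarith
  exact_mod_cast h3

theorem mult_eq_two {A : Finset (Submodule ℝ V)} {H H' : Submodule ℝ V} (hH : H ∈ A)
    (hH' : H' ∈ A) (hne : H ≠ H') (h : ∀ L ∈ A, H ⊓ H' ≤ L → L = H ∨ L = H') :
    mult A (H ⊓ H') = 2 := by
  unfold mult
  rw [← Finset.card_pair hne]
  congr 1
  ext L
  rw [Finset.mem_filter, Finset.mem_insert, Finset.mem_singleton]
  constructor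
  · rintro ⟨hL, hle⟩
    exact h L hL hle
  · rintro (rfl | rfl)
    · exact ⟨hH, inf_le_left⟩
    · exact ⟨hH', inf_le_right⟩

theorem pairs_le (A : Finset (Submodule ℝ V)) (Q : Finset (Submodule ℝ V × Submodule ℝ V))
    (hQ : ∀ q ∈ Q, q.1 ∈ A ∧ q.2 ∈ A ∧ q.1 ≠ q.2 ∧ mult A (q.1 ⊓ q.2) = 2) :
    Q.card ≤ 2 * dbl A := by
  unfold dbl
  refine Finset.card_le_mul_card_image_of_maps_to (f := fun q => q.1 ⊓ q.2) (fun q hq => ?_) 2
    fun P hP => ?_
  · obtain ⟨h1, h2, h3, h4⟩ := hQ q hq
    exact Finset.mem_filter.2 ⟨Finset.mem_image.2 ⟨q, Finset.mem_offDiag.2 ⟨h1, h2, h3⟩, rfl⟩, h4⟩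
  · have h1 : (Finset.filter (fun q => q.1 ⊓ q.2 = P) Q) ⊆ (A.filter (P ≤ ·)).offDiag := by
      intro q hq
      obtain ⟨hq1, hq2⟩ := Finset.mem_filter.1 hq
      obtain ⟨h1, h2, h3, h4⟩ := hQ q hq1
      refine Finset.mem_offDiag.2 ⟨Finset.mem_filter.2 ⟨h1, ?_⟩, Finset.mem_filter.2 ⟨h2, ?_⟩, h3⟩
      · rw [← hq2]
        exact inf_le_left
      · rw [← hq2]
        exact inf_le_right
    have h2 : (A.filter (P ≤ ·)).card = 2 := (Finset.mem_filter.1 hP).2
    refine (Finset.card_le_card h1).trans ?_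
    rw [Finset.offDiag_card, h2]

end

end Pool.Agent.Simpl
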