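import Mathlib

set_option autoImplicit false

/-! # Zeros of bivariate polynomials in cosets of the roots of unity (definitions) -/

namespace Pool.Agent.Simpl

/-- `∑ c_i x^(a_i) y^(b_i)`. -/
noncomputable def ev {ι : Type} [Fintype ι] (a b : ι → ℕ) (c : ι → ℂ) (z : ℂ × ℂ) : ℂ :=
  ∑ i, c i * z.1 ^ a i * z.2 ^ b i

/-- `z` is a zero in the torus. -/
def Zero {ι : Type} [Fintype ι] (a b : ι → ℕ) (c : ι → ℂ) (z : ℂ × ℂ) : Prop :=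
  z.1 ≠ 0 ∧ z.2 ≠ 0 ∧ ev a b c z = 0

/-- All the elements of `Z` are in one coset of `μ_n × μ_n`. -/
def SameCoset (n : ℕ) (Z : Finset (ℂ × ℂ)) : Prop :=
  ∀ z ∈ Z, ∀ z' ∈ Z, z.1 ^ n = z'.1 ^ n ∧ z.2 ^ n = z'.2 ^ n

/-- The `n`-th cyclotomic field inside `ℂ`. -/
noncomputable def KK (n : ℕ) : IntermediateField ℚ ℂ :=
  IntermediateField.adjoin ℚ {z : ℂ | z ^ n = 1}

/-- The polynomial expressing that the tangents `(ρ₁, w₁)`, `(ρ₂, w₂)`, `(ρ₃, w₃)` are concurrent,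
`u = w₂ / w₁`, `v = w₃ / w₁`. -/
def FF (ρ₁ ρ₂ ρ₃ : ℝ) (u v : ℂ) : ℂ :=
  ρ₃ * u ^ 2 * v - ρ₃ * v - ρ₂ * u * v ^ 2 + ρ₂ * u + ρ₁ * v ^ 2 - ρ₁ * u ^ 2

/-- The same for `ρ₃ = ρ₁`, without the factor `v - 1`. -/
def GG (ρ₁ ρ₂ : ℝ) (u v : ℂ) : ℂ :=
  ρ₂ * u * v + ρ₂ * u - ρ₁ * u ^ 2 - ρ₁ * v

end Pool.Agent.Simpl
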