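import Pool.Agent.Simpl.PDataEx
import Pool.Agent.Simpl.Concur

set_option autoImplicit false

/-! Package P5: the upper bound for the number of double points.

PROOF. By `dbl_eq` it is enough to bound `∑ (m_P - 3)` (truncated) over the vertices `P` (dimension one,
`finrank_inf`; `P = org` or `P = pt t p`, `t ≥ 0`, `classify_pt`).
`P = org`: only the axes contain `org` (`not_org_le_tang`, `not_org_le_infl`), so `m_P ≤ |S|`.
`P ≤ infl` (`t = 0`): `m_P - 3 ≤ #{L ∈ A | L ≠ infl, P ≤ L}`, and a plane `L ≠ infl` contains only one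
`P ≤ infl` of dimension one (`L ⊓ infl`), so the sum over these `P` is at most `|A|`.
`P = pt t p`, `t > 0`, `m_P ≥ 4`: `infl` does not contain `P`, at most one axis does (`pt_le_ax`), so at
least `m_P - 1 ≥ 3` tangents `x ∈ T` do, at most two of them of radius `ρ₀` (`card_same_radius`): at
least `m_P - 3` tangents `x` with `x.1 ≠ ρ₀` contain `P`. For each of these `x` there is a tangent
`y ∈ T` through `P` with `y.1 ≠ x.1` (at least three tangents, at most two of radius `x.1`), and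
`tang x ⊓ tang y = P` (dimension one) lies on a third plane (`m_P ≥ 4`), so `y ∈ rare A T x`. So
`∑_P (m_P - 3) ≤ ∑_P #{x ∈ T | x.1 ≠ ρ₀, P ≤ tang x} = ∑_{x ∈ T, x.1 ≠ ρ₀} #{P | ..}`
`≤ ∑_{x ∈ T, x.1 ≠ ρ₀} |rare A T x|`,
since for fixed `x` the map `P ↦ y` is injective (`P = tang x ⊓ tang y`). -/

namespace Pool.Agent.Simpl

open Module Classical ComplexConjugate

theorem Upper_mult_org {A : Finset (Submodule ℝ (ℂ × ℝ))} {r : ℕ}
    {T : Finset (ℝ × Circle)} {S : Finset Circle} (h : PData A r T S) :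
    mult A org ≤ S.card := by
  unfold mult
  refine (Finset.card_le_card (t := S.image ax) fun L hL => ?_).trans Finset.card_image_le
  obtain ⟨hLA, hLo⟩ := Finset.mem_filter.1 hL
  rcases h.cases L hLA with ⟨x, hx, rfl⟩ | ⟨s, hs, rfl⟩ | rfl
  · exact absurd hLo (not_org_le_tang (h.pos x hx))
  · exact Finset.mem_image_of_mem _ hs
  · exact absurd hLo not_org_le_infl

/-- the lines through a finite point -/
theorem Upper_mult_pt {A : Finset (Submodule ℝ (ℂ × ℝ))} {r : ℕ}
    {T : Finset (ℝ × Circle)} {S : Finset Circle} (h : PData A r T S) {t : ℝ} {p : Circle}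
    (ht : t ≠ 0) (ρ : ℝ) :
    mult A (pt t p) ≤ (T.filter fun x => x.1 ≠ ρ ∧ pt t p ≤ tang x.1 x.2).card + 3 := by
  unfold mult
  have h1 : (A.filter (pt t p ≤ ·)) ⊆
      (T.filter fun x => x.1 ≠ ρ ∧ pt t p ≤ tang x.1 x.2).image (fun x => tang x.1 x.2) ∪
      ((T.filter fun x => x.1 = ρ ∧ pt t p ≤ tang x.1 x.2).image (fun x => tang x.1 x.2) ∪
        {ax (p * p)}) := by
    intro L hL
    obtain ⟨hLA, hLP⟩ := Finset.mem_filter.1 hL
    rcases h.cases L hLA with ⟨x, hx, rfl⟩ | ⟨s, hs, rfl⟩ | rfl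
    · by_cases hxρ : x.1 = ρ
      · exact Finset.mem_union_right _ (Finset.mem_union_left _
          (Finset.mem_image.2 ⟨x, Finset.mem_filter.2 ⟨hx, hxρ, hLP⟩, rfl⟩))
      · exact Finset.mem_union_left _
          (Finset.mem_image.2 ⟨x, Finset.mem_filter.2 ⟨hx, hxρ, hLP⟩, rfl⟩)
    · refine Finset.mem_union_right _ (Finset.mem_union_right _ ?_)
      rw [Finset.mem_singleton, pt_le_ax.1 hLP]
    · exact absurd (pt_le_infl.1 hLP) ht
  have h2 : (T.filter fun x => x.1 = ρ ∧ pt t p ≤ tang x.1 x.2).card ≤ 2 := by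
    have h3 := card_same_radius (t := t) (ρ := ρ) (p := p)
      ((T.filter fun x => x.1 = ρ ∧ pt t p ≤ tang x.1 x.2).image Prod.snd) (by
        intro w hw
        obtain ⟨x, hx, rfl⟩ := Finset.mem_image.1 hw
        obtain ⟨-, hx1, hx2⟩ := Finset.mem_filter.1 hx
        rwa [hx1] at hx2)
    rwa [Finset.card_image_of_injOn] at h3
    intro x hx y hy hxy
    obtain ⟨-, hx1, -⟩ := Finset.mem_filter.1 hx
    obtain ⟨-, hy1, -⟩ := Finset.mem_filter.1 hy
    exact Prod.ext (hx1.trans hy1.symm) hxy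
  have h4 := Finset.card_le_card h1
  have h5 := Finset.card_union_le
    ((T.filter fun x => x.1 ≠ ρ ∧ pt t p ≤ tang x.1 x.2).image (fun x => tang x.1 x.2))
    ((T.filter fun x => x.1 = ρ ∧ pt t p ≤ tang x.1 x.2).image (fun x => tang x.1 x.2) ∪
        {ax (p * p)})
  have h6 := Finset.card_union_le
    ((T.filter fun x => x.1 = ρ ∧ pt t p ≤ tang x.1 x.2).image (fun x => tang x.1 x.2))
    {ax (p * p)}
  have h7 : ((T.filter fun x => x.1 ≠ ρ ∧ pt t p ≤ tang x.1 x.2).image
    (fun x => tang x.1 x.2)).card ≤ _ := Finset.card_image_le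
  have h8 : ((T.filter fun x => x.1 = ρ ∧ pt t p ≤ tang x.1 x.2).image
    (fun x => tang x.1 x.2)).card ≤ _ := Finset.card_image_le
  rw [Finset.card_singleton] at h6
  omega

theorem Upper_inf {P H H' : Submodule ℝ (ℂ × ℝ)} (hP : finrank ℝ P = 1) (hH : finrank ℝ H = 2)
    (hH' : finrank ℝ H' = 2) (hne : H ≠ H') (h1 : P ≤ H) (h2 : P ≤ H') : P = H ⊓ H' :=
  Submodule.eq_of_le_of_finrank_eq (le_inf h1 h2) (by
    rw [hP, finrank_inf finrank_CR hH hH' hne])

theorem Upper_rare {A : Finset (Submodule ℝ (ℂ × ℝ))} (hA : ∀ H ∈ A, finrank ℝ H = 2) {r : ℕ}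
    {T : Finset (ℝ × Circle)} {S : Finset Circle} (h : PData A r T S) {x : ℝ × Circle}
    (hx : x ∈ T) :
    ((verts A).filter fun P => P ≤ tang x.1 x.2 ∧ ¬ P ≤ infl ∧ P ≠ org ∧ 4 ≤ mult A P).card ≤
      (rare A T x).card := by
  have hfin : ∀ P ∈ verts A, finrank ℝ P = 1 := by
    intro P hP
    obtain ⟨q, hq, rfl⟩ := Finset.mem_image.1 hP
    obtain ⟨h1, h2, h3⟩ := Finset.mem_offDiag.1 hq
    exact finrank_inf finrank_CR (hA _ h1) (hA _ h2) h3
  have hex : ∀ P : Submodule ℝ (ℂ × ℝ), ∃ y : ℝ × Circle,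
      (P ∈ (verts A).filter fun P => P ≤ tang x.1 x.2 ∧ ¬ P ≤ infl ∧ P ≠ org ∧ 4 ≤ mult A P) →
      y ∈ rare A T x ∧ P = tang x.1 x.2 ⊓ tang y.1 y.2 := by
    intro P
    by_cases hP : P ∈ (verts A).filter fun P => P ≤ tang x.1 x.2 ∧ ¬ P ≤ infl ∧ P ≠ org ∧
        4 ≤ mult A P
    · obtain ⟨hPv, hPx, hPi, hPo, hPm⟩ := Finset.mem_filter.1 hP
      have hP1 := hfin P hPv
      rcases classify_pt P hP1 with h0 | ⟨t, p, -, rfl⟩
      · exact absurd h0 hPo
      · have ht : t ≠ 0 := fun h0 => hPi (pt_le_infl.2 h0)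
        have h1 := Upper_mult_pt h (p := p) ht x.1
        have h2 : 0 < (T.filter fun y => y.1 ≠ x.1 ∧ pt t p ≤ tang y.1 y.2).card := by omega
        obtain ⟨y, hy⟩ := Finset.card_pos.1 h2
        obtain ⟨hyT, hyx, hyP⟩ := Finset.mem_filter.1 hy
        have hne : tang x.1 x.2 ≠ tang y.1 y.2 := fun he =>
          hyx (tang_inj (h.pos x hx) (h.pos y hyT) he).1.symm
        have h3 := Upper_inf hP1 (finrank_tang _ _) (finrank_tang _ _) hne hPx hyP
        refine ⟨y, fun _ => ⟨Finset.mem_filter.2 ⟨hyT, hyx, ?_, ?_⟩, h3⟩⟩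
        · rw [← h3]
          exact hPi
        · by_contra hcon
          push Not at hcon
          have h4 : A.filter (pt t p ≤ ·) ⊆ {tang x.1 x.2, tang y.1 y.2} := by
            intro L hL
            obtain ⟨hLA, hLP⟩ := Finset.mem_filter.1 hL
            rw [Finset.mem_insert, Finset.mem_singleton]
            by_contra hno
            push Not at hno
            exact hcon L hLA hno.1 hno.2 (by rw [← h3]; exact hLP)
          have h5 := (Finset.card_le_card h4).trans Finset.card_le_two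
          unfold mult at hPm
          omega
    · exact ⟨x, fun h0 => absurd h0 hP⟩
  choose y hy using hex
  refine Finset.card_le_card_of_injOn y (fun P hP => (hy P hP).1) ?_
  intro P hP P' hP' he
  rw [(hy P hP).2, (hy P' hP').2, he]

theorem upper {A : Finset (Submodule ℝ (ℂ × ℝ))} (hA : ∀ H ∈ A, finrank ℝ H = 2) {r : ℕ}
    {T : Finset (ℝ × Circle)} {S : Finset Circle} (h : PData A r T S) (hM : Mel A) (ρ₀ : ℝ) :
    dbl A ≤ 3 + S.card + A.card +
      ∑ x ∈ T.filter (fun x => x.1 ≠ ρ₀), (rare A T x).card := by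
  have hfin : ∀ P ∈ verts A, finrank ℝ P = 1 := by
    intro P hP
    obtain ⟨q, hq, rfl⟩ := Finset.mem_image.1 hP
    obtain ⟨h1, h2, h3⟩ := Finset.mem_offDiag.1 hq
    exact finrank_inf finrank_CR (hA _ h1) (hA _ h2) h3
  rw [dbl_eq A hM]
  have ha : ∑ P ∈ verts A, (if P = org then S.card else 0) ≤ S.card := by
    rw [← Finset.sum_filter, Finset.sum_const, smul_eq_mul]
    have h1 : ((verts A).filter fun P => P = org).card ≤ 1 := by
      rw [Finset.card_le_one]
      intro P hP P' hP'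
      rw [(Finset.mem_filter.1 hP).2, (Finset.mem_filter.1 hP').2]
    calc _ ≤ 1 * S.card := Nat.mul_le_mul_right _ h1
      _ = S.card := one_mul _
  have hb : ∑ P ∈ verts A, (A.filter fun L => L ≠ infl ∧ P ≤ L ∧ P ≤ infl).card ≤ A.card := by
    simp only [Finset.card_filter]
    rw [Finset.sum_comm]
    simp only [← Finset.card_filter]
    calc ∑ L ∈ A, ((verts A).filter fun P => L ≠ infl ∧ P ≤ L ∧ P ≤ infl).card
        ≤ ∑ L ∈ A, 1 := by
          refine Finset.sum_le_sum fun L hL => ?_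
          rw [Finset.card_le_one]
          intro P hP P' hP'
          obtain ⟨hP0, hLi, hP1, hP2⟩ := Finset.mem_filter.1 hP
          obtain ⟨hP0', -, hP1', hP2'⟩ := Finset.mem_filter.1 hP'
          rw [Upper_inf (hfin P hP0) (hA L hL) finrank_infl hLi hP1 hP2,
            Upper_inf (hfin P' hP0') (hA L hL) finrank_infl hLi hP1' hP2']
      _ = A.card := by rw [Finset.sum_const, smul_eq_mul, mul_one]
  have hc : ∑ P ∈ verts A, ((T.filter fun x => x.1 ≠ ρ₀).filter fun x =>
      P ≤ tang x.1 x.2 ∧ ¬ P ≤ infl ∧ P ≠ org ∧ 4 ≤ mult A P).card ≤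
      ∑ x ∈ T.filter (fun x => x.1 ≠ ρ₀), (rare A T x).card := by
    simp only [Finset.card_filter (fun x : ℝ × Circle => _ ≤ tang x.1 x.2 ∧ _)]
    rw [Finset.sum_comm]
    refine Finset.sum_le_sum fun x hx => ?_
    rw [← Finset.card_filter]
    exact Upper_rare hA h (Finset.mem_filter.1 hx).1
  have hmain : ∑ P ∈ verts A, (mult A P - 3) ≤
      ∑ P ∈ verts A, ((if P = org then S.card else 0) +
        (A.filter fun L => L ≠ infl ∧ P ≤ L ∧ P ≤ infl).card +
        ((T.filter fun x => x.1 ≠ ρ₀).filter fun x =>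
          P ≤ tang x.1 x.2 ∧ ¬ P ≤ infl ∧ P ≠ org ∧ 4 ≤ mult A P).card) := by
    refine Finset.sum_le_sum fun P hP => ?_
    by_cases ho : P = org
    · have h1 := Upper_mult_org h
      rw [if_pos ho, ho]
      omega
    by_cases hi : P ≤ infl
    · have h1 : A.filter (P ≤ ·) ⊆
          (A.filter fun L => L ≠ infl ∧ P ≤ L ∧ P ≤ infl) ∪ {infl} := by
        intro L hL
        obtain ⟨hLA, hLP⟩ := Finset.mem_filter.1 hL
        by_cases hLi : L = infl
        · exact Finset.mem_union_right _ (Finset.mem_singleton.2 hLi)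
        · exact Finset.mem_union_left _ (Finset.mem_filter.2 ⟨hLA, hLi, hLP, hi⟩)
      have h2 := (Finset.card_le_card h1).trans (Finset.card_union_le _ _)
      rw [Finset.card_singleton] at h2
      unfold mult
      omega
    by_cases hm : 4 ≤ mult A P
    · rcases classify_pt P (hfin P hP) with h0 | ⟨t, p, -, rfl⟩
      · exact absurd h0 ho
      · have ht : t ≠ 0 := fun h0 => hi (pt_le_infl.2 h0)
        have h1 := Upper_mult_pt h (p := p) ht ρ₀
        have h2 : (T.filter fun x => x.1 ≠ ρ₀ ∧ pt t p ≤ tang x.1 x.2) =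
            (T.filter fun x => x.1 ≠ ρ₀).filter fun x =>
              pt t p ≤ tang x.1 x.2 ∧ ¬ pt t p ≤ infl ∧ pt t p ≠ org ∧ 4 ≤ mult A (pt t p) := by
          rw [Finset.filter_filter]
          refine Finset.filter_congr fun x _ => ?_
          exact ⟨fun hx => ⟨hx.1, hx.2, hi, ho, hm⟩, fun hx => ⟨hx.1, hx.2.1⟩⟩
        rw [← h2]
        omega
    · omega
  rw [Finset.sum_add_distrib, Finset.sum_add_distrib] at hmain
  omega

end Pool.Agent.Simpl
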