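import Pool.Agent.Simpl.RareCard
import Pool.Agent.Simpl.Upper

set_option autoImplicit false

/-! Package P6: there is only one radius.

PROOF. Suppose not. Let `ρ₀` be a radius with the maximal number `N₀` of tangents, `N = |T|`, `N₀ < N`;
`T' = {x ∈ T | x.1 ≠ ρ₀}`, `|T'| = N - N₀ ≥ r` (`card_radius`), `N ≥ 2r` (two radii). For `x ∈ T'` the
number of tangents of radius `x.1` is at most `N / 2` (it is at most `N₀`, and the sum of the two
is at most `N`). Let `R = 148 qT (qT + qS)`, `K` the number of radii.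
Lower bound: `Q` = the set of pairs `(tang x, tang y)`, `x ∈ T'`, `y ∈ T`, `y.1 ≠ x.1`,
`y ∉ rare A T x`, `tang x ⊓ tang y` not contained in `infl`. It is a double point (`mult_eq_two`), so
`|Q| ≤ 2 dbl A` (`pairs_le`; `(x, y) ↦ (tang x, tang y)` is injective). For fixed `x ∈ T'` the number of
`y` is at least `N - N/2 - R - 2K` (`rare_card`; `meet_infl`: at most two `y` for each radius).
So `|T'| (N/2 - R - 2K) ≤ 2 dbl A` (real numbers; multiply by 2 to avoid fractions).
Upper bound (`upper`): `dbl A ≤ 3 + |S| + |A| + |T'| R ≤ 3 + 2|A| + |T'| R`. Together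
`|T'| (N/2 - 3R - 2K) ≤ 6 + 4|A|`.
Numbers: `n = |A|`, `4000 n ≤ r²`, `r ≥ 100`, `r qT = N`, `r qS ≤ 2|S|`, `N + |S| ≤ n`, so
`r (qT + qS) ≤ 2n` and `r² R ≤ 148 N * 2n`, `R ≤ 296 N / 4000 ≤ 0.074 N`; `K ≤ qT = N / r ≤ N / 100`. So
`N/2 - 3R - 2K ≥ 0.25 N ≥ 0.5 r` and `r * 0.5 r ≤ 6 + 4n ≤ 6 + r²/1000`, a contradiction. -/

namespace Pool.Agent.Simpl

open Module Classical ComplexConjugate

/-- The numbers. -/
private theorem numbers {r N T' qt qs n K R s : ℝ} (hr : 100 ≤ r) (hn : 4000 * n ≤ r ^ 2)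
    (hT' : r ≤ T') (hN : 2 * r ≤ N) (hqt : N = r * qt) (hqs : r * qs ≤ 2 * s) (hs : 0 ≤ s)
    (hNs : N + s ≤ n) (hK : K ≤ qt) (hR : R = 148 * (qt * (qt + qs)))
    (h : T' * N ≤ T' * (6 * R + 4 * K) + (12 + 8 * n)) : False := by
  have hr0 : 0 < r := by linarith
  have hN0 : 0 < N := by linarith
  have h1 : r * (qt + qs) ≤ 2 * n := by
    rw [mul_add, ← hqt]
    linarith
  have h2 : r ^ 2 * R ≤ r ^ 2 * (296 / 4000 * N) := by
    have e : r ^ 2 * R = 148 * N * (r * (qt + qs)) := by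
      rw [hR, hqt]; ring
    rw [e]
    have h3 : 148 * N * (r * (qt + qs)) ≤ 148 * N * (2 * n) :=
      mul_le_mul_of_nonneg_left h1 (by positivity)
    have h4 : 148 * N * (2 * n) ≤ 148 * N * (2 * (r ^ 2 / 4000)) := by
      apply mul_le_mul_of_nonneg_left _ (by positivity)
      linarith
    calc _ ≤ _ := h3
      _ ≤ _ := h4
      _ = _ := by ring
  have h5 : R ≤ 296 / 4000 * N := le_of_mul_le_mul_left h2 (by positivity)
  have h6 : 100 * K ≤ N := by
    have : 100 * qt ≤ N := by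
      rw [hqt]
      have : 0 ≤ qt := by
        by_contra hc
        push Not at hc
        have := mul_neg_of_pos_of_neg hr0 hc
        linarith
      nlinarith
    linarith
  have h7 : r ≤ N - (6 * R + 4 * K) := by linarith
  have h8 : r * r ≤ T' * (N - (6 * R + 4 * K)) := by
    apply mul_le_mul hT' h7 hr0.le
    linarith
  have h9 : T' * (N - (6 * R + 4 * K)) ≤ 12 + 8 * n := by
    rw [mul_sub]; linarith
  have h10 : r * r ≥ 100 * 100 := mul_self_le_mul_self (by norm_num) hr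
  nlinarith

private theorem infl_card {T : Finset (ℝ × Circle)} (hpos : ∀ x ∈ T, 0 < x.1) {x : ℝ × Circle}
    (hx : x ∈ T) :
    (T.filter fun y => y.1 ≠ x.1 ∧ tang x.1 x.2 ⊓ tang y.1 y.2 ≤ infl).card ≤
      (T.image Prod.fst).card * 2 := by
  have hsub : (T.filter fun y => y.1 ≠ x.1 ∧ tang x.1 x.2 ⊓ tang y.1 y.2 ≤ infl) ⊆
      (T.image Prod.fst) ×ˢ ({x.2, -x.2} : Finset Circle) := by
    intro y hy
    rw [Finset.mem_filter] at hy
    obtain ⟨hyT, hne, hle⟩ := hy
    rw [Finset.mem_product]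
    refine ⟨Finset.mem_image_of_mem _ hyT, ?_⟩
    have hne' : tang x.1 x.2 ≠ tang y.1 y.2 := by
      intro he
      exact hne (tang_inj (hpos x hx) (hpos y hyT) he).1.symm
    rcases meet_infl (hpos x hx) (hpos y hyT) hne' hle with h | h
    · simp [h]
    · simp [h]
  refine (Finset.card_le_card hsub).trans ?_
  rw [Finset.card_product]
  exact Nat.mul_le_mul_left _ Finset.card_le_two

theorem one_radius {A : Finset (Submodule ℝ (ℂ × ℝ))} (hA : ∀ H ∈ A, finrank ℝ H = 2) {r : ℕ}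
    {T : Finset (ℝ × Circle)} {S : Finset Circle} (h : PData A r T S) (hM : Mel A)
    (hr : 100 ≤ r) (hn : 4000 * A.card ≤ r ^ 2) : ∀ x ∈ T, ∀ y ∈ T, x.1 = y.1 := by
  by_contra hcon
  push Not at hcon
  obtain ⟨x₁, hx₁, y₁, hy₁, hxy⟩ := hcon
  have hr0 : 0 < r := by omega
  obtain ⟨z₀, hz₀, hmax⟩ := T.exists_max_image
    (fun z => (T.filter fun y => y.1 = z.1).card) ⟨x₁, hx₁⟩
  set ρ₀ := z₀.1 with hρ₀
  set R := 148 * (qT T r * (qT T r + qS S r)) with hR
  set K := (T.image Prod.fst).card with hK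
  set T' := T.filter (fun x => x.1 ≠ ρ₀) with hT'
  have hN : (T.filter fun y => y.1 = ρ₀).card + T'.card = T.card :=
    Finset.card_filter_add_card_filter_not (s := T) (fun y => y.1 = ρ₀)
  have hN₀ : r ≤ (T.filter fun y => y.1 = ρ₀).card := card_radius h hr0 hz₀
  have hT'c : r ≤ T'.card := by
    obtain ⟨z, hz, hzρ⟩ : ∃ z ∈ T, z.1 ≠ ρ₀ := by
      by_cases hc : x₁.1 = ρ₀
      · exact ⟨y₁, hy₁, fun h' => hxy (hc.trans h'.symm)⟩
      · exact ⟨x₁, hx₁, hc⟩
    refine (card_radius h hr0 hz).trans (Finset.card_le_card ?_)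
    intro y hy
    rw [Finset.mem_filter] at hy
    rw [hT', Finset.mem_filter]
    exact ⟨hy.1, by rw [hy.2]; exact hzρ⟩
  let Y : ℝ × Circle → Finset (ℝ × Circle) := fun x => T.filter fun y =>
    y.1 ≠ x.1 ∧ y ∉ rare A T x ∧ ¬ tang x.1 x.2 ⊓ tang y.1 y.2 ≤ infl
  have hY : ∀ x ∈ T', T.card ≤ 2 * R + 4 * K + 2 * (Y x).card := by
    intro x hx
    rw [hT', Finset.mem_filter] at hx
    have h1 : T ⊆ (T.filter fun y => y.1 = x.1) ∪ (rare A T x ∪
        ((T.filter fun y => y.1 ≠ x.1 ∧ tang x.1 x.2 ⊓ tang y.1 y.2 ≤ infl) ∪ Y x)) := by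
      intro y hy
      simp only [Finset.mem_union, Finset.mem_filter, Y]
      by_cases h1 : y.1 = x.1
      · exact Or.inl ⟨hy, h1⟩
      by_cases h2 : y ∈ rare A T x
      · exact Or.inr (Or.inl h2)
      by_cases h3 : tang x.1 x.2 ⊓ tang y.1 y.2 ≤ infl
      · exact Or.inr (Or.inr (Or.inl ⟨hy, h1, h3⟩))
      · exact Or.inr (Or.inr (Or.inr ⟨hy, h1, h2, h3⟩))
    have h2 := Finset.card_le_card h1
    have h3 := Finset.card_union_le (T.filter fun y => y.1 = x.1) (rare A T x ∪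
        ((T.filter fun y => y.1 ≠ x.1 ∧ tang x.1 x.2 ⊓ tang y.1 y.2 ≤ infl) ∪ Y x))
    have h4 := Finset.card_union_le (rare A T x)
        ((T.filter fun y => y.1 ≠ x.1 ∧ tang x.1 x.2 ⊓ tang y.1 y.2 ≤ infl) ∪ Y x)
    have h5 := Finset.card_union_le
      (T.filter fun y => y.1 ≠ x.1 ∧ tang x.1 x.2 ⊓ tang y.1 y.2 ≤ infl) (Y x)
    have h6 := rare_card h hr0 hx.1
    have h7 := infl_card h.pos hx.1
    have h8 := hmax x hx.1
    have h9 : (T.filter fun y => y.1 = x.1).card ≤ T'.card := by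
      apply Finset.card_le_card
      intro y hy
      rw [Finset.mem_filter] at hy
      rw [hT', Finset.mem_filter]
      exact ⟨hy.1, by rw [hy.2]; exact hx.2⟩
    omega
  have hsum : T'.card * T.card ≤ T'.card * (2 * R + 4 * K) + 2 * ∑ x ∈ T', (Y x).card := by
    have := Finset.sum_le_sum hY
    rw [Finset.sum_const, smul_eq_mul] at this
    rw [Finset.sum_add_distrib, Finset.sum_const, smul_eq_mul, ← Finset.mul_sum] at this
    exact this
  have hQ : ∑ x ∈ T', (Y x).card ≤ 2 * dbl A := by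
    have e : ∑ x ∈ T', (Y x).card = ((T'.sigma Y).image fun q =>
        ((tang q.1.1 q.1.2, tang q.2.1 q.2.2) :
          Submodule ℝ (ℂ × ℝ) × Submodule ℝ (ℂ × ℝ))).card := by
      rw [Finset.card_image_of_injOn, Finset.card_sigma]
      rintro ⟨a, b⟩ hab ⟨a', b'⟩ hab' he
      simp only [Finset.coe_sigma, Set.mem_sigma_iff, Finset.mem_coe, Y, Finset.mem_filter,
        hT'] at hab hab'
      simp only [Prod.mk.injEq] at he
      have h1 := tang_inj (h.pos a hab.1.1) (h.pos a' hab'.1.1) he.1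
      have h2 := tang_inj (h.pos b hab.2.1) (h.pos b' hab'.2.1) he.2
      have h3 : a = a' := Prod.ext h1.1 h1.2
      have h4 : b = b' := Prod.ext h2.1 h2.2
      rw [h3, h4]
    rw [e]
    apply pairs_le
    intro q hq
    rw [Finset.mem_image] at hq
    obtain ⟨⟨a, b⟩, hab, rfl⟩ := hq
    simp only [Finset.mem_sigma, Y, Finset.mem_filter, hT'] at hab
    obtain ⟨⟨haT, haρ⟩, hbT, hne, hrare, hinf⟩ := hab
    have ha := (h.tang_mem a.1 a.2 (h.pos a haT)).2 haT
    have hb := (h.tang_mem b.1 b.2 (h.pos b hbT)).2 hbT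
    have hne' : tang a.1 a.2 ≠ tang b.1 b.2 := by
      intro he
      exact hne (tang_inj (h.pos a haT) (h.pos b hbT) he).1.symm
    refine ⟨ha, hb, hne', mult_eq_two ha hb hne' ?_⟩
    intro L hL hLe
    by_contra hc
    push Not at hc
    apply hrare
    unfold rare
    rw [Finset.mem_filter]
    exact ⟨hbT, hne, hinf, L, hL, hc.1, hc.2, hLe⟩
  have hup := upper hA h hM ρ₀
  have hrs : ∑ x ∈ T.filter (fun x => x.1 ≠ ρ₀), (rare A T x).card ≤ T'.card * R := by
    have : ∀ x ∈ T', (rare A T x).card ≤ R := by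
      intro x hx
      rw [hT', Finset.mem_filter] at hx
      exact rare_card h hr0 hx.1
    have := Finset.sum_le_card_nsmul T' _ R this
    rwa [smul_eq_mul] at this
  have hcard := card_add_le h
  have hcT := card_T h hr0
  have hcS := card_S h hr0
  have hcK := card_radii T r
  have hmain : T'.card * T.card ≤ T'.card * (6 * R + 4 * K) + (12 + 8 * A.card) := by
    have e : T'.card * (6 * R + 4 * K) = T'.card * (2 * R + 4 * K) + 4 * (T'.card * R) := by ring
    rw [e]
    omega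
  refine numbers (r := r) (N := T.card) (T' := T'.card) (qt := qT T r) (qs := qS S r)
    (n := A.card) (K := K) (R := R) (s := S.card) ?_ ?_ ?_ ?_ ?_ ?_ ?_ ?_ ?_ ?_ ?_
  · exact_mod_cast hr
  · exact_mod_cast hn
  · exact_mod_cast hT'c
  · have : 2 * r ≤ T.card := by omega
    exact_mod_cast this
  · exact_mod_cast hcT
  · exact_mod_cast hcS
  · positivity
  · exact_mod_cast hcard
  · exact_mod_cast hcK
  · rw [hR]; push_cast; ring
  · exact_mod_cast hmain

end Pool.Agent.Simpl
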