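import Pool.Agent.Simpl.PDefs

set_option autoImplicit false

/-! Package P1: the planes of `ℂ × ℝ` in polar form, incidences, rotations.

PROOFS. All by direct computation. `finrank_*`: kernels of non-zero functionals
(`(z, t) ↦ Re (z w̄) - ρ t`, `(z, t) ↦ t`, and for `ax s` with `s = p²`:
`z = s z̄ ↔ z p̄ = conj (z p̄) ↔ Im (z p̄) = 0`; a square root `p ∈ Circle` of `s` exists:
`Circle.exp (arg s / 2)`). `tang_inj`: the kernels of two functionals agree iff they are
proportional; e.g. `(ρ w, 1)` and `(ρ w + i w, 1)` are in `tang ρ w`: `Re (ρ w w̄') = ρ'`,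
`Re (i w w̄') = 0`, so `w' = ± w`, `ρ' = ± ρ`. `classify`: a plane `H` is the kernel of a functional
`(z, t) ↦ Re (z ā) - c t` (`finrank` 2 in dimension 3; every real functional on `ℂ` is of the form
`Re (z ā)`). `a = 0`: `infl`. `a ≠ 0`, `c = 0`: with `p = i a / |a|`: `Re (z ā) = 0 ↔ z ∈ ℝ p`, `ax (p²)`.
`c > 0`: `tang (c / |a|) (a / |a|)`; `c < 0`: replace `(a, c)` by `(-a, -c)`.
`classify_pt`: `P = ℝ (z, t)`, `z = 0`: `org`; else divide by `± |z|` such that `t ≥ 0`. -/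

namespace Pool.Agent.Simpl

open Module Classical ComplexConjugate

/-- The functional `(z, t) ↦ Re (z ā) - c t`. -/
private noncomputable def fl (a : ℂ) (c : ℝ) : (ℂ × ℝ) →ₗ[ℝ] ℝ where
  toFun x := (x.1 * conj a).re - c * x.2
  map_add' u v := by
    simp only [Prod.fst_add, Prod.snd_add, add_mul, Complex.add_re]
    ring
  map_smul' r v := by
    simp only [Prod.smul_fst, Prod.smul_snd, smul_mul_assoc, Complex.smul_re, smul_eq_mul,
      RingHom.id_apply]
    ring

private theorem fl_apply (a : ℂ) (c : ℝ) (x : ℂ × ℝ) : fl a c x = (x.1 * conj a).re - c * x.2 :=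
  rfl

private theorem mem_ker_fl {a : ℂ} {c : ℝ} {x : ℂ × ℝ} :
    x ∈ LinearMap.ker (fl a c) ↔ (x.1 * conj a).re = c * x.2 := by
  rw [LinearMap.mem_ker, fl_apply, sub_eq_zero]

private theorem fl_ne {a : ℂ} {c : ℝ} (h : a ≠ 0 ∨ c ≠ 0) : fl a c ≠ 0 := by
  intro h0
  rcases h with h | h
  · have h1 := LinearMap.congr_fun h0 (a, 0)
    rw [fl_apply] at h1
    simp only [Complex.mul_conj, Complex.ofReal_re, mul_zero, sub_zero, LinearMap.zero_apply,
      Complex.normSq_eq_zero] at h1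
    exact h h1
  · have h1 := LinearMap.congr_fun h0 (0, 1)
    rw [fl_apply] at h1
    simp only [zero_mul, Complex.zero_re, mul_one, zero_sub, LinearMap.zero_apply,
      neg_eq_zero] at h1
    exact h h1

/-- Every real functional is of this form. -/
private theorem exists_fl (f : (ℂ × ℝ) →ₗ[ℝ] ℝ) : ∃ (a : ℂ) (c : ℝ), f = fl a c := by
  refine ⟨⟨f (1, 0), f (Complex.I, 0)⟩, -f (0, 1), ?_⟩
  refine LinearMap.ext fun x => ?_
  obtain ⟨z, t⟩ := x
  have h1 : ((z, t) : ℂ × ℝ) = z.re • ((1, 0) : ℂ × ℝ) + z.im • ((Complex.I, 0) : ℂ × ℝ) +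
      t • ((0, 1) : ℂ × ℝ) := by
    refine Prod.ext ?_ ?_
    · simp only [Prod.smul_mk, Prod.mk_add_mk, Complex.real_smul, mul_one, mul_zero, add_zero]
      exact (Complex.re_add_im z).symm
    · simp
  rw [fl_apply]
  conv_lhs => rw [h1]
  rw [map_add, map_add, map_smul, map_smul, map_smul]
  simp only [smul_eq_mul, Complex.mul_re, Complex.conj_re, Complex.conj_im]
  ring

private theorem exists_circle {z : ℂ} (h : ‖z‖ = 1) : ∃ w : Circle, (w : ℂ) = z :=
  ⟨⟨z, mem_sphere_zero_iff_norm.2 h⟩, rfl⟩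

private theorem conj_coe (w : Circle) : conj (w : ℂ) = ((w⁻¹ : Circle) : ℂ) :=
  (Circle.coe_inv_eq_conj w).symm

private theorem coe_mul_conj (w : Circle) : (w : ℂ) * conj (w : ℂ) = 1 := by
  rw [conj_coe, ← Circle.coe_mul, mul_inv_cancel, Circle.coe_one]

private theorem coe_mul_conj' (w w' : Circle) :
    (w : ℂ) * conj (w' : ℂ) = ((w * w'⁻¹ : Circle) : ℂ) := by
  rw [conj_coe, ← Circle.coe_mul]

/-- Every element of the circle is a square. -/
private theorem exists_sq (s : Circle) : ∃ p : Circle, p * p = s := by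
  refine ⟨Circle.exp (Complex.arg s / 2), ?_⟩
  rw [← Circle.exp_add, add_halves, Circle.exp_arg]

private theorem tang_eq (ρ : ℝ) (w : Circle) : tang ρ w = LinearMap.ker (fl w ρ) := by
  ext x
  rw [mem_ker_fl, mem_tang]

private theorem infl_eq : infl = LinearMap.ker (fl 0 1) := by
  ext x
  rw [mem_ker_fl, mem_infl, map_zero, mul_zero, Complex.zero_re, one_mul, eq_comm]

/-- The line `Re (z ā) = 0`. -/
private theorem ax_eq {a : ℂ} (ha : a ≠ 0) {s : Circle} (hs : (s : ℂ) * conj a = -a) :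
    ax s = LinearMap.ker (fl a 0) := by
  ext x
  rw [mem_ker_fl, mem_ax, zero_mul]
  have h1 : (x.1 * conj a).re = 0 ↔ x.1 * conj a + conj x.1 * a = 0 := by
    have h2 : x.1 * conj a + conj x.1 * a = ((2 * (x.1 * conj a).re : ℝ) : ℂ) := by
      have h3 := Complex.add_conj (x.1 * conj a)
      rw [map_mul, Complex.conj_conj] at h3
      exact h3
    rw [h2, Complex.ofReal_eq_zero]
    constructor
    · intro h
      rw [h, mul_zero]
    · intro h
      linarith
  rw [h1]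
  have h4 : conj a ≠ 0 := fun h => ha ((map_eq_zero _).1 h)
  constructor
  · intro h
    have h5 : x.1 * conj a = (s * conj a) * conj x.1 := by
      conv_lhs => rw [h]
      ring
    rw [h5, hs]
    ring
  · intro h
    refine mul_right_cancel₀ h4 ?_
    have h5 : (s : ℂ) * conj x.1 * conj a = (s * conj a) * conj x.1 := by ring
    rw [h5, hs]
    linear_combination h

theorem finrank_CR : finrank ℝ (ℂ × ℝ) = 3 := by
  rw [Module.finrank_prod, Complex.finrank_real_complex, Module.finrank_self]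

private theorem finrank_ker_fl {a : ℂ} {c : ℝ} (h : a ≠ 0 ∨ c ≠ 0) :
    finrank ℝ (LinearMap.ker (fl a c)) = 2 := by
  have h1 := Module.Dual.finrank_ker_add_one_of_ne_zero (fl_ne h)
  rw [finrank_CR] at h1
  omega

private theorem exists_ax (s : Circle) : ∃ a : ℂ, a ≠ 0 ∧ (s : ℂ) * conj a = -a := by
  obtain ⟨p, hp⟩ := exists_sq s
  refine ⟨Complex.I * p, mul_ne_zero Complex.I_ne_zero (Circle.coe_ne_zero p), ?_⟩
  rw [map_mul, Complex.conj_I, ← hp, Circle.coe_mul]
  linear_combination (-Complex.I * (p : ℂ)) * coe_mul_conj p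

theorem finrank_tang (ρ : ℝ) (w : Circle) : finrank ℝ (tang ρ w) = 2 := by
  rw [tang_eq]
  exact finrank_ker_fl (Or.inl (Circle.coe_ne_zero w))

theorem finrank_ax (s : Circle) : finrank ℝ (ax s) = 2 := by
  obtain ⟨a, ha, hs⟩ := exists_ax s
  rw [ax_eq ha hs]
  exact finrank_ker_fl (Or.inl ha)

theorem finrank_infl : finrank ℝ infl = 2 := by
  rw [infl_eq]
  exact finrank_ker_fl (Or.inr one_ne_zero)

theorem finrank_pt (t : ℝ) (p : Circle) : finrank ℝ (pt t p) = 1 :=
  finrank_span_singleton fun h => Circle.coe_ne_zero p (congrArg Prod.fst h)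

theorem finrank_org : finrank ℝ org = 1 :=
  finrank_span_singleton fun h => one_ne_zero (congrArg Prod.snd h)

theorem tang_inj {ρ ρ' : ℝ} {w w' : Circle} (h : 0 < ρ) (h' : 0 < ρ')
    (he : tang ρ w = tang ρ' w') : ρ = ρ' ∧ w = w' := by
  have h1 : (((ρ : ℂ) * w, 1) : ℂ × ℝ) ∈ tang ρ w := by
    rw [mem_tang, mul_assoc, coe_mul_conj]
    simp
  have h2 : ((((ρ : ℂ) + Complex.I) * w, 1) : ℂ × ℝ) ∈ tang ρ w := by
    rw [mem_tang, mul_assoc, coe_mul_conj]
    simp
  rw [he, mem_tang, mul_assoc, coe_mul_conj'] at h1 h2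
  obtain ⟨u, hu⟩ : ∃ u : Circle, u = w * w'⁻¹ := ⟨_, rfl⟩
  rw [← hu] at h1 h2
  simp only [Complex.mul_re, Complex.add_re, Complex.add_im, Complex.ofReal_re,
    Complex.ofReal_im, Complex.I_re, Complex.I_im, zero_mul, sub_zero, add_zero, zero_add,
    one_mul, mul_one] at h1 h2
  have h3 : (u : ℂ).im = 0 := by linarith
  have h4 : (u : ℂ).re * (u : ℂ).re = 1 := by
    have h5 := Circle.normSq_coe u
    rw [Complex.normSq_apply, h3] at h5
    linarith
  have h6 : 0 < (u : ℂ).re := by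
    by_contra h7
    push Not at h7
    have := mul_nonneg h.le (neg_nonneg.2 h7)
    linarith
  have h8 : (u : ℂ).re = 1 := by nlinarith
  have h9 : u = 1 := by
    refine Circle.ext (Complex.ext ?_ ?_)
    · rw [h8, Circle.coe_one, Complex.one_re]
    · rw [h3, Circle.coe_one, Complex.one_im]
  refine ⟨?_, ?_⟩
  · rw [h8, mul_one] at h1
    exact h1
  · rw [h9] at hu
    exact (mul_inv_eq_one.1 hu.symm)

private theorem mem_ax_iff {s p : Circle} {t : ℝ} : (((p : ℂ), t) : ℂ × ℝ) ∈ ax s ↔ p * p = s := by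
  rw [mem_ax]
  show (p : ℂ) = s * conj (p : ℂ) ↔ _
  rw [coe_mul_conj', Circle.coe_inj]
  constructor
  · intro h
    rw [eq_mul_inv_iff_mul_eq] at h
    exact h
  · intro h
    rw [eq_mul_inv_iff_mul_eq]
    exact h

theorem ax_inj {s s' : Circle} (h : ax s = ax s') : s = s' := by
  obtain ⟨p, hp⟩ := exists_sq s
  have h1 : (((p : ℂ), 0) : ℂ × ℝ) ∈ ax s := mem_ax_iff.2 hp
  rw [h, mem_ax_iff] at h1
  exact hp.symm.trans h1

private theorem zero_one_mem_ax (s : Circle) : ((0, 1) : ℂ × ℝ) ∈ ax s := by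
  rw [mem_ax]
  simp

private theorem zero_one_mem_tang {ρ : ℝ} {w : Circle} (h : 0 < ρ) :
    ((0, 1) : ℂ × ℝ) ∉ tang ρ w := by
  rw [mem_tang]
  simp only [zero_mul, Complex.zero_re, mul_one]
  exact h.ne

private theorem zero_one_mem_infl : ((0, 1) : ℂ × ℝ) ∉ infl := by
  rw [mem_infl]
  exact one_ne_zero

theorem tang_ne_ax {ρ : ℝ} {w s : Circle} (h : 0 < ρ) : tang ρ w ≠ ax s := by
  intro he
  exact zero_one_mem_tang h (he ▸ zero_one_mem_ax s)

theorem tang_ne_infl {ρ : ℝ} {w : Circle} : tang ρ w ≠ infl := by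
  intro he
  have h1 : (((w : ℂ), 0) : ℂ × ℝ) ∈ infl := rfl
  rw [← he, mem_tang] at h1
  simp only [coe_mul_conj, Complex.one_re, mul_zero] at h1
  exact one_ne_zero h1

theorem ax_ne_infl {s : Circle} : ax s ≠ infl := by
  intro he
  exact zero_one_mem_infl (he ▸ zero_one_mem_ax s)

theorem org_le_ax (s : Circle) : org ≤ ax s :=
  (Submodule.span_singleton_le_iff_mem _ _).2 (zero_one_mem_ax s)

theorem not_org_le_tang {ρ : ℝ} {w : Circle} (h : 0 < ρ) : ¬ org ≤ tang ρ w := fun h1 =>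
  zero_one_mem_tang h ((Submodule.span_singleton_le_iff_mem _ _).1 h1)

theorem not_org_le_infl : ¬ org ≤ infl := fun h1 =>
  zero_one_mem_infl ((Submodule.span_singleton_le_iff_mem _ _).1 h1)

theorem pt_le_tang {t ρ : ℝ} {p w : Circle} :
    pt t p ≤ tang ρ w ↔ ((p : ℂ) * conj (w : ℂ)).re = ρ * t := by
  unfold pt
  rw [Submodule.span_singleton_le_iff_mem, mem_tang]

theorem pt_le_ax {t : ℝ} {p s : Circle} : pt t p ≤ ax s ↔ p * p = s := by
  unfold pt
  rw [Submodule.span_singleton_le_iff_mem, mem_ax_iff]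

theorem pt_le_infl {t : ℝ} {p : Circle} : pt t p ≤ infl ↔ t = 0 := by
  unfold pt
  rw [Submodule.span_singleton_le_iff_mem, mem_infl]

private theorem rot_apply (w : Circle) (x : ℂ × ℝ) : rot w x = ((w : ℂ) * x.1, x.2) := rfl

private theorem rot_inv (w : Circle) (x : ℂ × ℝ) :
    rot w ((((w⁻¹ : Circle) : ℂ) * x.1, x.2) : ℂ × ℝ) = x := by
  rw [rot_apply]
  refine Prod.ext ?_ rfl
  show (w : ℂ) * (((w⁻¹ : Circle) : ℂ) * x.1) = x.1
  rw [← mul_assoc, ← Circle.coe_mul, mul_inv_cancel, Circle.coe_one, one_mul]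

/-- The image under a rotation. -/
private theorem map_rot_eq (w : Circle) (A B : Submodule ℝ (ℂ × ℝ))
    (h : ∀ x : ℂ × ℝ, x ∈ A ↔ (((w : ℂ) * x.1, x.2) : ℂ × ℝ) ∈ B) :
    A.map (rot w).toLinearMap = B := by
  ext x
  rw [Submodule.mem_map]
  constructor
  · rintro ⟨y, hy, rfl⟩
    exact (h y).1 hy
  · intro hx
    refine ⟨((((w⁻¹ : Circle) : ℂ) * x.1, x.2) : ℂ × ℝ), (h _).2 ?_, rot_inv w x⟩
    have h1 := rot_inv w x
    rw [rot_apply] at h1
    rw [h1]
    exact hx

theorem map_rot_tang (w' : Circle) (ρ : ℝ) (w : Circle) :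
    (tang ρ w).map (rot w').toLinearMap = tang ρ (w' * w) := by
  refine map_rot_eq _ _ _ fun x => ?_
  rw [mem_tang, mem_tang]
  show _ ↔ ((w' : ℂ) * x.1 * conj ((w' * w : Circle) : ℂ)).re = ρ * x.2
  have h1 : (w' : ℂ) * x.1 * conj ((w' * w : Circle) : ℂ) = x.1 * conj (w : ℂ) := by
    rw [Circle.coe_mul, map_mul]
    linear_combination (x.1 * conj (w : ℂ)) * coe_mul_conj w'
  rw [h1]

theorem map_rot_ax (w' s : Circle) : (ax s).map (rot w').toLinearMap = ax (w' ^ 2 * s) := by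
  refine map_rot_eq _ _ _ fun x => ?_
  rw [mem_ax, mem_ax]
  show _ ↔ (w' : ℂ) * x.1 = ((w' ^ 2 * s : Circle) : ℂ) * conj ((w' : ℂ) * x.1)
  have h1 : ((w' ^ 2 * s : Circle) : ℂ) * conj ((w' : ℂ) * x.1) = w' * (s * conj x.1) := by
    rw [Circle.coe_mul, Circle.coe_pow, map_mul]
    linear_combination (w' * s * conj x.1) * coe_mul_conj w'
  rw [h1]
  constructor
  · intro h
    rw [← h]
  · intro h
    exact mul_left_cancel₀ (Circle.coe_ne_zero w') h

theorem map_rot_infl (w' : Circle) : infl.map (rot w').toLinearMap = infl :=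
  map_rot_eq _ _ _ fun _ => Iff.rfl

theorem classify (H : Submodule ℝ (ℂ × ℝ)) (hH : finrank ℝ H = 2) :
    (∃ (ρ : ℝ) (w : Circle), 0 < ρ ∧ H = tang ρ w) ∨ (∃ s, H = ax s) ∨ H = infl := by
  have h1 : H < ⊤ := by
    rw [lt_top_iff_ne_top]
    intro h
    rw [h, finrank_top, finrank_CR] at hH
    omega
  obtain ⟨f, hf, hHf⟩ := Submodule.exists_le_ker_of_lt_top H h1
  have h2 : H = LinearMap.ker f := by
    refine Submodule.eq_of_le_of_finrank_eq hHf ?_
    have h3 := Module.Dual.finrank_ker_add_one_of_ne_zero hf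
    rw [finrank_CR] at h3
    omega
  obtain ⟨a, c, rfl⟩ := exists_fl f
  subst h2
  by_cases ha : a = 0
  · have hc : c ≠ 0 := by
      rintro rfl
      apply hf
      refine LinearMap.ext fun x => ?_
      rw [fl_apply, ha]
      simp
    right
    right
    ext x
    rw [mem_ker_fl, ha, mem_infl, map_zero, mul_zero, Complex.zero_re]
    constructor
    · intro h
      rcases mul_eq_zero.1 h.symm with h3 | h3
      · exact absurd h3 hc
      · exact h3
    · intro h
      rw [h, mul_zero]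
  · have hn : 0 < ‖a‖ := norm_pos_iff.2 ha
    have hcn : conj a ≠ 0 := fun h => ha ((map_eq_zero _).1 h)
    have key : ∀ (b : ℂ) (d : ℝ), b ≠ 0 → 0 < d → ∃ (ρ : ℝ) (w : Circle), 0 < ρ ∧
        LinearMap.ker (fl b d) = tang ρ w := by
      intro b d hb hd
      have hbn : 0 < ‖b‖ := norm_pos_iff.2 hb
      have hw : ‖b / (‖b‖ : ℂ)‖ = 1 := by
        rw [norm_div, Complex.norm_real, norm_norm, div_self hbn.ne']
      obtain ⟨w, hw'⟩ := exists_circle hw
      refine ⟨d / ‖b‖, w, by positivity, ?_⟩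
      ext x
      rw [mem_ker_fl, mem_tang, hw']
      have h4 : x.1 * conj (b / (‖b‖ : ℂ)) = (x.1 * conj b) / (‖b‖ : ℂ) := by
        rw [map_div₀, Complex.conj_ofReal]
        ring
      rw [h4, Complex.div_ofReal_re, div_mul_eq_mul_div, div_left_inj' hbn.ne']
    rcases lt_trichotomy c 0 with hc | hc | hc
    · left
      obtain ⟨ρ, w, h5, h6⟩ := key (-a) (-c) (neg_ne_zero.2 ha) (by linarith)
      refine ⟨ρ, w, h5, ?_⟩
      rw [← h6]
      ext x
      rw [mem_ker_fl, mem_ker_fl, map_neg, mul_neg, Complex.neg_re, neg_mul, neg_inj]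
    · right
      left
      subst hc
      have hs : ‖-a / conj a‖ = 1 := by
        rw [norm_div, norm_neg, RCLike.norm_conj, div_self hn.ne']
      obtain ⟨s, hs'⟩ := exists_circle hs
      refine ⟨s, ?_⟩
      rw [ax_eq ha]
      rw [hs', div_mul_cancel₀ _ hcn]
    · left
      exact key a c ha hc

theorem classify_pt (P : Submodule ℝ (ℂ × ℝ)) (hP : finrank ℝ P = 1) :
    P = org ∨ ∃ (t : ℝ) (p : Circle), 0 ≤ t ∧ P = pt t p := by
  obtain ⟨v, hv0, hv⟩ := finrank_eq_one_iff'.1 hP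
  obtain ⟨⟨z, t⟩, hvP⟩ := v
  have hP1 : P = Submodule.span ℝ {((z, t) : ℂ × ℝ)} := by
    refine le_antisymm (fun x hx => ?_) ((Submodule.span_singleton_le_iff_mem _ _).2 hvP)
    obtain ⟨c, hc⟩ := hv ⟨x, hx⟩
    rw [Submodule.mem_span_singleton]
    exact ⟨c, congrArg Subtype.val hc⟩
  have hne : ((z, t) : ℂ × ℝ) ≠ 0 := fun h => hv0 (Subtype.ext h)
  have hsm : ∀ (r : ℝ) (x : ℂ × ℝ), r ≠ 0 → Submodule.span ℝ {r • x} = Submodule.span ℝ {x} :=
    fun r x hr => Submodule.span_singleton_smul_eq (IsUnit.mk0 r hr) x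
  by_cases hz : z = 0
  · left
    subst hz
    have ht : t ≠ 0 := by
      rintro rfl
      exact hne rfl
    rw [hP1, org, ← hsm t ((0 : ℂ), (1 : ℝ)) ht]
    congr 2
    refine Prod.ext ?_ ?_
    · simp
    · simp
  · right
    have key : ∀ (b : ℂ) (d : ℝ), b ≠ 0 → 0 ≤ d → ∃ (t : ℝ) (p : Circle), 0 ≤ t ∧
        Submodule.span ℝ {((b, d) : ℂ × ℝ)} = pt t p := by
      intro b d hb hd
      have hbn : 0 < ‖b‖ := norm_pos_iff.2 hb
      have hw : ‖b / (‖b‖ : ℂ)‖ = 1 := by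
        rw [norm_div, Complex.norm_real, norm_norm, div_self hbn.ne']
      obtain ⟨w, hw'⟩ := exists_circle hw
      refine ⟨d / ‖b‖, w, by positivity, ?_⟩
      unfold pt
      rw [hw', ← hsm ‖b‖ ((b / (‖b‖ : ℂ), d / ‖b‖) : ℂ × ℝ) hbn.ne']
      congr 2
      refine Prod.ext ?_ ?_
      · show b = ‖b‖ • (b / (‖b‖ : ℂ))
        rw [Complex.real_smul, mul_div_cancel₀]
        exact Complex.ofReal_ne_zero.2 hbn.ne'
      · show d = ‖b‖ • (d / ‖b‖)
        rw [smul_eq_mul, mul_div_cancel₀ _ hbn.ne']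
    rw [hP1]
    rcases le_total 0 t with ht | ht
    · exact key z t hz ht
    · obtain ⟨t', p, h1, h2⟩ := key (-z) (-t) (neg_ne_zero.2 hz) (by linarith)
      refine ⟨t', p, h1, ?_⟩
      rw [← h2, ← hsm (-1) ((z, t) : ℂ × ℝ) (by norm_num)]
      congr 2
      refine Prod.ext ?_ ?_
      · simp
      · simp

end Pool.Agent.Simpl
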