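import Pool.Agent.Simpl.PBasic

set_option autoImplicit false

/-! Package P3: the polar data of an invariant arrangement and their cardinalities.

PROOFS. `exists_pdata`: `T` = the preimage of `A` under `(ρ, w) ↦ tang ρ w` on `{ρ > 0}` (injective by
`tang_inj`, so finite), `S` = the preimage under `ax`; the cases by `classify`; invariance by
`map_rot_tang`, `map_rot_ax` (`H ∈ A → map (rot w) H ∈ A`).
`card_add_le`: `T ⊕ S` embeds into `A` (`tang_inj`, `ax_inj`, `tang_ne_ax`).
`card_roots`: the `w ∈ Circle` with `w^r = 1` are `r` many (`Circle` roots of unity; e.g.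
`Circle.exp (2πk/r)`, `k < r`, or `Complex.card_rootsOfUnity`).
`card_T`: the fibres of `x ↦ (x.1, x.2^r)` on `T` are `{(x.1, w x.2) | w^r = 1}` with `r` elements.
`card_S`: the fibre of `s ↦ s^r` through `s` contains the `w^2 s`, `w^r = 1`, and `w ↦ w^2` is at most
two to one, so it has at least `r / 2` elements: `r ≤ 2 * card`.
`card_radii`: the radii are the image of the classes. `card_radius`: a class of the radius `ρ` has `r`
elements. -/

namespace Pool.Agent.Simpl

open Module Classical ComplexConjugate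

theorem exists_pdata (A : Finset (Submodule ℝ (ℂ × ℝ))) (hA : ∀ H ∈ A, finrank ℝ H = 2) (r : ℕ)
    (hrot : ∀ w : Circle, w ^ r = 1 → A.image (Submodule.map (rot w).toLinearMap) = A) :
    ∃ T S, PData A r T S := by
  have hT : {x : ℝ × Circle | 0 < x.1 ∧ tang x.1 x.2 ∈ A}.Finite := by
    refine Set.Finite.of_finite_image (f := fun x : ℝ × Circle => tang x.1 x.2)
      (A.finite_toSet.subset ?_) ?_
    · rintro _ ⟨x, hx, rfl⟩
      exact hx.2
    · intro x hx y hy he
      have h1 := tang_inj hx.1 hy.1 he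
      exact Prod.ext h1.1 h1.2
  have hS : {s : Circle | ax s ∈ A}.Finite := by
    refine Set.Finite.of_finite_image (f := ax) (A.finite_toSet.subset ?_) ?_
    · rintro _ ⟨x, hx, rfl⟩
      exact hx
    · intro x _ y _ he
      exact ax_inj he
  have hmT : ∀ x : ℝ × Circle, x ∈ hT.toFinset ↔ 0 < x.1 ∧ tang x.1 x.2 ∈ A := fun x =>
    hT.mem_toFinset
  have hmS : ∀ s : Circle, s ∈ hS.toFinset ↔ ax s ∈ A := fun s => hS.mem_toFinset
  have hmap : ∀ w : Circle, w ^ r = 1 → ∀ H ∈ A, H.map (rot w).toLinearMap ∈ A := by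
    intro w hw H hH
    have h1 := Finset.mem_image_of_mem (Submodule.map (rot w).toLinearMap) hH
    rwa [hrot w hw] at h1
  refine ⟨hT.toFinset, hS.toFinset, ?_, ?_, ?_, ?_, ?_, ?_⟩
  · exact fun x hx => ((hmT x).1 hx).1
  · intro ρ w hρ
    rw [hmT]
    exact ⟨fun h => ⟨hρ, h⟩, fun h => h.2⟩
  · exact fun s => (hmS s).symm
  · intro H hH
    rcases classify H (hA H hH) with ⟨ρ, w, h1, h2⟩ | ⟨s, h1⟩ | h1
    · refine Or.inl ⟨(ρ, w), (hmT _).2 ⟨h1, ?_⟩, h2⟩
      rw [← h2]
      exact hH
    · refine Or.inr (Or.inl ⟨s, (hmS s).2 ?_, h1⟩)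
      rw [← h1]
      exact hH
    · exact Or.inr (Or.inr h1)
  · intro w hw x hx
    rw [hmT] at hx ⊢
    refine ⟨hx.1, ?_⟩
    rw [← map_rot_tang]
    exact hmap w hw _ hx.2
  · intro w hw s hs
    rw [hmS] at hs ⊢
    rw [← map_rot_ax]
    exact hmap w hw _ hs

variable {A : Finset (Submodule ℝ (ℂ × ℝ))} {r : ℕ} {T : Finset (ℝ × Circle)} {S : Finset Circle}

theorem card_add_le (h : PData A r T S) : T.card + S.card ≤ A.card := by
  have h1 : (T.image fun x : ℝ × Circle => tang x.1 x.2).card = T.card :=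
    Finset.card_image_of_injOn fun x hx y hy he => by
      have h1 := tang_inj (h.pos x hx) (h.pos y hy) he
      exact Prod.ext h1.1 h1.2
  have h2 : (S.image ax).card = S.card :=
    Finset.card_image_of_injective _ fun x y he => ax_inj he
  have h3 : Disjoint (T.image fun x : ℝ × Circle => tang x.1 x.2) (S.image ax) := by
    rw [Finset.disjoint_left]
    intro H hT hS
    obtain ⟨x, hx, rfl⟩ := Finset.mem_image.1 hT
    obtain ⟨s, hs, he⟩ := Finset.mem_image.1 hS
    exact tang_ne_ax (h.pos x hx) he.symm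
  rw [← h1, ← h2, ← Finset.card_union_of_disjoint h3]
  refine Finset.card_le_card (Finset.union_subset ?_ ?_)
  · intro H hH
    obtain ⟨x, hx, rfl⟩ := Finset.mem_image.1 hH
    exact (h.tang_mem x.1 x.2 (h.pos x hx)).2 hx
  · intro H hH
    obtain ⟨s, hs, rfl⟩ := Finset.mem_image.1 hH
    exact (h.ax_mem s).2 hs

/-- The `r`-th roots of unity in the circle. -/
theorem card_roots (hr : 0 < r) :
    ∃ U : Finset Circle, U.card = r ∧ ∀ w, w ∈ U ↔ w ^ r = 1 := by
  have hζ : IsPrimitiveRoot ((Circle.exp (2 * Real.pi / r) : Circle) : ℂ) r := by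
    have h1 := Complex.isPrimitiveRoot_exp r hr.ne'
    have h2 : ((Circle.exp (2 * Real.pi / r) : Circle) : ℂ) =
        Complex.exp (2 * Real.pi * Complex.I / r) := by
      rw [Circle.coe_exp]
      congr 1
      push_cast
      ring
    rwa [h2]
  refine ⟨(Finset.range r).image fun k => (Circle.exp (2 * Real.pi / r)) ^ k, ?_, fun w => ?_⟩
  · rw [Finset.card_image_of_injOn, Finset.card_range]
    intro a ha b hb he
    have h1 := congrArg (fun z : Circle => (z : ℂ)) he
    simp only [Circle.coe_pow] at h1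
    exact hζ.pow_inj (Finset.mem_range.1 ha) (Finset.mem_range.1 hb) h1
  · rw [Finset.mem_image]
    constructor
    · rintro ⟨k, -, rfl⟩
      apply Circle.ext
      rw [Circle.coe_pow, Circle.coe_pow, pow_right_comm, hζ.pow_eq_one, one_pow,
        Circle.coe_one]
    · intro hw
      have h1 : (w : ℂ) ^ r = 1 := by
        rw [← Circle.coe_pow, hw, Circle.coe_one]
      have hne : NeZero r := ⟨hr.ne'⟩
      obtain ⟨i, hi, he⟩ := hζ.eq_pow_of_pow_eq_one h1
      refine ⟨i, Finset.mem_range.2 hi, Circle.ext ?_⟩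
      rw [Circle.coe_pow, he]

/-- The squares of the `r`-th roots of unity. -/
theorem card_sq_roots (U : Finset Circle) : U.card ≤ 2 * (U.image fun w => w ^ 2).card := by
  refine Finset.card_le_mul_card_image U 2 fun a _ => ?_
  by_contra hcon
  rw [not_le, Finset.two_lt_card] at hcon
  obtain ⟨x, hx, y, hy, z, hz, hxy, hxz, hyz⟩ := hcon
  rw [Finset.mem_filter] at hx hy hz
  have key : ∀ u v : Circle, u ^ 2 = v ^ 2 → u ≠ v → (u : ℂ) = -v := by
    intro u v h1 h2
    have h3 : (u : ℂ) ^ 2 = (v : ℂ) ^ 2 := by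
      rw [← Circle.coe_pow, ← Circle.coe_pow, h1]
    rcases sq_eq_sq_iff_eq_or_eq_neg.1 h3 with h4 | h4
    · exact absurd (Circle.ext h4) h2
    · exact h4
  have e1 := key x y (hx.2.trans hy.2.symm) hxy
  have e2 := key x z (hx.2.trans hz.2.symm) hxz
  exact hyz (Circle.ext (neg_injective (e1.symm.trans e2)))

theorem card_T (h : PData A r T S) (hr : 0 < r) : T.card = r * qT T r := by
  obtain ⟨U, hU, hmU⟩ := card_roots hr
  rw [Finset.card_eq_sum_card_image (fun x : ℝ × Circle => (x.1, x.2 ^ r)) T,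
    Finset.sum_const_nat (m := r), qT, mul_comm]
  intro b hb
  obtain ⟨x, hx, rfl⟩ := Finset.mem_image.1 hb
  have h1 : (T.filter fun y : ℝ × Circle => (y.1, y.2 ^ r) = (x.1, x.2 ^ r)) =
      U.image fun w => (x.1, w * x.2) := by
    ext y
    rw [Finset.mem_filter, Finset.mem_image]
    constructor
    · rintro ⟨-, h2⟩
      rw [Prod.mk.injEq] at h2
      refine ⟨y.2 / x.2, ?_, ?_⟩
      · rw [hmU, div_pow, h2.2, div_self']
      · rw [div_mul_cancel]
        exact Prod.ext h2.1.symm rfl
    · rintro ⟨w, hw, rfl⟩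
      rw [hmU] at hw
      refine ⟨h.rotT w hw x hx, ?_⟩
      rw [mul_pow, hw, one_mul]
  rw [h1, Finset.card_image_of_injective _ ?_, hU]
  intro a b he
  exact mul_right_cancel (Prod.mk.inj he).2

theorem card_S (h : PData A r T S) (hr : 0 < r) : r * qS S r ≤ 2 * S.card := by
  obtain ⟨U, hU, hmU⟩ := card_roots hr
  have h0 := card_sq_roots U
  rw [hU] at h0
  rw [Finset.card_eq_sum_card_image (fun s : Circle => s ^ r) S, qS, Finset.mul_sum, mul_comm,
    ← smul_eq_mul, ← Finset.sum_const]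
  refine Finset.sum_le_sum fun b hb => ?_
  obtain ⟨s, hs, rfl⟩ := Finset.mem_image.1 hb
  refine h0.trans (Nat.mul_le_mul_left 2 ?_)
  rw [← Finset.card_image_of_injective (U.image fun w => w ^ 2)
    (fun a b he => mul_right_cancel he : Function.Injective fun z : Circle => z * s)]
  refine Finset.card_le_card ?_
  intro y hy
  obtain ⟨v, hv, rfl⟩ := Finset.mem_image.1 hy
  obtain ⟨w, hw, rfl⟩ := Finset.mem_image.1 hv
  rw [hmU] at hw
  rw [Finset.mem_filter]
  refine ⟨h.rotS w hw s hs, ?_⟩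
  rw [mul_pow, ← pow_mul, mul_comm 2 r, pow_mul, hw, one_pow, one_mul]

theorem card_radii (T : Finset (ℝ × Circle)) (r : ℕ) : (T.image Prod.fst).card ≤ qT T r := by
  have h1 : T.image Prod.fst = (T.image fun x : ℝ × Circle => (x.1, x.2 ^ r)).image Prod.fst := by
    rw [Finset.image_image]
    rfl
  rw [h1]
  exact Finset.card_image_le

theorem card_radius (h : PData A r T S) (hr : 0 < r) {x : ℝ × Circle} (hx : x ∈ T) :
    r ≤ (T.filter fun y => y.1 = x.1).card := by
  obtain ⟨U, hU, hmU⟩ := card_roots hr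
  have h1 : (U.image fun w => (x.1, w * x.2)).card = r := by
    rw [Finset.card_image_of_injective _ ?_, hU]
    intro a b he
    exact mul_right_cancel (Prod.mk.inj he).2
  rw [← h1]
  refine Finset.card_le_card ?_
  intro y hy
  obtain ⟨w, hw, rfl⟩ := Finset.mem_image.1 hy
  rw [hmU] at hw
  rw [Finset.mem_filter]
  exact ⟨h.rotT w hw x hx, rfl⟩

end Pool.Agent.Simpl
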