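import Pool.Agent.Simpl.Melchior
import Pool.Agent.Simpl.NDefs

set_option autoImplicit false

/-! # Lines of `P(ℂ × ℝ)` in polar coordinates (definitions)

The affine plane `ℂ` is the set of the points `(z, 1)`; `(z, 0)` are the points at infinity. -/

namespace Pool.Agent.Simpl

open Module Classical ComplexConjugate

/-- The line `Re (z w̄) = ρ`: the tangent of the circle of radius `ρ` in the point `ρ w`. -/
noncomputable def tang (ρ : ℝ) (w : Circle) : Submodule ℝ (ℂ × ℝ) where
  carrier := {x | (x.1 * conj (w : ℂ)).re = ρ * x.2}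
  zero_mem' := by simp
  add_mem' := by
    intro u v hu hv
    simp only [Set.mem_ofPred_eq, Prod.fst_add, Prod.snd_add, add_mul, Complex.add_re] at *
    linear_combination hu + hv
  smul_mem' := by
    intro r v hv
    simp only [Set.mem_ofPred_eq, Prod.smul_fst, Prod.smul_snd, smul_mul_assoc,
      Complex.smul_re, smul_eq_mul] at *
    linear_combination r * hv

/-- The line through the origin with the direction `p`, `p² = s`. -/
noncomputable def ax (s : Circle) : Submodule ℝ (ℂ × ℝ) where
  carrier := {x | x.1 = s * conj x.1}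
  zero_mem' := by simp
  add_mem' := by
    intro u v hu hv
    simp only [Set.mem_ofPred_eq, Prod.fst_add, map_add] at *
    linear_combination hu + hv
  smul_mem' := by
    intro r v hv
    simp only [Set.mem_ofPred_eq, Prod.smul_fst, Complex.real_smul, map_mul,
      Complex.conj_ofReal] at *
    linear_combination r * hv

/-- The line at infinity. -/
def infl : Submodule ℝ (ℂ × ℝ) where
  carrier := {x | x.2 = 0}
  zero_mem' := by simp
  add_mem' := by
    intro u v hu hv
    simp only [Set.mem_ofPred_eq, Prod.snd_add] at *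
    linear_combination hu + hv
  smul_mem' := by
    intro r v hv
    simp only [Set.mem_ofPred_eq, Prod.smul_snd, smul_eq_mul] at *
    rw [hv, mul_zero]

theorem mem_tang {ρ : ℝ} {w : Circle} {x : ℂ × ℝ} :
    x ∈ tang ρ w ↔ (x.1 * conj (w : ℂ)).re = ρ * x.2 := Iff.rfl

theorem mem_ax {s : Circle} {x : ℂ × ℝ} : x ∈ ax s ↔ x.1 = s * conj x.1 := Iff.rfl

theorem mem_infl {x : ℂ × ℝ} : x ∈ infl ↔ x.2 = 0 := Iff.rfl

/-- The point `p / t` (the point at infinity in the direction `p` for `t = 0`). -/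
noncomputable def pt (t : ℝ) (p : Circle) : Submodule ℝ (ℂ × ℝ) :=
  Submodule.span ℝ {((p : ℂ), t)}

/-- The origin. -/
noncomputable def org : Submodule ℝ (ℂ × ℝ) := Submodule.span ℝ {((0 : ℂ), (1 : ℝ))}

/-- The polar data of an arrangement invariant under the rotations by the `r`-th roots of unity:
`T` the tangents, `S` the lines through the origin. -/
structure PData (A : Finset (Submodule ℝ (ℂ × ℝ))) (r : ℕ) (T : Finset (ℝ × Circle))
    (S : Finset Circle) : Prop where
  pos : ∀ x ∈ T, 0 < x.1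
  tang_mem : ∀ (ρ : ℝ) (w : Circle), 0 < ρ → (tang ρ w ∈ A ↔ (ρ, w) ∈ T)
  ax_mem : ∀ s : Circle, ax s ∈ A ↔ s ∈ S
  cases : ∀ H ∈ A, (∃ x ∈ T, H = tang x.1 x.2) ∨ (∃ s ∈ S, H = ax s) ∨ H = infl
  rotT : ∀ w : Circle, w ^ r = 1 → ∀ x ∈ T, (x.1, w * x.2) ∈ T
  rotS : ∀ w : Circle, w ^ r = 1 → ∀ s ∈ S, w ^ 2 * s ∈ S

/-- The number of the classes of tangents. -/
noncomputable def qT (T : Finset (ℝ × Circle)) (r : ℕ) : ℕ :=
  (T.image fun x => (x.1, x.2 ^ r)).card

/-- The number of the classes of axes. -/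
noncomputable def qS (S : Finset Circle) (r : ℕ) : ℕ := (S.image fun s => s ^ r).card

/-- The tangents of other radius which meet the tangent `x` in a finite point lying on a third
line of `A`. -/
noncomputable def rare (A : Finset (Submodule ℝ (ℂ × ℝ))) (T : Finset (ℝ × Circle))
    (x : ℝ × Circle) : Finset (ℝ × Circle) :=
  T.filter fun y => y.1 ≠ x.1 ∧ ¬ tang x.1 x.2 ⊓ tang y.1 y.2 ≤ infl ∧
    ∃ L ∈ A, L ≠ tang x.1 x.2 ∧ L ≠ tang y.1 y.2 ∧ tang x.1 x.2 ⊓ tang y.1 y.2 ≤ L

/-- The regular `N`-gon arrangement in polar form. -/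
noncomputable def polReg (N : ℕ) : Finset (Submodule ℝ (ℂ × ℝ)) :=
  (Finset.range N).image (fun k : ℕ => tang 1 (Circle.exp (2 * Real.pi * k / N))) ∪
  (Finset.range N).image (fun k : ℕ => ax (Circle.exp (2 * Real.pi * k / N)))

end Pool.Agent.Simpl
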