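import Pool.Agent.Simpl.NDefs

set_option autoImplicit false

/-! Package N1: the parity splitting.

PROOF. `zeta_notMem`: `4 ∣ n`, `ζ` a primitive `n`-th root of unity. `ζ ^ 2` is a primitive
`n/2`-th root of unity and `KK (n / 2) = ℚ(ζ ^ 2)` (every `n/2`-th root of unity is a power of
`ζ ^ 2`). If `ζ ∈ ℚ(ζ ^ 2)` then `ℚ(ζ) = ℚ(ζ ^ 2)` has degree `φ(n) = φ(n / 2)` over `ℚ`
(`IsPrimitiveRoot.minpoly...`: the minimal polynomial of a primitive root is cyclotomic,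
`Polynomial.cyclotomic_eq_minpoly_rat`, `natDegree_cyclotomic`), but `φ(n) = 2 φ(n / 2)` since `2` divides
`n / 2` (`Nat.totient_mul_of_prime_of_dvd`).
`parity_split`: `m_i = x^(a_i) y^(b_i)` is an `n`-th root of unity, so `m_i = ζ^(k_i)`; for `k_i` even
`m_i ∈ KK (n / 2)` and `m_i^(n/2) = 1`; for `k_i` odd `m_i = ζ k'_i`, `k'_i ∈ KK (n / 2)` and
`m_i^(n/2) = -1`. So `0 = ∑ c_i m_i = P + ζ Q` with `P = ∑_{k_i even} c_i m_i`,
`Q = ∑_{k_i odd} c_i k'_i` in `KK (n / 2)`; `Q ≠ 0` would give `ζ = -P / Q ∈ KK (n / 2)`. So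
`P = Q = 0` and `∑ c_i m_i^(1 + n/2) = P - ζ Q = 0`; and
`m_i^(n/2) = (x^(n/2))^(a_i) (y^(n/2))^(b_i)`. -/

namespace Pool.Agent.Simpl

private theorem sqone {z : ℂ} (h : z ^ 2 = 1) : z = 1 ∨ z = -1 := by
  have h1 : (z - 1) * (z + 1) = 0 := by linear_combination h
  rcases mul_eq_zero.1 h1 with h2 | h2
  · left
    linear_combination h2
  · right
    linear_combination h2

private theorem half_facts {n : ℕ} (h4 : 4 ∣ n) (hn : 0 < n) :
    0 < n / 2 ∧ 2 ∣ n / 2 ∧ 2 * (n / 2) = n := by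
  obtain ⟨k, rfl⟩ := h4
  have h : 4 * k / 2 = 2 * k := by omega
  rw [h]
  exact ⟨by omega, ⟨k, rfl⟩, by omega⟩

private theorem finrank_root {n : ℕ} (hn : 0 < n) {ζ : ℂ} (hζ : IsPrimitiveRoot ζ n) :
    Module.finrank ℚ (IntermediateField.adjoin ℚ {ζ} : IntermediateField ℚ ℂ) = Nat.totient n := by
  have hint : IsIntegral ℚ ζ := (hζ.isIntegral hn).tower_top
  rw [IntermediateField.adjoin.finrank hint, ← Polynomial.cyclotomic_eq_minpoly_rat hζ hn,
    Polynomial.natDegree_cyclotomic]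

theorem zeta_notMem {n : ℕ} (h4 : 4 ∣ n) (hn : 0 < n) {ζ : ℂ} (hζ : IsPrimitiveRoot ζ n) :
    ζ ∉ KK (n / 2) := by
  obtain ⟨hm, h2m, hmn⟩ := half_facts h4 hn
  have hζ2 : IsPrimitiveRoot (ζ ^ 2) (n / 2) := hζ.pow hn hmn.symm
  intro hmem
  have hle : KK (n / 2) ≤ (IntermediateField.adjoin ℚ {ζ ^ 2} : IntermediateField ℚ ℂ) := by
    unfold KK
    rw [IntermediateField.adjoin_le_iff]
    intro z hz
    have : NeZero (n / 2) := ⟨hm.ne'⟩
    obtain ⟨i, _, hi⟩ := hζ2.eq_pow_of_pow_eq_one hz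
    rw [← hi]
    exact pow_mem (IntermediateField.mem_adjoin_simple_self ℚ (ζ ^ 2)) i
  have hle2 : (IntermediateField.adjoin ℚ {ζ} : IntermediateField ℚ ℂ) ≤
      IntermediateField.adjoin ℚ {ζ ^ 2} := by
    rw [IntermediateField.adjoin_le_iff]
    intro z hz
    rw [Set.mem_singleton_iff] at hz
    subst hz
    exact hle hmem
  have hint : IsIntegral ℚ (ζ ^ 2) := (hζ2.isIntegral hm).tower_top
  have : FiniteDimensional ℚ (IntermediateField.adjoin ℚ {ζ ^ 2} : IntermediateField ℚ ℂ) :=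
    IntermediateField.adjoin.finiteDimensional hint
  have h1 := IntermediateField.finrank_le_of_le_right hle2
  rw [finrank_root hn hζ, finrank_root hm hζ2] at h1
  have h2 : Nat.totient n = 2 * Nat.totient (n / 2) := by
    conv_lhs => rw [← hmn]
    exact Nat.totient_mul_of_prime_of_dvd Nat.prime_two h2m
  have h3 : 0 < Nat.totient (n / 2) := Nat.totient_pos.2 hm
  omega

theorem parity_split {ι : Type} [Fintype ι] {n : ℕ} (h4 : 4 ∣ n) (hn : 0 < n) (a b : ι → ℕ)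
    (c : ι → ℂ) (hc : ∀ i, c i ∈ KK (n / 2)) {x y : ℂ} (hx : x ^ n = 1) (hy : y ^ n = 1)
    (h : ev a b c (x, y) = 0) : ev a b c (x ^ (n / 2) * x, y ^ (n / 2) * y) = 0 := by
  classical
  obtain ⟨hm, h2m, hmn⟩ := half_facts h4 hn
  obtain ⟨m, hmdef⟩ : ∃ m, m = n / 2 := ⟨_, rfl⟩
  rw [← hmdef] at hm h2m hmn hc ⊢
  obtain ⟨ζ, hζdef⟩ : ∃ ζ : ℂ, ζ = Complex.exp (2 * Real.pi * Complex.I / n) := ⟨_, rfl⟩
  have hζ : IsPrimitiveRoot ζ n := by
    rw [hζdef]
    exact Complex.isPrimitiveRoot_exp n hn.ne'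
  have hζ0 : ζ ≠ 0 := hζ.ne_zero hn.ne'
  have hζn : ζ ∉ KK m := by
    rw [hmdef]
    exact zeta_notMem h4 hn hζ
  have hζm : ζ ^ m = -1 := by
    have h1 : (ζ ^ m) ^ 2 = 1 := by
      rw [← pow_mul, mul_comm, hmn]
      exact hζ.pow_eq_one
    rcases sqone h1 with h2 | h2
    · exact absurd h2 (hζ.pow_ne_one_of_pos_of_lt hm.ne' (by omega))
    · exact h2
  obtain ⟨M, hM⟩ : ∃ M : ι → ℂ, M = fun i => x ^ a i * y ^ b i := ⟨_, rfl⟩
  have hMn : ∀ i, (M i ^ m) ^ 2 = 1 := by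
    intro i
    rw [← pow_mul, mul_comm m 2, hmn, hM]
    simp only
    rw [mul_pow, ← pow_mul, ← pow_mul, mul_comm (a i), mul_comm (b i), pow_mul, pow_mul, hx, hy,
      one_pow, one_pow, one_mul]
  have hMm : ∀ i, M i ^ m = 1 ∨ M i ^ m = -1 := fun i => sqone (hMn i)
  obtain ⟨P, hP⟩ : ∃ P, P = ∑ i, if M i ^ m = 1 then c i * M i else 0 := ⟨_, rfl⟩
  obtain ⟨Q, hQ⟩ : ∃ Q, Q = ∑ i, if M i ^ m = 1 then 0 else c i * (ζ⁻¹ * M i) := ⟨_, rfl⟩
  have hPm : P ∈ KK m := by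
    rw [hP]
    refine sum_mem fun i _ => ?_
    split_ifs with h1
    · exact mul_mem (hc i) (IntermediateField.subset_adjoin ℚ _ h1)
    · exact zero_mem _
  have hQm : Q ∈ KK m := by
    rw [hQ]
    refine sum_mem fun i _ => ?_
    split_ifs with h1
    · exact zero_mem _
    · refine mul_mem (hc i) (IntermediateField.subset_adjoin ℚ _ ?_)
      show (ζ⁻¹ * M i) ^ m = 1
      rw [mul_pow, inv_pow, hζm]
      rcases hMm i with h2 | h2
      · exact absurd h2 h1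
      · rw [h2]
        norm_num
  have hsum : P + ζ * Q = 0 := by
    rw [← h, hP, hQ, ev, Finset.mul_sum, ← Finset.sum_add_distrib]
    refine Finset.sum_congr rfl fun i _ => ?_
    rw [hM]
    split_ifs
    · ring
    · field_simp
      ring
  have hQ0 : Q = 0 := by
    by_contra hne
    apply hζn
    have h1 : ζ = -P / Q := by
      rw [eq_div_iff hne]
      linear_combination hsum
    rw [h1]
    exact div_mem (neg_mem hPm) hQm
  have hP0 : P = 0 := by
    rw [hQ0] at hsum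
    simpa using hsum
  have hfin : ev a b c (x ^ m * x, y ^ m * y) = P - ζ * Q := by
    rw [hP, hQ, ev, Finset.mul_sum, ← Finset.sum_sub_distrib]
    refine Finset.sum_congr rfl fun i _ => ?_
    have h1 : c i * (x ^ m * x) ^ a i * (y ^ m * y) ^ b i = c i * (M i ^ m * M i) := by
      rw [hM]
      ring
    show c i * (x ^ m * x) ^ a i * (y ^ m * y) ^ b i = _
    rw [h1]
    split_ifs with h2
    · rw [h2]
      ring
    · rcases hMm i with h3 | h3
      · exact absurd h3 h2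
      · rw [h3]
        field_simp
        ring
  rw [hfin, hP0, hQ0]
  ring

end Pool.Agent.Simpl
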