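import Pool.Agent.Simpl.Defs

set_option autoImplicit false

/-! Package Q3: the axis of a rotation of the three-dimensional space.

PROOF. `g` preserves the norm, hence the inner product (polarisation), `det g = 1`.
`exists_axis`: `det (g - 1) = 0`: with the adjoint, `g* g = 1`, `g - 1 = -g (g* - 1)... ` precisely
`g - 1 = g (1 - g⁻¹)`, `g⁻¹ = g*`, so `det (g - 1) = det g det (1 - g*) = det (1 - g) = -det (g - 1)`
(dimension 3), or in terms of the real matrix `M` of `g` in an orthonormal basis: `M Mᵀ = 1`,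
`det (M - 1) = det (M (1 - Mᵀ)) = det (1 - M)ᵀ = (-1)^3 det (M - 1)`. So there is a unit vector `x`
with `g x = x`. If `y` is another fixed unit vector, `y ≠ ±x`, then `g` is the identity on the plane
`W` spanned by `x, y` and maps the orthogonal line `W^⊥ = ℝ z` to itself, `g z = ± z`, and `det g = 1` (block
form: `x, y, z` is a basis) forces `g z = z`, so `g = 1`. -/

namespace Pool.Agent.Simpl

open Module

private theorem Poles_inner {g : EuclideanSpace ℝ (Fin 3) ≃ₗ[ℝ] EuclideanSpace ℝ (Fin 3)}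
    (hg : ∀ x, ‖g x‖ = ‖x‖) (x y : EuclideanSpace ℝ (Fin 3)) :
    inner ℝ (g x) (g y) = inner ℝ x y :=
  LinearIsometryEquiv.inner_map_map ⟨g, hg⟩ x y

private theorem Poles_det_adj (h : EuclideanSpace ℝ (Fin 3) →ₗ[ℝ] EuclideanSpace ℝ (Fin 3)) :
    LinearMap.det (LinearMap.adjoint h) = LinearMap.det h := by
  rw [← LinearMap.det_toMatrix (EuclideanSpace.basisFun (Fin 3) ℝ).toBasis (LinearMap.adjoint h),
    LinearMap.toMatrix_adjoint, Matrix.det_conjTranspose, LinearMap.det_toMatrix, star_trivial]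

private theorem Poles_fixed {g : EuclideanSpace ℝ (Fin 3) ≃ₗ[ℝ] EuclideanSpace ℝ (Fin 3)}
    (hg : ∀ x, ‖g x‖ = ‖x‖) (hdet : LinearMap.det (g : EuclideanSpace ℝ (Fin 3) →ₗ[ℝ]
      EuclideanSpace ℝ (Fin 3)) = 1) : ∃ x, x ≠ 0 ∧ g x = x := by
  have hadj : LinearMap.adjoint (g : EuclideanSpace ℝ (Fin 3) →ₗ[ℝ] EuclideanSpace ℝ (Fin 3)) *
      (g : EuclideanSpace ℝ (Fin 3) →ₗ[ℝ] EuclideanSpace ℝ (Fin 3)) = 1 := by
    refine LinearMap.ext fun x => ?_
    refine ext_inner_right ℝ fun y => ?_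
    rw [Module.End.mul_apply, LinearMap.adjoint_inner_left]
    exact Poles_inner hg x y
  generalize hf : (g : EuclideanSpace ℝ (Fin 3) →ₗ[ℝ] EuclideanSpace ℝ (Fin 3)) = f at hadj hdet
  have h1 : f - 1 = LinearMap.adjoint (1 - f) * f := by
    have h2 : LinearMap.adjoint (1 - f) = 1 - LinearMap.adjoint f := by
      rw [map_sub]
      congr 1
      exact LinearMap.adjoint_id
    rw [h2, sub_mul, hadj, one_mul]
  have h2 : LinearMap.det (f - 1) = LinearMap.det (1 - f) := by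
    conv_lhs => rw [h1]
    rw [map_mul, hdet, mul_one, Poles_det_adj]
  have h3 : LinearMap.det (1 - f) = -LinearMap.det (f - 1) := by
    have h4 : 1 - f = (-1 : ℝ) • (f - 1) := by
      rw [neg_one_smul, neg_sub]
    rw [h4, LinearMap.det_smul]
    simp
    norm_num
  have h4 : LinearMap.det (f - 1) = 0 := by linarith
  have h5 := LinearMap.bot_lt_ker_of_det_eq_zero h4
  obtain ⟨x, hx, hx0⟩ := (Submodule.ne_bot_iff _).1 h5.ne'
  refine ⟨x, hx0, ?_⟩
  rw [LinearMap.mem_ker, LinearMap.sub_apply, sub_eq_zero] at hx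
  rw [← hf] at hx
  exact hx

private theorem Poles_norm {c : ℝ} {z w : EuclideanSpace ℝ (Fin 3)} (hz : z ≠ 0)
    (hn : ‖w‖ = ‖z‖) (hw : c • z = w) : c = 1 ∨ c = -1 := by
  rw [← hw, norm_smul, Real.norm_eq_abs] at hn
  have h1 : ‖z‖ ≠ 0 := norm_ne_zero_iff.2 hz
  have h2 : |c| = 1 := by
    have h3 : |c| * ‖z‖ = 1 * ‖z‖ := by rw [hn, one_mul]
    exact mul_right_cancel₀ h1 h3
  rcases eq_or_eq_neg_of_abs_eq h2 with h | h
  · exact Or.inl h
  · exact Or.inr h

private theorem Poles_unique {g : EuclideanSpace ℝ (Fin 3) ≃ₗ[ℝ] EuclideanSpace ℝ (Fin 3)}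
    (hg : ∀ x, ‖g x‖ = ‖x‖) (hdet : LinearMap.det (g : EuclideanSpace ℝ (Fin 3) →ₗ[ℝ]
      EuclideanSpace ℝ (Fin 3)) = 1) (hne : g ≠ 1) {x y : EuclideanSpace ℝ (Fin 3)}
    (hx : x ≠ 0) (hgx : g x = x) (hgy : g y = y) : ∃ c : ℝ, y = c • x := by
  by_contra hc
  push Not at hc
  have hli : LinearIndependent ℝ ![x, y] := by
    rw [LinearIndependent.pair_iff]
    intro s t hst
    have ht : t = 0 := by
      by_contra ht
      apply hc (-(t⁻¹ * s))
      have h1 : t • y = -(s • x) := by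
        rw [eq_neg_iff_add_eq_zero, add_comm]
        exact hst
      calc y = t⁻¹ • (t • y) := by rw [smul_smul, inv_mul_cancel₀ ht, one_smul]
        _ = -(t⁻¹ * s) • x := by rw [h1, smul_neg, smul_smul, neg_smul]
    subst ht
    refine ⟨?_, rfl⟩
    rw [zero_smul, add_zero] at hst
    exact (smul_eq_zero.1 hst).resolve_right hx
  set K : Submodule ℝ (EuclideanSpace ℝ (Fin 3)) := Submodule.span ℝ (Set.range ![x, y]) with hK
  have hK2 : finrank ℝ K = 2 := by
    rw [hK, finrank_span_eq_card hli, Fintype.card_fin]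
  have hK1 : finrank ℝ Kᗮ = 1 := by
    have h1 := K.finrank_add_finrank_orthogonal
    rw [hK2, finrank_euclideanSpace_fin] at h1
    omega
  have hgK : ∀ v ∈ K, g v = v := by
    intro v hv
    induction hv using Submodule.span_induction with
    | mem v hv =>
      obtain ⟨i, rfl⟩ := hv
      fin_cases i
      · exact hgx
      · exact hgy
    | zero => exact map_zero g
    | add a b _ _ ha hb => rw [map_add, ha, hb]
    | smul a v _ hv => rw [map_smul, hv]
  obtain ⟨⟨z, hz⟩, hz0, hzs⟩ := finrank_eq_one_iff'.1 hK1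
  have hz0' : z ≠ 0 := fun h => hz0 (Subtype.ext h)
  have hgz : g z ∈ Kᗮ := by
    rw [Submodule.mem_orthogonal]
    intro v hv
    rw [← hgK v hv, Poles_inner hg]
    exact (Submodule.mem_orthogonal _ _).1 hz v hv
  obtain ⟨c, hc1⟩ := hzs ⟨g z, hgz⟩
  have hc2 : c • z = g z := congrArg Subtype.val hc1
  have hperp : ∀ v ∈ Kᗮ, g v = c • v := by
    intro v hv
    obtain ⟨a, ha⟩ := hzs ⟨v, hv⟩
    have ha' : a • z = v := congrArg Subtype.val ha
    rw [← ha', map_smul, ← hc2, smul_smul, smul_smul, mul_comm]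
  rcases Poles_norm hz0' (hg z) hc2 with h1 | h1
  · apply hne
    refine LinearEquiv.ext fun v => ?_
    obtain ⟨a, ha, b, hb, rfl⟩ := K.exists_add_mem_mem_orthogonal v
    rw [map_add, hgK a ha, hperp b hb, h1, one_smul]
    rfl
  · have h2 : (g : EuclideanSpace ℝ (Fin 3) →ₗ[ℝ] EuclideanSpace ℝ (Fin 3)) =
        K.reflection.toLinearMap := by
      refine LinearMap.ext fun v => ?_
      obtain ⟨a, ha, b, hb, rfl⟩ := K.exists_add_mem_mem_orthogonal v
      show g (a + b) = K.reflection (a + b)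
      rw [map_add, map_add, hgK a ha, hperp b hb, h1,
        Submodule.reflection_mem_subspace_eq_self ha,
        Submodule.reflection_mem_subspace_orthogonalComplement_eq_neg hb, neg_one_smul]
    rw [h2, Submodule.det_reflection, hK1] at hdet
    norm_num at hdet

theorem exists_axis (g : EuclideanSpace ℝ (Fin 3) ≃ₗ[ℝ] EuclideanSpace ℝ (Fin 3))
    (hg : ∀ x, ‖g x‖ = ‖x‖) (hdet : LinearMap.det (g : EuclideanSpace ℝ (Fin 3) →ₗ[ℝ]
      EuclideanSpace ℝ (Fin 3)) = 1) (hne : g ≠ 1) :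
    ∃ x, ‖x‖ = 1 ∧ ∀ y, (‖y‖ = 1 ∧ g y = y) ↔ (y = x ∨ y = -x) := by
  obtain ⟨x, hn, hgx⟩ : ∃ x : EuclideanSpace ℝ (Fin 3), ‖x‖ = 1 ∧ g x = x := by
    obtain ⟨z, hz0, hz⟩ := Poles_fixed hg hdet
    refine ⟨‖z‖⁻¹ • z, ?_, ?_⟩
    · rw [norm_smul, norm_inv, norm_norm, inv_mul_cancel₀ (norm_ne_zero_iff.2 hz0)]
    · rw [map_smul, hz]
  have hx0 : x ≠ 0 := by
    rintro rfl
    rw [norm_zero] at hn
    exact zero_ne_one hn
  refine ⟨x, hn, fun y => ⟨?_, ?_⟩⟩
  · rintro ⟨hy1, hy⟩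
    obtain ⟨c, hc⟩ := Poles_unique hg hdet hne hx0 hgx hy
    rcases Poles_norm hx0 (hy1.trans hn.symm) hc.symm with h | h
    · left
      rw [hc, h, one_smul]
    · right
      rw [hc, h, neg_one_smul]
  · rintro (rfl | rfl)
    · exact ⟨hn, hgx⟩
    · exact ⟨by rw [norm_neg, hn], by rw [map_neg, hgx]⟩

end Pool.Agent.Simpl
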