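import Pool.Agent.Simpl.Defs

set_option autoImplicit false

/-! # Sign vectors of an arrangement of planes (definitions) -/

namespace Pool.Agent.Simpl

open Module Classical

variable {V : Type} [AddCommGroup V] [Module ℝ V]

/-- A linear functional with kernel `H` (if `H` is the kernel of a functional). -/
noncomputable def fn (H : Submodule ℝ V) : V →ₗ[ℝ] ℝ :=
  if h : ∃ f : V →ₗ[ℝ] ℝ, LinearMap.ker f = H then h.choose else 0

/-- The open convex cone of the vectors with sign vector `B`. -/
def cone (A B : Finset (Submodule ℝ V)) : Set V :=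
  {x | (∀ H ∈ B, 0 < fn H x) ∧ ∀ H ∈ A \ B, fn H x < 0}

/-- The sign vectors realised in the subspace `W`. -/
noncomputable def regs (W : Submodule ℝ V) (A : Finset (Submodule ℝ V)) :
    Finset (Finset (Submodule ℝ V)) :=
  A.powerset.filter fun B => ∃ x ∈ W, x ∈ cone A B

/-- The walls of the region `B`. -/
noncomputable def walls (A B : Finset (Submodule ℝ V)) : Finset (Submodule ℝ V) :=
  A.filter fun H => B.erase H ∈ regs H (A.erase H)

/-- Every plane of `A` is a hyperplane. -/
def Hyp (A : Finset (Submodule ℝ V)) : Prop := ∀ H ∈ A, LinearMap.ker (fn H) = H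

end Pool.Agent.Simpl
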