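import Pool.Agent.Simpl.PDataEx
import Pool.Agent.Simpl.Concur
import Pool.Agent.Simpl.GCase
import Pool.Agent.Simpl.FCase

set_option autoImplicit false

/-! Package P4: the rare tangents.

PROOF. Let `x = (ρ₁, w₁) ∈ T`. For every `y = (ρ₂, w₂) ∈ rare A T x` choose a third plane `L_y`; the point
`tang x ⊓ tang y` is `pt t p` (`meet`) with `t > 0` (`pt_le_infl`), so `L_y ≠ infl`, and
`L_y = tang ρ₃ w₃` with `(ρ₃, w₃) ∈ T` or `L_y = ax s` with `s ∈ S`. Label `y` by `(ρ₂, w₂^r)` and the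
class `(ρ₃, w₃^r)` resp. `s^r`: the labels lie in a set with `qT * (qT + qS)` elements, so it is enough
(`Finset.card_le_mul_card_image`) that every set `Y` of `y` with the same label has at most 148
elements. Fix `Y`, radius `ρ₂ ≠ ρ₁`, `w₂^r = c₂`.
Axis label `s^r = σ`: `y ↦ (w₂/w₁, s/w₁²)` is injective on `Y` (`w₂` is determined by the first
coordinate) and has values `z` with `z.1^r = c₂/w₁^r`, `z.2^r = σ/w₁^(2r)`, `GG ρ₁ ρ₂ z.1 z.2 = 0`
(`concur_axis`): `boundG`.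
Tangent label `(ρ₃, c₃)`. `ρ₃ = ρ₁`: `w₃ ≠ w₁` as `L_y ≠ tang x`; `(w₂/w₁, w₃/w₁)`, `concur_GG`, `boundG`.
`ρ₃ = ρ₂`: `w₃ ≠ w₂`; use the base point `w₂`: `y ↦ (w₁/w₂, w₃/w₂)`, `GG ρ₂ ρ₁ = 0` (`concur_GG` with the
roles of 1 and 2 exchanged), `z.1^r = w₁^r/c₂`, `z.2^r = c₃/c₂`: `boundG`. `ρ₃ ≠ ρ₁, ρ₂`:
`(w₂/w₁, w₃/w₁)`, `concur_FF`, `boundF`. -/

namespace Pool.Agent.Simpl

open Module Classical ComplexConjugate

private theorem RareCard_gen {N r : ℕ} {ρ₂ : ℝ} {a b : ℂ} (P : ℂ → ℂ → Prop) (g : Circle → ℂ)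
    (hg : Function.Injective g) (Y : Finset (ℝ × Circle))
    (hY : ∀ y ∈ Y, y.1 = ρ₂ ∧ (g y.2) ^ r = a ∧ ∃ v : ℂ, v ^ r = b ∧ P (g y.2) v)
    (hN : ∀ Z : Finset (ℂ × ℂ), (∀ z ∈ Z, z.1 ^ r = a ∧ z.2 ^ r = b ∧ P z.1 z.2) →
      Z.card ≤ N) : Y.card ≤ N := by
  have h1 : ∀ y : ℝ × Circle, ∃ v : ℂ, y ∈ Y → v ^ r = b ∧ P (g y.2) v := by
    intro y
    by_cases hy : y ∈ Y
    · obtain ⟨-, -, v, hv⟩ := hY y hy
      exact ⟨v, fun _ => hv⟩
    · exact ⟨0, fun h => absurd h hy⟩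
  choose v hv using h1
  have hinj : Set.InjOn (fun y : ℝ × Circle => (g y.2, v y)) (Y : Set (ℝ × Circle)) := by
    intro y hy y' hy' hyy
    have e1 := (hY y hy).1
    have e2 := (hY y' hy').1
    have e3 : g y.2 = g y'.2 := congrArg Prod.fst hyy
    exact Prod.ext (e1.trans e2.symm) (hg e3)
  rw [← Finset.card_image_of_injOn hinj]
  refine hN _ fun z hz => ?_
  obtain ⟨y, hy, rfl⟩ := Finset.mem_image.1 hz
  exact ⟨(hY y hy).2.1, (hv y hy).1, (hv y hy).2⟩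

private theorem RareCard_coe {r : ℕ} {w c : Circle} (h : w ^ r = c) : (w : ℂ) ^ r = c := by
  rw [← h, Circle.coe_pow]

private theorem RareCard_inj (w₁ : Circle) :
    Function.Injective (fun w : Circle => (w : ℂ) / w₁) := by
  intro w w' h
  have h1 : (w₁ : ℂ) ≠ 0 := Circle.coe_ne_zero w₁
  have h2 : (w : ℂ) / w₁ = (w' : ℂ) / w₁ := h
  rw [div_left_inj' h1] at h2
  exact Circle.coe_injective h2

private theorem RareCard_inj' (w₁ : Circle) :
    Function.Injective (fun w : Circle => (w₁ : ℂ) / w) := by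
  intro w w' h
  have h1 : (w₁ : ℂ) ≠ 0 := Circle.coe_ne_zero w₁
  have h2 : (w₁ : ℂ) / w = (w₁ : ℂ) / w' := h
  have h3 : (w : ℂ) ≠ 0 := Circle.coe_ne_zero w
  have h4 : (w' : ℂ) ≠ 0 := Circle.coe_ne_zero w'
  rw [div_eq_div_iff h3 h4] at h2
  exact Circle.coe_injective (mul_left_cancel₀ h1 h2.symm)

/-- The label of a rare tangent. -/
private def RareCard_Q (T : Finset (ℝ × Circle)) (S : Finset Circle) (x y : ℝ × Circle)
    (l : (ℝ × Circle) ⊕ Circle) : Prop :=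
  ∃ (t : ℝ) (p : Circle), pt t p ≤ tang x.1 x.2 ∧ pt t p ≤ tang y.1 y.2 ∧
    (∀ z, l = Sum.inl z → z ∈ T ∧ z ≠ x ∧ z ≠ y ∧ pt t p ≤ tang z.1 z.2) ∧
    (∀ s, l = Sum.inr s → s ∈ S ∧ pt t p ≤ ax s)

private theorem RareCard_exists {A : Finset (Submodule ℝ (ℂ × ℝ))} {r : ℕ}
    {T : Finset (ℝ × Circle)} {S : Finset Circle} (h : PData A r T S) {x : ℝ × Circle}
    (hx : x ∈ T) {y : ℝ × Circle} (hy : y ∈ rare A T x) :
    ∃ l : (ℝ × Circle) ⊕ Circle, RareCard_Q T S x y l := by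
  obtain ⟨hyT, hne, hfin, L, hL, hLx, hLy, hle⟩ := Finset.mem_filter.1 hy
  have hxp := h.pos x hx
  have hyp := h.pos y hyT
  have hxy : tang x.1 x.2 ≠ tang y.1 y.2 := fun he => hne (tang_inj hxp hyp he).1.symm
  obtain ⟨t, p, ht, hp⟩ := meet hxp (finrank_tang y.1 y.2) hxy
  have h1 : pt t p ≤ tang x.1 x.2 := hp ▸ inf_le_left
  have h2 : pt t p ≤ tang y.1 y.2 := hp ▸ inf_le_right
  have h3 : pt t p ≤ L := hp ▸ hle
  have h4 : ¬ pt t p ≤ infl := hp ▸ hfin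
  rcases h.cases L hL with ⟨z, hz, rfl⟩ | ⟨s, hs, rfl⟩ | rfl
  · refine ⟨Sum.inl z, t, p, h1, h2, ?_, ?_⟩
    · intro z' hz'
      have e : z = z' := Sum.inl_injective hz'
      subst e
      refine ⟨hz, ?_, ?_, h3⟩
      · rintro rfl
        exact hLx rfl
      · rintro rfl
        exact hLy rfl
    · intro s hs
      exact absurd hs Sum.inl_ne_inr
  · refine ⟨Sum.inr s, t, p, h1, h2, ?_, ?_⟩
    · intro z hz
      exact absurd hz Sum.inr_ne_inl
    · intro s' hs'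
      have e : s = s' := Sum.inr_injective hs'
      subst e
      exact ⟨hs, h3⟩
  · exact absurd h3 h4

theorem rare_card {A : Finset (Submodule ℝ (ℂ × ℝ))} {r : ℕ} {T : Finset (ℝ × Circle)}
    {S : Finset Circle} (h : PData A r T S) (hr : 0 < r) {x : ℝ × Circle} (hx : x ∈ T) :
    (rare A T x).card ≤ 148 * (qT T r * (qT T r + qS S r)) := by
  have hex : ∀ y : ℝ × Circle, ∃ l : (ℝ × Circle) ⊕ Circle, y ∈ rare A T x →
      RareCard_Q T S x y l := by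
    intro y
    by_cases hy : y ∈ rare A T x
    · obtain ⟨l, hl⟩ := RareCard_exists h hx hy
      exact ⟨l, fun _ => hl⟩
    · exact ⟨Sum.inl x, fun h' => absurd h' hy⟩
  choose l hl using hex
  set cT : ℝ × Circle → ℝ × Circle := fun z => (z.1, z.2 ^ r) with hcT
  set cS : Circle → Circle := fun s => s ^ r with hcS
  set LT : Finset (ℝ × Circle) := T.image cT with hLT
  set LS : Finset Circle := S.image cS with hLS
  have hcard : (LT ×ˢ (LT.disjSum LS)).card = qT T r * (qT T r + qS S r) := by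
    rw [Finset.card_product, Finset.card_disjSum]
    rfl
  rw [← hcard]
  refine Finset.card_le_mul_card_image_of_maps_to
    (f := fun y => (cT y, Sum.map cT cS (l y))) ?_ 148 ?_
  · intro y hy
    obtain ⟨t, p, h1, h2, h3, h4⟩ := hl y hy
    refine Finset.mem_product.2 ⟨Finset.mem_image_of_mem _ (Finset.mem_filter.1 hy).1, ?_⟩
    rcases hly : l y with z | s
    · exact Finset.inl_mem_disjSum.2 (Finset.mem_image_of_mem _ (h3 z hly).1)
    · exact Finset.inr_mem_disjSum.2 (Finset.mem_image_of_mem _ (h4 s hly).1)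
  · rintro ⟨⟨ρ₂, c₂⟩, κ⟩ -
    set Y := (rare A T x).filter fun y => (cT y, Sum.map cT cS (l y)) = ((ρ₂, c₂), κ) with hYdef
    rcases Y.eq_empty_or_nonempty with hYe | ⟨y₀, hy₀⟩
    · rw [hYe]
      simp
    have hYm : ∀ y ∈ Y, y ∈ T ∧ y.1 ≠ x.1 ∧ y.1 = ρ₂ ∧ y.2 ^ r = c₂ ∧
        Sum.map cT cS (l y) = κ ∧ RareCard_Q T S x y (l y) := by
      intro y hy
      obtain ⟨hy1, hy2⟩ := Finset.mem_filter.1 hy
      obtain ⟨hy3, hy4, -⟩ := Finset.mem_filter.1 hy1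
      have e1 : cT y = (ρ₂, c₂) := congrArg Prod.fst hy2
      have e2 : Sum.map cT cS (l y) = κ := congrArg Prod.snd hy2
      exact ⟨hy3, hy4, congrArg Prod.fst e1, congrArg Prod.snd e1, e2, hl y hy1⟩
    have hρ₁ : 0 < x.1 := h.pos x hx
    have hρ₂ : 0 < ρ₂ := by
      rw [← (hYm y₀ hy₀).2.2.1]
      exact h.pos y₀ (hYm y₀ hy₀).1
    have hne : x.1 ≠ ρ₂ := by
      rw [← (hYm y₀ hy₀).2.2.1]
      exact (hYm y₀ hy₀).2.1.symm
    have hw₁ : (x.2 : ℂ) ≠ 0 := Circle.coe_ne_zero x.2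
    have hc₂ : (c₂ : ℂ) ≠ 0 := Circle.coe_ne_zero c₂
    rcases κ with ⟨ρ₃, c₃⟩ | σ
    · have hc₃ : (c₃ : ℂ) ≠ 0 := Circle.coe_ne_zero c₃
      have hT : ∀ y ∈ Y, ∃ w₃ : Circle, w₃ ^ r = c₃ ∧ (ρ₃, w₃) ∈ T ∧ (ρ₃, w₃) ≠ x ∧
          (ρ₃, w₃) ≠ y ∧ ∃ (t : ℝ) (p : Circle), pt t p ≤ tang x.1 x.2 ∧
            pt t p ≤ tang ρ₂ y.2 ∧ pt t p ≤ tang ρ₃ w₃ := by
        intro y hy
        obtain ⟨-, -, e1, -, e3, t, p, q1, q2, q3, -⟩ := hYm y hy
        rcases hly : l y with z | s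
        · rw [hly] at e3
          have e4 : cT z = (ρ₃, c₃) := Sum.inl_injective e3
          have e5 : z.1 = ρ₃ := congrArg Prod.fst e4
          have e6 : z.2 ^ r = c₃ := congrArg Prod.snd e4
          have e7 : (ρ₃, z.2) = z := Prod.ext e5.symm rfl
          obtain ⟨q4, q5, q6, q7⟩ := q3 z hly
          refine ⟨z.2, e6, ?_, ?_, ?_, t, p, q1, ?_, ?_⟩
          · rw [e7]
            exact q4
          · rw [e7]
            exact q5
          · rw [e7]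
            exact q6
          · rw [← e1]
            exact q2
          · rw [← e5]
            exact q7
        · rw [hly] at e3
          exact absurd e3 Sum.inr_ne_inl
      obtain ⟨w₀, -, hw₀, -⟩ := hT y₀ hy₀
      have hρ₃ : 0 < ρ₃ := h.pos _ hw₀
      by_cases h31 : ρ₃ = x.1
      · refine (RareCard_gen (r := r) (ρ₂ := ρ₂) (a := c₂ / (x.2 : ℂ) ^ r)
          (b := c₃ / (x.2 : ℂ) ^ r) (fun u v => GG x.1 ρ₂ u v = 0) _ (RareCard_inj x.2) Y ?_
          (fun Z hZ => boundG hρ₁ hρ₂ hne hr (div_ne_zero hc₂ (pow_ne_zero _ hw₁))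
            (div_ne_zero hc₃ (pow_ne_zero _ hw₁)) Z hZ)).trans (by norm_num)
        intro y hy
        obtain ⟨-, -, e1, e2, -⟩ := hYm y hy
        obtain ⟨w₃, e3, -, e4, -, t, p, q1, q2, q3⟩ := hT y hy
        refine ⟨e1, ?_, (w₃ : ℂ) / x.2, ?_, ?_⟩
        · rw [div_pow, RareCard_coe e2]
        · rw [div_pow, RareCard_coe e3]
        · rw [h31] at q3
          refine concur_GG q1 q2 q3 ?_
          rintro rfl
          exact e4 (Prod.ext h31 rfl)
      · by_cases h32 : ρ₃ = ρ₂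
        · refine (RareCard_gen (r := r) (ρ₂ := ρ₂) (a := (x.2 : ℂ) ^ r / c₂)
            (b := (c₃ : ℂ) / c₂) (fun u v => GG ρ₂ x.1 u v = 0) _ (RareCard_inj' x.2) Y ?_
            (fun Z hZ => boundG hρ₂ hρ₁ hne.symm hr (div_ne_zero (pow_ne_zero _ hw₁) hc₂)
              (div_ne_zero hc₃ hc₂) Z hZ)).trans (by norm_num)
          intro y hy
          obtain ⟨-, -, e1, e2, -⟩ := hYm y hy
          obtain ⟨w₃, e3, -, -, e4, t, p, q1, q2, q3⟩ := hT y hy
          refine ⟨e1, ?_, (w₃ : ℂ) / y.2, ?_, ?_⟩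
          · rw [div_pow, RareCard_coe e2]
          · rw [div_pow, RareCard_coe e3, RareCard_coe e2]
          · rw [h32] at q3
            refine concur_GG q2 q1 q3 ?_
            rintro rfl
            exact e4 (Prod.ext (h32.trans e1.symm) rfl)
        · refine RareCard_gen (r := r) (ρ₂ := ρ₂) (a := c₂ / (x.2 : ℂ) ^ r)
            (b := c₃ / (x.2 : ℂ) ^ r) (fun u v => FF x.1 ρ₂ ρ₃ u v = 0) _
            (RareCard_inj x.2) Y ?_
            (fun Z hZ => boundF hρ₁ hρ₂ hρ₃ hne (fun h' => h31 h'.symm)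
              (fun h' => h32 h'.symm) hr (div_ne_zero hc₂ (pow_ne_zero _ hw₁))
              (div_ne_zero hc₃ (pow_ne_zero _ hw₁)) Z hZ)
          intro y hy
          obtain ⟨-, -, e1, e2, -⟩ := hYm y hy
          obtain ⟨w₃, e3, -, -, -, t, p, q1, q2, q3⟩ := hT y hy
          refine ⟨e1, ?_, (w₃ : ℂ) / x.2, ?_, ?_⟩
          · rw [div_pow, RareCard_coe e2]
          · rw [div_pow, RareCard_coe e3]
          · exact concur_FF q1 q2 q3
    · have hσ : (σ : ℂ) ≠ 0 := Circle.coe_ne_zero σ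
      refine (RareCard_gen (r := r) (ρ₂ := ρ₂) (a := c₂ / (x.2 : ℂ) ^ r)
        (b := σ / ((x.2 : ℂ) ^ 2) ^ r) (fun u v => GG x.1 ρ₂ u v = 0) _ (RareCard_inj x.2) Y ?_
        (fun Z hZ => boundG hρ₁ hρ₂ hne hr (div_ne_zero hc₂ (pow_ne_zero _ hw₁))
          (div_ne_zero hσ (pow_ne_zero _ (pow_ne_zero _ hw₁))) Z hZ)).trans (by norm_num)
      intro y hy
      obtain ⟨-, -, e1, e2, e3, t, p, q1, q2, -, q4⟩ := hYm y hy
      rcases hly : l y with z | s
      · rw [hly] at e3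
        exact absurd e3 Sum.inl_ne_inr
      · rw [hly] at e3
        have e4 : s ^ r = σ := Sum.inr_injective e3
        refine ⟨e1, ?_, (s : ℂ) / (x.2 : ℂ) ^ 2, ?_, ?_⟩
        · rw [div_pow, RareCard_coe e2]
        · rw [div_pow, RareCard_coe e4]
        · rw [e1] at q2
          exact concur_axis q1 q2 (q4 s hly).2

end Pool.Agent.Simpl
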