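import Pool.Agent.Simpl.RDefs

set_option autoImplicit false

/-! Package R1: deletion and restriction for sign vectors.

PROOF. `ker_fn`: a subspace `H` with `finrank H + 1 = finrank V` is the kernel of a functional
(e.g. the quotient `V ⧸ H` has dimension one), so `fn H` is `Classical.choose` of such a functional.
`regs_insert`: let `f = fn H₀`, `R B = {x ∈ W | x ∈ cone A B}`. A sign vector `B'` of
`insert H₀ A` is either `B` or `insert H₀ B` with `B = B' \ {H₀}` a sign vector of `A` (note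
`H₀ ∉ A`). So `regs W (insert H₀ A)` is the disjoint union of
`X = {B ∈ regs W A | ∃ x ∈ R B, f x < 0}` and the image under the injective map `insert H₀` of
`Y = {B ∈ regs W A | ∃ x ∈ R B, 0 < f x}`. Now `X ∪ Y = regs W A`: for `x ∈ R B` with `f x = 0` choose
`v ∈ W` with `f v ≠ 0` (`W` is not inside `H₀ = ker f`); for small `ε > 0` the vector `x + ε v` is
still in `R B` (finitely many strict inequalities, each `fn H x + ε fn H v`). And
`X ∩ Y = regs (W ⊓ H₀) A`: `⊇` by the same perturbation `x ± ε v`; `⊆`: from `x, y ∈ R B` with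
`f x < 0 < f y` the convex combination `(f y) x - (f x) y` lies in `R B`
(positive coefficients) and in `ker f`. Then `card_union_add_card_inter`.
`exists_perturb` is the perturbation lemma, it is useful in other files. -/

namespace Pool.Agent.Simpl

open Module Classical

variable {V : Type} [AddCommGroup V] [Module ℝ V]

theorem ker_fn [FiniteDimensional ℝ V] {H : Submodule ℝ V}
    (h : finrank ℝ H + 1 = finrank ℝ V) : LinearMap.ker (fn H) = H := by
  have hex : ∃ f : V →ₗ[ℝ] ℝ, LinearMap.ker f = H := by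
    have h1 := Submodule.finrank_quotient_add_finrank H
    have h2 : finrank ℝ (V ⧸ H) = finrank ℝ ℝ := by
      rw [Module.finrank_self]
      omega
    let e : (V ⧸ H) ≃ₗ[ℝ] ℝ := LinearEquiv.ofFinrankEq _ _ h2
    refine ⟨e.toLinearMap.comp H.mkQ, ?_⟩
    rw [LinearEquiv.ker_comp, Submodule.ker_mkQ]
  unfold fn
  rw [dif_pos hex]
  exact hex.choose_spec

/-- Perturbation: strict inequalities persist under a small move in the direction `v`. -/
theorem exists_perturb (A B : Finset (Submodule ℝ V)) (x v : V) (hx : x ∈ cone A B) :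
    ∃ ε : ℝ, 0 < ε ∧ ∀ δ : ℝ, |δ| ≤ ε → x + δ • v ∈ cone A B := by
  have hc : ∀ H : Submodule ℝ V, Continuous fun δ : ℝ => fn H (x + δ • v) := by
    intro H
    simp only [map_add, map_smul, smul_eq_mul]
    fun_prop
  have hz : ∀ H : Submodule ℝ V, fn H (x + (0 : ℝ) • v) = fn H x := by
    intro H
    rw [zero_smul, add_zero]
  have h1 : ∀ᶠ δ : ℝ in nhds 0, ∀ H ∈ B, 0 < fn H (x + δ • v) := by
    rw [Filter.eventually_all_finset]
    intro H hH
    refine (hc H).continuousAt.eventually (lt_mem_nhds ?_)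
    exact (hx.1 H hH).trans_eq (hz H).symm
  have h2 : ∀ᶠ δ : ℝ in nhds 0, ∀ H ∈ A \ B, fn H (x + δ • v) < 0 := by
    rw [Filter.eventually_all_finset]
    intro H hH
    refine (hc H).continuousAt.eventually (gt_mem_nhds ?_)
    exact (hz H).trans_lt (hx.2 H hH)
  obtain ⟨ε, hε, h3⟩ := (Metric.nhds_basis_closedBall.eventually_iff).1 (h1.and h2)
  refine ⟨ε, hε, fun δ hδ => ?_⟩
  have h4 := h3 (x := δ) (by rw [Metric.mem_closedBall, Real.dist_eq, sub_zero]; exact hδ)
  exact ⟨h4.1, h4.2⟩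

theorem regs_insert {A : Finset (Submodule ℝ V)} {W H₀ : Submodule ℝ V}
    (hA : Hyp (insert H₀ A)) (h0 : H₀ ∉ A) (hW : ¬ W ≤ H₀) :
    (regs W (insert H₀ A)).card = (regs W A).card + (regs (W ⊓ H₀) A).card := by
  have hker : LinearMap.ker (fn H₀) = H₀ := hA H₀ (Finset.mem_insert_self _ _)
  obtain ⟨v, hvW, hvH⟩ := SetLike.not_le_iff_exists.1 hW
  have hv : fn H₀ v ≠ 0 := by
    intro h
    apply hvH
    rw [← hker, LinearMap.mem_ker]
    exact h
  have hreg : ∀ (W : Submodule ℝ V) (A B : Finset (Submodule ℝ V)),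
      B ∈ regs W A ↔ B ⊆ A ∧ ∃ x ∈ W, x ∈ cone A B := by
    intro W A B
    unfold regs
    rw [Finset.mem_filter, Finset.mem_powerset]
  set X := (regs W A).filter fun B => ∃ x ∈ W, x ∈ cone A B ∧ fn H₀ x < 0 with hX
  set Y := (regs W A).filter fun B => ∃ x ∈ W, x ∈ cone A B ∧ 0 < fn H₀ x with hY
  have hsplit : regs W (insert H₀ A) = X ∪ Y.image (insert H₀) := by
    ext B'
    rw [hreg, Finset.mem_union, Finset.mem_image]
    constructor
    · rintro ⟨hB, x, hxW, hx⟩
      by_cases h1 : H₀ ∈ B'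
      · right
        have h2 : x ∈ cone A (B'.erase H₀) := by
          refine ⟨fun H hH => hx.1 H (Finset.mem_of_mem_erase hH), fun H hH => ?_⟩
          rw [Finset.mem_sdiff] at hH
          refine hx.2 H (Finset.mem_sdiff.2 ⟨Finset.mem_insert_of_mem hH.1, fun h3 => ?_⟩)
          refine hH.2 (Finset.mem_erase.2 ⟨?_, h3⟩)
          rintro rfl
          exact h0 hH.1
        refine ⟨B'.erase H₀, ?_, Finset.insert_erase h1⟩
        rw [hY, Finset.mem_filter, hreg]
        refine ⟨⟨fun H hH => ?_, x, hxW, h2⟩, x, hxW, h2, hx.1 H₀ h1⟩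
        rcases Finset.mem_insert.1 (hB (Finset.mem_of_mem_erase hH)) with h3 | h3
        · exact absurd h3 (Finset.ne_of_mem_erase hH)
        · exact h3
      · left
        have h2 : x ∈ cone A B' := by
          refine ⟨hx.1, fun H hH => ?_⟩
          rw [Finset.mem_sdiff] at hH
          exact hx.2 H (Finset.mem_sdiff.2 ⟨Finset.mem_insert_of_mem hH.1, hH.2⟩)
        rw [hX, Finset.mem_filter, hreg]
        refine ⟨⟨fun H hH => ?_, x, hxW, h2⟩, x, hxW, h2,
          hx.2 H₀ (Finset.mem_sdiff.2 ⟨Finset.mem_insert_self _ _, h1⟩)⟩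
        rcases Finset.mem_insert.1 (hB hH) with h3 | h3
        · exact absurd (h3 ▸ hH) h1
        · exact h3
    · rintro (h | ⟨B, hB, rfl⟩)
      · rw [hX, Finset.mem_filter, hreg] at h
        obtain ⟨⟨hB, -⟩, x, hxW, hx, hneg⟩ := h
        refine ⟨hB.trans (Finset.subset_insert _ _), x, hxW, hx.1, fun H hH => ?_⟩
        rw [Finset.mem_sdiff, Finset.mem_insert] at hH
        rcases hH.1 with rfl | h1
        · exact hneg
        · exact hx.2 H (Finset.mem_sdiff.2 ⟨h1, hH.2⟩)
      · rw [hY, Finset.mem_filter, hreg] at hB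
        obtain ⟨⟨hB, -⟩, x, hxW, hx, hpos⟩ := hB
        refine ⟨Finset.insert_subset_insert _ hB, x, hxW, fun H hH => ?_, fun H hH => ?_⟩
        · rcases Finset.mem_insert.1 hH with rfl | h1
          · exact hpos
          · exact hx.1 H h1
        · rw [Finset.mem_sdiff, Finset.mem_insert, Finset.mem_insert, not_or] at hH
          rcases hH.1 with h1 | h1
          · exact absurd h1 hH.2.1
          · exact hx.2 H (Finset.mem_sdiff.2 ⟨h1, hH.2.2⟩)
  have hYA : ∀ B ∈ Y, H₀ ∉ B := by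
    intro B hB h1
    rw [hY, Finset.mem_filter, hreg] at hB
    exact h0 (hB.1.1 h1)
  have hdisj : Disjoint X (Y.image (insert H₀)) := by
    rw [Finset.disjoint_left]
    intro B hB hB2
    obtain ⟨B0, -, rfl⟩ := Finset.mem_image.1 hB2
    rw [hX, Finset.mem_filter, hreg] at hB
    exact h0 (hB.1.1 (Finset.mem_insert_self _ _))
  have hcardY : (Y.image (insert H₀)).card = Y.card := by
    refine Finset.card_image_of_injOn ?_
    intro B hB B' hB' h1
    have h2 : (insert H₀ B).erase H₀ = (insert H₀ B').erase H₀ :=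
      congrArg (fun S => Finset.erase S H₀) h1
    rwa [Finset.erase_insert (hYA B hB), Finset.erase_insert (hYA B' hB')] at h2
  have hfδ : ∀ (x : V) (δ : ℝ), fn H₀ x = 0 → fn H₀ (x + δ • v) = δ * fn H₀ v := by
    intro x δ hx
    rw [map_add, hx, zero_add, map_smul, smul_eq_mul]
  have hpert : ∀ B : Finset (Submodule ℝ V), ∀ x ∈ W, x ∈ cone A B → fn H₀ x = 0 →
      (∃ y ∈ W, y ∈ cone A B ∧ fn H₀ y < 0) ∧ ∃ y ∈ W, y ∈ cone A B ∧ 0 < fn H₀ y := by
    intro B x hxW hx hf
    obtain ⟨ε, hε, h1⟩ := exists_perturb A B x v hx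
    have hW2 : ∀ δ : ℝ, x + δ • v ∈ W := fun δ => W.add_mem hxW (W.smul_mem δ hvW)
    have hp := h1 ε (abs_of_pos hε).le
    have hm := h1 (-ε) (by rw [abs_neg]; exact (abs_of_pos hε).le)
    rcases lt_or_gt_of_ne hv with h2 | h2
    · refine ⟨⟨_, hW2 ε, hp, ?_⟩, ⟨_, hW2 (-ε), hm, ?_⟩⟩
      · rw [hfδ _ _ hf]
        exact mul_neg_of_pos_of_neg hε h2
      · rw [hfδ _ _ hf]
        exact mul_pos_of_neg_of_neg (neg_neg_of_pos hε) h2
    · refine ⟨⟨_, hW2 (-ε), hm, ?_⟩, ⟨_, hW2 ε, hp, ?_⟩⟩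
      · rw [hfδ _ _ hf]
        exact mul_neg_of_neg_of_pos (neg_neg_of_pos hε) h2
      · rw [hfδ _ _ hf]
        exact mul_pos hε h2
  have hunion : X ∪ Y = regs W A := by
    ext B
    rw [Finset.mem_union, hX, hY, Finset.mem_filter, Finset.mem_filter]
    constructor
    · rintro (h | h)
      · exact h.1
      · exact h.1
    · intro h
      obtain ⟨-, x, hxW, hx⟩ := (hreg _ _ _).1 h
      rcases lt_trichotomy (fn H₀ x) 0 with h1 | h1 | h1
      · exact Or.inl ⟨h, x, hxW, hx, h1⟩
      · exact Or.inl ⟨h, (hpert B x hxW hx h1).1⟩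
      · exact Or.inr ⟨h, x, hxW, hx, h1⟩
  have hinter : X ∩ Y = regs (W ⊓ H₀) A := by
    ext B
    rw [Finset.mem_inter, hX, hY, Finset.mem_filter, Finset.mem_filter]
    constructor
    · rintro ⟨⟨h, x, hxW, hx, hxn⟩, -, y, hyW, hy, hyp⟩
      refine (hreg _ _ _).2 ⟨((hreg _ _ _).1 h).1, fn H₀ y • x + (-fn H₀ x) • y, ?_, ?_, ?_⟩
      · refine ⟨W.add_mem (W.smul_mem _ hxW) (W.smul_mem _ hyW), ?_⟩
        change _ ∈ H₀
        rw [← hker, LinearMap.mem_ker, map_add, map_smul, map_smul, smul_eq_mul, smul_eq_mul]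
        rw [hker]
        ring
      · intro H hH
        rw [map_add, map_smul, map_smul, smul_eq_mul, smul_eq_mul]
        have h1 := hx.1 H hH
        have h2 := hy.1 H hH
        have h3 : 0 < -fn H₀ x := neg_pos.2 hxn
        positivity
      · intro H hH
        rw [map_add, map_smul, map_smul, smul_eq_mul, smul_eq_mul]
        have h1 := mul_neg_of_pos_of_neg hyp (hx.2 H hH)
        have h2 := mul_neg_of_pos_of_neg (neg_pos.2 hxn) (hy.2 H hH)
        linarith
    · intro h
      obtain ⟨hB, x, hxW, hx⟩ := (hreg _ _ _).1 h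
      have hf : fn H₀ x = 0 := by
        rw [← LinearMap.mem_ker, hker]
        exact hxW.2
      obtain ⟨h1, h2⟩ := hpert B x hxW.1 hx hf
      have h3 : B ∈ regs W A := (hreg _ _ _).2 ⟨hB, x, hxW.1, hx⟩
      exact ⟨⟨h3, h1⟩, h3, h2⟩
  rw [hsplit, Finset.card_union_of_disjoint hdisj, hcardY, ← hunion, ← hinter,
    Finset.card_union_add_card_inter]

end Pool.Agent.Simpl
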