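import Pool.Agent.Simpl.Regs

set_option autoImplicit false

/-! Package R2: the number of sign vectors in a plane and in the space (use `regs_insert`).

PROOF. `regs_two` (`W` a plane, no `H ∈ A` contains `W`): induction on `A` (`Finset.induction_on`,
statement for non-empty sets; or `regs W A = if A = ∅ then 1 else 2 * ..`). Insert `H₀`:
`regs_insert` gives `|regs (W ⊓ H₀) A|` new ones, where `l = W ⊓ H₀` is a line (dimension
`2 - 1`, since `H₀` is a hyperplane not containing `W`). If some `H ∈ A` has `H ⊓ W = l` then every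
`x ∈ l` has `fn H x = 0`, so `regs l A = ∅`, and the number of the `H ⊓ W` does not change. Otherwise
no `H ∈ A` contains `l`, `l = ℝ v`, and the only sign vectors realised in `l` are those of `v` and
`-v` (`0` is not allowed if `A ≠ ∅`); they are different if `A ≠ ∅`, and for `A = ∅` there is one.
`regs_top`: induction on `A`; `A = {H}`: two sign vectors, no vertex. Insert `H₀` into non-empty `A`
(all of dimension 2 in dimension 3): `regs_insert` with `W = ⊤` and `regs_two` with `W = H₀` (`A` has no
plane containing `H₀`, as `H₀ ∉ A` and the dimensions agree): `2 p` new ones, `p` the number of the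
points `H ⊓ H₀`, `H ∈ A`. On the side of the sum: `verts (insert H₀ A) = verts A ∪ {H ⊓ H₀ | H ∈ A}`;
`mult (insert H₀ A) P = mult A P + (1 if P ≤ H₀)`; a vertex `P` of `A` with `P ≤ H₀` is of the form
`H ⊓ H₀` (dimension one) and its summand grows by one, and a point `H ⊓ H₀` which is not a vertex of
`A` has `mult A = 1`, so it contributes `2 - 1 = 1`. So the sum grows by `p`.
`pts_eq`: the points `H' ⊓ H`, `H' ∈ A \ {H}`, are the vertices on `H`. -/

namespace Pool.Agent.Simpl

open Module Classical

variable {V : Type} [AddCommGroup V] [Module ℝ V] [FiniteDimensional ℝ V]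

omit [FiniteDimensional ℝ V] in
private theorem rt_empty (W : Submodule ℝ V) : (regs W ∅).card = 1 := by
  have h : regs W (∅ : Finset (Submodule ℝ V)) = {∅} := by
    unfold regs
    rw [Finset.powerset_empty, Finset.filter_eq_self]
    intro B hB
    rw [Finset.mem_singleton] at hB
    subst hB
    exact ⟨0, W.zero_mem, by simp, by simp⟩
  rw [h, Finset.card_singleton]

omit [FiniteDimensional ℝ V] in
/-- No sign vector in a subspace of a plane of the arrangement. -/
private theorem rt_zero {A : Finset (Submodule ℝ V)} {l H : Submodule ℝ V} (hA : Hyp A)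
    (hH : H ∈ A) (hl : l ≤ H) : (regs l A).card = 0 := by
  rw [Finset.card_eq_zero, regs, Finset.filter_eq_empty_iff]
  rintro B - ⟨x, hx, h1, h2⟩
  have h0 : fn H x = 0 := by
    have : x ∈ LinearMap.ker (fn H) := by
      rw [hA H hH]
      exact hl hx
    exact this
  by_cases hB : H ∈ B
  · have := h1 H hB
    rw [h0] at this
    exact lt_irrefl _ this
  · have := h2 H (Finset.mem_sdiff.2 ⟨hH, hB⟩)
    rw [h0] at this
    exact lt_irrefl _ this

omit [FiniteDimensional ℝ V] in
/-- Two sign vectors in a line. -/
private theorem rt_line {A : Finset (Submodule ℝ V)} {l : Submodule ℝ V} (hA : Hyp A)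
    (hne : A.Nonempty) (hl : finrank ℝ l = 1) (hAl : ∀ H ∈ A, ¬ l ≤ H) :
    (regs l A).card = 2 := by
  obtain ⟨⟨v, hv⟩, hv0, hspan⟩ := finrank_eq_one_iff'.1 hl
  have hsp : ∀ x ∈ l, ∃ c : ℝ, x = c • v := by
    intro x hx
    obtain ⟨c, hc⟩ := hspan ⟨x, hx⟩
    exact ⟨c, (congrArg Subtype.val hc).symm⟩
  have hfn : ∀ H ∈ A, fn H v ≠ 0 := by
    intro H hH h0
    apply hAl H hH
    intro x hx
    obtain ⟨c, rfl⟩ := hsp x hx
    rw [← hA H hH, LinearMap.mem_ker, map_smul, h0, smul_zero]
  have h1 : regs l A = {A.filter (fun H => 0 < fn H v), A.filter (fun H => fn H v < 0)} := by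
    ext B
    rw [regs, Finset.mem_filter, Finset.mem_powerset, Finset.mem_insert, Finset.mem_singleton]
    constructor
    · rintro ⟨hB, x, hx, hp, hn⟩
      obtain ⟨c, rfl⟩ := hsp x hx
      rcases lt_trichotomy c 0 with hc | hc | hc
      · right
        ext H
        rw [Finset.mem_filter]
        constructor
        · intro hH
          have := hp H hH
          rw [map_smul, smul_eq_mul] at this
          exact ⟨hB hH, neg_of_mul_pos_right this hc.le⟩
        · rintro ⟨hH, h2⟩
          by_contra hHB
          have := hn H (Finset.mem_sdiff.2 ⟨hH, hHB⟩)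
          rw [map_smul, smul_eq_mul] at this
          have h3 := mul_pos_of_neg_of_neg hc h2
          linarith
      · exfalso
        obtain ⟨H, hH⟩ := hne
        subst hc
        by_cases hHB : H ∈ B
        · have := hp H hHB
          simp at this
        · have := hn H (Finset.mem_sdiff.2 ⟨hH, hHB⟩)
          simp at this
      · left
        ext H
        rw [Finset.mem_filter]
        constructor
        · intro hH
          have := hp H hH
          rw [map_smul, smul_eq_mul] at this
          exact ⟨hB hH, (mul_pos_iff_of_pos_left hc).1 this⟩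
        · rintro ⟨hH, h2⟩
          by_contra hHB
          have := hn H (Finset.mem_sdiff.2 ⟨hH, hHB⟩)
          rw [map_smul, smul_eq_mul] at this
          have h3 := mul_pos hc h2
          linarith
    · rintro (rfl | rfl)
      · refine ⟨Finset.filter_subset _ _, v, hv, ?_, ?_⟩
        · intro H hH
          exact (Finset.mem_filter.1 hH).2
        · intro H hH
          rw [Finset.mem_sdiff, Finset.mem_filter] at hH
          rcases lt_or_gt_of_ne (hfn H hH.1) with h2 | h2
          · exact h2
          · exact absurd ⟨hH.1, h2⟩ hH.2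
      · refine ⟨Finset.filter_subset _ _, -v, l.neg_mem hv, ?_, ?_⟩
        · intro H hH
          rw [map_neg]
          linarith [(Finset.mem_filter.1 hH).2]
        · intro H hH
          rw [Finset.mem_sdiff, Finset.mem_filter] at hH
          rw [map_neg]
          rcases lt_or_gt_of_ne (hfn H hH.1) with h2 | h2
          · exact absurd ⟨hH.1, h2⟩ hH.2
          · linarith
  rw [h1, Finset.card_pair]
  intro h2
  obtain ⟨H, hH⟩ := hne
  rcases lt_or_gt_of_ne (hfn H hH) with h3 | h3
  · have h4 : H ∈ A.filter (fun H => fn H v < 0) := Finset.mem_filter.2 ⟨hH, h3⟩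
    rw [← h2] at h4
    linarith [(Finset.mem_filter.1 h4).2]
  · have h4 : H ∈ A.filter (fun H => 0 < fn H v) := Finset.mem_filter.2 ⟨hH, h3⟩
    rw [h2] at h4
    linarith [(Finset.mem_filter.1 h4).2]

/-- A hyperplane section of a plane. -/
private theorem rt_inf {W H : Submodule ℝ V} (hH : LinearMap.ker (fn H) = H)
    (hW : finrank ℝ W = 2) (hWH : ¬ W ≤ H) : finrank ℝ (W ⊓ H : Submodule ℝ V) = 1 := by
  have h1 : finrank ℝ (W ⊓ H : Submodule ℝ V) < finrank ℝ W :=
    Submodule.finrank_lt_finrank_of_lt (lt_of_le_of_ne inf_le_left fun h => hWH (by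
      rw [← h]
      exact inf_le_right))
  have h2 := LinearMap.finrank_range_add_finrank_ker ((fn H).domRestrict W)
  have h3 : finrank ℝ (LinearMap.range ((fn H).domRestrict W)) ≤ 1 := by
    have := Submodule.finrank_le (LinearMap.range ((fn H).domRestrict W))
    rwa [finrank_self] at this
  have h4 : finrank ℝ (LinearMap.ker ((fn H).domRestrict W)) =
      finrank ℝ (W ⊓ H : Submodule ℝ V) := by
    rw [LinearMap.ker_domRestrict, ← Submodule.finrank_map_subtype_eq, hH,
      Submodule.map_comap_subtype]
  omega

theorem regs_two (A : Finset (Submodule ℝ V)) (W : Submodule ℝ V) (hA : Hyp A)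
    (hW : finrank ℝ W = 2) (hAW : ∀ H ∈ A, ¬ W ≤ H) (hne : A.Nonempty) :
    (regs W A).card = 2 * (A.image fun H => H ⊓ W).card := by
  induction A using Finset.induction_on with
  | empty => exact absurd hne Finset.not_nonempty_empty
  | insert H0 A h0 ih =>
    have hA' : Hyp A := fun H hH => hA H (Finset.mem_insert_of_mem hH)
    have hAW' : ∀ H ∈ A, ¬ W ≤ H := fun H hH => hAW H (Finset.mem_insert_of_mem hH)
    have hW0 := hAW H0 (Finset.mem_insert_self _ _)
    have hH0 := hA H0 (Finset.mem_insert_self _ _)
    rw [regs_insert hA h0 hW0, Finset.image_insert]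
    rcases A.eq_empty_or_nonempty with rfl | hne'
    · rw [rt_empty, rt_empty]
      simp
    · rw [ih hA' hAW' hne']
      have hl := rt_inf hH0 hW hW0
      by_cases hex : ∃ H ∈ A, H ⊓ W = H0 ⊓ W
      · obtain ⟨H, hH, he⟩ := hex
        have h1 : W ⊓ H0 ≤ H := by
          rw [inf_comm, ← he]
          exact inf_le_left
        rw [rt_zero hA' hH h1, add_zero, Finset.insert_eq_of_mem]
        exact Finset.mem_image.2 ⟨H, hH, he⟩
      · have h1 : ∀ H ∈ A, ¬ W ⊓ H0 ≤ H := by
          intro H hH hle
          apply hex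
          refine ⟨H, hH, ?_⟩
          have h2 : W ⊓ H0 ≤ W ⊓ H := le_inf inf_le_left hle
          have h3 := rt_inf (hA' H hH) hW (hAW' H hH)
          have h4 := Submodule.eq_of_le_of_finrank_eq h2 (by rw [hl, h3])
          rw [inf_comm H W, inf_comm H0 W]
          exact h4.symm
        rw [rt_line hA' hne' hl h1, Finset.card_insert_of_notMem]
        · ring
        · intro hmem
          obtain ⟨H, hH, he⟩ := Finset.mem_image.1 hmem
          exact hex ⟨H, hH, he⟩

/-- The intersection of two different planes is a point. -/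
theorem finrank_inf (hV : finrank ℝ V = 3) {H H' : Submodule ℝ V} (h : finrank ℝ H = 2)
    (h' : finrank ℝ H' = 2) (hne : H ≠ H') : finrank ℝ (H ⊓ H' : Submodule ℝ V) = 1 := by
  have h1 := Submodule.finrank_sup_add_finrank_inf_eq H H'
  have h2 : finrank ℝ (H ⊔ H' : Submodule ℝ V) ≤ 3 := by
    rw [← hV]
    exact Submodule.finrank_le _
  have h3 : H < H ⊔ H' := by
    refine lt_of_le_of_ne le_sup_left fun he => hne ?_
    have h4 : H' ≤ H := by
      rw [he]
      exact le_sup_right
    exact (Submodule.eq_of_le_of_finrank_eq h4 (by rw [h, h'])).symm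
  have h4 := Submodule.finrank_lt_finrank_of_lt h3
  omega

/-- A vertex is the intersection of any two planes through it. -/
private theorem rt_eq (hV : finrank ℝ V = 3) {H H' P : Submodule ℝ V} (h : finrank ℝ H = 2)
    (h' : finrank ℝ H' = 2) (hne : H ≠ H') (hP : finrank ℝ P = 1) (h1 : P ≤ H) (h2 : P ≤ H') :
    P = H ⊓ H' :=
  Submodule.eq_of_le_of_finrank_eq (le_inf h1 h2) (by rw [hP, finrank_inf hV h h' hne])

omit [FiniteDimensional ℝ V] in
private theorem rt_mem_verts {A : Finset (Submodule ℝ V)} {P : Submodule ℝ V} :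
    P ∈ verts A ↔ ∃ H ∈ A, ∃ H' ∈ A, H ≠ H' ∧ H ⊓ H' = P := by
  unfold verts
  rw [Finset.mem_image]
  constructor
  · rintro ⟨⟨H, H'⟩, hp, rfl⟩
    rw [Finset.mem_offDiag] at hp
    exact ⟨H, hp.1, H', hp.2.1, hp.2.2, rfl⟩
  · rintro ⟨H, hH, H', hH', hne, rfl⟩
    exact ⟨(H, H'), Finset.mem_offDiag.2 ⟨hH, hH', hne⟩, rfl⟩

/-- The vertices on a plane of the arrangement. -/
theorem pts_eq (hV : finrank ℝ V = 3) (A : Finset (Submodule ℝ V))
    (hA : ∀ H ∈ A, finrank ℝ H = 2) {H : Submodule ℝ V} (hH : H ∈ A) :
    ((A.erase H).image fun H' => H' ⊓ H) = (verts A).filter (· ≤ H) := by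
  ext P
  rw [Finset.mem_image, Finset.mem_filter, rt_mem_verts]
  constructor
  · rintro ⟨H', hH', rfl⟩
    rw [Finset.mem_erase] at hH'
    exact ⟨⟨H', hH'.2, H, hH, hH'.1, rfl⟩, inf_le_right⟩
  · rintro ⟨⟨H1, h1, H2, h2, hne, rfl⟩, hle⟩
    have hP := finrank_inf hV (hA H1 h1) (hA H2 h2) hne
    by_cases h3 : H1 = H
    · subst h3
      exact ⟨H2, Finset.mem_erase.2 ⟨hne.symm, h2⟩, inf_comm _ _⟩
    · exact ⟨H1, Finset.mem_erase.2 ⟨h3, h1⟩,
        (rt_eq hV (hA H1 h1) (hA H hH) h3 hP inf_le_left hle).symm⟩

theorem regs_top (hV : finrank ℝ V = 3) (A : Finset (Submodule ℝ V))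
    (hA : ∀ H ∈ A, finrank ℝ H = 2) (hne : A.Nonempty) :
    ((regs ⊤ A).card : ℤ) = 2 + 2 * ∑ P ∈ verts A, ((mult A P : ℤ) - 1) := by
  induction A using Finset.induction_on with
  | empty => exact absurd hne Finset.not_nonempty_empty
  | insert H0 A h0 ih =>
    have hA' : ∀ H ∈ A, finrank ℝ H = 2 := fun H hH => hA H (Finset.mem_insert_of_mem hH)
    have hH0 := hA H0 (Finset.mem_insert_self _ _)
    have hyp : Hyp (insert H0 A) := fun H hH => ker_fn (by rw [hA H hH, hV])
    have hyp' : Hyp A := fun H hH => hyp H (Finset.mem_insert_of_mem hH)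
    have htop : ¬ (⊤ : Submodule ℝ V) ≤ H0 := by
      intro h
      have h1 := top_le_iff.1 h
      rw [h1, finrank_top, hV] at hH0
      omega
    rw [regs_insert hyp h0 htop, top_inf_eq]
    rcases A.eq_empty_or_nonempty with rfl | hne'
    · rw [rt_empty, rt_empty]
      have h1 : verts (insert H0 (∅ : Finset (Submodule ℝ V))) = ∅ := by
        unfold verts
        simp
      rw [h1]
      simp
    · have hAW : ∀ H ∈ A, ¬ H0 ≤ H := by
        intro H hH hle
        apply h0
        rw [Submodule.eq_of_le_of_finrank_eq hle (by rw [hH0, hA' H hH])]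
        exact hH
      rw [regs_two A H0 hyp' hH0 hAW hne']
      push_cast
      rw [ih hA' hne']
      obtain ⟨S, hS⟩ : ∃ S, S = A.image fun H => H ⊓ H0 := ⟨_, rfl⟩
      rw [← hS]
      have hne0 : ∀ H ∈ A, H ≠ H0 := fun H hH he => h0 (he ▸ hH)
      have hSdim : ∀ P ∈ S, finrank ℝ P = 1 := by
        intro P hP
        rw [hS, Finset.mem_image] at hP
        obtain ⟨H, hH, rfl⟩ := hP
        exact finrank_inf hV (hA' H hH) hH0 (hne0 H hH)
      have hv : verts (insert H0 A) = verts A ∪ S := by
        ext P
        rw [Finset.mem_union, rt_mem_verts, rt_mem_verts, hS, Finset.mem_image]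
        constructor
        · rintro ⟨H, hH, H', hH', hne1, rfl⟩
          rcases Finset.mem_insert.1 hH with hH1 | hH1
          · rcases Finset.mem_insert.1 hH' with hH2 | hH2
            · exact absurd (hH1.trans hH2.symm) hne1
            · exact Or.inr ⟨H', hH2, by rw [hH1]; exact inf_comm _ _⟩
          · rcases Finset.mem_insert.1 hH' with hH2 | hH2
            · exact Or.inr ⟨H, hH1, by rw [hH2]⟩
            · exact Or.inl ⟨H, hH1, H', hH2, hne1, rfl⟩
        · rintro (⟨H, hH, H', hH', hne1, rfl⟩ | ⟨H, hH, rfl⟩)
          · exact ⟨H, Finset.mem_insert_of_mem hH, H', Finset.mem_insert_of_mem hH', hne1, rfl⟩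
          · exact ⟨H, Finset.mem_insert_of_mem hH, H0, Finset.mem_insert_self _ _, hne0 H hH, rfl⟩
      have hm : ∀ P, (mult (insert H0 A) P : ℤ) = mult A P + if P ≤ H0 then 1 else 0 := by
        intro P
        unfold mult
        rw [Finset.filter_insert]
        split_ifs with hP
        · rw [Finset.card_insert_of_notMem fun h => h0 (Finset.mem_filter.1 h).1]
          push_cast
          rfl
        · simp
      have hfil : (verts A ∪ S).filter (· ≤ H0) = S := by
        ext P
        rw [Finset.mem_filter, Finset.mem_union]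
        constructor
        · rintro ⟨hP | hP, hle⟩
          · rw [rt_mem_verts] at hP
            obtain ⟨H, hH, H', hH', hne1, rfl⟩ := hP
            rw [hS, Finset.mem_image]
            exact ⟨H, hH, (rt_eq hV (hA' H hH) hH0 (hne0 H hH)
              (finrank_inf hV (hA' H hH) (hA' H' hH') hne1) inf_le_left hle).symm⟩
          · exact hP
        · intro hP
          refine ⟨Or.inr hP, ?_⟩
          rw [hS, Finset.mem_image] at hP
          obtain ⟨H, hH, rfl⟩ := hP
          exact inf_le_right
      have hone : ∀ P ∈ S \ verts A, (mult A P : ℤ) - 1 = 0 := by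
        intro P hP
        rw [Finset.mem_sdiff] at hP
        have hPd := hSdim P hP.1
        have hP1 := hP.1
        rw [hS, Finset.mem_image] at hP1
        obtain ⟨H, hH, he⟩ := hP1
        have h2 : A.filter (P ≤ ·) = {H} := by
          ext H'
          rw [Finset.mem_filter, Finset.mem_singleton]
          constructor
          · rintro ⟨hH', hle⟩
            by_contra hcon
            apply hP.2
            rw [rt_mem_verts]
            refine ⟨H, hH, H', hH', fun h => hcon h.symm, ?_⟩
            refine (rt_eq hV (hA' H hH) (hA' H' hH') (fun h => hcon h.symm) hPd ?_ hle).symm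
            rw [← he]
            exact inf_le_left
          · rintro rfl
            refine ⟨hH, ?_⟩
            rw [← he]
            exact inf_le_left
        unfold mult
        rw [h2, Finset.card_singleton]
        simp
      have hsum : ∑ P ∈ verts (insert H0 A), ((mult (insert H0 A) P : ℤ) - 1) =
          ∑ P ∈ verts A, ((mult A P : ℤ) - 1) + S.card := by
        have e1 : ∑ P ∈ verts (insert H0 A), ((mult (insert H0 A) P : ℤ) - 1) =
            ∑ P ∈ verts A ∪ S, (((mult A P : ℤ) - 1) + if P ≤ H0 then 1 else 0) := by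
          rw [hv]
          refine Finset.sum_congr rfl fun P _ => ?_
          rw [hm]
          ring
        rw [e1, Finset.sum_add_distrib, Finset.sum_ite, Finset.sum_const_zero, add_zero, hfil,
          Finset.sum_const, ← Finset.union_sdiff_self_eq_union,
          Finset.sum_union Finset.disjoint_sdiff, Finset.sum_eq_zero hone, add_zero]
        simp
      rw [hsum]
      ring

end Pool.Agent.Simpl
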