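import Pool.Agent.Simpl.RegsTwo

set_option autoImplicit false

/-! Package R3: the number of walls.

PROOF. Exchange the sums: `∑_B |walls A B| = ∑_{H ∈ A} #{B ∈ regs ⊤ A | B \ H ∈ regs H (A \ H)}`
(`Finset.card_filter`, `Finset.sum_comm`). For fixed `H` this set is the disjoint union of
`regs H (A.erase H)` (as sets not containing `H`) and its image under `insert H`: if
`x ∈ H` realises `C` on `A.erase H` then, for `v` with `fn H v > 0` (`H = ker (fn H) ≠ ⊤`) and small
`ε`, `x + ε v` realises `insert H C` and `x - ε v` realises `C` on `A` (`exists_perturb` for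
`A.erase H`). So the number is `2 |regs H (A.erase H)| = 4 |{H' ⊓ H | H' ∈ A.erase H}|`
(`regs_two`; no `H' ≠ H` contains `H`, equal dimensions; `A.erase H` is non-empty) which is
`4 |{P ∈ verts A | P ≤ H}|` by `pts_eq`. Exchange the sums again:
`∑_{H ∈ A} |{P ∈ verts A | P ≤ H}| = ∑_{P ∈ verts A} mult A P`. -/

namespace Pool.Agent.Simpl

open Module Classical

variable {V : Type} [AddCommGroup V] [Module ℝ V] [FiniteDimensional ℝ V]

omit [FiniteDimensional ℝ V] in
/-- The regions with the wall `H`: two for each region of the restriction. -/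
private theorem card_side (A : Finset (Submodule ℝ V)) {H : Submodule ℝ V} (hH : H ∈ A)
    (hk : LinearMap.ker (fn H) = H) (ht : H ≠ ⊤) :
    ((regs ⊤ A).filter fun B => B.erase H ∈ regs H (A.erase H)).card =
      2 * (regs H (A.erase H)).card := by
  set R := regs H (A.erase H) with hR
  -- the direction
  obtain ⟨v, hv⟩ : ∃ v : V, 0 < fn H v := by
    obtain ⟨v, hv⟩ : ∃ v : V, v ∉ H := by
      by_contra h
      push Not at h
      exact ht (eq_top_iff.2 fun x _ => h x)
    have h1 : fn H v ≠ 0 := fun h0 => hv (by rw [← hk]; exact h0)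
    rcases lt_or_gt_of_ne h1 with h2 | h2
    · exact ⟨-v, by rw [map_neg]; linarith⟩
    · exact ⟨v, h2⟩
  have hRm : ∀ C ∈ R, C ⊆ A.erase H ∧ ∃ x ∈ H, x ∈ cone (A.erase H) C := by
    intro C hC
    rw [hR, regs, Finset.mem_filter, Finset.mem_powerset] at hC
    exact hC
  have hnot : ∀ C ∈ R, H ∉ C := fun C hC h => Finset.notMem_erase H A ((hRm C hC).1 h)
  have hmem : ∀ C ∈ R, C ∈ regs ⊤ A ∧ insert H C ∈ regs ⊤ A := by
    intro C hC
    obtain ⟨h1, x, hx, hxc⟩ := hRm C hC
    obtain ⟨ε, hε, h2⟩ := exists_perturb (A.erase H) C x v hxc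
    have hx0 : fn H x = 0 := by
      have : x ∈ LinearMap.ker (fn H) := by rw [hk]; exact hx
      exact this
    have h3 := h2 ε (abs_of_pos hε).le
    have h4 := h2 (-ε) (by rw [abs_neg, abs_of_pos hε])
    have h5 : 0 < ε * fn H v := mul_pos hε hv
    have h6 : fn H (x + ε • v) = ε * fn H v := by
      rw [map_add, map_smul, hx0, zero_add, smul_eq_mul]
    have h7 : fn H (x + (-ε) • v) = -(ε * fn H v) := by
      rw [map_add, map_smul, hx0, zero_add, smul_eq_mul, neg_mul]
    have hCA : C ⊆ A := h1.trans (Finset.erase_subset _ _)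
    constructor
    · rw [regs, Finset.mem_filter, Finset.mem_powerset]
      refine ⟨hCA, x + (-ε) • v, trivial, h4.1, fun H' hH' => ?_⟩
      rw [Finset.mem_sdiff] at hH'
      by_cases h8 : H' = H
      · rw [h8, h7]
        linarith
      · exact h4.2 H' (Finset.mem_sdiff.2 ⟨Finset.mem_erase.2 ⟨h8, hH'.1⟩, hH'.2⟩)
    · rw [regs, Finset.mem_filter, Finset.mem_powerset]
      refine ⟨Finset.insert_subset hH hCA, x + ε • v, trivial, fun H' hH' => ?_,
        fun H' hH' => ?_⟩
      · rcases Finset.mem_insert.1 hH' with h8 | h8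
        · rw [h8, h6]
          exact h5
        · exact h3.1 H' h8
      · rw [Finset.mem_sdiff, Finset.mem_insert, not_or] at hH'
        exact h3.2 H' (Finset.mem_sdiff.2 ⟨Finset.mem_erase.2 ⟨hH'.2.1, hH'.1⟩, hH'.2.2⟩)
  have hS : ((regs ⊤ A).filter fun B => B.erase H ∈ R) = R ∪ R.image (insert H) := by
    ext B
    rw [Finset.mem_filter, Finset.mem_union, Finset.mem_image]
    constructor
    · rintro ⟨-, h2⟩
      by_cases h3 : H ∈ B
      · exact Or.inr ⟨B.erase H, h2, Finset.insert_erase h3⟩
      · rw [Finset.erase_eq_of_notMem h3] at h2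
        exact Or.inl h2
    · rintro (h2 | ⟨C, h2, rfl⟩)
      · refine ⟨(hmem B h2).1, ?_⟩
        rw [Finset.erase_eq_of_notMem (hnot B h2)]
        exact h2
      · refine ⟨(hmem C h2).2, ?_⟩
        rw [Finset.erase_insert (hnot C h2)]
        exact h2
  have hdis : Disjoint R (R.image (insert H)) := by
    rw [Finset.disjoint_left]
    intro B hB hB'
    obtain ⟨C, -, rfl⟩ := Finset.mem_image.1 hB'
    exact hnot _ hB (Finset.mem_insert_self _ _)
  rw [hS, Finset.card_union_of_disjoint hdis, Finset.card_image_of_injOn]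
  · ring
  · intro C hC C' hC' h
    have h' : insert H C = insert H C' := h
    rw [← Finset.erase_insert (hnot C hC), h', Finset.erase_insert (hnot C' hC')]

theorem sum_walls (hV : finrank ℝ V = 3) (A : Finset (Submodule ℝ V))
    (hA : ∀ H ∈ A, finrank ℝ H = 2) (hcard : 2 ≤ A.card) :
    ∑ B ∈ regs ⊤ A, (walls A B).card = 4 * ∑ P ∈ verts A, mult A P := by
  have hk : ∀ H ∈ A, LinearMap.ker (fn H) = H := fun H hH => ker_fn (by rw [hA H hH, hV])
  have ht : ∀ H ∈ A, H ≠ ⊤ := by
    intro H hH h
    have := hA H hH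
    rw [h, finrank_top, hV] at this
    omega
  have h1 : ∑ B ∈ regs ⊤ A, (walls A B).card =
      ∑ H ∈ A, ((regs ⊤ A).filter fun B => B.erase H ∈ regs H (A.erase H)).card := by
    simp only [walls, Finset.card_filter]
    exact Finset.sum_comm
  have h2 : ∀ H ∈ A, ((regs ⊤ A).filter fun B => B.erase H ∈ regs H (A.erase H)).card =
      4 * ((verts A).filter (· ≤ H)).card := by
    intro H hH
    have hne : (A.erase H).Nonempty := by
      rw [← Finset.card_pos, Finset.card_erase_of_mem hH]
      omega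
    rw [card_side A hH (hk H hH) (ht H hH), regs_two (A.erase H) H
      (fun H' hH' => hk H' (Finset.mem_of_mem_erase hH')) (hA H hH) ?_ hne, pts_eq hV A hA hH]
    · ring
    · intro H' hH' hle
      exact (Finset.mem_erase.1 hH').1 (Submodule.eq_of_le_of_finrank_eq hle
        (by rw [hA H hH, hA H' (Finset.mem_of_mem_erase hH')])).symm
  rw [h1, Finset.sum_congr rfl h2, ← Finset.mul_sum]
  congr 1
  simp only [mult, Finset.card_filter]
  exact Finset.sum_comm

end Pool.Agent.Simpl
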